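import Pool.Agent.helper97.FG.N0

/-!
author: helper16
# N3 : the size of a commutator of two maps close to the identity

`p = u⁻¹ c⁻¹ x`, `[u,c] x = u c p`, `x = c u p`; `u c p - c u p = (φ_u (c p) - φ_u p) - (φ_c (u p) - φ_c p)` with
`φ_u = u - id`, `|φ_u'| = |exp (LD u) - 1| ≤ 2 K`; `LD [u,c] x = (LD u (c p) - LD u p) - (LD c (u p) - LD c p)`
(`LD_commutator`).
-/

set_option linter.unusedVariables false

open Set Filter Topology
open scoped commutatorElement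
open Pool.Agent.helper35.FOL

namespace FG

/-- the displacement `φ = g - id` is `2 S`-Lipschitz if `|LD g| ≤ S ≤ 1 / 2` -/
private theorem N3_lip {g : ℝ ≃o ℝ} (hg : g ∈ Dd) {S y z : ℝ} (hS1 : S ≤ 1 / 2)
    (h : ∀ w ∈ uIcc y z, |LD g w| ≤ S) : |(g y - y) - (g z - z)| ≤ 2 * S * |y - z| := by
  have hS0 : 0 ≤ S := le_trans (abs_nonneg _) (h y left_mem_uIcc)
  have hd : ∀ w, DifferentiableAt ℝ (fun x => g x - x) w := fun w =>
    (Dd_differentiable hg w).sub differentiableAt_id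
  have hder : ∀ w, deriv (fun x => g x - x) w = Real.exp (LD g w) - 1 := by
    intro w
    have h1 : HasDerivAt (fun x => g x - x) (deriv g w - 1) w :=
      (Dd_differentiable hg w).hasDerivAt.sub (hasDerivAt_id w)
    rw [h1.deriv, deriv_eq_exp hg]
  have h1 := Convex.norm_image_sub_le_of_norm_deriv_le (f := fun x => g x - x) (C := 2 * S)
    (s := uIcc z y) (x := z) (y := y) (fun w _ => hd w) (fun w hw => by
      rw [Real.norm_eq_abs, hder w]
      rw [uIcc_comm] at hw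
      have h2 := h w hw
      have h3 : |LD g w| ≤ 1 := by linarith
      have h4 := Real.abs_exp_sub_one_le h3
      linarith) (convex_uIcc z y) left_mem_uIcc right_mem_uIcc
  simpa only [Real.norm_eq_abs] using h1

private theorem N3_points {u c : ℝ ≃o ℝ} (x : ℝ) : c (u (u⁻¹ (c⁻¹ x))) = x := by
  have h1 : u (u⁻¹ (c⁻¹ x)) = c⁻¹ x := u.apply_symm_apply (c⁻¹ x)
  rw [h1]
  exact c.apply_symm_apply x

private theorem N3_comm_apply {u c : ℝ ≃o ℝ} (x : ℝ) : ⁅u, c⁆ x = u (c (u⁻¹ (c⁻¹ x))) := by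
  rw [commutatorElement_def]
  rfl

private theorem N3_id {u c : ℝ ≃o ℝ} (x : ℝ) : ⁅u, c⁆ x - x =
    ((u (c (u⁻¹ (c⁻¹ x))) - c (u⁻¹ (c⁻¹ x))) - (u (u⁻¹ (c⁻¹ x)) - u⁻¹ (c⁻¹ x))) -
      ((c (u (u⁻¹ (c⁻¹ x))) - u (u⁻¹ (c⁻¹ x))) - (c (u⁻¹ (c⁻¹ x)) - u⁻¹ (c⁻¹ x))) := by
  rw [N3_comm_apply]
  have h := N3_points (u := u) (c := c) x
  linarith

theorem comm_near {K L ε : ℝ} {u c : ℝ ≃o ℝ} (hu : u ∈ Dd) (hc : c ∈ Dd) (hK : K ≤ 1 / 2) (hL : 0 ≤ L)
    (hε : 0 ≤ ε) (h1 : Near K u) (h2 : Near K c) (h3 : AL L ε (LD u)) (h4 : AL L ε (LD c)) :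
    Near (4 * K ^ 2 + 2 * L * K + 2 * ε) ⁅u, c⁆ := by
  have hK0 : 0 ≤ K := le_trans (abs_nonneg _) (h1 0).1
  intro x
  set p := u⁻¹ (c⁻¹ x) with hp
  have hcp : |c p - p| ≤ K := (h2 p).1
  have hup : |u p - p| ≤ K := (h1 p).1
  constructor
  · have e1 := N3_lip hu (y := c p) (z := p) hK (fun w _ => (h1 w).2)
    have e2 := N3_lip hc (y := u p) (z := p) hK (fun w _ => (h2 w).2)
    have e3 := N3_id (u := u) (c := c) x
    rw [← hp] at e3
    rw [e3]
    have e4 : 2 * K * |c p - p| ≤ 2 * K * K := mul_le_mul_of_nonneg_left hcp (by linarith)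
    have e5 : 2 * K * |u p - p| ≤ 2 * K * K := mul_le_mul_of_nonneg_left hup (by linarith)
    refine le_trans (abs_sub _ _) ?_
    have e6 : 0 ≤ L * K := mul_nonneg hL hK0
    nlinarith
  · rw [LD_commutator hu hc, ← hp]
    have e1 := h3 (c p) p
    have e2 := h4 (u p) p
    have e4 : L * |c p - p| ≤ L * K := mul_le_mul_of_nonneg_left hcp hL
    have e5 : L * |u p - p| ≤ L * K := mul_le_mul_of_nonneg_left hup hL
    refine le_trans (abs_sub _ _) ?_
    have e6 : 0 ≤ K ^ 2 := sq_nonneg _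
    linarith

/-- the displacement estimate on an interval, only for maps with small `LD` there: `[u,c]` is much closer to the
identity than `u` and `c` -/
theorem comm_disp {K S s t x : ℝ} {u c : ℝ ≃o ℝ} (hu : u ∈ Dd) (hc : c ∈ Dd) (hK : 0 ≤ K) (hS : 0 ≤ S) (hS1 : S ≤ 1 / 2)
    (hs : s ≤ x - 3 * K) (ht : x + 3 * K ≤ t) (h1 : ∀ y ∈ Icc s t, |LD u y| ≤ S) (h2 : ∀ y ∈ Icc s t, |LD c y| ≤ S)
    (h3 : ∀ y ∈ Icc (x - 2 * K) (x + 2 * K), |u y - y| ≤ K ∧ |c y - y| ≤ K) :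
    |⁅u, c⁆ x - x| ≤ 4 * S * K ∧ |LD ⁅u, c⁆ x| ≤ 4 * S := by
  set q := c⁻¹ x with hq
  set p := u⁻¹ q with hp
  have hcq : c q = x := c.apply_symm_apply x
  have hupq : u p = q := u.apply_symm_apply q
  -- `q ∈ [x - K, x + K]`
  have hq1 : x - K ≤ q := by
    rw [← c.le_iff_le, hcq]
    have := (abs_le.1 (h3 (x - K) ⟨by linarith, by linarith⟩).2).2
    linarith
  have hq2 : q ≤ x + K := by
    rw [← c.le_iff_le, hcq]
    have := (abs_le.1 (h3 (x + K) ⟨by linarith, by linarith⟩).2).1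
    linarith
  have hp1 : q - K ≤ p := by
    rw [← u.le_iff_le, hupq]
    have := (abs_le.1 (h3 (q - K) ⟨by linarith, by linarith⟩).1).2
    linarith
  have hp2 : p ≤ q + K := by
    rw [← u.le_iff_le, hupq]
    have := (abs_le.1 (h3 (q + K) ⟨by linarith, by linarith⟩).1).1
    linarith
  have hpK := h3 p ⟨by linarith, by linarith⟩
  have hcp := abs_le.1 hpK.2
  have hup := abs_le.1 hpK.1
  have mp : p ∈ Icc s t := ⟨by linarith, by linarith⟩
  have mcp : c p ∈ Icc s t := ⟨by linarith, by linarith⟩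
  have mup : u p ∈ Icc s t := by rw [hupq]; exact ⟨by linarith, by linarith⟩
  constructor
  · have e1 := N3_lip hu (y := c p) (z := p) hS1 (fun w hw => h1 w (uIcc_subset_Icc mcp mp hw))
    have e2 := N3_lip hc (y := u p) (z := p) hS1 (fun w hw => h2 w (uIcc_subset_Icc mup mp hw))
    have e3 := N3_id (u := u) (c := c) x
    rw [← hq, ← hp] at e3
    rw [e3]
    have e4 : 2 * S * |c p - p| ≤ 2 * S * K := mul_le_mul_of_nonneg_left hpK.2 (by linarith)
    have e5 : 2 * S * |u p - p| ≤ 2 * S * K := mul_le_mul_of_nonneg_left hpK.1 (by linarith)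
    refine le_trans (abs_sub _ _) ?_
    linarith
  · rw [LD_commutator hu hc, ← hq, ← hp]
    have e1 := abs_le.1 (h1 _ mcp)
    have e2 := abs_le.1 (h1 _ mp)
    have e3 := abs_le.1 (h2 _ mup)
    have e4 := abs_le.1 (h2 _ mp)
    rw [abs_le]
    constructor <;> linarith

end FG
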