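import Pool.Agent.helper97.FG.N0

/-!
# U0 : Lemma N in the unit coordinate (statement)

The quadruple `q` is close to translations near `0` and near `n`; in between only `wrd q` is known to be close to the
identity (`q` itself is arbitrary there).
-/

set_option linter.unusedVariables false

open Set Filter Topology
open scoped commutatorElement
open Pool.Agent.helper35.FOL
open Pool.Agent.helper32.FolG (Q4 InDd wrd Fx)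

namespace FG

/-- **Lemma N in the unit coordinate** -/
def UnitN : Prop :=
  ∀ C₀ : ℝ, 1 ≤ C₀ → ∃ A δ₀ : ℝ, 1 ≤ A ∧ 0 < δ₀ ∧ ∀ δ : ℝ, 0 < δ → δ ≤ δ₀ → ∃ η : ℝ, 0 < η ∧
    ∀ (n : ℝ) (q : Q4), 60 ≤ n → InDd q → |q 0 0| = δ → |q 0 n - n| = δ →
      (∀ i, |q i 0| ≤ C₀ * δ) → (∀ i, |q i n - n| ≤ C₀ * δ) →
      (∀ i x, 0 ≤ x → x ≤ 30 → |LD (q i) x| ≤ η) → (∀ i x, n - 30 ≤ x → x ≤ n → |LD (q i) x| ≤ η) →
      (∀ x, 1 ≤ x → x ≤ n - 1 → |wrd q x - x| ≤ η ∧ |LD (wrd q) x| ≤ η) →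
      ∃ Q : Q4, InDd Q ∧ (∀ i x, x ≤ 1 ∨ n - 1 ≤ x → Q i x = q i x) ∧
        (∀ i x, 0 ≤ x → x ≤ n → |Q i x - x| ≤ A * δ ∧ |LD (Q i) x| ≤ A * δ) ∧ wrd Q = wrd q ∧
        ∀ x, 0 ≤ x → x ≤ n → ¬ Fx Q x

end FG
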