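import Pool.Agent.helper97.FG.B1

/-!
# S0 : the slow cutoff function

author: helper56
-/

set_option linter.unusedVariables false

open Set Filter Topology
open scoped commutatorElement
open Pool.Agent.helper35.FOL

namespace FG

variable {g h : ℝ ≃o ℝ} {w w₁ w₂ φ : ℝ → ℝ}

theorem chi_nonneg (te Λ t : ℝ) : 0 ≤ chi te Λ t := Real.smoothTransition.nonneg _

theorem chi_le_one (te Λ t : ℝ) : chi te Λ t ≤ 1 := Real.smoothTransition.le_one _

theorem chi_eq_one {te Λ t : ℝ} (hΛ : 0 < Λ) (ht : te ≤ t) : chi te Λ t = 1 := by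
  refine Real.smoothTransition.one_of_one_le ?_
  have : 0 ≤ (t - te) / Λ := div_nonneg (by linarith) hΛ.le
  linarith

theorem chi_eq_zero {te Λ t : ℝ} (hΛ : 0 < Λ) (ht : t ≤ te - Λ) : chi te Λ t = 0 := by
  refine Real.smoothTransition.zero_of_nonpos ?_
  have : (t - te) / Λ ≤ -1 := by
    rw [div_le_iff₀ hΛ]
    linarith
  linarith

private theorem chi_arg_contDiff (te Λ : ℝ) (n : WithTop ℕ∞) :
    ContDiff ℝ n (fun t : ℝ => (t - te) / Λ + 1) := by
  have h1 : (fun t : ℝ => (t - te) / Λ + 1) = fun t : ℝ => (t - te) * Λ⁻¹ + 1 := by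
    funext t
    rw [div_eq_mul_inv]
  rw [h1]
  exact ((contDiff_id.sub contDiff_const).mul contDiff_const).add contDiff_const

theorem contDiff_chi (te Λ : ℝ) : ContDiff ℝ 1 (chi te Λ) := by
  have h1 : ContDiff ℝ 1 Real.smoothTransition := Real.smoothTransition.contDiff
  exact h1.comp (chi_arg_contDiff te Λ 1)

/-- a differentiable function with a continuous derivative, locally constant outside `[0, 1]`,
has a bounded derivative -/
private theorem chi_bdd {f : ℝ → ℝ} (hf : Continuous f) (h0 : ∀ t, t < 0 → f t = 0)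
    (h1 : ∀ t, 1 < t → f t = 0) : ∃ C : ℝ, 1 ≤ C ∧ ∀ t, |f t| ≤ C := by
  obtain ⟨C, hC⟩ := (isCompact_Icc (a := (0 : ℝ)) (b := 1)).exists_bound_of_continuousOn
    hf.continuousOn
  refine ⟨max C 1, le_max_right _ _, fun t => ?_⟩
  rcases lt_or_ge t 0 with ht | ht
  · rw [h0 t ht, abs_zero]
    exact le_trans zero_le_one (le_max_right _ _)
  · rcases lt_or_ge 1 t with ht' | ht'
    · rw [h1 t ht', abs_zero]
      exact le_trans zero_le_one (le_max_right _ _)
    · exact le_trans (hC t ⟨ht, ht'⟩) (le_max_left _ _)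

private theorem chi_deriv0 {t : ℝ} (ht : t < 0) : deriv Real.smoothTransition t = 0 := by
  have h1 : Real.smoothTransition =ᶠ[𝓝 t] fun _ => (0 : ℝ) := by
    filter_upwards [Iio_mem_nhds ht] with x hx
    exact Real.smoothTransition.zero_of_nonpos (le_of_lt hx)
  rw [h1.deriv_eq]
  simp

private theorem chi_deriv1 {t : ℝ} (ht : 1 < t) : deriv Real.smoothTransition t = 0 := by
  have h1 : Real.smoothTransition =ᶠ[𝓝 t] fun _ => (1 : ℝ) := by
    filter_upwards [Ioi_mem_nhds ht] with x hx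
    exact Real.smoothTransition.one_of_one_le (le_of_lt hx)
  rw [h1.deriv_eq]
  simp

private theorem chi_ddzero {t : ℝ} (ht : t < 0) :
    deriv (deriv Real.smoothTransition) t = 0 := by
  have h1 : deriv Real.smoothTransition =ᶠ[𝓝 t] fun _ => (0 : ℝ) := by
    filter_upwards [Iio_mem_nhds ht] with x hx
    exact chi_deriv0 hx
  rw [h1.deriv_eq]
  simp

private theorem chi_ddone {t : ℝ} (ht : 1 < t) :
    deriv (deriv Real.smoothTransition) t = 0 := by
  have h1 : deriv Real.smoothTransition =ᶠ[𝓝 t] fun _ => (0 : ℝ) := by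
    filter_upwards [Ioi_mem_nhds ht] with x hx
    exact chi_deriv1 hx
  rw [h1.deriv_eq]
  simp

private theorem chi_lip {f : ℝ → ℝ} {C : ℝ} (hf : Differentiable ℝ f) (hC : ∀ t, |deriv f t| ≤ C)
    (s t : ℝ) : |f s - f t| ≤ C * |s - t| := by
  have h1 := Convex.norm_image_sub_le_of_norm_deriv_le (f := f) (C := C) (s := Set.univ) (x := t)
    (y := s) (fun x _ => hf x) (fun x _ => hC x) convex_univ (Set.mem_univ _) (Set.mem_univ _)
  simpa [Real.norm_eq_abs] using h1

/-- first and second order bounds with a universal constant -/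
theorem exists_chi_bounds : ∃ C : ℝ, 1 ≤ C ∧ ∀ te Λ : ℝ, 0 < Λ →
    (∀ s t, |chi te Λ s - chi te Λ t| ≤ C / Λ * |s - t|) ∧
    (∀ t, |deriv (chi te Λ) t| ≤ C / Λ) ∧
    (∀ s t, |deriv (chi te Λ) s - deriv (chi te Λ) t| ≤ C / Λ ^ 2 * |s - t|) := by
  have hS : ContDiff ℝ 2 Real.smoothTransition := Real.smoothTransition.contDiff
  have hS1 : ContDiff ℝ 1 (deriv Real.smoothTransition) := by
    have h2 : ContDiff ℝ (1 + 1) Real.smoothTransition := by
      have h3 : (1 + 1 : WithTop ℕ∞) = 2 := by norm_num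
      rw [h3]
      exact hS
    exact (contDiff_succ_iff_deriv.1 h2).2.2
  have hD : Differentiable ℝ Real.smoothTransition := hS.differentiable (by norm_num)
  have hD1 : Differentiable ℝ (deriv Real.smoothTransition) := hS1.differentiable (by norm_num)
  have hc1 : Continuous (deriv Real.smoothTransition) := hS1.continuous
  have hc2 : Continuous (deriv (deriv Real.smoothTransition)) :=
    hS1.continuous_deriv (le_refl _)
  obtain ⟨C₁, hC₁, hb₁⟩ := chi_bdd hc1 (fun t ht => chi_deriv0 ht) (fun t ht => chi_deriv1 ht)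
  obtain ⟨C₂, hC₂, hb₂⟩ := chi_bdd hc2 (fun t ht => chi_ddzero ht) (fun t ht => chi_ddone ht)
  refine ⟨max C₁ C₂, le_trans hC₁ (le_max_left _ _), fun te Λ hΛ => ?_⟩
  have hder : ∀ t, deriv (chi te Λ) t =
      deriv Real.smoothTransition ((t - te) / Λ + 1) / Λ := by
    intro t
    have h4 : HasDerivAt (fun t : ℝ => (t - te) / Λ + 1) (1 / Λ) t :=
      (((hasDerivAt_id t).sub_const te).div_const Λ).add_const 1
    have h5 := (hD ((t - te) / Λ + 1)).hasDerivAt.comp t h4
    have h6 : (chi te Λ) = Real.smoothTransition ∘ (fun t : ℝ => (t - te) / Λ + 1) := rfl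
    rw [h6, h5.deriv]
    ring
  have hle1 : C₁ ≤ max C₁ C₂ := le_max_left _ _
  have hle2 : C₂ ≤ max C₁ C₂ := le_max_right _ _
  have hbd : ∀ t, |deriv (chi te Λ) t| ≤ max C₁ C₂ / Λ := by
    intro t
    rw [hder t, abs_div, abs_of_pos hΛ]
    exact div_le_div_of_nonneg_right (le_trans (hb₁ _) hle1) hΛ.le
  refine ⟨chi_lip ((contDiff_chi te Λ).differentiable (by norm_num)) hbd, hbd, fun s t => ?_⟩
  rw [hder s, hder t, ← sub_div, abs_div, abs_of_pos hΛ, div_le_iff₀ hΛ]
  have h7 := chi_lip hD1 (C := max C₁ C₂) (fun t => le_trans (hb₂ t) hle2)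
    ((s - te) / Λ + 1) ((t - te) / Λ + 1)
  refine le_trans h7 (le_of_eq ?_)
  have h8 : (s - te) / Λ + 1 - ((t - te) / Λ + 1) = (s - t) / Λ := by ring
  rw [h8, abs_div, abs_of_pos hΛ]
  field_simp

end FG
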