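import Pool.Agent.helper97.FG.B1b
import Pool.Agent.helper97.FG.S0

/-!
# C1 : cutting off a map which is close to the identity

author: helper59
-/

set_option linter.unusedVariables false

open Set Filter Topology
open scoped commutatorElement
open Pool.Agent.helper35.FOL

namespace FG

variable {E : ℝ → ℝ} {l x₀ t₀ : ℝ} {g h p m p' m' : ℝ ≃o ℝ} {w w₁ w₂ φ : ℝ → ℝ}

theorem C1_abs_log_le {u δ : ℝ} (h : |u - 1| ≤ δ) (hδ : δ ≤ 1 / 2) : |Real.log u| ≤ 2 * δ := by
  obtain ⟨h1, h2⟩ := abs_le.1 h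
  have hu : 1 / 2 ≤ u := by linarith
  have hu0 : 0 < u := by linarith
  have hδ0 : 0 ≤ δ := (abs_nonneg _).trans h
  rw [abs_le]
  constructor
  · have h3 := Real.one_sub_inv_le_log_of_pos hu0
    have h4 : u⁻¹ ≤ 1 + 2 * δ := by
      rw [inv_le_iff_one_le_mul₀ hu0]
      nlinarith
    linarith
  · have := Real.log_le_sub_one_of_pos hu0
    linarith

theorem C1_exists_blend {f : ℝ ≃o ℝ} {χ : ℝ → ℝ} {M η : ℝ} (hf : f ∈ Dd) (hη : 0 ≤ η) (hN : Near η f)
    (hχ : ContDiff ℝ 1 χ) (h0 : ∀ x, 0 ≤ χ x) (h1 : ∀ x, χ x ≤ 1) (hM : ∀ x, |deriv χ x| ≤ M)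
    (hM0 : 0 ≤ M) (hs : (M + 2) * η ≤ 1 / 2) :
    ∃ f' ∈ Dd, (∀ x, f' x = x + χ x * (f x - x)) ∧
      ∀ x, |f' x - x| ≤ η ∧ |LD f' x| ≤ 2 * ((M + 2) * η) := by
  have hη1 : η ≤ 1 := by nlinarith
  have hfc : ContDiff ℝ 1 (f : ℝ → ℝ) := hf.1
  have hFc : ContDiff ℝ 1 (fun x => x + χ x * (f x - x)) :=
    contDiff_id.add (hχ.mul (hfc.sub contDiff_id))
  have hd : ∀ x, deriv (fun x => x + χ x * (f x - x)) x =
      1 + (deriv χ x * (f x - x) + χ x * (deriv f x - 1)) := by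
    intro x
    have h1 : HasDerivAt (fun x => x + χ x * (f x - x))
        (1 + (deriv χ x * (f x - x) + χ x * (deriv f x - 1))) x :=
      (hasDerivAt_id x).add (((hχ.differentiable one_ne_zero x).hasDerivAt).mul
        (((hfc.differentiable one_ne_zero x).hasDerivAt).sub (hasDerivAt_id x)))
    exact h1.deriv
  have hfd : ∀ x, |deriv f x - 1| ≤ 2 * η := by
    intro x
    rw [deriv_eq_exp hf x]
    refine (Real.abs_exp_sub_one_le ((hN x).2.trans hη1)).trans ?_
    linarith [(hN x).2]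
  have hb : ∀ x, |deriv (fun x => x + χ x * (f x - x)) x - 1| ≤ (M + 2) * η := by
    intro x
    rw [hd x]
    have e : 1 + (deriv χ x * (f x - x) + χ x * (deriv f x - 1)) - 1 =
        deriv χ x * (f x - x) + χ x * (deriv f x - 1) := by ring
    rw [e]
    calc _ ≤ |deriv χ x * (f x - x)| + |χ x * (deriv f x - 1)| := abs_add_le _ _
      _ = |deriv χ x| * |f x - x| + χ x * |deriv f x - 1| := by
          rw [abs_mul, abs_mul, abs_of_nonneg (h0 x)]
      _ ≤ M * η + 1 * (2 * η) := by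
          have a1 := hM x
          have a2 := (hN x).1
          have a3 := h1 x
          have a4 := hfd x
          gcongr
      _ = _ := by ring
  have hpos : ∀ x, 0 < deriv (fun x => x + χ x * (f x - x)) x := fun x => by
    have := (abs_le.1 (hb x)).1
    linarith
  have hC : ∀ x, |x + χ x * (f x - x) - x| ≤ η := by
    intro x
    have e : x + χ x * (f x - x) - x = χ x * (f x - x) := by ring
    rw [e, abs_mul, abs_of_nonneg (h0 x)]
    have a2 := (hN x).1
    have a3 := h1 x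
    calc χ x * |f x - x| ≤ 1 * η := by gcongr
      _ = η := one_mul _
  obtain ⟨g, hg, hgF, hgL⟩ := exists_Dd_of_bdd hFc hpos hC
  refine ⟨g, hg, hgF, fun x => ⟨by rw [hgF]; exact hC x, ?_⟩⟩
  rw [hgL]
  exact C1_abs_log_le (hb x) hs

/-- the two-sided cutoff: `1` for `|x| ≤ κ/2`, `0` for `|x| ≥ κ` -/
theorem C1_exists_bump : ∃ C : ℝ, 1 ≤ C ∧ ∀ κ : ℝ, 0 < κ → ∃ χ : ℝ → ℝ, ContDiff ℝ 1 χ ∧
    (∀ x, 0 ≤ χ x) ∧ (∀ x, χ x ≤ 1) ∧ (∀ x, |deriv χ x| ≤ C / κ) ∧
    (∀ x, |x| ≤ κ / 2 → χ x = 1) ∧ (∀ x, κ ≤ |x| → χ x = 0) := by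
  obtain ⟨C, hC, hb⟩ := exists_chi_bounds
  refine ⟨4 * C, by linarith, fun κ hκ => ?_⟩
  have hκ2 : (0 : ℝ) < κ / 2 := by positivity
  obtain ⟨-, hbd, -⟩ := hb (-(κ / 2)) (κ / 2) hκ2
  have hc := contDiff_chi (-(κ / 2)) (κ / 2)
  have hdf := hc.differentiable one_ne_zero
  refine ⟨fun x => chi (-(κ / 2)) (κ / 2) x * chi (-(κ / 2)) (κ / 2) (-x), ?_, ?_, ?_, ?_, ?_, ?_⟩
  · exact hc.mul (hc.comp contDiff_neg)
  · intro x
    exact mul_nonneg (chi_nonneg _ _ _) (chi_nonneg _ _ _)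
  · intro x
    exact mul_le_one₀ (chi_le_one _ _ _) (chi_nonneg _ _ _) (chi_le_one _ _ _)
  · intro x
    have h1 : HasDerivAt (fun x => chi (-(κ / 2)) (κ / 2) x * chi (-(κ / 2)) (κ / 2) (-x))
        (deriv (chi (-(κ / 2)) (κ / 2)) x * chi (-(κ / 2)) (κ / 2) (-x) +
          chi (-(κ / 2)) (κ / 2) x * (deriv (chi (-(κ / 2)) (κ / 2)) (-x) * (-1))) x :=
      ((hdf x).hasDerivAt).mul (((hdf (-x)).hasDerivAt).comp x (hasDerivAt_neg x))
    rw [h1.deriv]
    calc _ ≤ |deriv (chi (-(κ / 2)) (κ / 2)) x * chi (-(κ / 2)) (κ / 2) (-x)| +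
          |chi (-(κ / 2)) (κ / 2) x * (deriv (chi (-(κ / 2)) (κ / 2)) (-x) * (-1))| := abs_add_le _ _
      _ = |deriv (chi (-(κ / 2)) (κ / 2)) x| * chi (-(κ / 2)) (κ / 2) (-x) +
          chi (-(κ / 2)) (κ / 2) x * |deriv (chi (-(κ / 2)) (κ / 2)) (-x)| := by
          rw [abs_mul, abs_mul, abs_mul, abs_of_nonneg (chi_nonneg _ _ _),
            abs_of_nonneg (chi_nonneg _ _ _)]
          simp
      _ ≤ C / (κ / 2) * 1 + 1 * (C / (κ / 2)) := by
          have a1 := hbd x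
          have a2 := hbd (-x)
          have a3 := chi_le_one (-(κ / 2)) (κ / 2) x
          have a4 := chi_le_one (-(κ / 2)) (κ / 2) (-x)
          have a5 := chi_nonneg (-(κ / 2)) (κ / 2) x
          have a6 := chi_nonneg (-(κ / 2)) (κ / 2) (-x)
          have a7 : 0 ≤ C / (κ / 2) := by positivity
          gcongr
      _ = 4 * C / κ := by
          field_simp
          ring
  · intro x hx
    obtain ⟨h1, h2⟩ := abs_le.1 hx
    show chi (-(κ / 2)) (κ / 2) x * chi (-(κ / 2)) (κ / 2) (-x) = 1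
    rw [chi_eq_one hκ2 (by linarith), chi_eq_one hκ2 (by linarith), one_mul]
  · intro x hx
    show chi (-(κ / 2)) (κ / 2) x * chi (-(κ / 2)) (κ / 2) (-x) = 0
    rcases le_abs.1 hx with h | h
    · rw [chi_eq_zero (t := -x) hκ2 (by linarith), mul_zero]
    · rw [chi_eq_zero (t := x) hκ2 (by linarith), zero_mul]

theorem C1_const {C κ η : ℝ} (hC : 1 ≤ C) (hκ : 0 < κ) (hκ1 : κ ≤ 1) (hη : 0 ≤ η)
    (h : 4 * (C + 2) * η ≤ κ) :
    (C / κ + 2) * η ≤ 1 / 2 ∧ 2 * ((C / κ + 2) * η) ≤ 4 * (C + 2) * η / κ ∧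
      η ≤ 4 * (C + 2) * η / κ := by
  have h1 : (C / κ + 2) * η ≤ (C + 2) * η / κ := by
    rw [le_div_iff₀ hκ]
    have : (C / κ + 2) * η * κ = (C + 2 * κ) * η := by
      field_simp
    rw [this]
    gcongr
    linarith
  have h2 : (C + 2) * η / κ ≤ 1 / 4 := by
    rw [div_le_iff₀ hκ]
    linarith
  have h3 : 4 * (C + 2) * η / κ = 4 * ((C + 2) * η / κ) := by ring
  have h4 : 0 ≤ (C + 2) * η / κ := by positivity
  refine ⟨by linarith, ?_, ?_⟩
  · rw [h3]
    linarith
  · rw [le_div_iff₀ hκ]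
    nlinarith

/-- `f^χ = id + χ (f - id)` with `χ = 1` for `|x| ≤ κ/2`, `χ = 0` for `|x| ≥ κ` -/
theorem exists_cut : ∃ C : ℝ, 1 ≤ C ∧ ∀ {κ η : ℝ} {f : ℝ ≃o ℝ}, 0 < κ → κ ≤ 1 → f ∈ Dd → 0 ≤ η →
    C * η ≤ κ → Near η f → ∃ f' ∈ Dd, (∀ x, |x| ≤ κ / 2 → f' x = f x) ∧ (∀ x, κ ≤ |x| → f' x = x) ∧
      Near (C * η / κ) f' := by
  obtain ⟨C, hC, hb⟩ := C1_exists_bump
  refine ⟨4 * (C + 2), by linarith, fun {κ η f} hκ hκ1 hf hη hs hN => ?_⟩
  obtain ⟨χ, hχ, h0, h1, hM, he1, he0⟩ := hb κ hκ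
  obtain ⟨c1, c2, c3⟩ := C1_const hC hκ hκ1 hη hs
  obtain ⟨f', hf', hff, hff2⟩ := C1_exists_blend hf hη hN hχ h0 h1 hM (by positivity) c1
  refine ⟨f', hf', fun x hx => ?_, fun x hx => ?_, fun x => ⟨(hff2 x).1.trans c3, (hff2 x).2.trans c2⟩⟩
  · rw [hff, he1 x hx]
    ring
  · rw [hff, he0 x hx]
    ring

/-- the complementary cutoff: `id` for `|x| ≤ κ/2`, `= f` for `|x| ≥ κ` -/
theorem exists_cocut : ∃ C : ℝ, 1 ≤ C ∧ ∀ {κ η : ℝ} {f : ℝ ≃o ℝ}, 0 < κ → κ ≤ 1 → f ∈ Dd → 0 ≤ η →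
    C * η ≤ κ → Near η f → ∃ f' ∈ Dd, (∀ x, |x| ≤ κ / 2 → f' x = x) ∧ (∀ x, κ ≤ |x| → f' x = f x) ∧
      Near (C * η / κ) f' := by
  obtain ⟨C, hC, hb⟩ := C1_exists_bump
  refine ⟨4 * (C + 2), by linarith, fun {κ η f} hκ hκ1 hf hη hs hN => ?_⟩
  obtain ⟨χ, hχ, h0, h1, hM, he1, he0⟩ := hb κ hκ
  obtain ⟨c1, c2, c3⟩ := C1_const hC hκ hκ1 hη hs
  have hχ' : ContDiff ℝ 1 (fun x => 1 - χ x) := contDiff_const.sub hχ
  obtain ⟨f', hf', hff, hff2⟩ := C1_exists_blend (χ := fun x => 1 - χ x) hf hη hN hχ'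
    (fun x => by linarith [h1 x]) (fun x => by linarith [h0 x])
    (fun x => by rw [deriv_const_sub, abs_neg]; exact hM x) (by positivity) c1
  refine ⟨f', hf', fun x hx => ?_, fun x hx => ?_, fun x => ⟨(hff2 x).1.trans c3, (hff2 x).2.trans c2⟩⟩
  · rw [hff, he1 x hx]
    ring
  · rw [hff, he0 x hx]
    ring

/-- transition between two maps on an interval of length `L`: `k = g` for `x ≤ a`, `k = h` for
`x ≥ a + L` -/
theorem exists_interp : ∃ C : ℝ, 1 ≤ C ∧ ∀ {a L K s : ℝ} {g h : ℝ ≃o ℝ}, 0 < L → g ∈ Dd → h ∈ Dd → 0 ≤ K →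
    0 ≤ s → s ≤ 1 / 4 → C * K ≤ L → (∀ x ∈ Icc a (a + L), |LD g x| ≤ s ∧ |LD h x| ≤ s ∧ |g x - h x| ≤ K) →
      ∃ k ∈ Dd, (∀ x ≤ a, k x = g x) ∧ (∀ x, a + L ≤ x → k x = h x) ∧
        (∀ x ∈ Icc a (a + L), |LD k x| ≤ s + C * K / L ∧ |k x - h x| ≤ K ∧ |k x - g x| ≤ K) := by
  obtain ⟨C, hC, hb⟩ := exists_chi_bounds
  refine ⟨4 * C, by linarith, fun {a L K s g h} hL hg hh hK hs hs4 hCK hloc => ?_⟩
  obtain ⟨-, hbd, -⟩ := hb (a + L) L hL
  have hc := contDiff_chi (a + L) L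
  have hdf := hc.differentiable one_ne_zero
  have hgc : ContDiff ℝ 1 (g : ℝ → ℝ) := hg.1
  have hhc : ContDiff ℝ 1 (h : ℝ → ℝ) := hh.1
  have hχ0 : ∀ x ≤ a, chi (a + L) L x = 0 := fun x hx => chi_eq_zero hL (by linarith)
  have hχ1 : ∀ x, a + L ≤ x → chi (a + L) L x = 1 := fun x hx => chi_eq_one hL hx
  have hdχ0 : ∀ x ≤ a, deriv (chi (a + L) L) x = 0 := by
    intro x hx
    have : IsLocalMin (chi (a + L) L) x := Filter.Eventually.of_forall fun y => by
      rw [hχ0 x hx]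
      exact chi_nonneg _ _ _
    exact this.deriv_eq_zero
  have hdχ1 : ∀ x, a + L ≤ x → deriv (chi (a + L) L) x = 0 := by
    intro x hx
    have : IsLocalMax (chi (a + L) L) x := Filter.Eventually.of_forall fun y => by
      rw [hχ1 x hx]
      exact chi_le_one _ _ _
    exact this.deriv_eq_zero
  have hFc : ContDiff ℝ 1 (fun x => g x + chi (a + L) L x * (h x - g x)) :=
    hgc.add (hc.mul (hhc.sub hgc))
  have hd : ∀ x, deriv (fun x => g x + chi (a + L) L x * (h x - g x)) x =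
      deriv g x + (deriv (chi (a + L) L) x * (h x - g x) +
        chi (a + L) L x * (deriv h x - deriv g x)) := by
    intro x
    have h1 : HasDerivAt (fun x => g x + chi (a + L) L x * (h x - g x))
        (deriv g x + (deriv (chi (a + L) L) x * (h x - g x) +
        chi (a + L) L x * (deriv h x - deriv g x))) x :=
      (hgc.differentiable one_ne_zero x).hasDerivAt.add (((hdf x).hasDerivAt).mul
        (((hhc.differentiable one_ne_zero x).hasDerivAt).sub
          ((hgc.differentiable one_ne_zero x).hasDerivAt)))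
    exact h1.deriv
  have hδ0 : 0 ≤ C * K / L := by positivity
  have hδ : C * K / L ≤ 1 / 4 := by
    rw [div_le_iff₀ hL]
    linarith
  have he : Real.exp s ≤ 4 / 3 := by
    have h1 := Real.one_sub_le_exp_neg s
    have h2 : Real.exp (-s) = (Real.exp s)⁻¹ := Real.exp_neg s
    rw [h2] at h1
    have h3 : (3 / 4 : ℝ) ≤ (Real.exp s)⁻¹ := by linarith
    rw [le_inv_comm₀ (by norm_num) (Real.exp_pos s)] at h3
    linarith
  have hens : (3 / 4 : ℝ) ≤ Real.exp (-s) := by
    have h1 := Real.one_sub_le_exp_neg s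
    linarith
  -- two-sided bounds on `[a, a + L]`
  have hmain : ∀ x ∈ Icc a (a + L),
      Real.exp (-s) - C * K / L ≤ deriv (fun x => g x + chi (a + L) L x * (h x - g x)) x ∧
      deriv (fun x => g x + chi (a + L) L x * (h x - g x)) x ≤ Real.exp s + C * K / L := by
    intro x hx
    obtain ⟨l1, l2, l3⟩ := hloc x hx
    rw [hd x]
    have hg1 : Real.exp (-s) ≤ deriv g x := by
      rw [deriv_eq_exp hg x]
      exact Real.exp_le_exp.2 (abs_le.1 l1).1
    have hg2 : deriv g x ≤ Real.exp s := by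
      rw [deriv_eq_exp hg x]
      exact Real.exp_le_exp.2 (abs_le.1 l1).2
    have hh1 : Real.exp (-s) ≤ deriv h x := by
      rw [deriv_eq_exp hh x]
      exact Real.exp_le_exp.2 (abs_le.1 l2).1
    have hh2 : deriv h x ≤ Real.exp s := by
      rw [deriv_eq_exp hh x]
      exact Real.exp_le_exp.2 (abs_le.1 l2).2
    have c0 := chi_nonneg (a + L) L x
    have c1 := chi_le_one (a + L) L x
    have hm : |deriv (chi (a + L) L) x * (h x - g x)| ≤ C * K / L := by
      rw [abs_mul]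
      have l3' : |h x - g x| ≤ K := by rw [abs_sub_comm]; exact l3
      have b1 := hbd x
      calc |deriv (chi (a + L) L) x| * |h x - g x| ≤ (C / L) * K := by gcongr
        _ = C * K / L := by ring
    obtain ⟨m1, m2⟩ := abs_le.1 hm
    constructor
    · nlinarith [mul_nonneg c0 (sub_nonneg.2 hh1), mul_nonneg (sub_nonneg.2 c1) (sub_nonneg.2 hg1)]
    · nlinarith [mul_nonneg c0 (sub_nonneg.2 hh2), mul_nonneg (sub_nonneg.2 c1) (sub_nonneg.2 hg2)]
  have hpos : ∀ x, 0 < deriv (fun x => g x + chi (a + L) L x * (h x - g x)) x := by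
    intro x
    rcases le_total x a with hxa | hxa
    · rw [hd x, hχ0 x hxa, hdχ0 x hxa]
      have := hg.2 x
      linarith
    · rcases le_total (a + L) x with hxb | hxb
      · rw [hd x, hχ1 x hxb, hdχ1 x hxb]
        have := hh.2 x
        linarith
      · have := (hmain x ⟨hxa, hxb⟩).1
        linarith
  have htop : Tendsto (fun x => g x + chi (a + L) L x * (h x - g x)) atTop atTop := by
    refine (OrderIso.tendsto_atTop h).congr' ?_
    filter_upwards [eventually_ge_atTop (a + L)] with x hx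
    rw [hχ1 x hx]
    ring
  have hbot : Tendsto (fun x => g x + chi (a + L) L x * (h x - g x)) atBot atBot := by
    refine (OrderIso.tendsto_atBot g).congr' ?_
    filter_upwards [eventually_le_atBot a] with x hx
    rw [hχ0 x hx]
    ring
  obtain ⟨k, hk, hkF, hkL⟩ := exists_Dd hFc hpos htop hbot
  refine ⟨k, hk, fun x hx => ?_, fun x hx => ?_, fun x hx => ⟨?_, ?_, ?_⟩⟩
  · rw [hkF, hχ0 x hx]
    ring
  · rw [hkF, hχ1 x hx]
    ring
  · rw [hkL]
    obtain ⟨m1, m2⟩ := hmain x hx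
    have hp := hpos x
    have e4 : 4 * C * K / L = 4 * (C * K / L) := by ring
    rw [e4]
    generalize deriv (fun x => g x + chi (a + L) L x * (h x - g x)) x = D at m1 m2 hp
    generalize C * K / L = δ at m1 m2 hδ hδ0
    have hes := Real.exp_pos s
    have hens' : Real.exp (-s) * Real.exp s = 1 := by rw [← Real.exp_add]; simp
    rw [abs_le]
    constructor
    · -- lower bound
      have h1 : Real.log D = -s + Real.log (D * Real.exp s) := by
        rw [Real.log_mul hp.ne' hes.ne', Real.log_exp]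
        ring
      have h2 : 1 - 4 / 3 * δ ≤ D * Real.exp s := by
        have : (Real.exp (-s) - δ) * Real.exp s ≤ D * Real.exp s := by gcongr
        nlinarith
      have h3 : |min (D * Real.exp s) 1 - 1| ≤ 4 / 3 * δ := by
        rw [abs_le]
        constructor
        · rcases min_choice (D * Real.exp s) 1 with hm | hm <;> rw [hm] <;> linarith
        · have := min_le_right (D * Real.exp s) 1
          linarith
      have h4 := (abs_le.1 (C1_abs_log_le h3 (by linarith))).1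
      have h5 : Real.log (min (D * Real.exp s) 1) ≤ Real.log (D * Real.exp s) :=
        Real.log_le_log (lt_min (by positivity) one_pos) (min_le_left _ _)
      rw [h1]
      linarith
    · have h1 : Real.log D ≤ Real.log (Real.exp s + δ) := Real.log_le_log hp m2
      have h2 : Real.log (Real.exp s + δ) = s + Real.log (1 + δ * Real.exp (-s)) := by
        have : Real.exp s + δ = Real.exp s * (1 + δ * Real.exp (-s)) := by
          rw [mul_add, mul_one]
          have : Real.exp s * (δ * Real.exp (-s)) = δ * (Real.exp (-s) * Real.exp s) := by ring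
          rw [this, hens', mul_one]
        rw [this, Real.log_mul hes.ne' (by positivity), Real.log_exp]
      have h3 : Real.log (1 + δ * Real.exp (-s)) ≤ δ * Real.exp (-s) := by
        have := Real.log_le_sub_one_of_pos (show 0 < 1 + δ * Real.exp (-s) by positivity)
        linarith
      have h4 : δ * Real.exp (-s) ≤ δ * 1 := by
        gcongr
        exact Real.exp_le_one_iff.2 (by linarith)
      linarith
  · obtain ⟨l1, l2, l3⟩ := hloc x hx
    have e : g x + chi (a + L) L x * (h x - g x) - h x =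
        (1 - chi (a + L) L x) * (g x - h x) := by ring
    rw [hkF, e, abs_mul, abs_of_nonneg (sub_nonneg.2 (chi_le_one _ _ _))]
    have c0 := chi_nonneg (a + L) L x
    calc (1 - chi (a + L) L x) * |g x - h x| ≤ 1 * K := by
          gcongr
          linarith
      _ = K := one_mul _
  · obtain ⟨l1, l2, l3⟩ := hloc x hx
    have e : g x + chi (a + L) L x * (h x - g x) - g x =
        chi (a + L) L x * (h x - g x) := by ring
    rw [hkF, e, abs_mul, abs_of_nonneg (chi_nonneg _ _ _), abs_sub_comm]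
    have c1 := chi_le_one (a + L) L x
    calc chi (a + L) L x * |g x - h x| ≤ 1 * K := by gcongr
      _ = K := one_mul _

end FG
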