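import Pool.Agent.helper97.FG.N0
import Pool.Agent.helper97.FG.C1

/-!
# N0d : cutting off a map which is close to a translation on an interval

author: helper58
-/

set_option linter.unusedVariables false

open Set Filter Topology
open scoped commutatorElement
open Pool.Agent.helper35.FOL

namespace FG

/-- `g' = g` on `[a + 1/2, b - 1/2]`, a translation outside `[a, b]` (`exists_interp` twice, `L = 1/2`,
`s = K = η`) -/
theorem exists_cutNT : ∃ C : ℝ, 1 ≤ C ∧ ∀ {a b d η : ℝ} {g : ℝ ≃o ℝ}, g ∈ Dd → a + 2 ≤ b → 0 ≤ η → C * η ≤ 1 →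
    (∀ x ∈ Icc a b, |g x - (x + d)| ≤ η ∧ |LD g x| ≤ η) → ∃ g' ∈ Dd, NT d (C * η) g' ∧
      (∀ x ∈ Icc (a + 1 / 2) (b - 1 / 2), g' x = g x) ∧ ∀ x, x ≤ a ∨ b ≤ x → g' x = x + d := by
  obtain ⟨C₀, hC₀, hint⟩ := exists_interp
  refine ⟨4 * C₀, by linarith, fun {a b d η g} hg hab hη hCη hloc => ?_⟩
  have hη4 : η ≤ 1 / 4 := by nlinarith
  have hCη2 : C₀ * η ≤ 1 / 2 := by linarith
  have h3C : η + C₀ * η / (1 / 2) ≤ 4 * C₀ * η := by
    have : η ≤ C₀ * η := by nlinarith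
    have h2 : C₀ * η / (1 / 2) = 2 * (C₀ * η) := by ring
    rw [h2]; linarith
  have hηC : η ≤ 4 * C₀ * η := by
    have : 0 ≤ C₀ * η := by positivity
    have h2 : C₀ * η / (1 / 2) = 2 * (C₀ * η) := by ring
    rw [h2] at h3C; linarith
  have h0C : 0 ≤ 4 * C₀ * η := hη.trans hηC
  obtain ⟨k₁, hk₁, hk₁l, hk₁r, hk₁m⟩ := hint (a := a) (L := 1 / 2) (K := η) (s := η) (g := tr d)
    (h := g) (by norm_num) (tr_mem d) hg hη hη hη4 hCη2 (fun x hx => by
      have hx' : x ∈ Icc a b := ⟨hx.1, by linarith [hx.2]⟩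
      obtain ⟨h1, h2⟩ := hloc x hx'
      refine ⟨by rw [LD_tr, abs_zero]; exact hη, h2, ?_⟩
      rw [tr_apply, abs_sub_comm]
      exact h1)
  have hLD₁ : ∀ x, a + 1 / 2 < x → LD k₁ x = LD g x := fun x hx =>
    LD_congr (by filter_upwards [eventually_gt_nhds hx] with y hy using hk₁r y hy.le)
  obtain ⟨k₂, hk₂, hk₂l, hk₂r, hk₂m⟩ := hint (a := b - 1 / 2) (L := 1 / 2) (K := η) (s := η)
    (g := k₁) (h := tr d) (by norm_num) hk₁ (tr_mem d) hη hη hη4 hCη2 (fun x hx => by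
      have hx1 : b - 1 / 2 ≤ x := hx.1
      have hx2 : x ≤ b := by linarith [hx.2]
      have hx' : x ∈ Icc a b := ⟨by linarith, hx2⟩
      obtain ⟨h1, h2⟩ := hloc x hx'
      refine ⟨by rw [hLD₁ x (by linarith)]; exact h2, by rw [LD_tr, abs_zero]; exact hη, ?_⟩
      rw [tr_apply, hk₁r x (by linarith)]
      exact h1)
  have hb2 : b - 1 / 2 + 1 / 2 = b := by ring
  rw [hb2] at hk₂r hk₂m
  have hLD₂ : ∀ x, x < b - 1 / 2 → LD k₂ x = LD k₁ x := fun x hx =>
    LD_congr (by filter_upwards [eventually_lt_nhds hx] with y hy using hk₂l y hy.le)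
  refine ⟨k₂, hk₂, fun x => ?_, fun x hx => ?_, fun x hx => ?_⟩
  · rcases lt_or_ge x a with h1 | h1
    · have e1 : k₂ x = x + d := by rw [hk₂l x (by linarith), hk₁l x h1.le, tr_apply]
      have e2 : LD k₂ x = 0 := by
        rw [hLD₂ x (by linarith), ← LD_tr d x]
        exact LD_congr (by filter_upwards [eventually_lt_nhds h1] with y hy using hk₁l y hy.le)
      rw [e1, e2, sub_self, abs_zero]
      exact ⟨h0C, h0C⟩
    rcases le_or_gt x (a + 1 / 2) with h2 | h2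
    · obtain ⟨m1, m2, m3⟩ := hk₁m x ⟨h1, h2⟩
      rw [hk₂l x (by linarith), hLD₂ x (by linarith)]
      rw [tr_apply] at m3
      exact ⟨m3.trans hηC, m1.trans h3C⟩
    rcases lt_or_ge x (b - 1 / 2) with h3 | h3
    · obtain ⟨m1, m2⟩ := hloc x ⟨h1, by linarith⟩
      rw [hk₂l x h3.le, hLD₂ x h3, hLD₁ x h2, hk₁r x h2.le]
      exact ⟨m1.trans hηC, m2.trans hηC⟩
    rcases le_or_gt x b with h4 | h4
    · obtain ⟨m1, m2, m3⟩ := hk₂m x ⟨h3, h4⟩
      rw [tr_apply] at m2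
      exact ⟨m2.trans hηC, m1.trans h3C⟩
    · have e1 : k₂ x = x + d := by rw [hk₂r x h4.le, tr_apply]
      have e2 : LD k₂ x = 0 := by
        rw [← LD_tr d x]
        exact LD_congr (by filter_upwards [eventually_gt_nhds h4] with y hy using hk₂r y hy.le)
      rw [e1, e2, sub_self, abs_zero]
      exact ⟨h0C, h0C⟩
  · rw [hk₂l x hx.2, hk₁r x hx.1]
  · rcases hx with hx | hx
    · rw [hk₂l x (by linarith), hk₁l x hx, tr_apply]
    · rw [hk₂r x hx, tr_apply]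

/-- from a small `LD` on an interval to closeness to a translation there -/
theorem NT_of_LD {a b x₀ η : ℝ} {g : ℝ ≃o ℝ} (hg : g ∈ Dd) (hx₀ : x₀ ∈ Icc a b) (hη : η ≤ 1 / 2)
    (h : ∀ x ∈ Icc a b, |LD g x| ≤ η) : ∀ x ∈ Icc a b, |g x - (x + (g x₀ - x₀))| ≤ 2 * η * (b - a) := by
  intro x hx
  have hη0 : 0 ≤ η := (abs_nonneg _).trans (h x₀ hx₀)
  have hd : Differentiable ℝ g := Dd_differentiable hg
  have hder : ∀ y, HasDerivAt (fun y => g y - y) (deriv g y - 1) y := fun y =>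
    (hd y).hasDerivAt.sub (hasDerivAt_id y)
  have hb : ∀ y ∈ Icc a b, ‖deriv (fun y => g y - y) y‖ ≤ 2 * η := by
    intro y hy
    rw [(hder y).deriv, Real.norm_eq_abs, deriv_eq_exp hg y]
    have h1 := h y hy
    exact (Real.abs_exp_sub_one_le (by linarith)).trans (by linarith)
  have h1 := (convex_Icc a b).norm_image_sub_le_of_norm_deriv_le
    (fun y _ => (hder y).differentiableAt) hb hx₀ hx
  have h2 : g x - (x + (g x₀ - x₀)) = (g x - x) - (g x₀ - x₀) := by ring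
  rw [h2, ← Real.norm_eq_abs]
  refine h1.trans ?_
  refine mul_le_mul_of_nonneg_left ?_ (by linarith)
  rw [Real.norm_eq_abs, abs_le]
  constructor <;> linarith [hx.1, hx.2, hx₀.1, hx₀.2]

end FG
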