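import Pool.Agent.helper97.FG.N6
import Pool.Agent.helper97.FG.N0d

/-!
author: helper24
# N12a : the left end of `UnitN`

`q^L i` := cut of `q i` to `[s, s+30]` (`NT_of_LD` with `x₀ = s`, then `exists_cutNT`; `d i = q i s - s`): equal to `q i` on
`[s + 1/2, s + 59/2]`, `NT (d i) (C η)`.  `left_end'` with `z = s + 2`, `L = 20` gives `Q^L` with `Q^L = q^L` for `x ≤ s + 2`.
Glue `q | Q^L` at `s + 5/4` (`glue_quad`: both equal `q` on `[s + 1/2, s + 2]`).  `β = Q^L 1`.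
`wrd q^L = wrd q` on `[s + 1, s + 29]` (`wrd_congr_Icc`).  Fixed points: `q 0` on `[s, s+2]` (displacement
`≥ δ - 60 η`), `Q^L 0`.
-/

set_option linter.unusedVariables false

open Set Filter Topology
open scoped commutatorElement
open Pool.Agent.helper35.FOL
open Pool.Agent.helper32.FolG (Q4 InDd wrd Fx)

namespace FG

theorem left_part {C₀ : ℝ} (hC₀ : 1 ≤ C₀) : ∃ A δ₀ : ℝ, 1 ≤ A ∧ 0 < δ₀ ∧ ∀ δ : ℝ, 0 < δ → δ ≤ δ₀ →
    ∃ η : ℝ, 0 < η ∧ ∀ {q : Q4} {s : ℝ}, InDd q → |q 0 s - s| = δ → (∀ i, |q i s - s| ≤ C₀ * δ) →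
      (∀ i x, s ≤ x → x ≤ s + 30 → |LD (q i) x| ≤ η) →
      ∃ P : Q4, ∃ β ∈ Dd, InDd P ∧ Near (A * δ) β ∧ (∀ i x, x ≤ s + 1 → P i x = q i x) ∧
        (∀ x, s + 6 ≤ x → P 0 x = x + (q 0 s - s) ∧ P 1 x = β x ∧ P 2 x = x + δ ∧ P 3 x = x) ∧
        (∀ i x, s ≤ x → |P i x - x| ≤ A * δ ∧ |LD (P i) x| ≤ A * δ) ∧ (∀ x, s ≤ x → P 0 x ≠ x) ∧
        (∀ x, x ≤ s + 22 → wrd P x = wrd q x) ∧
        ∀ x ∈ Icc (s + 7) (s + 22), ⁅tr (q 0 s - s), β⁆ x = wrd q x := by
  obtain ⟨C, hC, hcut⟩ := exists_cutNT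
  obtain ⟨A₁, δ₁, hA₁, hδ₁, hend⟩ := left_end' hC₀ (show (0 : ℝ) ≤ 20 by norm_num)
  have hC₀pos : 0 < C₀ := lt_of_lt_of_le one_pos hC₀
  have hCpos : 0 < C := lt_of_lt_of_le one_pos hC
  refine ⟨A₁ + C₀ + 1, min δ₁ (1 / (64 * C₀)), by linarith, lt_min hδ₁ (by positivity),
    fun δ hδ hδle => ?_⟩
  have hδ1 : δ ≤ δ₁ := hδle.trans (min_le_left _ _)
  have hδ2 : C₀ * δ ≤ 1 / 64 := by
    have h1 : δ ≤ 1 / (64 * C₀) := hδle.trans (min_le_right _ _)
    rw [le_div_iff₀ (by positivity)] at h1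
    linarith
  have hδ3 : δ ≤ 1 / 64 := le_trans (by nlinarith) hδ2
  obtain ⟨η₁, hη₁, hend'⟩ := hend δ hδ hδ1
  have hη0 : 0 < min (δ / 120) (min (η₁ / (60 * C)) (1 / (60 * C))) :=
    lt_min (by positivity) (lt_min (by positivity) (by positivity))
  refine ⟨min (δ / 120) (min (η₁ / (60 * C)) (1 / (60 * C))), hη0, ?_⟩
  generalize hη : min (δ / 120) (min (η₁ / (60 * C)) (1 / (60 * C))) = η at hη0
  have hηδ : η ≤ δ / 120 := by rw [← hη]; exact min_le_left _ _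
  have hηη₁ : C * (60 * η) ≤ η₁ := by
    have h1 : η ≤ η₁ / (60 * C) := by rw [← hη]; exact (min_le_right _ _).trans (min_le_left _ _)
    rw [le_div_iff₀ (by positivity)] at h1
    linarith
  have hη1 : C * (60 * η) ≤ 1 := by
    have h1 : η ≤ 1 / (60 * C) := by rw [← hη]; exact (min_le_right _ _).trans (min_le_right _ _)
    rw [le_div_iff₀ (by positivity)] at h1
    linarith
  intro q s hq hd0 hd hLD
  have hNT : ∀ i, ∀ x ∈ Icc s (s + 30), |q i x - (x + (q i s - s))| ≤ 60 * η ∧ |LD (q i) x| ≤ 60 * η := by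
    intro i x hx
    have h1 := NT_of_LD (a := s) (b := s + 30) (x₀ := s) (hq i) ⟨le_rfl, by linarith⟩
      (show η ≤ 1 / 2 by linarith) (fun y hy => hLD i y hy.1 hy.2) x hx
    refine ⟨h1.trans (le_of_eq (by ring)), (hLD i x hx.1 hx.2).trans (by linarith)⟩
  have hcut' := fun i => hcut (a := s) (b := s + 30) (d := q i s - s) (η := 60 * η) (hq i) (by linarith)
    (by linarith) hη1 (hNT i)
  choose qL hqL hqLNT hqLeq _ using hcut'
  have hdisp : ∀ i, ∀ x ∈ Icc s (s + 30), |q i x - x| ≤ C₀ * δ + 60 * η := by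
    intro i x hx
    have h1 : q i x - x = (q i x - (x + (q i s - s))) + (q i s - s) := by ring
    rw [h1]
    exact (abs_add_le _ _).trans (by linarith [(hNT i x hx).1, hd i])
  have hdisp' : ∀ i, ∀ x ∈ Icc s (s + 30), |q i x - x| ≤ 1 / 32 :=
    fun i x hx => (hdisp i x hx).trans (by linarith)
  obtain ⟨Q, hQ, hQl, hQr, hQn, hQ0, hQw, hQc⟩ := hend' (q := qL) (d := fun i => q i s - s) (z := s + 2)
    hqL (fun i => (hqLNT i).mono hηη₁) hd0 hd
  have hwL : ∀ x ∈ Icc (s + 3 / 4) (s + 29), wrd qL x = wrd q x := by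
    intro x hx
    refine wrd_congr_Icc (e := 1 / 32) (a := s + 1 / 2) (b := s + 30 - 1 / 2) (by norm_num)
      hqLeq ?_ x ⟨by linarith [hx.1], by linarith [hx.2]⟩
    intro i y hy
    rw [hqLeq i y hy]
    exact hdisp' i y ⟨by linarith [hy.1], by linarith [hy.2]⟩
  obtain ⟨P, hP, hPl, hPr, hPwl, hPwr, hPLl, hPLr⟩ := glue_quad (P := q) (R := Q) hq hQ (z := s + 5 / 4)
    (fun i x hx => by
      rw [abs_le] at hx
      rw [hQl i x (by linarith), hqLeq i x ⟨by linarith, by linarith⟩])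
    (fun i x hx => by
      rw [abs_le] at hx
      exact hdisp' i x ⟨by linarith, by linarith⟩)
  refine ⟨P, Q 1, hQ 1, hP, (hQn 1).mono (by nlinarith), fun i x hx => hPl i x (by linarith), ?_, ?_, ?_,
    ?_, ?_⟩
  · intro x hx
    have h1 := hQr x (by linarith)
    rw [hPr 0 x (by linarith), hPr 1 x (by linarith), hPr 2 x (by linarith), hPr 3 x (by linarith)]
    exact ⟨h1.1, rfl, h1.2.1, h1.2.2⟩
  · intro i x hx
    rcases le_or_gt x (s + 5 / 4) with h | h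
    · rw [hPl i x (by linarith), hPLl i x h]
      exact ⟨(hdisp i x ⟨hx, by linarith⟩).trans (by nlinarith),
        (hLD i x hx (by linarith)).trans (by nlinarith)⟩
    · rw [hPr i x (by linarith), hPLr i x h.le]
      exact ⟨((hQn i x).1).trans (by nlinarith), ((hQn i x).2).trans (by nlinarith)⟩
  · intro x hx
    rcases le_or_gt x (s + 5 / 4) with h | h
    · rw [hPl 0 x (by linarith)]
      intro h0
      have h1 := (hNT 0 x ⟨hx, by linarith⟩).1
      rw [h0] at h1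
      have h2 : x - (x + (q 0 s - s)) = -(q 0 s - s) := by ring
      rw [h2, abs_neg, hd0] at h1
      linarith
    · rw [hPr 0 x (by linarith)]
      exact hQ0 x
  · intro x hx
    rcases le_or_gt x (s + 5 / 4) with h | h
    · exact hPwl x h
    · rw [hPwr x h.le, hQw x (by linarith), hwL x ⟨by linarith, by linarith⟩]
  · intro x hx
    rw [hQc x ⟨by linarith [hx.1], by linarith [hx.2]⟩, hwL x ⟨by linarith [hx.1], by linarith [hx.2]⟩]

end FG
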