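import Pool.Agent.helper97.FG.N6
import Pool.Agent.helper97.FG.N0d

/-!
author: helper24
# N12b : the right end of `UnitN` (mirror image of N12a, with `right_end'`, `z = t - 2`, `L = 20`)
-/

set_option linter.unusedVariables false

open Set Filter Topology
open scoped commutatorElement
open Pool.Agent.helper35.FOL
open Pool.Agent.helper32.FolG (Q4 InDd wrd Fx)

namespace FG

theorem right_part {C₀ : ℝ} (hC₀ : 1 ≤ C₀) : ∃ A δ₀ : ℝ, 1 ≤ A ∧ 0 < δ₀ ∧ ∀ δ : ℝ, 0 < δ → δ ≤ δ₀ →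
    ∃ η : ℝ, 0 < η ∧ ∀ {q : Q4} {t : ℝ}, InDd q → |q 0 t - t| = δ → (∀ i, |q i t - t| ≤ C₀ * δ) →
      (∀ i x, t - 30 ≤ x → x ≤ t → |LD (q i) x| ≤ η) →
      ∃ P : Q4, ∃ β ∈ Dd, InDd P ∧ Near (A * δ) β ∧ (∀ i x, t - 1 ≤ x → P i x = q i x) ∧
        (∀ x, x ≤ t - 6 → P 0 x = x + (q 0 t - t) ∧ P 1 x = β x ∧ P 2 x = x + δ ∧ P 3 x = x) ∧
        (∀ i x, x ≤ t → |P i x - x| ≤ A * δ ∧ |LD (P i) x| ≤ A * δ) ∧ (∀ x, x ≤ t → P 0 x ≠ x) ∧
        (∀ x, t - 22 ≤ x → wrd P x = wrd q x) ∧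
        ∀ x ∈ Icc (t - 22) (t - 7), ⁅tr (q 0 t - t), β⁆ x = wrd q x := by
  obtain ⟨C, hC, hcut⟩ := exists_cutNT
  obtain ⟨A₁, δ₁, hA₁, hδ₁, hend⟩ := right_end' hC₀ (show (0 : ℝ) ≤ 20 by norm_num)
  have hC₀pos : 0 < C₀ := lt_of_lt_of_le one_pos hC₀
  have hCpos : 0 < C := lt_of_lt_of_le one_pos hC
  refine ⟨A₁ + C₀ + 1, min δ₁ (1 / (64 * C₀)), by linarith, lt_min hδ₁ (by positivity),
    fun δ hδ hδle => ?_⟩
  have hδ1 : δ ≤ δ₁ := hδle.trans (min_le_left _ _)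
  have hδ2 : C₀ * δ ≤ 1 / 64 := by
    have h1 : δ ≤ 1 / (64 * C₀) := hδle.trans (min_le_right _ _)
    rw [le_div_iff₀ (by positivity)] at h1
    linarith
  have hδ3 : δ ≤ 1 / 64 := le_trans (by nlinarith) hδ2
  obtain ⟨η₁, hη₁, hend'⟩ := hend δ hδ hδ1
  have hη0 : 0 < min (δ / 120) (min (η₁ / (60 * C)) (1 / (60 * C))) :=
    lt_min (by positivity) (lt_min (by positivity) (by positivity))
  refine ⟨min (δ / 120) (min (η₁ / (60 * C)) (1 / (60 * C))), hη0, ?_⟩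
  generalize hη : min (δ / 120) (min (η₁ / (60 * C)) (1 / (60 * C))) = η at hη0
  have hηδ : η ≤ δ / 120 := by rw [← hη]; exact min_le_left _ _
  have hηη₁ : C * (60 * η) ≤ η₁ := by
    have h1 : η ≤ η₁ / (60 * C) := by rw [← hη]; exact (min_le_right _ _).trans (min_le_left _ _)
    rw [le_div_iff₀ (by positivity)] at h1
    linarith
  have hη1 : C * (60 * η) ≤ 1 := by
    have h1 : η ≤ 1 / (60 * C) := by rw [← hη]; exact (min_le_right _ _).trans (min_le_right _ _)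
    rw [le_div_iff₀ (by positivity)] at h1
    linarith
  intro q t hq hd0 hd hLD
  have hNT : ∀ i, ∀ x ∈ Icc (t - 30) t, |q i x - (x + (q i t - t))| ≤ 60 * η ∧ |LD (q i) x| ≤ 60 * η := by
    intro i x hx
    have h1 := NT_of_LD (a := t - 30) (b := t) (x₀ := t) (hq i) ⟨by linarith, le_rfl⟩
      (show η ≤ 1 / 2 by linarith) (fun y hy => hLD i y hy.1 hy.2) x hx
    refine ⟨h1.trans (le_of_eq (by ring)), (hLD i x hx.1 hx.2).trans (by linarith)⟩
  have hcut' := fun i => hcut (a := t - 30) (b := t) (d := q i t - t) (η := 60 * η) (hq i) (by linarith)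
    (by linarith) hη1 (hNT i)
  choose qR hqR hqRNT hqReq _ using hcut'
  have hdisp : ∀ i, ∀ x ∈ Icc (t - 30) t, |q i x - x| ≤ C₀ * δ + 60 * η := by
    intro i x hx
    have h1 : q i x - x = (q i x - (x + (q i t - t))) + (q i t - t) := by ring
    rw [h1]
    exact (abs_add_le _ _).trans (by linarith [(hNT i x hx).1, hd i])
  have hdisp' : ∀ i, ∀ x ∈ Icc (t - 30) t, |q i x - x| ≤ 1 / 32 :=
    fun i x hx => (hdisp i x hx).trans (by linarith)
  obtain ⟨Q, hQ, hQr, hQl, hQn, hQ0, hQw, hQc⟩ := hend' (q := qR) (d := fun i => q i t - t) (z := t - 2)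
    hqR (fun i => (hqRNT i).mono hηη₁) hd0 hd
  have hwR : ∀ x ∈ Icc (t - 29) (t - 3 / 4), wrd qR x = wrd q x := by
    intro x hx
    refine wrd_congr_Icc (e := 1 / 32) (a := t - 30 + 1 / 2) (b := t - 1 / 2) (by norm_num)
      hqReq ?_ x ⟨by linarith [hx.1], by linarith [hx.2]⟩
    intro i y hy
    rw [hqReq i y hy]
    exact hdisp' i y ⟨by linarith [hy.1], by linarith [hy.2]⟩
  have hQq : ∀ i x, |x - (t - 5 / 4)| ≤ 1 / 2 → Q i x = q i x := by
    intro i x hx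
    rw [abs_le] at hx
    rw [hQr i x (by linarith), hqReq i x ⟨by linarith, by linarith⟩]
  obtain ⟨P, hP, hPl, hPr, hPwl, hPwr, hPLl, hPLr⟩ := glue_quad (P := Q) (R := q) hQ hq (z := t - 5 / 4)
    hQq
    (fun i x hx => by
      rw [hQq i x hx]
      rw [abs_le] at hx
      exact hdisp' i x ⟨by linarith, by linarith⟩)
  refine ⟨P, Q 1, hQ 1, hP, (hQn 1).mono (by nlinarith), fun i x hx => hPr i x (by linarith), ?_, ?_, ?_,
    ?_, ?_⟩
  · intro x hx
    have h1 := hQl x (by linarith)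
    rw [hPl 0 x (by linarith), hPl 1 x (by linarith), hPl 2 x (by linarith), hPl 3 x (by linarith)]
    exact ⟨h1.1, rfl, h1.2.1, h1.2.2⟩
  · intro i x hx
    rcases le_or_gt (t - 5 / 4) x with h | h
    · rw [hPr i x (by linarith), hPLr i x h]
      exact ⟨(hdisp i x ⟨by linarith, hx⟩).trans (by nlinarith),
        (hLD i x (by linarith) hx).trans (by nlinarith)⟩
    · rw [hPl i x (by linarith), hPLl i x h.le]
      exact ⟨((hQn i x).1).trans (by nlinarith), ((hQn i x).2).trans (by nlinarith)⟩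
  · intro x hx
    rcases le_or_gt (t - 5 / 4) x with h | h
    · rw [hPr 0 x (by linarith)]
      intro h0
      have h1 := (hNT 0 x ⟨by linarith, hx⟩).1
      rw [h0] at h1
      have h2 : x - (x + (q 0 t - t)) = -(q 0 t - t) := by ring
      rw [h2, abs_neg, hd0] at h1
      linarith
    · rw [hPl 0 x (by linarith)]
      exact hQ0 x
  · intro x hx
    rcases le_or_gt (t - 5 / 4) x with h | h
    · exact hPwr x h
    · rw [hPwl x h.le, hQw x (by linarith), hwR x ⟨by linarith, by linarith⟩]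
  · intro x hx
    rw [hQc x ⟨by linarith [hx.1], by linarith [hx.2]⟩, hwR x ⟨by linarith [hx.1], by linarith [hx.2]⟩]

end FG
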