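import Pool.Agent.helper97.FG.N11
import Pool.Agent.helper97.FG.N12a
import Pool.Agent.helper97.FG.N12b
import Pool.Agent.helper97.FG.U0

/-!
author: helper22
# N12 : Lemma N in the unit coordinate

`left_part` at `0`: `P`, `βl`;  `right_part` at `n`: `R`, `βr`.  `F` := cut of `wrd q` on `[1, n-1]` (`exists_cutNT`, `d = 0`):
equal to `wrd q` on `[3/2, n - 3/2]`, identity outside `[1, n-1]`.
`q 0 0 = σ δ`, `q 0 n - n = σ' δ` with `σ, σ' = ±1`.  Chain from `a = 12` to `n - 12`: `m ℓ = n - 24`, `ℓ ∈ [8, 16]`, with the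
parity of `m` such that `(-1)^m σ = σ'` (`exists_parity`, `n - 24 ≥ 32`), `A` = maximum of the two constants.
Glue `P | chain` at `12`, `chain | R` at `n - 12` (`glue_quad`).
No fixed points: `P 0` on `[0, 12]`, `Q 2 = x + δ` on `[12, n-12]`, `R 0` on `[n-12, n]`.
`wrd Q x = wrd q x`: `x ≤ 12`: `left_part`; `[12, n-12]`: `F = wrd q`; `x ≥ n - 12`: `right_part`.
-/

set_option linter.unusedVariables false

open Set Filter Topology
open scoped commutatorElement
open Pool.Agent.helper35.FOL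
open Pool.Agent.helper32.FolG (Q4 InDd wrd Fx)

namespace FG

/-- the number of cells -/
theorem exists_parity {T : ℝ} (hT : 32 ≤ T) (b : Bool) : ∃ (m : ℕ) (ℓ : ℝ), 1 ≤ m ∧ 8 ≤ ℓ ∧ ℓ ≤ 16 ∧
    m * ℓ = T ∧ ((-1 : ℝ) ^ m = if b then 1 else -1) := by
  have hm0 : (⌈T / 16⌉₊ : ℝ) < T / 16 + 1 := Nat.ceil_lt_add_one (by linarith)
  have hm1 : T / 16 ≤ (⌈T / 16⌉₊ : ℝ) := Nat.le_ceil _
  have key : ∀ m : ℕ, T / 16 ≤ (m : ℝ) → (m : ℝ) ≤ T / 8 →
      1 ≤ m ∧ 8 ≤ T / m ∧ T / m ≤ 16 ∧ m * (T / m) = T := by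
    intro m h1 h2
    have h3 : (2 : ℝ) ≤ m := by linarith
    have h4 : (0 : ℝ) < m := by linarith
    refine ⟨?_, ?_, ?_, ?_⟩
    · have : 2 ≤ m := by exact_mod_cast h3
      omega
    · rw [le_div_iff₀ h4]
      linarith
    · rw [div_le_iff₀ h4]
      linarith
    · field_simp
  rcases Nat.even_or_odd ⌈T / 16⌉₊ with he | ho
  · cases b with
    | true =>
      obtain ⟨k1, k2, k3, k4⟩ := key ⌈T / 16⌉₊ hm1 (by linarith)
      exact ⟨_, _, k1, k2, k3, k4, by rw [he.neg_one_pow]; rfl⟩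
    | false =>
      obtain ⟨k1, k2, k3, k4⟩ := key (⌈T / 16⌉₊ + 1) (by push_cast; linarith)
        (by push_cast; linarith)
      exact ⟨_, _, k1, k2, k3, k4, by rw [he.add_one.neg_one_pow]; rfl⟩
  · cases b with
    | true =>
      obtain ⟨k1, k2, k3, k4⟩ := key (⌈T / 16⌉₊ + 1) (by push_cast; linarith)
        (by push_cast; linarith)
      exact ⟨_, _, k1, k2, k3, k4, by rw [ho.add_one.neg_one_pow]; rfl⟩
    | false =>
      obtain ⟨k1, k2, k3, k4⟩ := key ⌈T / 16⌉₊ hm1 (by linarith)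
      exact ⟨_, _, k1, k2, k3, k4, by rw [ho.neg_one_pow]; rfl⟩

private theorem sign_of_abs {u δ : ℝ} (h : |u| = δ) : ∃ σ : ℝ, (σ = 1 ∨ σ = -1) ∧ u = σ * δ := by
  rcases le_total 0 u with h0 | h0
  · exact ⟨1, Or.inl rfl, by rw [← h, abs_of_nonneg h0, one_mul]⟩
  · exact ⟨-1, Or.inr rfl, by rw [← h, abs_of_nonpos h0]; ring⟩

private theorem exists_sign {T σ σ' : ℝ} (hT : 32 ≤ T) (hσ : σ = 1 ∨ σ = -1)
    (hσ' : σ' = 1 ∨ σ' = -1) : ∃ (m : ℕ) (ℓ : ℝ), 1 ≤ m ∧ 8 ≤ ℓ ∧ ℓ ≤ 16 ∧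
    m * ℓ = T ∧ (-1 : ℝ) ^ m * σ = σ' := by
  rcases hσ with rfl | rfl <;> rcases hσ' with rfl | rfl
  · obtain ⟨m, ℓ, h1, h2, h3, h4, h5⟩ := exists_parity hT true
    exact ⟨m, ℓ, h1, h2, h3, h4, by rw [h5]; norm_num⟩
  · obtain ⟨m, ℓ, h1, h2, h3, h4, h5⟩ := exists_parity hT false
    exact ⟨m, ℓ, h1, h2, h3, h4, by rw [h5]; norm_num⟩
  · obtain ⟨m, ℓ, h1, h2, h3, h4, h5⟩ := exists_parity hT false
    exact ⟨m, ℓ, h1, h2, h3, h4, by rw [h5]; norm_num⟩
  · obtain ⟨m, ℓ, h1, h2, h3, h4, h5⟩ := exists_parity hT true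
    exact ⟨m, ℓ, h1, h2, h3, h4, by rw [h5]; norm_num⟩

private theorem wrd_mem' {q : Q4} (hq : InDd q) : wrd q ∈ Dd := by
  have hc : ∀ {g h : ℝ ≃o ℝ}, g ∈ Dd → h ∈ Dd → ⁅g, h⁆ ∈ Dd := by
    intro g h hg hh
    rw [commutatorElement_def]
    exact Dd.mul_mem (Dd.mul_mem (Dd.mul_mem hg hh) (Dd.inv_mem hg)) (Dd.inv_mem hh)
  exact Dd.mul_mem (hc (hq 0) (hq 1)) (hc (hq 2) (hq 3))

theorem unitN : UnitN := by
  intro C₀ hC₀
  obtain ⟨AL, δL, hAL, hδL, HL⟩ := left_part hC₀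
  obtain ⟨AR, δR, hAR, hδR, HR⟩ := right_part hC₀
  obtain ⟨AC, δC, hAC, hδC, HC⟩ := chain (A := max AL AR) (hAL.trans (le_max_left _ _))
  obtain ⟨Cc, hCc, Hcut⟩ := exists_cutNT
  set A : ℝ := max AC (max AL AR) with hA
  have hACA : AC ≤ A := le_max_left _ _
  have hALA : AL ≤ A := (le_max_left _ _).trans (le_max_right _ _)
  have hARA : AR ≤ A := (le_max_right _ _).trans (le_max_right _ _)
  have hA1 : 1 ≤ A := hAC.trans hACA
  have hA0 : 0 < A := by linarith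
  refine ⟨A, min (min δL δR) (min δC (1 / (32 * A))), hA1,
    lt_min (lt_min hδL hδR) (lt_min hδC (by positivity)), fun δ hδ hδ0 => ?_⟩
  have hδL' : δ ≤ δL := hδ0.trans ((min_le_left _ _).trans (min_le_left _ _))
  have hδR' : δ ≤ δR := hδ0.trans ((min_le_left _ _).trans (min_le_right _ _))
  have hδC' : δ ≤ δC := hδ0.trans ((min_le_right _ _).trans (min_le_left _ _))
  have hδA : δ ≤ 1 / (32 * A) := hδ0.trans ((min_le_right _ _).trans (min_le_right _ _))
  have hAδ : A * δ ≤ 1 / 32 := by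
    rw [le_div_iff₀ (by positivity)] at hδA
    linarith
  have hALδ : AL * δ ≤ A * δ := mul_le_mul_of_nonneg_right hALA hδ.le
  have hARδ : AR * δ ≤ A * δ := mul_le_mul_of_nonneg_right hARA hδ.le
  have hACδ : AC * δ ≤ A * δ := mul_le_mul_of_nonneg_right hACA hδ.le
  obtain ⟨ηL, hηL, KL⟩ := HL δ hδ hδL'
  obtain ⟨ηR, hηR, KR⟩ := HR δ hδ hδR'
  obtain ⟨ηC, hηC, KC⟩ := HC δ hδ hδC'
  have hCc0 : 0 < Cc := by linarith
  refine ⟨min (min ηL ηR) (min (ηC / Cc) (1 / Cc)),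
    lt_min (lt_min hηL hηR) (lt_min (by positivity) (by positivity)), ?_⟩
  set η : ℝ := min (min ηL ηR) (min (ηC / Cc) (1 / Cc)) with hη
  have hη0 : 0 < η := lt_min (lt_min hηL hηR) (lt_min (by positivity) (by positivity))
  have e1 : η ≤ ηL := (min_le_left _ _).trans (min_le_left _ _)
  have e2 : η ≤ ηR := (min_le_left _ _).trans (min_le_right _ _)
  have e3 : Cc * η ≤ ηC := by
    have : η ≤ ηC / Cc := (min_le_right _ _).trans (min_le_left _ _)
    rw [le_div_iff₀ hCc0] at this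
    linarith
  have e4 : Cc * η ≤ 1 := by
    have : η ≤ 1 / Cc := (min_le_right _ _).trans (min_le_right _ _)
    rw [le_div_iff₀ hCc0] at this
    linarith
  intro n q hn hq hq0 hqn hC0 hCn hLD0 hLDn hw
  -- left part
  obtain ⟨P, βl, hβl, hP, nβl, P1, P2, P3, P4, P5, P6⟩ := KL (q := q) (s := 0) hq
    (by rw [sub_zero]; exact hq0) (fun i => by rw [sub_zero]; exact hC0 i)
    (fun i x h1 h2 => (hLD0 i x h1 (by linarith)).trans e1)
  -- right part
  obtain ⟨R, βr, hβr, hR, nβr, R1, R2, R3, R4, R5, R6⟩ := KR (q := q) (t := n) hq hqn hCn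
    (fun i x h1 h2 => (hLDn i x h1 h2).trans e2)
  -- the cut
  obtain ⟨F, hF, nF, F1, F2⟩ := Hcut (a := 1) (b := n - 1) (d := 0) (g := wrd q) (wrd_mem' hq)
    (by linarith) hη0.le e4 (fun x hx => by
      rw [add_zero]
      exact hw x hx.1 hx.2)
  have nF' : Near ηC F := (NT_zero.1 nF).mono e3
  -- signs
  obtain ⟨σ, hσ, hqσ⟩ := sign_of_abs hq0
  obtain ⟨σ', hσ', hqσ'⟩ := sign_of_abs hqn
  obtain ⟨m, ℓ, hm, hℓ1, hℓ2, hmℓ, hmσ⟩ := exists_sign (T := n - 24) (by linarith) hσ hσ'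
  have hb : 12 + m * ℓ = n - 12 := by rw [hmℓ]; ring
  obtain ⟨Qc, hQc⟩ := KC (m := m) (σ := σ) (a := 12) (ℓ := ℓ) (f := F) (βl := βl) (βr := βr) hm hσ
    hℓ1 hℓ2 hF hβl hβr nF' ⟨n, fun x hx => by
      have h1 : x ≤ 1 ∨ n - 1 ≤ x := by
        rcases le_total 0 x with h0 | h0
        · rw [abs_of_nonneg h0] at hx
          right
          linarith
        · left
          linarith
      rw [F2 x h1, add_zero]⟩
    (nβl.mono (mul_le_mul_of_nonneg_right (le_max_left _ _) hδ.le))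
    (nβr.mono (mul_le_mul_of_nonneg_right (le_max_right _ _) hδ.le))
    (fun x hx => by
      rw [F1 x ⟨by linarith [hx.1], by linarith [hx.2]⟩, ← P6 x ⟨by linarith [hx.1],
        by linarith [hx.2]⟩, sub_zero, hqσ])
    (fun x hx => by
      rw [hb] at hx
      rw [F1 x ⟨by linarith [hx.1], by linarith [hx.2]⟩, ← R6 x ⟨by linarith [hx.1],
        by linarith [hx.2]⟩, hqσ', hmσ])
  rw [hb, hmσ] at hQc
  -- first glueing
  have ag1 : ∀ i x, |x - 12| ≤ 1 / 2 → P i x = Qc i x := by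
    intro i x hx
    obtain ⟨h1, h2⟩ := abs_le.1 hx
    obtain ⟨a1, a2, a3, a4⟩ := P2 x (by linarith)
    obtain ⟨b1, b2, b3⟩ := hQc.left x (by linarith)
    fin_cases i
    · change P 0 x = Qc 0 x
      rw [a1, b1, sub_zero, hqσ]
    · change P 1 x = Qc 1 x
      rw [a2, b2]
    · change P 2 x = Qc 2 x
      rw [a3, hQc.two]
    · change P 3 x = Qc 3 x
      rw [a4, b3]
  obtain ⟨Q1, hQ1, L1, L2, L3, L4, L5, L6⟩ := glue_quad hP hQc.mem (z := 12) ag1
    (fun i x hx => by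
      obtain ⟨h1, h2⟩ := abs_le.1 hx
      exact ((P3 i x (by linarith)).1.trans hALδ).trans hAδ)
  -- second glueing
  have ag2 : ∀ i x, |x - (n - 12)| ≤ 1 / 2 → Q1 i x = R i x := by
    intro i x hx
    obtain ⟨h1, h2⟩ := abs_le.1 hx
    rw [L2 i x (by linarith)]
    obtain ⟨a1, a2, a3, a4⟩ := R2 x (by linarith)
    obtain ⟨b1, b2, b3⟩ := hQc.right x (by linarith)
    fin_cases i
    · change Qc 0 x = R 0 x
      rw [a1, b1, hqσ']
    · change Qc 1 x = R 1 x
      rw [a2, b2]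
    · change Qc 2 x = R 2 x
      rw [a3, hQc.two]
    · change Qc 3 x = R 3 x
      rw [a4, b3]
  obtain ⟨Q, hQ, M1, M2, M3, M4, M5, M6⟩ := glue_quad hQ1 hR (z := n - 12) ag2
    (fun i x hx => by
      rw [ag2 i x hx]
      obtain ⟨h1, h2⟩ := abs_le.1 hx
      exact ((R3 i x (by linarith)).1.trans hARδ).trans hAδ)
  refine ⟨Q, hQ, ?_, ?_, ?_, ?_⟩
  · rintro i x (hx | hx)
    · rw [M1 i x (by linarith), L1 i x (by linarith), P1 i x (by linarith)]
    · rw [M2 i x (by linarith), R1 i x (by linarith)]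
  · intro i x h0 h1
    constructor
    · rcases le_total x (n - 12) with h2 | h2
      · rw [M1 i x (by linarith)]
        rcases le_total x 12 with h3 | h3
        · rw [L1 i x (by linarith)]
          exact (P3 i x h0).1.trans hALδ
        · rw [L2 i x (by linarith)]
          exact ((hQc.near i) x).1.trans hACδ
      · rw [M2 i x (by linarith)]
        exact (R3 i x h1).1.trans hARδ
    · rcases le_total x (n - 12) with h2 | h2
      · rw [M5 i x h2]
        rcases le_total x 12 with h3 | h3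
        · rw [L5 i x h3]
          exact (P3 i x h0).2.trans hALδ
        · rw [L6 i x h3]
          exact ((hQc.near i) x).2.trans hACδ
      · rw [M6 i x h2]
        exact (R3 i x h1).2.trans hARδ
  · refine OrderIso.ext (funext fun x => ?_)
    rcases le_total x (n - 12) with h2 | h2
    · rw [M3 x h2]
      rcases le_total x 12 with h3 | h3
      · rw [L3 x h3, P5 x (by linarith)]
      · rw [L4 x h3, hQc.eq x ⟨h3, h2⟩, F1 x ⟨by linarith, by linarith⟩]
    · rw [M4 x h2, R5 x (by linarith)]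
  · intro x h0 h1 hfx
    rcases le_total x (n - 12) with h2 | h2
    · rcases le_total x 12 with h3 | h3
      · have h4 := hfx 0
        rw [M1 0 x (by linarith), L1 0 x (by linarith)] at h4
        exact P4 x h0 h4
      · have h4 := hfx 2
        rw [M1 2 x (by linarith), L2 2 x (by linarith), hQc.two] at h4
        linarith
    · have h4 := hfx 0
      rw [M2 0 x (by linarith)] at h4
      exact R4 x h1 h4

end FG
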