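import Pool.Agent.helper97.FG.B1

/-!
author: helper51
# B1b : mean value inequalities, construction and gluing of elements of `Dd`

* `abs_sub_le_exp`, `exp_mul_le_abs_sub`: mean value theorem for `g`, derivative `exp (LD g)`.
* `exists_Dd`: `f` is strictly monotone and surjective (`StrictMono.orderIsoOfSurjective`).
* `exists_glue`: `k x = if x < (p+q)/2 then g x else h x`; strictly monotone, surjective (intermediate values or directly),
  `C¹` because it agrees locally with `g` or `h` (near `(p+q)/2` with both).
-/

set_option linter.unusedVariables false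

open Set Filter Topology
open scoped commutatorElement
open Pool.Agent.helper35.FOL

namespace FG

variable {g h : ℝ ≃o ℝ}

/-- mean value inequality, upper bound -/
theorem abs_sub_le_exp (hg : g ∈ Dd) {s x y : ℝ} (hs : ∀ z ∈ uIcc x y, LD g z ≤ s) :
    |g x - g y| ≤ Real.exp s * |x - y| := by
  rw [abs_sub_comm, abs_sub_comm x y]
  have h1 := Convex.norm_image_sub_le_of_norm_deriv_le (f := ⇑g) (C := Real.exp s)
    (s := uIcc x y) (x := x) (y := y) (fun z _ => Dd_differentiable hg z) (fun z hz => by
      rw [Real.norm_eq_abs, abs_of_pos (hg.2 z), deriv_eq_exp hg, Real.exp_le_exp]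
      exact hs z hz) (convex_uIcc x y) left_mem_uIcc right_mem_uIcc
  simpa only [Real.norm_eq_abs] using h1

/-- mean value inequality, lower bound -/
theorem exp_mul_le_abs_sub (hg : g ∈ Dd) {s x y : ℝ} (hs : ∀ z ∈ uIcc x y, s ≤ LD g z) :
    Real.exp s * |x - y| ≤ |g x - g y| := by
  have key : ∀ a b : ℝ, a ≤ b → (∀ z ∈ Icc a b, s ≤ LD g z) →
      Real.exp s * (b - a) ≤ g b - g a := by
    intro a b hab hz
    refine Convex.mul_sub_le_image_sub_of_le_deriv (convex_Icc a b)
      (Dd_differentiable hg).continuous.continuousOn (Dd_differentiable hg).differentiableOn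
      ?_ a (left_mem_Icc.2 hab) b (right_mem_Icc.2 hab) hab
    intro z hz'
    rw [deriv_eq_exp hg, Real.exp_le_exp]
    exact hz z (interior_subset hz')
  rcases le_total x y with h1 | h1
  · rw [uIcc_of_le h1] at hs
    rw [abs_sub_comm x y, abs_sub_comm (g x), abs_of_nonneg (by linarith),
      abs_of_nonneg (sub_nonneg.2 (g.monotone h1))]
    exact key x y h1 hs
  · rw [uIcc_of_ge h1] at hs
    rw [abs_of_nonneg (by linarith), abs_of_nonneg (sub_nonneg.2 (g.monotone h1))]
    exact key y x h1 hs

/-- an increasing `C¹` function with positive derivative, unbounded in both directions, is an element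
of `Dd` -/
theorem exists_Dd {f : ℝ → ℝ} (hf : ContDiff ℝ 1 f) (hpos : ∀ x, 0 < deriv f x)
    (htop : Tendsto f atTop atTop) (hbot : Tendsto f atBot atBot) :
    ∃ g ∈ Dd, (∀ x, g x = f x) ∧ ∀ x, LD g x = Real.log (deriv f x) := by
  have hmono : StrictMono f := strictMono_of_deriv_pos hpos
  have hsurj : Function.Surjective f := hf.continuous.surjective htop hbot
  have hcoe : ⇑(StrictMono.orderIsoOfSurjective f hmono hsurj) = f := rfl
  refine ⟨StrictMono.orderIsoOfSurjective f hmono hsurj, ⟨?_, ?_⟩, fun _ => rfl, fun x => ?_⟩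
  · rw [hcoe]
    exact hf
  · rw [hcoe]
    exact hpos
  · unfold LD
    rw [hcoe]

/-- the same for a function at bounded distance from the identity -/
theorem exists_Dd_of_bdd {f : ℝ → ℝ} (hf : ContDiff ℝ 1 f) (hpos : ∀ x, 0 < deriv f x)
    {C : ℝ} (hC : ∀ x, |f x - x| ≤ C) :
    ∃ g ∈ Dd, (∀ x, g x = f x) ∧ ∀ x, LD g x = Real.log (deriv f x) := by
  refine exists_Dd hf hpos ?_ ?_
  · refine tendsto_atTop_mono (fun x => ?_) (tendsto_atTop_add_const_right atTop (-C) tendsto_id)
    have := (abs_le.1 (hC x)).1
    change x + -C ≤ f x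
    linarith
  · refine tendsto_atBot_mono (fun x => ?_) (tendsto_atBot_add_const_right atBot C tendsto_id)
    have := (abs_le.1 (hC x)).2
    change f x ≤ x + C
    linarith

/-- gluing two elements of `Dd` which agree on an open interval -/
theorem exists_glue (hg : g ∈ Dd) (hh : h ∈ Dd) {p q : ℝ} (hpq : p < q)
    (hgh : ∀ x, p < x → x < q → g x = h x) :
    ∃ k ∈ Dd, (∀ x, x < q → k x = g x) ∧ ∀ x, p < x → k x = h x := by
  classical
  set k : ℝ → ℝ := fun x => if x < (p + q) / 2 then g x else h x with hk
  have hkg : ∀ x, x < q → k x = g x := by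
    intro x hx
    rw [hk]
    by_cases h1 : x < (p + q) / 2
    · simp only [h1, if_true]
    · simp only [h1, if_false]
      rw [not_lt] at h1
      exact (hgh x (by linarith) hx).symm
  have hkh : ∀ x, p < x → k x = h x := by
    intro x hx
    rw [hk]
    by_cases h1 : x < (p + q) / 2
    · simp only [h1, if_true]
      exact hgh x hx (by linarith)
    · simp only [h1, if_false]
  have hev : ∀ x, k =ᶠ[𝓝 x] g ∨ k =ᶠ[𝓝 x] h := by
    intro x
    rcases lt_or_ge x q with h1 | h1
    · left
      filter_upwards [Iio_mem_nhds h1] with y hy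
      exact hkg y hy
    · right
      filter_upwards [Ioi_mem_nhds (lt_of_lt_of_le hpq h1)] with y hy
      exact hkh y hy
  have hc : ContDiff ℝ 1 k := by
    rw [contDiff_iff_contDiffAt]
    intro x
    rcases hev x with h1 | h1
    · exact (hg.1.contDiffAt).congr_of_eventuallyEq h1
    · exact (hh.1.contDiffAt).congr_of_eventuallyEq h1
  have hp : ∀ x, 0 < deriv k x := by
    intro x
    rcases hev x with h1 | h1
    · rw [h1.deriv_eq]
      exact hg.2 x
    · rw [h1.deriv_eq]
      exact hh.2 x
  have ht : Tendsto k atTop atTop := by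
    refine Tendsto.congr' ?_ h.tendsto_atTop
    filter_upwards [eventually_gt_atTop p] with x hx
    exact (hkh x hx).symm
  have hb : Tendsto k atBot atBot := by
    refine Tendsto.congr' ?_ g.tendsto_atBot
    filter_upwards [eventually_lt_atBot q] with x hx
    exact (hkg x hx).symm
  obtain ⟨w, hw, hw1, _⟩ := exists_Dd hc hp ht hb
  exact ⟨w, hw, fun x hx => by rw [hw1, hkg x hx], fun x hx => by rw [hw1, hkh x hx]⟩

end FG
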