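import Pool.Agent.helper97.FG.B2b

/-!
# B3 : the fixed point lemma (FP)

author: helper91

Iterate `Ψ` from `1`: `gₙ₊₁ = Ψ gₙ`.  `sup |gₙ₊₁ - gₙ| ≤ 2⁻ⁿ · const`, so `gₙ` converges uniformly.  `LD gₙ`
has the modulus `Wₙ h = ∑_{j<n} 2⁻ʲ w₀ (Cʲ h) ≤ W h := ∑' 2⁻ʲ w₀ (Cʲ h)`, and `W` is an `IsMod` (`w₀` is bounded;
dominated convergence).  Equicontinuous derivatives of a uniformly convergent sequence converge uniformly
(difference quotients with a small step), so the limit `g` is `C¹`, `Near p g`, and it is in the class; `Ψ g = g`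
by the contraction property.
-/

set_option linter.unusedVariables false

open Set Filter Topology
open scoped commutatorElement
open Pool.Agent.helper35.FOL

namespace FG

variable {g h : ℝ ≃o ℝ} {w w₁ w₂ φ : ℝ → ℝ}

/-- the iterates -/
private noncomputable def B3_it (Ψ : (ℝ ≃o ℝ) → (ℝ ≃o ℝ)) : ℕ → (ℝ ≃o ℝ)
  | 0 => 1
  | n + 1 => Ψ (B3_it Ψ n)

/-- the moduli of the iterates -/
private noncomputable def B3_W (w₀ : ℝ → ℝ) (C : ℝ) : ℕ → ℝ → ℝ
  | 0 => fun _ => 0
  | n + 1 => fun h => w₀ h + B3_W w₀ C n (C * h) / 2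

private theorem B3_W_isMod {w₀ : ℝ → ℝ} (hw₀ : IsMod w₀) {C : ℝ} (hC : 1 ≤ C) (n : ℕ) :
    IsMod (B3_W w₀ C n) := by
  induction n with
  | zero => exact isMod_zero
  | succ n ih =>
    have h1 := hw₀.add ((ih.comp_mul (c := C) (by linarith)).smul (c := 1 / 2) (by norm_num))
    have h2 : B3_W w₀ C (n + 1) = fun h => w₀ h + 1 / 2 * B3_W w₀ C n (C * h) := by
      funext h
      show w₀ h + B3_W w₀ C n (C * h) / 2 = _
      ring
    rw [h2]
    exact h1

private theorem B3_W_small {w₀ : ℝ → ℝ} (hw₀ : IsMod w₀) {C : ℝ} (hC : 1 ≤ C) {ε : ℝ} (hε : 0 < ε) :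
    ∃ δ : ℝ, 0 < δ ∧ ∀ n h, 0 < h → h < δ → B3_W w₀ C n h ≤ ε := by
  obtain ⟨B', hB'⟩ := hw₀.bdd
  obtain ⟨B, hB0, hB⟩ : ∃ B : ℝ, 0 ≤ B ∧ ∀ h, w₀ h ≤ B :=
    ⟨|B'|, abs_nonneg _, fun h => (hB' h).trans (le_abs_self _)⟩
  have hbd : ∀ n h, B3_W w₀ C n h ≤ 2 * B := by
    intro n
    induction n with
    | zero =>
      intro h
      show (0 : ℝ) ≤ 2 * B
      linarith
    | succ n ih =>
      intro h
      show w₀ h + B3_W w₀ C n (C * h) / 2 ≤ 2 * B
      have h1 := hB h
      have h2 := ih (C * h)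
      linarith
  -- the neighbourhood for `w₀`
  have h0 : ∀ᶠ h in 𝓝[>] (0 : ℝ), w₀ h < ε / 4 := hw₀.lim.eventually_lt_const (by linarith)
  rw [eventually_nhdsWithin_iff, Metric.eventually_nhds_iff] at h0
  obtain ⟨δ₀, hδ₀, h0⟩ := h0
  have h0' : ∀ h, 0 < h → h < δ₀ → w₀ h ≤ ε / 4 := by
    intro h h1 h2
    refine (h0 (y := h) ?_ h1).le
    rw [Real.dist_eq, sub_zero, abs_of_pos h1]
    exact h2
  have hk : ∀ k : ℕ, ∃ δ : ℝ, 0 < δ ∧ ∀ n h, 0 < h → h < δ →
      B3_W w₀ C n h ≤ 2 * B / 2 ^ k + ε / 2 := by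
    intro k
    induction k with
    | zero =>
      refine ⟨1, one_pos, fun n h _ _ => ?_⟩
      have h1 := hbd n h
      rw [pow_zero, div_one]
      linarith
    | succ k ih =>
      obtain ⟨δ, hδ, h1⟩ := ih
      have hC0 : 0 < C := by linarith
      refine ⟨min δ₀ (δ / C), lt_min hδ₀ (div_pos hδ hC0), fun n h hh1 hh2 => ?_⟩
      rcases n with _ | n
      · show (0 : ℝ) ≤ _
        positivity
      · show w₀ h + B3_W w₀ C n (C * h) / 2 ≤ _
        have h2 := h0' h hh1 (lt_of_lt_of_le hh2 (min_le_left _ _))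
        have h3 : h < δ / C := lt_of_lt_of_le hh2 (min_le_right _ _)
        rw [lt_div_iff₀ hC0] at h3
        have h4 := h1 n (C * h) (by positivity) (by linarith)
        have h5 : 2 * B / 2 ^ (k + 1) = 2 * B / 2 ^ k / 2 := by
          rw [pow_succ]
          field_simp
        rw [h5]
        linarith
  obtain ⟨k, hk1⟩ : ∃ k : ℕ, 2 * B / 2 ^ k ≤ ε / 2 := by
    obtain ⟨k, hk⟩ := exists_nat_gt (4 * B / ε)
    refine ⟨k, ?_⟩
    rw [div_lt_iff₀ hε] at hk
    rw [div_le_iff₀ (by positivity)]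
    have h1 : (k : ℝ) ≤ 2 ^ k := by
      have := Nat.lt_two_pow_self (n := k)
      exact_mod_cast this.le
    have h2 : (k : ℝ) * ε ≤ 2 ^ k * ε := mul_le_mul_of_nonneg_right h1 hε.le
    linarith
  obtain ⟨δ, hδ, h1⟩ := hk k
  refine ⟨δ, hδ, fun n h hh1 hh2 => ?_⟩
  have := h1 n h hh1 hh2
  linarith

private theorem B3_exp {a b q : ℝ} (ha : a ≤ q) (hb : b ≤ q) :
    |Real.exp a - Real.exp b| ≤ Real.exp q * |a - b| := by
  have key : ∀ a b : ℝ, a ≤ q → b ≤ a → Real.exp a - Real.exp b ≤ Real.exp q * (a - b) := by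
    intro a b ha hab
    have h1 := Real.add_one_le_exp (b - a)
    have h2 : Real.exp b = Real.exp a * Real.exp (b - a) := by
      rw [← Real.exp_add]
      congr 1
      ring
    have h3 : Real.exp a ≤ Real.exp q := Real.exp_le_exp.2 ha
    have h4 : Real.exp a * (b - a + 1) ≤ Real.exp b := by
      rw [h2]
      exact mul_le_mul_of_nonneg_left h1 (Real.exp_pos a).le
    have h5 : Real.exp a * (a - b) ≤ Real.exp q * (a - b) :=
      mul_le_mul_of_nonneg_right h3 (by linarith)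
    linarith
  rcases le_total b a with h | h
  · rw [abs_of_nonneg (sub_nonneg.2 (Real.exp_le_exp.2 h)), abs_of_nonneg (sub_nonneg.2 h)]
    exact key a b ha h
  · rw [abs_sub_comm, abs_sub_comm a b, abs_of_nonneg (sub_nonneg.2 (Real.exp_le_exp.2 h)),
      abs_of_nonneg (sub_nonneg.2 h)]
    exact key b a hb h

theorem FP {p ta tb : ℝ} (hp : 0 ≤ p) (Ψ : (ℝ ≃o ℝ) → (ℝ ≃o ℝ))
    (hmap : ∀ g ∈ Cls p ta tb, Ψ g ∈ Cls p ta tb)
    (hcontr : ∀ g ∈ Cls p ta tb, ∀ h ∈ Cls p ta tb, ∀ d, (∀ x, |g x - h x| ≤ d) →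
      ∀ x, |Ψ g x - Ψ h x| ≤ d / 2)
    {w₀ : ℝ → ℝ} (hw₀ : IsMod w₀) {C : ℝ} (hC : 1 ≤ C)
    (hmod : ∀ g ∈ Cls p ta tb, ∀ w, IsMod w → Mod (LD g) w →
      Mod (LD (Ψ g)) (fun h => w₀ h + w (C * h) / 2)) :
    ∃ g ∈ Cls p ta tb, Ψ g = g := by
  set u : ℕ → (ℝ ≃o ℝ) := B3_it Ψ with hu
  have hu0 : u 0 = 1 := rfl
  have hus : ∀ n, u (n + 1) = Ψ (u n) := fun n => rfl
  have hcls : ∀ n, u n ∈ Cls p ta tb := by
    intro n
    induction n with
    | zero =>
      refine ⟨Dd.one_mem, fun x _ => rfl, fun x => ⟨?_, ?_⟩⟩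
      · have : (1 : ℝ ≃o ℝ) x - x = 0 := sub_self x
        rw [hu0, this, abs_zero]
        exact hp
      · rw [hu0, LD_one, abs_zero]
        exact hp
    | succ n ih => exact hmap _ ih
  have hDd : ∀ n, u n ∈ Dd := fun n => (hcls n).1
  -- the steps
  have hstep : ∀ n x, |u (n + 1) x - u n x| ≤ p / 2 ^ n := by
    intro n
    induction n with
    | zero =>
      intro x
      rw [pow_zero, div_one]
      exact ((hcls 1).2.2 x).1
    | succ n ih =>
      intro x
      have h1 := hcontr _ (hcls (n + 1)) _ (hcls n) _ ih x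
      rw [pow_succ, ← div_div]
      exact h1
  have hcauchy : ∀ n k x, |u (n + k) x - u n x| ≤ 2 * p / 2 ^ n - 2 * p / 2 ^ (n + k) := by
    intro n k x
    induction k with
    | zero => simp
    | succ k ih =>
      have h1 := hstep (n + k) x
      have h2 : u (n + (k + 1)) x - u n x =
          (u (n + k + 1) x - u (n + k) x) + (u (n + k) x - u n x) := by
        rw [← add_assoc]
        ring
      have h3 : 2 * p / 2 ^ (n + (k + 1)) = p / 2 ^ (n + k) := by
        rw [← add_assoc, pow_succ]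
        field_simp
      have h4 : 2 * p / 2 ^ (n + k) = p / 2 ^ (n + k) + p / 2 ^ (n + k) := by ring
      rw [h2, h3]
      refine (abs_add_le _ _).trans ?_
      linarith
  have hcauchy' : ∀ n m, n ≤ m → ∀ x, |u m x - u n x| ≤ 2 * p / 2 ^ n := by
    intro n m hnm x
    obtain ⟨k, rfl⟩ := Nat.exists_eq_add_of_le hnm
    have h1 := hcauchy n k x
    have h2 : 0 ≤ 2 * p / 2 ^ (n + k) := by positivity
    linarith
  have hsmall : ∀ ε : ℝ, 0 < ε → ∃ N : ℕ, ∀ n, N ≤ n → 2 * p / 2 ^ n ≤ ε := by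
    intro ε hε
    obtain ⟨k, hk⟩ := exists_nat_gt (2 * p / ε)
    refine ⟨k, fun n hn => ?_⟩
    rw [div_lt_iff₀ hε] at hk
    rw [div_le_iff₀ (by positivity)]
    have h1 : (k : ℝ) ≤ 2 ^ n := by
      have h2 := Nat.lt_two_pow_self (n := n)
      exact_mod_cast (hn.trans h2.le)
    have h2 : (k : ℝ) * ε ≤ 2 ^ n * ε := mul_le_mul_of_nonneg_right h1 hε.le
    linarith
  -- the limit
  have hlim : ∀ x, ∃ y, Tendsto (fun n => u n x) atTop (𝓝 y) := by
    intro x
    apply cauchySeq_tendsto_of_complete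
    rw [Metric.cauchySeq_iff']
    intro ε hε
    obtain ⟨N, hN⟩ := hsmall (ε / 2) (by linarith)
    refine ⟨N, fun n hn => ?_⟩
    rw [Real.dist_eq]
    have h1 := hcauchy' N n hn x
    have h2 := hN N le_rfl
    linarith
  choose G hG using hlim
  have hGu : ∀ n x, |G x - u n x| ≤ 2 * p / 2 ^ n := by
    intro n x
    have h1 : Tendsto (fun m => |u m x - u n x|) atTop (𝓝 |G x - u n x|) :=
      ((hG x).sub_const _).abs
    refine le_of_tendsto h1 ?_
    filter_upwards [eventually_ge_atTop n] with m hm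
    exact hcauchy' n m hm x
  -- the moduli
  have hW : ∀ n, Mod (LD (u n)) (B3_W w₀ C n) := by
    intro n
    induction n with
    | zero =>
      intro x y
      rw [hu0, LD_one, LD_one, sub_self, abs_zero]
      exact le_rfl
    | succ n ih => exact hmod _ (hcls n) _ (B3_W_isMod hw₀ hC n) ih
  have hder : ∀ n x, deriv (u n) x = Real.exp (LD (u n) x) := fun n x => deriv_eq_exp (hDd n) x
  have hLD : ∀ n x, |LD (u n) x| ≤ p := fun n x => ((hcls n).2.2 x).2
  -- equicontinuity of the derivatives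
  have hequi : ∀ ε : ℝ, 0 < ε → ∃ δ : ℝ, 0 < δ ∧ ∀ n x y, |x - y| < δ →
      |deriv (u n) x - deriv (u n) y| ≤ ε := by
    intro ε hε
    have hE : 0 < Real.exp p := Real.exp_pos p
    obtain ⟨δ, hδ, h1⟩ := B3_W_small hw₀ hC (ε := ε / Real.exp p) (div_pos hε hE)
    refine ⟨δ, hδ, fun n x y hxy => ?_⟩
    rcases eq_or_ne x y with rfl | hne
    · rw [sub_self, abs_zero]
      exact hε.le
    · have h2 : 0 < |x - y| := abs_pos.2 (sub_ne_zero.2 hne)
      have h3 := (hW n x y).trans (h1 n _ h2 hxy)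
      rw [hder, hder]
      refine (B3_exp ((abs_le.1 (hLD n x)).2) ((abs_le.1 (hLD n y)).2)).trans ?_
      rw [le_div_iff₀ hE] at h3
      linarith
  -- the derivatives are uniformly Cauchy
  have hslope : ∀ ε : ℝ, 0 < ε → ∃ s : ℝ, 0 < s ∧ ∀ n x,
      |deriv (u n) x - (u n (x + s) - u n x) / s| ≤ ε := by
    intro ε hε
    obtain ⟨δ, hδ, h1⟩ := hequi ε hε
    refine ⟨δ / 2, by linarith, fun n x => ?_⟩
    have hd : Differentiable ℝ (u n) := Dd_differentiable (hDd n)
    obtain ⟨ξ, hξ, h2⟩ := exists_deriv_eq_slope (u n) (show x < x + δ / 2 by linarith)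
      hd.continuous.continuousOn hd.differentiableOn
    rw [add_sub_cancel_left] at h2
    rw [← h2]
    apply h1
    rw [abs_sub_comm, abs_of_pos (by linarith [hξ.1])]
    linarith [hξ.2]
  have hdc : ∀ ε : ℝ, 0 < ε → ∃ N : ℕ, ∀ n, N ≤ n → ∀ m, N ≤ m → ∀ x,
      |deriv (u n) x - deriv (u m) x| ≤ ε := by
    intro ε hε
    obtain ⟨s, hs, h1⟩ := hslope (ε / 4) (by linarith)
    obtain ⟨N, hN⟩ := hsmall (ε * s / 8) (by positivity)
    refine ⟨N, fun n hn m hm x => ?_⟩
    have h2 : ∀ k, N ≤ k → ∀ y, |u k y - G y| ≤ ε * s / 8 := by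
      intro k hk y
      rw [abs_sub_comm]
      exact (hGu k y).trans (hN k hk)
    have h3 : ∀ k, N ≤ k →
        |(u k (x + s) - u k x) / s - (G (x + s) - G x) / s| ≤ ε / 4 := by
      intro k hk
      rw [← sub_div, abs_div, abs_of_pos hs, div_le_iff₀ hs]
      have e1 : u k (x + s) - u k x - (G (x + s) - G x) =
          (u k (x + s) - G (x + s)) - (u k x - G x) := by ring
      rw [e1]
      have h4 := abs_sub (u k (x + s) - G (x + s)) (u k x - G x)
      have h5 := h2 k hk (x + s)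
      have h6 := h2 k hk x
      linarith
    have h4 := h1 n x
    have h5 := h1 m x
    have h6 := h3 n hn
    have h7 := h3 m hm
    rw [abs_le] at h4 h5 h6 h7 ⊢
    constructor <;> linarith [h4.1, h4.2, h5.1, h5.2, h6.1, h6.2, h7.1, h7.2]
  have hdl : ∀ x, ∃ y, Tendsto (fun n => deriv (u n) x) atTop (𝓝 y) := by
    intro x
    apply cauchySeq_tendsto_of_complete
    rw [Metric.cauchySeq_iff']
    intro ε hε
    obtain ⟨N, hN⟩ := hdc (ε / 2) (by linarith)
    refine ⟨N, fun n hn => ?_⟩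
    rw [Real.dist_eq]
    have h1 := hN n hn N le_rfl x
    linarith
  choose H hH using hdl
  have hunif : TendstoUniformly (fun n x => deriv (u n) x) H atTop := by
    rw [Metric.tendstoUniformly_iff]
    intro ε hε
    obtain ⟨N, hN⟩ := hdc (ε / 2) (by linarith)
    filter_upwards [eventually_ge_atTop N] with n hn x
    rw [Real.dist_eq]
    have h1 : Tendsto (fun m => |deriv (u m) x - deriv (u n) x|) atTop
        (𝓝 |H x - deriv (u n) x|) := ((hH x).sub_const _).abs
    have h2 : |H x - deriv (u n) x| ≤ ε / 2 := by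
      refine le_of_tendsto h1 ?_
      filter_upwards [eventually_ge_atTop N] with m hm
      exact hN m hm n hn x
    linarith
  have hGd : ∀ x, HasDerivAt G (H x) x := by
    refine hasDerivAt_of_tendstoUniformly hunif (Eventually.of_forall fun n x => ?_) hG
    exact (Dd_differentiable (hDd n) x).hasDerivAt
  have hGder : deriv G = H := funext fun x => (hGd x).deriv
  have hHc : Continuous H := by
    refine hunif.continuous (Eventually.of_forall fun n => ?_).frequently
    exact (hDd n).1.continuous_deriv le_rfl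
  have hG1 : ContDiff ℝ 1 G := by
    rw [contDiff_one_iff_deriv, hGder]
    exact ⟨fun x => (hGd x).differentiableAt, hHc⟩
  have hHlow : ∀ x, Real.exp (-p) ≤ H x := by
    intro x
    refine ge_of_tendsto (hH x) (Eventually.of_forall fun n => ?_)
    rw [hder]
    exact Real.exp_le_exp.2 (abs_le.1 (hLD n x)).1
  have hHup : ∀ x, H x ≤ Real.exp p := by
    intro x
    refine le_of_tendsto (hH x) (Eventually.of_forall fun n => ?_)
    rw [hder]
    exact Real.exp_le_exp.2 (abs_le.1 (hLD n x)).2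
  have hHpos : ∀ x, 0 < H x := fun x => lt_of_lt_of_le (Real.exp_pos _) (hHlow x)
  have hGp : ∀ x, |G x - x| ≤ p := by
    intro x
    have h1 : Tendsto (fun m => |u m x - x|) atTop (𝓝 |G x - x|) := ((hG x).sub_const _).abs
    exact le_of_tendsto h1 (Eventually.of_forall fun n => ((hcls n).2.2 x).1)
  obtain ⟨g, hgD, hg1, hg2⟩ := exists_Dd_of_bdd hG1 (by rw [hGder]; exact hHpos) hGp
  have hgcls : g ∈ Cls p ta tb := by
    refine ⟨hgD, fun x hx => ?_, fun x => ⟨?_, ?_⟩⟩
    · rw [hg1]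
      refine tendsto_nhds_unique (hG x) ?_
      have h1 : (fun n => u n x) = fun _ => x := funext fun n => (hcls n).2.1 x hx
      rw [h1]
      exact tendsto_const_nhds
    · rw [hg1]
      exact hGp x
    · rw [hg2, hGder, abs_le]
      constructor
      · rw [Real.le_log_iff_exp_le (hHpos x)]
        exact hHlow x
      · rw [Real.log_le_iff_le_exp (hHpos x)]
        exact hHup x
  refine ⟨g, hgcls, ?_⟩
  ext x
  -- the contraction property
  have h1 : ∀ n, |u (n + 1) x - Ψ g x| ≤ 2 * p / 2 ^ n / 2 := by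
    intro n
    refine hcontr _ (hcls n) _ hgcls _ (fun y => ?_) x
    rw [hg1, abs_sub_comm]
    exact hGu n y
  have h2 : Tendsto (fun n => u (n + 1) x) atTop (𝓝 (G x)) :=
    (hG x).comp (tendsto_add_atTop_nat 1)
  rw [hg1]
  have h3 : Tendsto (fun n => u (n + 1) x) atTop (𝓝 (Ψ g x)) := by
    rw [Metric.tendsto_atTop]
    intro ε hε
    obtain ⟨N, hN⟩ := hsmall ε hε
    refine ⟨N, fun n hn => ?_⟩
    rw [Real.dist_eq]
    have h4 := h1 n
    have h5 := hN n hn
    linarith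
  exact tendsto_nhds_unique h3 h2

end FG
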