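import Pool.Agent.helper97.FG.B2
import Pool.Agent.helper97.FG.B1b

/-!
# B2b : existence of moduli, moduli of compositions (author: helper97)

`exists_isMod`: `w h = ⨆ {|φ x - φ y| : |x - y| ≤ h}` (sSup of a bounded set, `0` for `h ≤ 0` if you like).
`exists_Mod_conj`: `LD (a g b) x = LD a (g b x) + LD g (b x) + LD b x`; a function with a bounded modulus is bounded,
so `LD b` is bounded and `b` is Lipschitz.
-/

set_option linter.unusedVariables false

open Set Filter Topology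
open scoped commutatorElement
open Pool.Agent.helper35.FOL

namespace FG

variable {g h : ℝ ≃o ℝ} {w w₁ w₂ φ : ℝ → ℝ}

private theorem B2b_clamp {φ : ℝ → ℝ} (hc : Continuous φ) {lo hi : ℝ} (h : lo ≤ hi) :
    UniformContinuous (fun x => φ (max lo (min x hi))) ∧ ∃ B : ℝ, ∀ x, |φ (max lo (min x hi))| ≤ B := by
  have hmem : ∀ x : ℝ, max lo (min x hi) ∈ Icc lo hi := fun x =>
    ⟨le_max_left _ _, max_le h (min_le_right _ _)⟩
  constructor
  · have h1 : UniformContinuousOn φ (Icc lo hi) :=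
      isCompact_Icc.uniformContinuousOn_of_continuous hc.continuousOn
    rw [Metric.uniformContinuousOn_iff] at h1
    rw [Metric.uniformContinuous_iff]
    intro ε hε
    obtain ⟨δ, hδ, h2⟩ := h1 ε hε
    refine ⟨δ, hδ, fun {x y} hxy => ?_⟩
    refine h2 _ (hmem x) _ (hmem y) ?_
    rw [Real.dist_eq] at hxy ⊢
    refine lt_of_le_of_lt ?_ hxy
    calc |max lo (min x hi) - max lo (min y hi)| ≤ |min x hi - min y hi| := by
          have := abs_max_sub_max_le_abs (min x hi) (min y hi) lo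
          rw [max_comm lo, max_comm lo]
          exact this
      _ ≤ |x - y| := by
          have := abs_min_sub_min_le_max x hi y hi
          simpa using this
  · obtain ⟨B, hB⟩ := isCompact_Icc.exists_bound_of_continuousOn (hc.continuousOn (s := Icc lo hi))
    exact ⟨B, fun x => hB _ (hmem x)⟩

theorem exists_isMod {φ : ℝ → ℝ} (hu : UniformContinuous φ) {B : ℝ} (hb : ∀ x, |φ x| ≤ B) :
    ∃ w, IsMod w ∧ Mod φ w := by
  classical
  set S : ℝ → Set ℝ := fun h => {r | ∃ x y : ℝ, |x - y| ≤ h ∧ r = |φ x - φ y|} with hS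
  have hle : ∀ h, ∀ r ∈ S h, r ≤ 2 * B := by
    rintro h r ⟨x, y, -, rfl⟩
    have h1 := abs_le.1 (hb x)
    have h2 := abs_le.1 (hb y)
    rw [abs_le]
    constructor <;> linarith
  have hbdd : ∀ h, BddAbove (S h) := fun h => ⟨2 * B, hle h⟩
  have hne : ∀ h, 0 ≤ h → (0 : ℝ) ∈ S h := fun h hh => ⟨0, 0, by simpa using hh, by simp⟩
  have hB : 0 ≤ B := (abs_nonneg _).trans (hb 0)
  set w : ℝ → ℝ := fun h => if h ≤ 0 then 0 else sSup (S h) with hw
  have w0 : ∀ h, h ≤ 0 → w h = 0 := fun h hh => by simp only [hw]; rw [if_pos hh]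
  have w1 : ∀ h, 0 < h → w h = sSup (S h) := fun h hh => by
    simp only [hw]; rw [if_neg (not_le.2 hh)]
  have wnn : ∀ h, 0 ≤ w h := by
    intro h
    rcases le_or_gt h 0 with hh | hh
    · rw [w0 h hh]
    · rw [w1 h hh]
      exact le_csSup (hbdd h) (hne h hh.le)
  refine ⟨w, ⟨?_, wnn, ⟨2 * B, ?_⟩, ?_⟩, ?_⟩
  · intro a b hab
    rcases le_or_gt a 0 with ha | ha
    · rw [w0 a ha]
      exact wnn b
    · rw [w1 a ha, w1 b (ha.trans_le hab)]
      refine csSup_le_csSup (hbdd b) ⟨0, hne a ha.le⟩ ?_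
      rintro r ⟨x, y, h1, h2⟩
      exact ⟨x, y, h1.trans hab, h2⟩
  · intro h
    rcases le_or_gt h 0 with hh | hh
    · rw [w0 h hh]; positivity
    · rw [w1 h hh]
      exact csSup_le ⟨0, hne h hh.le⟩ (hle h)
  · rw [Metric.tendsto_nhdsWithin_nhds]
    intro ε hε
    rw [Metric.uniformContinuous_iff] at hu
    obtain ⟨δ, hδ, h1⟩ := hu (ε / 2) (half_pos hε)
    refine ⟨δ, hδ, fun {h} hh hd => ?_⟩
    have hh' : 0 < h := hh
    rw [Real.dist_eq, sub_zero, abs_of_pos hh'] at hd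
    rw [Real.dist_eq, sub_zero, abs_of_nonneg (wnn h), w1 h hh']
    refine lt_of_le_of_lt (csSup_le ⟨0, hne h hh'.le⟩ ?_) (half_lt_self hε)
    rintro r ⟨x, y, h2, rfl⟩
    have h3 := @h1 x y (by rw [Real.dist_eq]; exact lt_of_le_of_lt h2 hd)
    rw [Real.dist_eq] at h3
    exact h3.le
  · intro x y
    rcases eq_or_ne x y with rfl | hxy
    · simp only [sub_self, abs_zero]
      exact wnn 0
    · have h1 : 0 < |x - y| := abs_pos.2 (sub_ne_zero.2 hxy)
      rw [w1 _ h1]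
      exact le_csSup (hbdd _) ⟨x, y, le_rfl, rfl⟩

/-- a continuous function which is constant on `(-∞, a]` has a modulus on `(-∞, b]` -/
theorem exists_isMod_Iic {φ : ℝ → ℝ} (hc : Continuous φ) {a b : ℝ} (ha : ∀ x ≤ a, φ x = φ a) :
    ∃ w, IsMod w ∧ ModOn (Iic b) φ w := by
  obtain ⟨h1, B, h2⟩ := B2b_clamp hc (lo := a) (hi := max a b) (le_max_left _ _)
  obtain ⟨w, hw, h3⟩ := exists_isMod h1 h2
  refine ⟨w, hw, ?_⟩
  have key : ∀ x ∈ Iic b, φ (max a (min x (max a b))) = φ x := by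
    intro x hx
    have hx' : x ≤ b := hx
    rw [min_eq_left (hx'.trans (le_max_right _ _))]
    rcases le_total x a with h | h
    · rw [max_eq_left h, ha x h]
    · rw [max_eq_right h]
  intro x hx y hy
  have h4 := h3 x y
  simp only at h4
  rwa [key x hx, key y hy] at h4

/-- a continuous function which is constant on `(-∞, a]` and on `[b, ∞)` has a modulus -/
theorem exists_isMod_compact {φ : ℝ → ℝ} (hc : Continuous φ) {a b : ℝ} (ha : ∀ x ≤ a, φ x = φ a)
    (hb : ∀ x, b ≤ x → φ x = φ b) : ∃ w, IsMod w ∧ Mod φ w := by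
  obtain ⟨h1, B, h2⟩ := B2b_clamp hc (lo := a) (hi := max a b) (le_max_left _ _)
  obtain ⟨w, hw, h3⟩ := exists_isMod h1 h2
  refine ⟨w, hw, ?_⟩
  have key : ∀ x, φ (max a (min x (max a b))) = φ x := by
    intro x
    rcases le_total x a with h | h
    · rw [min_eq_left (h.trans (le_max_left _ _)), max_eq_left h, ha x h]
    · rcases le_total x (max a b) with h' | h'
      · rw [min_eq_left h', max_eq_right h]
      · rw [min_eq_right h', max_eq_right (le_max_left _ _), hb _ (le_max_right _ _),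
          hb x ((le_max_right _ _).trans h')]
  intro x y
  have h4 := h3 x y
  simp only at h4
  rwa [key x, key y] at h4

/-- composition -/
theorem Mod.LD_mul (hg : g ∈ Dd) (hh : h ∈ Dd) (hw : IsMod w₁) (h₁ : Mod (LD g) w₁)
    (h₂ : Mod (LD h) w₂) {c : ℝ} (hc : ∀ x, LD h x ≤ c) :
    Mod (LD (g * h)) (fun r => w₁ (Real.exp c * r) + w₂ r) := by
  intro x y
  rw [FG.LD_mul hg hh, FG.LD_mul hg hh]
  have e : LD g (h x) + LD h x - (LD g (h y) + LD h y) =
      (LD g (h x) - LD g (h y)) + (LD h x - LD h y) := by ring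
  rw [e]
  refine (abs_add_le _ _).trans (add_le_add ((h₁ _ _).trans (hw.mono ?_)) (h₂ _ _))
  exact abs_sub_le_exp hh fun z _ => hc z

/-- inverse -/
theorem Mod.LD_inv (hg : g ∈ Dd) (hw : IsMod w) (h : Mod (LD g) w) {c : ℝ} (hc : ∀ x, -c ≤ LD g x) :
    Mod (LD g⁻¹) (fun r => w (Real.exp c * r)) := by
  intro x y
  rw [FG.LD_inv hg, FG.LD_inv hg]
  have e : -LD g (g⁻¹ x) - -LD g (g⁻¹ y) = -(LD g (g⁻¹ x) - LD g (g⁻¹ y)) := by ring
  rw [e, abs_neg]
  refine (h _ _).trans (hw.mono ?_)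
  refine abs_sub_le_exp (Dd.inv_mem hg) fun z _ => ?_
  rw [FG.LD_inv hg]
  linarith [hc (g⁻¹ z)]

/-- conjugation by a fixed diffeomorphism does not increase the coefficient: if `LD g` has modulus `w` then
`LD (a g b)` has modulus `w₀ + w (c ·)` with `w₀` depending only on `a, b` and a bound of `LD g` -/
theorem exists_Mod_conj {a b : ℝ ≃o ℝ} (ha : a ∈ Dd) (hb : b ∈ Dd) (hau : ∃ w, IsMod w ∧ Mod (LD a) w)
    (hbu : ∃ w, IsMod w ∧ Mod (LD b) w) (B : ℝ) : ∃ w₀ c, IsMod w₀ ∧ 0 ≤ c ∧ ∀ g ∈ Dd,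
      (∀ x, |LD g x| ≤ B) → ∀ w, IsMod w → Mod (LD g) w →
        Mod (LD (a * g * b)) (fun r => w₀ r + w (c * r)) := by
  obtain ⟨wa, hwa, hma⟩ := hau
  obtain ⟨wb, hwb, hmb⟩ := hbu
  obtain ⟨Bb, hBb⟩ := hwb.bdd
  have hLb : ∀ x, LD b x ≤ |LD b 0| + Bb := by
    intro x
    have h1 := abs_le.1 ((hmb x 0).trans (hBb _))
    have h2 := le_abs_self (LD b 0)
    linarith [h1.2]
  refine ⟨fun r => wa (Real.exp B * Real.exp (|LD b 0| + Bb) * r) + wb r,
    Real.exp (|LD b 0| + Bb), (hwa.comp_mul (by positivity)).add hwb, (Real.exp_pos _).le, ?_⟩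
  intro g hg hgB w hw hm x y
  have hlip : ∀ x y, |b x - b y| ≤ Real.exp (|LD b 0| + Bb) * |x - y| := fun x y =>
    abs_sub_le_exp hb fun z _ => hLb z
  have hlipg : ∀ x y, |g x - g y| ≤ Real.exp B * |x - y| := fun x y =>
    abs_sub_le_exp hg fun z _ => (abs_le.1 (hgB z)).2
  rw [FG.LD_mul (Dd.mul_mem ha hg) hb, FG.LD_mul (Dd.mul_mem ha hg) hb, FG.LD_mul ha hg,
    FG.LD_mul ha hg]
  have e : LD a (g (b x)) + LD g (b x) + LD b x - (LD a (g (b y)) + LD g (b y) + LD b y) =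
      (LD a (g (b x)) - LD a (g (b y))) + (LD g (b x) - LD g (b y)) + (LD b x - LD b y) := by ring
  rw [e]
  have t1 : |LD a (g (b x)) - LD a (g (b y))| ≤
      wa (Real.exp B * Real.exp (|LD b 0| + Bb) * |x - y|) := by
    refine (hma _ _).trans (hwa.mono ?_)
    refine (hlipg _ _).trans ?_
    rw [mul_assoc]
    exact mul_le_mul_of_nonneg_left (hlip _ _) (Real.exp_pos _).le
  have t2 : |LD g (b x) - LD g (b y)| ≤ w (Real.exp (|LD b 0| + Bb) * |x - y|) :=
    (hm _ _).trans (hw.mono (hlip _ _))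
  have t3 := hmb x y
  have t4 := abs_add_le ((LD a (g (b x)) - LD a (g (b y))) + (LD g (b x) - LD g (b y)))
    (LD b x - LD b y)
  have t5 := abs_add_le (LD a (g (b x)) - LD a (g (b y))) (LD g (b x) - LD g (b y))
  show _ ≤ wa _ + wb _ + w _
  linarith

end FG
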