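import Pool.Agent.helper97.FG.C2a
import Pool.Agent.helper97.FG.B2b

/-!
author: helper41
# C2c : modulus of `Rop`

`f₁c`, `f₂c` have moduli (`exists_isMod_compact`), `LD D x = LD ψ⁻¹ (u⁻¹ x)` on `u(Q)`, `0` outside, `u⁻¹` is affine on `u(Q)`;
`exists_Mod_conj` for the conjugations.
-/

set_option linter.unusedVariables false

open Set Filter Topology
open scoped commutatorElement
open Pool.Agent.helper35.FOL

namespace FG

variable {κ θ₀ θ₁ cu ηc : ℝ} {u f₁ f₂ f₁c f₂c e e' : ℝ ≃o ℝ}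

private theorem LD_eq_of_eqOn' {g h : ℝ ≃o ℝ} (hg : g ∈ Dd) (hh : h ∈ Dd) {S : Set ℝ} (hS : UniqueDiffOn ℝ S)
    (he : ∀ y ∈ S, g y = h y) {x : ℝ} (hx : x ∈ S) : LD g x = LD h x := by
  have h1 : derivWithin g S x = deriv g x := (Dd_differentiable hg x).derivWithin (hS x hx)
  have h2 : derivWithin h S x = deriv h x := (Dd_differentiable hh x).derivWithin (hS x hx)
  have h3 : derivWithin g S x = derivWithin h S x := derivWithin_congr (fun y hy => he y hy) (he x hx)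
  unfold LD
  rw [← h1, ← h2, h3]

private theorem LD_zero_out {g : ℝ ≃o ℝ} (hg : g ∈ Dd) {κ : ℝ} (h : ∀ x, κ ≤ |x| → g x = x)
    {x : ℝ} (hx : κ ≤ |x|) : LD g x = 0 := by
  rw [← LD_one x]
  rcases le_abs.1 hx with h1 | h1
  · exact LD_eq_of_eqOn' hg Dd.one_mem (uniqueDiffOn_Ici κ)
      (fun y hy => h y (le_trans hy (le_abs_self y))) h1
  · exact LD_eq_of_eqOn' hg Dd.one_mem (uniqueDiffOn_Iic (-κ))
      (fun y hy => h y (le_trans (by simpa using neg_le_neg (mem_Iic.1 hy)) (neg_le_abs y)))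
      (mem_Iic.2 (by linarith))

private theorem mod_of_cut {g : ℝ ≃o ℝ} (hg : g ∈ Dd) {κ : ℝ} (hκ : 0 < κ) (h : ∀ x, κ ≤ |x| → g x = x) :
    ∃ w, IsMod w ∧ Mod (LD g) w := by
  refine exists_isMod_compact (continuous_LD hg) (a := -κ) (b := κ) (fun x hx => ?_) fun x hx => ?_
  · rw [LD_zero_out hg h (x := x) (le_trans (by linarith) (neg_le_abs x)),
      LD_zero_out hg h (x := -κ) (by rw [abs_neg]; exact le_abs_self κ)]
  · rw [LD_zero_out hg h (x := x) (le_trans hx (le_abs_self x)),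
      LD_zero_out hg h (x := κ) (le_abs_self κ)]

private theorem inv_fix {g : ℝ ≃o ℝ} {x : ℝ} (h : g x = x) : g⁻¹ x = x := by
  have h1 : g⁻¹ (g x) = x := g.symm_apply_apply x
  rwa [h] at h1

private theorem abs_LD_inv_le {g : ℝ ≃o ℝ} (hg : g ∈ Dd) {B : ℝ} (h : ∀ x, |LD g x| ≤ B) (x : ℝ) :
    |LD g⁻¹ x| ≤ B := by
  rw [LD_inv hg, abs_neg]
  exact h _

private theorem abs_LD_mul_le {g k : ℝ ≃o ℝ} (hg : g ∈ Dd) (hk : k ∈ Dd) {B B' : ℝ}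
    (h : ∀ x, |LD g x| ≤ B) (h' : ∀ x, |LD k x| ≤ B') (x : ℝ) : |LD (g * k) x| ≤ B + B' := by
  rw [LD_mul hg hk]
  exact (abs_add_le _ _).trans (add_le_add (h _) (h' _))

/-- conjugation by a map which is affine on `[-κ, κ]` of a map supported there -/
private theorem LD_conj_cut {u φ : ℝ ≃o ℝ} (hu : u ∈ Dd) (hφ : φ ∈ Dd) {κ cu : ℝ} (hκ : 0 < κ)
    (hcu : ∀ x ∈ Icc (-κ) κ, LD u x = cu) (h : ∀ x, κ ≤ |x| → φ x = x) (x : ℝ) :
    LD (u * φ * u⁻¹) x = LD φ (u⁻¹ x) := by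
  rw [LD_mul (Dd.mul_mem hu hφ) (Dd.inv_mem hu), LD_mul hu hφ, LD_inv hu]
  rcases le_total κ |u⁻¹ x| with h1 | h1
  · rw [h _ h1]
    ring
  · obtain ⟨h2, h3⟩ := abs_le.1 h1
    have h4 : φ (u⁻¹ x) ≤ κ := by
      rw [← h κ (le_abs_self κ)]
      exact φ.monotone h3
    have h5 : -κ ≤ φ (u⁻¹ x) := by
      rw [← h (-κ) (by rw [abs_neg]; exact le_abs_self κ)]
      exact φ.monotone h2
    rw [hcu _ ⟨h5, h4⟩, hcu _ ⟨h2, h3⟩]
    ring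

private theorem Mod_conj_cut {u φ : ℝ ≃o ℝ} (hu : u ∈ Dd) (hφ : φ ∈ Dd) {κ cu : ℝ} (hκ : 0 < κ)
    (hcu : ∀ x ∈ Icc (-κ) κ, LD u x = cu) (h : ∀ x, κ ≤ |x| → φ x = x) {W : ℝ → ℝ} (hW : IsMod W)
    (hm : Mod (LD φ) W) : Mod (LD (u * φ * u⁻¹)) (fun r => W (Real.exp (-cu) * r)) := by
  intro x y
  rw [LD_conj_cut hu hφ hκ hcu h, LD_conj_cut hu hφ hκ hcu h]
  -- projection to `Q`
  have hp : ∀ z, LD φ z = LD φ (max (-κ) (min κ z)) := by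
    intro z
    rcases le_total κ z with h1 | h1
    · rw [min_eq_left h1, max_eq_right (by linarith), LD_zero_out hφ h (le_trans h1 (le_abs_self z)),
        LD_zero_out hφ h (le_abs_self κ)]
    · rw [min_eq_right h1]
      rcases le_total (-κ) z with h2 | h2
      · rw [max_eq_right h2]
      · rw [max_eq_left h2, LD_zero_out hφ h (x := z) (le_trans (by linarith) (neg_le_abs z)),
          LD_zero_out hφ h (x := -κ) (by rw [abs_neg]; exact le_abs_self κ)]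
  have hQ : ∀ z, max (-κ) (min κ z) ∈ Icc (-κ) κ := fun z =>
    ⟨le_max_left _ _, max_le (by linarith) (min_le_left _ _)⟩
  rw [hp (u⁻¹ x), hp (u⁻¹ y)]
  refine (hm _ _).trans (hW.mono ?_)
  set p := max (-κ) (min κ (u⁻¹ x)) with hpd
  set q := max (-κ) (min κ (u⁻¹ y)) with hqd
  have hsub : uIcc p q ⊆ Icc (-κ) κ := by
    intro z hz
    rw [mem_uIcc] at hz
    rcases hz with hz | hz
    · exact ⟨(hQ _).1.trans hz.1, hz.2.trans (hQ _).2⟩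
    · exact ⟨(hQ _).1.trans hz.1, hz.2.trans (hQ _).2⟩
  have h1 := exp_mul_le_abs_sub hu (s := cu) (x := p) (y := q) (fun z hz => (hcu z (hsub hz)).ge)
  have hproj : ∀ z, u (max (-κ) (min κ (u⁻¹ z))) = max (u (-κ)) (min (u κ) z) := by
    intro z
    rw [u.monotone.map_max, u.monotone.map_min]
    have : u (u⁻¹ z) = z := u.apply_symm_apply z
    rw [this]
  have h2 : |u p - u q| ≤ |x - y| := by
    rw [hpd, hqd, hproj, hproj]
    calc |max (u (-κ)) (min (u κ) x) - max (u (-κ)) (min (u κ) y)|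
        ≤ max |u (-κ) - u (-κ)| |min (u κ) x - min (u κ) y| := abs_max_sub_max_le_max _ _ _ _
      _ ≤ max |u (-κ) - u (-κ)| (max |u κ - u κ| |x - y|) :=
          max_le_max le_rfl (abs_min_sub_min_le_max _ _ _ _)
      _ = |x - y| := by
          have h0 : max 0 |x - y| = |x - y| := max_eq_right (abs_nonneg _)
          rw [sub_self, sub_self, abs_zero, h0, h0]
  have h3 : Real.exp (-cu) * Real.exp cu = 1 := by rw [← Real.exp_add]; simp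
  calc |p - q| = Real.exp (-cu) * (Real.exp cu * |p - q|) := by rw [← mul_assoc, h3, one_mul]
    _ ≤ Real.exp (-cu) * |x - y| :=
        mul_le_mul_of_nonneg_left (h1.trans h2) (Real.exp_pos _).le

theorem Rop_mod (X : CoreX κ θ₀ θ₁ cu ηc u f₁ f₂ f₁c f₂c)
    (h₁ : ∃ w, IsMod w ∧ Mod (LD f₁) w) : ∃ w₀ C, IsMod w₀ ∧ 0 ≤ C ∧
    ∀ {e : ℝ ≃o ℝ}, e ∈ Dd → (∀ x, κ / 8 ≤ |x| → e x = x) → Near 1 e → ∀ w, IsMod w → Mod (LD e) w →
      Mod (LD (Rop u f₁ f₁c f₂c e)) (fun h => w₀ h + w (C * h)) := by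
  obtain ⟨wa, hwa, hma⟩ := h₁
  obtain ⟨wb, hwb, hmb⟩ := mod_of_cut X.f₁c_mem X.κ_pos X.c₁_out
  obtain ⟨wc, hwc, hmc⟩ := mod_of_cut X.f₂c_mem X.κ_pos X.c₂_out
  have n₁ : ∀ x, |LD f₁ x| ≤ ηc := fun x => (X.near₁ x).2
  have n₁c : ∀ x, |LD f₁c x| ≤ ηc := fun x => (X.near₁c x).2
  have n₂c : ∀ x, |LD f₂c x| ≤ ηc := fun x => (X.near₂c x).2
  have hi1 := Dd.inv_mem X.f₁c_mem
  have nic := abs_LD_inv_le X.f₁c_mem n₁c
  -- the map `F₁`
  have hF : f₁ * f₁c⁻¹ ∈ Dd := Dd.mul_mem X.f₁_mem hi1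
  have hmbi := Mod.LD_inv X.f₁c_mem hwb hmb (c := ηc) (fun x => (abs_le.1 (n₁c x)).1)
  have hwbi : IsMod (fun r => wb (Real.exp ηc * r)) := hwb.comp_mul (Real.exp_pos _).le
  have hmF := Mod.LD_mul X.f₁_mem hi1 hwa hma hmbi (c := ηc) (fun x => (abs_le.1 (nic x)).2)
  have hwF : IsMod (fun r => wa (Real.exp ηc * r) + (fun r => wb (Real.exp ηc * r)) r) :=
    (hwa.comp_mul (Real.exp_pos ηc).le).add hwbi
  have nF := abs_LD_mul_le X.f₁_mem hi1 n₁ nic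
  have hmFi := Mod.LD_inv hF hwF hmF (c := ηc + ηc) (fun x => (abs_le.1 (nF x)).1)
  have hwFi := hwF.comp_mul (Real.exp_pos (ηc + ηc)).le
  obtain ⟨w₁, c₁, hw₁, hc₁, H₁⟩ := exists_Mod_conj X.f₂c_mem X.f₁c_mem ⟨wc, hwc, hmc⟩ ⟨wb, hwb, hmb⟩ 1
  obtain ⟨w₂, c₂, hw₂, hc₂, H₂⟩ := exists_Mod_conj hF (Dd.inv_mem hF) ⟨_, hwF, hmF⟩ ⟨_, hwFi, hmFi⟩
    (ηc + 1 + ηc)
  have he0 : (0 : ℝ) ≤ Real.exp (-cu) := (Real.exp_pos _).le
  refine ⟨fun r => w₂ r + w₁ (Real.exp (-cu) * c₂ * r),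
    Real.exp 1 * c₁ * (Real.exp (-cu) * c₂), hw₂.add (hw₁.comp_mul (by positivity)),
    by positivity, ?_⟩
  intro e he hes hen w hw hm
  have hψ : psiOp f₁c f₂c e ∈ Dd := Dd.mul_mem (Dd.mul_mem hi1 he) (Dd.inv_mem X.f₂c_mem)
  have hψi : (psiOp f₁c f₂c e)⁻¹ = f₂c * e⁻¹ * f₁c := by
    unfold psiOp
    group
  have hei := Dd.inv_mem he
  have nei := abs_LD_inv_le he (fun x => (hen x).2)
  have hmei := Mod.LD_inv he hw hm (c := 1) (fun x => (abs_le.1 (hen x).2).1)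
  have hwei : IsMod (fun r => w (Real.exp 1 * r)) := hw.comp_mul (Real.exp_pos _).le
  have hmψ := H₁ e⁻¹ hei nei _ hwei hmei
  rw [← hψi] at hmψ
  have hwψ : IsMod (fun r => w₁ r + (fun r => w (Real.exp 1 * r)) (c₁ * r)) :=
    hw₁.add (hwei.comp_mul hc₁)
  have nψ : ∀ x, |LD (psiOp f₁c f₂c e)⁻¹ x| ≤ ηc + 1 + ηc := by
    rw [hψi]
    exact abs_LD_mul_le (Dd.mul_mem X.f₂c_mem hei) X.f₁c_mem
      (abs_LD_mul_le X.f₂c_mem hei n₂c nei) n₁c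
  have hψo : ∀ x, κ ≤ |x| → (psiOp f₁c f₂c e)⁻¹ x = x := fun x hx => inv_fix (psiOp_id X hes hx)
  have hD : DOp u (psiOp f₁c f₂c e) ∈ Dd :=
    Dd.mul_mem (Dd.mul_mem X.u_mem (Dd.inv_mem hψ)) (Dd.inv_mem X.u_mem)
  have hmD : Mod (LD (DOp u (psiOp f₁c f₂c e))) _ :=
    Mod_conj_cut X.u_mem (Dd.inv_mem hψ) X.κ_pos X.u_aff hψo hwψ hmψ
  have hwD := hwψ.comp_mul he0
  have nD : ∀ x, |LD (DOp u (psiOp f₁c f₂c e)) x| ≤ ηc + 1 + ηc := by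
    intro x
    have := LD_conj_cut X.u_mem (Dd.inv_mem hψ) X.κ_pos X.u_aff hψo x
    unfold DOp
    rw [this]
    exact nψ _
  have hfin := H₂ _ hD nD _ hwD hmD
  have : Rop u f₁ f₁c f₂c e = f₁ * f₁c⁻¹ * DOp u (psiOp f₁c f₂c e) * (f₁ * f₁c⁻¹)⁻¹ := rfl
  rw [this]
  refine hfin.mono fun x hx => le_of_eq ?_
  simp only
  have e1 : Real.exp (-cu) * (c₂ * x) = Real.exp (-cu) * c₂ * x := by ring
  have e2 : Real.exp 1 * (c₁ * (Real.exp (-cu) * c₂ * x)) =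
      Real.exp 1 * c₁ * (Real.exp (-cu) * c₂) * x := by ring
  rw [e1, e2]
  ring

end FG
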