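import Pool.Agent.helper97.FG.L1
import Pool.Agent.helper97.FG.B2b

/-!
# L2b : modulus of the transported map

author: helper56

`LD Y t = LD F (Y (t+1)) + LD Y (t+1)` for `-k-1 ≤ t < -1`, `LD Y` is `1`-periodic below `-N`.  For `|x - y| ≤ 1` reduce both points
to `[-2, 0]` by at most `N` nontrivial steps (if a unit boundary lies between them use it as an intermediate point); for
`|x - y| > 1` the bound `2 (s₀ + θ) ≤ 2` is used (`jmp 1 2`).
-/

set_option linter.unusedVariables false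

open Set Filter Topology
open scoped commutatorElement
open Pool.Agent.helper35.FOL

namespace FG

private theorem L2b_LD_shift {Y : ℝ ≃o ℝ} (hY : Y ∈ Dd) (t : ℝ) :
    LD (tr 1 * Y * (tr 1)⁻¹) t = LD Y (t - 1) := by
  have h1 := tr_mem 1
  rw [LD_mul (Dd.mul_mem h1 hY) (Dd.inv_mem h1), LD_mul h1 hY, LD_inv h1, LD_tr, LD_tr,
    tr_inv_apply]
  ring

private theorem L2b_LD_step {F Y : ℝ ≃o ℝ} (hF : F ∈ Dd) (hY : Y ∈ Dd) {a : ℝ}
    (h : ∀ t, a ≤ t → F (Y t) = Y (t - 1) + 1) :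
    ∀ t, a ≤ t → LD Y (t - 1) = LD F (Y t) + LD Y t := by
  have h1 : Set.EqOn (fun t => LD Y (t - 1)) (fun t => LD F (Y t) + LD Y t) (Ioi a) := by
    intro t ht
    have h2 : ∀ᶠ s in 𝓝 t, (F * Y) s = (tr 1 * Y * (tr 1)⁻¹) s := by
      filter_upwards [Ioi_mem_nhds ht] with s hs
      change F (Y s) = Y ((tr 1)⁻¹ s) + 1
      rw [tr_inv_apply]
      exact h s (le_of_lt hs)
    have h3 := LD_congr h2
    rw [LD_mul hF hY, L2b_LD_shift hY] at h3
    exact h3.symm
  have h2 := h1.closure ((continuous_LD hY).comp (continuous_id.sub continuous_const))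
    (((continuous_LD hF).comp Y.continuous).add (continuous_LD hY))
  rw [closure_Ioi] at h2
  exact fun t ht => h2 ht

private theorem L2b_LD_per {Y : ℝ ≃o ℝ} (hY : Y ∈ Dd) {a b : ℝ} (hab : a < b)
    (h : ∀ t ∈ Icc a b, Y (t - 1) = Y t - 1) :
    ∀ t ∈ Icc a b, LD Y (t - 1) = LD Y t := by
  have h1 : Set.EqOn (fun t => LD Y (t - 1)) (fun t => LD Y t) (Ioo a b) := by
    intro t ht
    have h2 : ∀ᶠ s in 𝓝 t, Y s = (tr 1 * Y * (tr 1)⁻¹) s := by
      filter_upwards [Ioo_mem_nhds ht.1 ht.2] with s hs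
      change Y s = Y ((tr 1)⁻¹ s) + 1
      rw [tr_inv_apply, h s ⟨hs.1.le, hs.2.le⟩]
      ring
    have h3 := LD_congr h2
    rw [L2b_LD_shift hY] at h3
    exact h3.symm
  have h2 := h1.closure ((continuous_LD hY).comp (continuous_id.sub continuous_const))
    (continuous_LD hY)
  rw [closure_Ioo hab.ne] at h2
  exact fun t ht => h2 ht

private theorem L2b_LD_in {Y Yin : ℝ ≃o ℝ} (hY : Y ∈ Dd) (hI : Yin ∈ Dd) {a : ℝ}
    (h : ∀ t, a ≤ t → Y t = Yin t) : ∀ t, a ≤ t → LD Y t = LD Yin t := by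
  have h1 : Set.EqOn (LD Y) (LD Yin) (Ioi a) := by
    intro t ht
    refine LD_congr ?_
    filter_upwards [Ioi_mem_nhds ht] with s hs
    exact h s (le_of_lt hs)
  have h2 := h1.closure (continuous_LD hY) (continuous_LD hI)
  rw [closure_Ioi] at h2
  exact fun t ht => h2 ht

private theorem L2b_exp {s : ℝ} (hs : s ≤ 1 / 2) : Real.exp s ≤ 2 := by
  have h1 : Real.exp s ≤ Real.exp (1 / 2) := Real.exp_le_exp.2 hs
  have h2 : Real.exp (1 / 2) * Real.exp (1 / 2) = Real.exp 1 := by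
    rw [← Real.exp_add]
    norm_num
  have h3 : Real.exp 1 < 4 := by
    have := Real.exp_one_lt_d9
    linarith
  nlinarith [Real.exp_pos (1 / 2 : ℝ)]

/-- moduli; for `|x - y| > 1` the bound `2 (s₀ + θ) ≤ 2` is used -/
theorem Yit_mod (N : ℕ) : ∃ C : ℝ, 1 ≤ C ∧ ∀ {K₀ s₀ η θ tκ : ℝ} {F Yin : ℝ ≃o ℝ},
    LineHyp K₀ s₀ η θ tκ N F Yin → θ ≤ 1 / 4 → η ≤ 1 / 4 → s₀ ≤ 1 / 4 → ∀ wF wI, IsMod wF → IsMod wI →
    ModOn (Iic (Yin 0)) (LD F) wF → ModOn (Icc (-1) 0) (LD Yin) wI → ∀ k : ℕ,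
      ModOn (Icc (-(k : ℝ) - 1) 0) (LD (Yit F Yin k))
        (fun h => C * wI h + C * wF (C * h) + jmp 1 2 h) := by
  refine ⟨2 * N + 2, by
    have : (0 : ℝ) ≤ N := Nat.cast_nonneg N
    linarith, ?_⟩
  intro K₀ s₀ η θ tκ F Yin H hθ hη hs₀ wF wI hwF hwI hmF hmI k
  have hY := Yit_mem H.F_mem H.Y_mem k
  obtain ⟨hin, heq⟩ := Yit_eq H.col k
  obtain ⟨hsize, hper⟩ := Yit_size H k
  set Y := Yit F Yin k with hYdef
  have hst := L2b_LD_step H.F_mem hY heq
  have hld := L2b_LD_in hY H.Y_mem hin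
  have hY0 : Y 0 = Yin 0 := hin 0 (by norm_num)
  -- Lipschitz bound
  have hlip : ∀ x ∈ Icc (-(k : ℝ) - 1) 0, ∀ y ∈ Icc (-(k : ℝ) - 1) 0,
      |Y x - Y y| ≤ 2 * |x - y| := by
    intro x hx y hy
    have h1 := abs_sub_le_exp hY (s := s₀ + θ) (x := x) (y := y) (by
      intro z hz
      have hz' : z ∈ Icc (-(k : ℝ) - 1) 0 := by
        have h2 : uIcc x y ⊆ Icc (-(k : ℝ) - 1) 0 := uIcc_subset_Icc hx hy
        exact h2 hz
      exact (abs_le.1 (hsize z hz').2).2)
    refine le_trans h1 (mul_le_mul_of_nonneg_right (L2b_exp (by linarith)) (abs_nonneg _))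
  -- same unit interval
  have key : ∀ j : ℕ, j ≤ k → ∀ x ∈ Icc (-(j : ℝ) - 1) (-(j : ℝ)), ∀ y ∈ Icc (-(j : ℝ) - 1) (-(j : ℝ)),
      |LD Y x - LD Y y| ≤ wI |x - y| + ((min j N : ℕ) : ℝ) * wF (2 * |x - y|) := by
    intro j
    induction j with
    | zero =>
      intro _ x hx y hy
      have hx' : x ∈ Icc (-1 : ℝ) 0 := by
        simpa using hx
      have hy' : y ∈ Icc (-1 : ℝ) 0 := by
        simpa using hy
      rw [hld x hx'.1, hld y hy'.1]
      have h1 := hmI x hx' y hy'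
      have h2 : ((min 0 N : ℕ) : ℝ) * wF (2 * |x - y|) = 0 := by simp
      rw [h2, add_zero]
      exact h1
    | succ j ih =>
      intro hj x hx y hy
      have hjk : ((j : ℝ) + 1) ≤ k := by exact_mod_cast hj
      have hj0 : (0 : ℝ) ≤ j := Nat.cast_nonneg j
      push_cast at hx hy
      have hx1 : x + 1 ∈ Icc (-(j : ℝ) - 1) (-(j : ℝ)) :=
        ⟨by linarith [hx.1], by linarith [hx.2]⟩
      have hy1 : y + 1 ∈ Icc (-(j : ℝ) - 1) (-(j : ℝ)) :=
        ⟨by linarith [hy.1], by linarith [hy.2]⟩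
      have hd : |x + 1 - (y + 1)| = |x - y| := by
        congr 1
        ring
      have h1 := ih (by omega) (x + 1) hx1 (y + 1) hy1
      rw [hd] at h1
      by_cases hNj : N ≤ j
      · -- periodic
        have hNj' : (N : ℝ) ≤ j := by exact_mod_cast hNj
        have h2 := L2b_LD_per hY (a := -(k : ℝ)) (b := -(N : ℝ)) (by linarith) hper
        have h3 := h2 (x + 1) ⟨by linarith [hx1.1], by linarith [hx1.2]⟩
        have h4 := h2 (y + 1) ⟨by linarith [hy1.1], by linarith [hy1.2]⟩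
        rw [add_sub_cancel_right] at h3 h4
        rw [h3, h4]
        have h5 : min (j + 1) N = min j N := by omega
        rw [h5]
        exact h1
      · have h5 : min (j + 1) N = min j N + 1 := by omega
        have h3 := hst (x + 1) (by linarith [hx1.1])
        have h4 := hst (y + 1) (by linarith [hy1.1])
        rw [add_sub_cancel_right] at h3 h4
        rw [h3, h4, h5]
        have h6 : Y (x + 1) ∈ Iic (Yin 0) := by
          rw [← hY0]
          exact Y.monotone (by linarith [hx1.2])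
        have h7 : Y (y + 1) ∈ Iic (Yin 0) := by
          rw [← hY0]
          exact Y.monotone (by linarith [hy1.2])
        have h8 := hmF _ h6 _ h7
        have h9 := hlip (x + 1) ⟨by linarith [hx1.1], by linarith [hx1.2]⟩ (y + 1)
          ⟨by linarith [hy1.1], by linarith [hy1.2]⟩
        rw [hd] at h9
        have h10 := hwF.mono h9
        have h11 : LD F (Y (x + 1)) + LD Y (x + 1) - (LD F (Y (y + 1)) + LD Y (y + 1)) =
            (LD F (Y (x + 1)) - LD F (Y (y + 1))) + (LD Y (x + 1) - LD Y (y + 1)) := by ring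
        rw [h11]
        refine le_trans (abs_add_le _ _) ?_
        push_cast
        push_cast at h1
        linarith
  have hN0 : (0 : ℝ) ≤ N := Nat.cast_nonneg N
  have key' : ∀ j : ℕ, j ≤ k → ∀ x ∈ Icc (-(j : ℝ) - 1) (-(j : ℝ)), ∀ y ∈ Icc (-(j : ℝ) - 1) (-(j : ℝ)),
      |LD Y x - LD Y y| ≤ wI |x - y| + N * wF (2 * |x - y|) := by
    intro j hj x hx y hy
    refine le_trans (key j hj x hx y hy) ?_
    have h1 : ((min j N : ℕ) : ℝ) ≤ N := by exact_mod_cast min_le_right j N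
    have h2 := mul_le_mul_of_nonneg_right h1 (hwF.nonneg (2 * |x - y|))
    linarith
  -- ordered pairs
  have main : ∀ x ∈ Icc (-(k : ℝ) - 1) 0, ∀ y ∈ Icc (-(k : ℝ) - 1) 0, x < y →
      |LD Y x - LD Y y| ≤ (2 * N + 2) * wI |x - y| + (2 * N + 2) * wF ((2 * N + 2) * |x - y|) +
        jmp 1 2 |x - y| := by
    intro x hx y hy hxy
    have ha : |x - y| = y - x := by
      rw [abs_sub_comm, abs_of_pos (by linarith)]
    rw [ha]
    have hpos : 0 ≤ y - x := by linarith
    have hwI0 := hwI.nonneg (y - x)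
    have hwF0 := hwF.nonneg ((2 * N + 2) * (y - x))
    by_cases hbig : y - x ≤ 1
    · have hj : jmp 1 2 (y - x) = 0 := by
        unfold jmp
        rw [if_pos hbig]
      rw [hj, add_zero]
      have hF2 : wF (2 * (y - x)) ≤ wF ((2 * N + 2) * (y - x)) :=
        hwF.mono (by nlinarith)
      have hF20 := hwF.nonneg (2 * (y - x))
      set j := ⌊-y⌋₊ with hjdef
      have hy0 : 0 ≤ -y := by linarith [hy.2]
      have hj1 : (j : ℝ) ≤ -y := Nat.floor_le hy0
      have hj2 : -y < (j : ℝ) + 1 := Nat.lt_floor_add_one (-y)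
      have hjk : j ≤ k := by
        have h1 : -y < (k : ℝ) + 1 := by linarith [hx.1]
        have h2 : (j : ℝ) < (k : ℝ) + 1 := lt_of_le_of_lt hj1 h1
        have h3 : j < k + 1 := by exact_mod_cast h2
        omega
      by_cases hx1 : -(j : ℝ) - 1 ≤ x
      · have h1 := key' j hjk x ⟨hx1, by linarith⟩ y ⟨by linarith, by linarith⟩
        rw [ha] at h1
        nlinarith [mul_nonneg hN0 hwI0, mul_nonneg hN0 hwF0, mul_nonneg hN0 (sub_nonneg.2 hF2)]
      · rw [not_le] at hx1
        have hjk' : j + 1 ≤ k := by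
          have h2 : (j : ℝ) < (k : ℝ) := by linarith [hx.1]
          have h3 : j < k := by exact_mod_cast h2
          omega
        have h1 := key' (j + 1) hjk' x ⟨by push_cast; linarith, by push_cast; linarith⟩
          (-(j : ℝ) - 1) ⟨by push_cast; linarith, by push_cast; linarith⟩
        have h2 := key' j hjk (-(j : ℝ) - 1) ⟨le_refl _, by linarith⟩ y ⟨by linarith, by linarith⟩
        have h3 : |x - (-(j : ℝ) - 1)| ≤ y - x := by
          rw [abs_le]
          constructor <;> linarith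
        have h4 : |-(j : ℝ) - 1 - y| ≤ y - x := by
          rw [abs_le]
          constructor <;> linarith
        have h5 := hwI.mono h3
        have h6 := hwI.mono h4
        have h7 : wF (2 * |x - (-(j : ℝ) - 1)|) ≤ wF (2 * (y - x)) :=
          hwF.mono (by linarith)
        have h8 : wF (2 * |-(j : ℝ) - 1 - y|) ≤ wF (2 * (y - x)) :=
          hwF.mono (by linarith)
        have h9 : |LD Y x - LD Y y| ≤ |LD Y x - LD Y (-(j : ℝ) - 1)| +
            |LD Y (-(j : ℝ) - 1) - LD Y y| := abs_sub_le _ _ _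
        have h10 := mul_le_mul_of_nonneg_left h7 hN0
        have h11 := mul_le_mul_of_nonneg_left h8 hN0
        have h12 := mul_le_mul_of_nonneg_left hF2 hN0
        nlinarith [mul_nonneg hN0 hwI0, mul_nonneg hN0 hwF0]
    · have hj : jmp 1 2 (y - x) = 2 := by
        unfold jmp
        rw [if_neg hbig]
      rw [hj]
      have h1 := (hsize x hx).2
      have h2 := (hsize y hy).2
      have h3 : |LD Y x - LD Y y| ≤ |LD Y x| + |LD Y y| := abs_sub _ _
      nlinarith [mul_nonneg hN0 hwI0, mul_nonneg hN0 hwF0]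
  intro x hx y hy
  rcases lt_trichotomy x y with h | h | h
  · exact main x hx y hy h
  · subst h
    rw [sub_self, abs_zero, sub_self, abs_zero]
    have h1 := hwI.nonneg 0
    have h2 := hwF.nonneg ((2 * N + 2) * 0)
    have h3 : jmp 1 2 (0 : ℝ) = 0 := by
      unfold jmp
      rw [if_pos (by norm_num)]
    change (0 : ℝ) ≤ (2 * N + 2) * wI 0 + (2 * N + 2) * wF ((2 * N + 2) * 0) + jmp 1 2 0
    rw [h3]
    positivity
  · have h1 := main y hy x hx h
    rw [abs_sub_comm x y, abs_sub_comm (LD Y x)]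
    exact h1

end FG
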