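import Pool.Agent.helper97.FG.S2b
import Pool.Agent.helper97.FG.B2b

/-!
author: helper19
# S3b : modulus of the commutator error

`LD e y = log D(w-1) - log D(w) = log (1 + Δ(w)/D(w))` for `w ≤ te + 1` (`0` for `w ≥ te + 1`), with
`Δ(w) = (χ'(w-1) - χ'(w)) (Y w - w) + (χ(w-1) - χ(w)) (Y' w - 1)`, `|Δ| ≤ C (K+1)/Λ`,
`|Δ w - Δ w'| ≤ c |w - w'| + (C/Λ) |Y' w - Y' w'|`, `|D w - D w'| ≤ c |w - w'| + |Y' w - Y' w'|`, and
`|Y' w - Y' w'| ≤ 2 |LD Y w - LD Y w'|`, `|w - w'| ≤ 2 |y - y'|`.  The terms `c |w - w'|` go to `w₀` (`isMod_lin` with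
`B = 2`, which is at least `2 sup |LD e|`); `c` may depend on `K`, `Λ`.
-/

set_option linter.unusedVariables false

open Set Filter Topology
open scoped commutatorElement
open Pool.Agent.helper35.FOL

namespace FG

private theorem exp_half_le : Real.exp (1 / 2) ≤ 2 := by
  have h1 : Real.exp (1 / 2) ^ 2 = Real.exp 1 := by
    rw [← Real.exp_nat_mul]
    norm_num
  have h2 := Real.exp_one_lt_d9
  nlinarith [Real.exp_pos (1 / 2 : ℝ)]

private theorem exp_half_ge : 1 / 2 ≤ Real.exp (-(1 / 2)) := by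
  have := Real.add_one_le_exp (-(1 / 2) : ℝ)
  linarith

private theorem abs_exp_sub_le {x y : ℝ} (hx : x ≤ 1 / 2) (hy : y ≤ 1 / 2) :
    |Real.exp x - Real.exp y| ≤ 2 * |x - y| := by
  wlog h : y ≤ x generalizing x y
  · rw [abs_sub_comm, abs_sub_comm x y]
    exact this hy hx (le_of_not_ge h)
  have h1 : Real.exp y ≤ Real.exp x := Real.exp_le_exp.2 h
  rw [abs_of_nonneg (by linarith), abs_of_nonneg (by linarith)]
  have h2 : Real.exp y = Real.exp x * Real.exp (y - x) := by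
    rw [← Real.exp_add]
    congr 1
    ring
  have h3 := Real.add_one_le_exp (y - x)
  have h4 : Real.exp x ≤ 2 := (Real.exp_le_exp.2 hx).trans exp_half_le
  have h5 := Real.exp_pos x
  rw [h2]
  nlinarith

private theorem abs_log_sub_le {x y : ℝ} (hx : 1 / 2 ≤ x) (hy : 1 / 2 ≤ y) :
    |Real.log x - Real.log y| ≤ 2 * |x - y| := by
  wlog h : y ≤ x generalizing x y
  · rw [abs_sub_comm, abs_sub_comm x y]
    exact this hy hx (le_of_not_ge h)
  have hy0 : 0 < y := by linarith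
  have hx0 : 0 < x := by linarith
  have h1 : Real.log y ≤ Real.log x := Real.log_le_log hy0 h
  rw [abs_of_nonneg (by linarith), abs_of_nonneg (by linarith), ← Real.log_div hx0.ne' hy0.ne']
  have h2 := Real.log_le_sub_one_of_pos (div_pos hx0 hy0)
  have h3 : x / y - 1 = (x - y) / y := by field_simp
  rw [h3] at h2
  refine h2.trans ?_
  rw [div_le_iff₀ hy0]
  nlinarith

private theorem core_bd {q K u z x d : ℝ} (hK : 0 ≤ K) (hq : 0 ≤ q) (hQ : q * (K + 1) ≤ 1 / 256)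
    (hx : 0 ≤ x ∧ x ≤ 1) (hu : |u| ≤ q) (hz : |z| ≤ K) (hd : 1 / 2 ≤ d ∧ d ≤ 2) :
    1 / 4 ≤ 1 + u * z + x * (d - 1) ∧ 1 + u * z + x * (d - 1) ≤ 3 := by
  have h1 : |u * z| ≤ 1 / 256 := by
    rw [abs_mul]
    calc |u| * |z| ≤ q * K := mul_le_mul hu hz (abs_nonneg _) hq
      _ ≤ q * (K + 1) := by nlinarith
      _ ≤ _ := hQ
  have h2 := abs_le.1 h1
  have h3 : -(1 / 2) ≤ x * (d - 1) := by nlinarith [hx.1, hx.2, hd.1]
  have h4 : x * (d - 1) ≤ 1 := by nlinarith [hx.1, hx.2, hd.2]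
  constructor <;> linarith

private theorem core_del {q K u v z x y d : ℝ} (hK : 0 ≤ K) (hq : 0 ≤ q)
    (hxy : |x - y| ≤ q) (huv : |u - v| ≤ q) (hz : |z| ≤ K) (hd : 1 / 2 ≤ d ∧ d ≤ 2) :
    |(1 + u * z + x * (d - 1)) - (1 + v * z + y * (d - 1))| ≤ q * (K + 1) := by
  have e : (1 + u * z + x * (d - 1)) - (1 + v * z + y * (d - 1)) =
      (u - v) * z + (x - y) * (d - 1) := by ring
  have hd1 : |d - 1| ≤ 1 := by rw [abs_le]; constructor <;> linarith [hd.1, hd.2]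
  rw [e]
  calc |(u - v) * z + (x - y) * (d - 1)| ≤ |(u - v) * z| + |(x - y) * (d - 1)| := abs_add_le _ _
    _ = |u - v| * |z| + |x - y| * |d - 1| := by rw [abs_mul, abs_mul]
    _ ≤ q * K + q * 1 := add_le_add (mul_le_mul huv hz (abs_nonneg _) hq)
        (mul_le_mul hxy hd1 (abs_nonneg _) hq)
    _ = q * (K + 1) := by ring

/-- the algebraic core -/
private theorem core {q K δ ω x1 x2 x3 x4 u1 u2 u3 u4 za zb da db : ℝ} (hK : 0 ≤ K) (hq : 0 ≤ q)
    (hQ : q * (K + 1) ≤ 1 / 256) (hδ : 0 ≤ δ)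
    (hx1 : 0 ≤ x1 ∧ x1 ≤ 1) (hx2 : 0 ≤ x2 ∧ x2 ≤ 1) (hx3 : 0 ≤ x3 ∧ x3 ≤ 1)
    (hx4 : 0 ≤ x4 ∧ x4 ≤ 1) (hu1 : |u1| ≤ q) (hu2 : |u2| ≤ q) (hu3 : |u3| ≤ q) (hu4 : |u4| ≤ q)
    (hx13 : |x1 - x3| ≤ q * δ) (hx24 : |x2 - x4| ≤ q * δ) (hx12 : |x1 - x2| ≤ q)
    (hx34 : |x3 - x4| ≤ q) (hu13 : |u1 - u3| ≤ q * δ) (hu24 : |u2 - u4| ≤ q * δ)
    (hu12 : |u1 - u2| ≤ q) (hu34 : |u3 - u4| ≤ q) (hza : |za| ≤ K) (hzb : |zb| ≤ K)
    (hz : |za - zb| ≤ 3 * δ) (hda : 1 / 2 ≤ da ∧ da ≤ 2) (hdb : 1 / 2 ≤ db ∧ db ≤ 2)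
    (hd : |da - db| ≤ ω) :
    |(Real.log (1 + u1 * za + x1 * (da - 1)) - Real.log (1 + u2 * za + x2 * (da - 1))) -
      (Real.log (1 + u3 * zb + x3 * (db - 1)) - Real.log (1 + u4 * zb + x4 * (db - 1)))| ≤
      (96 * (2 * K + 5) + 32 * (K + 4)) * δ + 128 * (q * (K + 1)) * ω ∧
    |Real.log (1 + u1 * za + x1 * (da - 1)) - Real.log (1 + u2 * za + x2 * (da - 1))| ≤ 1 := by
  obtain ⟨A1, hA1⟩ : ∃ A, A = 1 + u1 * za + x1 * (da - 1) := ⟨_, rfl⟩
  obtain ⟨A2, hA2⟩ : ∃ A, A = 1 + u2 * za + x2 * (da - 1) := ⟨_, rfl⟩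
  obtain ⟨B1, hB1⟩ : ∃ A, A = 1 + u3 * zb + x3 * (db - 1) := ⟨_, rfl⟩
  obtain ⟨B2, hB2⟩ : ∃ A, A = 1 + u4 * zb + x4 * (db - 1) := ⟨_, rfl⟩
  obtain ⟨Q, hQd⟩ : ∃ Q, Q = q * (K + 1) := ⟨_, rfl⟩
  have bA1 := core_bd hK hq hQ hx1 hu1 hza hda
  have bA2 := core_bd hK hq hQ hx2 hu2 hza hda
  have bB1 := core_bd hK hq hQ hx3 hu3 hzb hdb
  have bB2 := core_bd hK hq hQ hx4 hu4 hzb hdb
  have dA := core_del hK hq hx12 hu12 hza hda
  have dB := core_del hK hq hx34 hu34 hzb hdb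
  have hω : 0 ≤ ω := (abs_nonneg _).trans hd
  have hda1 : |da - 1| ≤ 1 := by rw [abs_le]; constructor <;> linarith [hda.1, hda.2]
  have hqd : 0 ≤ q * δ := mul_nonneg hq hδ
  -- difference of the differences
  have dd : |(A1 - A2) - (B1 - B2)| ≤ q * δ * (2 * K + 5) + q * ω := by
    have e : (A1 - A2) - (B1 - B2) = ((u1 - u3) * za - (u2 - u4) * za) + (u3 - u4) * (za - zb) +
        ((x1 - x3) * (da - 1) - (x2 - x4) * (da - 1)) + (x3 - x4) * (da - db) := by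
      rw [hA1, hA2, hB1, hB2]
      ring
    have i1 : |(u1 - u3) * za| ≤ q * δ * K := by
      rw [abs_mul]; exact mul_le_mul hu13 hza (abs_nonneg _) hqd
    have i2 : |(u2 - u4) * za| ≤ q * δ * K := by
      rw [abs_mul]; exact mul_le_mul hu24 hza (abs_nonneg _) hqd
    have i3 : |(u3 - u4) * (za - zb)| ≤ q * (3 * δ) := by
      rw [abs_mul]; exact mul_le_mul hu34 hz (abs_nonneg _) hq
    have i4 : |(x1 - x3) * (da - 1)| ≤ q * δ * 1 := by
      rw [abs_mul]; exact mul_le_mul hx13 hda1 (abs_nonneg _) hqd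
    have i5 : |(x2 - x4) * (da - 1)| ≤ q * δ * 1 := by
      rw [abs_mul]; exact mul_le_mul hx24 hda1 (abs_nonneg _) hqd
    have i6 : |(x3 - x4) * (da - db)| ≤ q * ω := by
      rw [abs_mul]; exact mul_le_mul hx34 hd (abs_nonneg _) hq
    rw [e]
    clear hx1 hx2 hx3 hx4 hu1 hu2 hu3 hu4 hx13 hx24 hx12 hx34 hu13 hu24 hu12 hu34 hza hzb hz hda hdb
    rw [abs_le] at i1 i2 i3 i4 i5 i6 ⊢
    constructor
    · linarith [i1.1, i2.2, i3.1, i4.1, i5.2, i6.1]
    · linarith [i1.2, i2.1, i3.2, i4.2, i5.1, i6.2]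
  have d2 : |A2 - B2| ≤ q * δ * (K + 4) + ω := by
    have e : A2 - B2 = (u2 - u4) * za + u4 * (za - zb) + (x2 - x4) * (da - 1) +
        x4 * (da - db) := by
      rw [hA2, hB2]
      ring
    have i2 : |(u2 - u4) * za| ≤ q * δ * K := by
      rw [abs_mul]; exact mul_le_mul hu24 hza (abs_nonneg _) hqd
    have i3 : |u4 * (za - zb)| ≤ q * (3 * δ) := by
      rw [abs_mul]; exact mul_le_mul hu4 hz (abs_nonneg _) hq
    have i5 : |(x2 - x4) * (da - 1)| ≤ q * δ * 1 := by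
      rw [abs_mul]; exact mul_le_mul hx24 hda1 (abs_nonneg _) hqd
    have i6 : |x4 * (da - db)| ≤ 1 * ω := by
      rw [abs_mul, abs_of_nonneg hx4.1]
      exact mul_le_mul hx4.2 hd (abs_nonneg _) zero_le_one
    rw [e]
    rw [abs_le] at i2 i3 i5 i6 ⊢
    constructor
    · linarith [i2.1, i3.1, i5.1, i6.1]
    · linarith [i2.2, i3.2, i5.2, i6.2]
  rw [← hA1] at bA1 dA ⊢
  rw [← hA2] at bA2 dA ⊢
  rw [← hB1] at bB1 dB ⊢
  rw [← hB2] at bB2 dB ⊢
  rw [← hQd] at hQ dA dB ⊢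
  have pA1 : 0 < A1 := by linarith [bA1.1]
  have pA2 : 0 < A2 := by linarith [bA2.1]
  have pB1 : 0 < B1 := by linarith [bB1.1]
  have pB2 : 0 < B2 := by linarith [bB2.1]
  have hQ0 : 0 ≤ Q := (abs_nonneg _).trans dA
  have hqQ : q ≤ Q := by
    rw [hQd]
    exact le_mul_of_one_le_right hq (by linarith)
  rw [← Real.log_div pA1.ne' pA2.ne', ← Real.log_div pB1.ne' pB2.ne']
  have hX1 : |A1 / A2 - 1| ≤ 4 * Q := by
    have e : A1 / A2 - 1 = (A1 - A2) / A2 := by field_simp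
    rw [e, abs_div, abs_of_pos pA2, div_le_iff₀ pA2]
    have := mul_le_mul_of_nonneg_left bA2.1 hQ0
    linarith
  have hY1 : |B1 / B2 - 1| ≤ 4 * Q := by
    have e : B1 / B2 - 1 = (B1 - B2) / B2 := by field_simp
    rw [e, abs_div, abs_of_pos pB2, div_le_iff₀ pB2]
    have := mul_le_mul_of_nonneg_left bB2.1 hQ0
    linarith
  have hX : 1 / 2 ≤ A1 / A2 := by
    have := (abs_le.1 hX1).1
    linarith
  have hY : 1 / 2 ≤ B1 / B2 := by
    have := (abs_le.1 hY1).1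
    linarith
  constructor
  · have h1 : |A1 / A2 - B1 / B2| ≤ 16 * (3 * (q * δ * (2 * K + 5) + q * ω) +
        Q * (q * δ * (K + 4) + ω)) := by
      have e : A1 / A2 - B1 / B2 =
          (((A1 - A2) - (B1 - B2)) * B2 - (B1 - B2) * (A2 - B2)) / (A2 * B2) := by
        field_simp
        ring
      have hAB : 1 / 16 ≤ A2 * B2 := by
        calc (1 : ℝ) / 16 = 1 / 4 * (1 / 4) := by norm_num
          _ ≤ A2 * B2 := mul_le_mul bA2.1 bB2.1 (by norm_num) pA2.le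
      rw [e, abs_div, abs_of_pos (mul_pos pA2 pB2), div_le_iff₀ (mul_pos pA2 pB2)]
      have i1 : |((A1 - A2) - (B1 - B2)) * B2| ≤ (q * δ * (2 * K + 5) + q * ω) * 3 := by
        rw [abs_mul, abs_of_pos pB2]
        exact mul_le_mul dd bB2.2 pB2.le (by positivity)
      have i2 : |(B1 - B2) * (A2 - B2)| ≤ Q * (q * δ * (K + 4) + ω) := by
        rw [abs_mul]
        exact mul_le_mul dB d2 (abs_nonneg _) hQ0
      have i3 : |((A1 - A2) - (B1 - B2)) * B2 - (B1 - B2) * (A2 - B2)| ≤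
          (q * δ * (2 * K + 5) + q * ω) * 3 + Q * (q * δ * (K + 4) + ω) :=
        (abs_sub _ _).trans (add_le_add i1 i2)
      have i4 : 0 ≤ 3 * (q * δ * (2 * K + 5) + q * ω) + Q * (q * δ * (K + 4) + ω) := by
        positivity
      have i5 := mul_le_mul_of_nonneg_left hAB i4
      linarith
    have h2 := abs_log_sub_le hX hY
    have j1 : q * δ * (2 * K + 5) ≤ δ * (2 * K + 5) := by
      have : q * δ ≤ 1 * δ := mul_le_mul_of_nonneg_right (by linarith) hδ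
      rw [one_mul] at this
      exact mul_le_mul_of_nonneg_right this (by linarith)
    have j2 : q * ω ≤ Q * ω := mul_le_mul_of_nonneg_right hqQ hω
    have j3 : Q * (q * δ * (K + 4)) ≤ 1 * (δ * (K + 4)) := by
      have : q * δ ≤ 1 * δ := mul_le_mul_of_nonneg_right (by linarith) hδ
      rw [one_mul] at this
      exact mul_le_mul (by linarith) (mul_le_mul_of_nonneg_right this (by linarith))
        (by positivity) zero_le_one
    clear dd d2 dA dB hX1 hY1 bA1 bA2 bB1 bB2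
    linarith
  · have h3 := abs_log_sub_le hX (show (1 : ℝ) / 2 ≤ 1 by norm_num)
    rw [Real.log_one, sub_zero] at h3
    linarith

/-- the modulus of `LD e` is `w₀ + (C/Λ) w (C ·)`, `w` = modulus of `LD Y`, `w₀` depends only on `Λ`, `K`. -/
theorem slowE_mod : ∃ C : ℝ, 1 ≤ C ∧ ∀ K Λ : ℝ, 0 ≤ K → C * (K + 1) ≤ Λ → ∃ w₀, IsMod w₀ ∧
    ∀ {te s : ℝ} {Y F : ℝ ≃o ℝ}, SlowHyp te Λ K s Y F → ∀ w, IsMod w →
      ModOn (Icc (te - Λ - 2) (te + 2)) (LD Y) w →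
        Mod (LD (slowE te Λ Y F)) (fun h => w₀ h + C * (K + 1) / Λ * w (C * h)) := by
  obtain ⟨C0, hC0, hchi⟩ := exists_chi_bounds
  obtain ⟨C1, hC1, hY⟩ := exists_Ych
  obtain ⟨C2, hC2, hE⟩ := slowE_formula
  refine ⟨256 * C0 + C1 + C2, by linarith, fun K Λ hK hΛ => ?_⟩
  have hK1 : 0 < K + 1 := by linarith
  have hΛ0 : 256 * C0 * (K + 1) ≤ Λ := by nlinarith
  have hΛ1 : C1 * (K + 1) ≤ Λ := by nlinarith
  have hΛ2 : C2 * (K + 1) ≤ Λ := by nlinarith
  have hΛ3 : 1 ≤ Λ := by nlinarith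
  have hΛp : 0 < Λ := by linarith
  obtain ⟨q, hq⟩ : ∃ q, q = C0 / Λ := ⟨_, rfl⟩
  have hq0 : 0 ≤ q := by rw [hq]; positivity
  have hQ : q * (K + 1) ≤ 1 / 256 := by
    rw [hq, div_mul_eq_mul_div, div_le_iff₀ hΛp]
    linarith
  obtain ⟨c3, hc3⟩ : ∃ c3, c3 = 96 * (2 * K + 5) + 32 * (K + 4) := ⟨_, rfl⟩
  have hc30 : 0 ≤ c3 := by rw [hc3]; positivity
  refine ⟨fun h => max 0 (min (4 * c3 * h) 2), isMod_lin (by positivity) (by norm_num), ?_⟩
  intro te s Y F hyp w hw hmod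
  obtain ⟨hYm, hYf, hY1, hY0, hYL, hYd⟩ := hY te Λ K s Y hyp.Y_mem hK hyp.s_nonneg hyp.s_le hΛ1
    fun t ht => hyp.size t ⟨by linarith [ht.1], by linarith [ht.2]⟩
  obtain ⟨hEm, hEf, hE1, hE2, hE3, hE4, hE5⟩ := hE hyp hΛ2
  obtain ⟨hc1, hc2, hc4⟩ := hchi te Λ hΛp
  rw [← hq] at hc1 hc2
  have hc4' : ∀ s t, |deriv (chi te Λ) s - deriv (chi te Λ) t| ≤ q * |s - t| := by
    intro s t
    refine (hc4 s t).trans (mul_le_mul_of_nonneg_right ?_ (abs_nonneg _))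
    rw [hq, div_le_div_iff₀ (by positivity) hΛp]
    refine mul_le_mul_of_nonneg_left ?_ (by linarith)
    nlinarith
  set g := Ych te Λ Y with hg
  -- facts about `Y`
  have fd : ∀ t ∈ Icc (te - Λ - 2) (te + 2), 1 / 2 ≤ deriv Y t ∧ deriv Y t ≤ 2 := by
    intro t ht
    have h1 := (hyp.size t ht).2
    have h2 := hyp.s_le
    rw [abs_le] at h1
    rw [deriv_eq_exp hyp.Y_mem]
    exact ⟨exp_half_ge.trans (Real.exp_le_exp.2 (by linarith [h1.1])),
      (Real.exp_le_exp.2 (by linarith [h1.2])).trans exp_half_le⟩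
  have fper : ∀ t ∈ Ioo (te - Λ - 1) (te + 2), deriv Y (t - 1) = deriv Y t := by
    intro t ht
    have h1 : (fun τ => Y (τ - 1)) =ᶠ[𝓝 t] fun τ => Y τ - 1 := by
      filter_upwards [Ioo_mem_nhds ht.1 ht.2] with τ hτ
      exact hyp.per τ ⟨hτ.1.le, hτ.2.le⟩
    have h2 := h1.deriv_eq
    rw [deriv_comp_sub_const, deriv_sub_const] at h2
    exact h2
  obtain ⟨lo, hlo⟩ : ∃ lo, lo = te - Λ - 1 / 2 := ⟨_, rfl⟩
  obtain ⟨hi, hhi⟩ : ∃ hi, hi = te + 1 := ⟨_, rfl⟩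
  have hlohi : lo ≤ hi := by rw [hlo, hhi]; linarith
  have hLD : ∀ t, LD g t = Real.log (1 + deriv (chi te Λ) t * (Y t - t) +
      chi te Λ t * (deriv Y t - 1)) := by
    intro t
    unfold LD
    rw [hYd]
  have hchi01 : ∀ t, 0 ≤ chi te Λ t ∧ chi te Λ t ≤ 1 := fun t =>
    ⟨chi_nonneg te Λ t, chi_le_one te Λ t⟩
  -- the main estimate
  have claim2 : ∀ a ∈ Icc lo hi, ∀ b ∈ Icc lo hi,
      |(LD g (a - 1) - LD g a) - (LD g (b - 1) - LD g b)| ≤
        c3 * |a - b| + 128 * (q * (K + 1)) * (2 * w |a - b|) ∧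
      |LD g (a - 1) - LD g a| ≤ 1 := by
    intro a ha b hb
    rw [hlo, hhi] at ha hb
    have ha' : a ∈ Icc (te - Λ - 2) (te + 2) := ⟨by linarith [ha.1], by linarith [ha.2]⟩
    have hb' : b ∈ Icc (te - Λ - 2) (te + 2) := ⟨by linarith [hb.1], by linarith [hb.2]⟩
    have pa : Y (a - 1) - (a - 1) = Y a - a := by
      rw [hyp.per a ⟨by linarith [ha.1], by linarith [ha.2]⟩]
      ring
    have pb : Y (b - 1) - (b - 1) = Y b - b := by
      rw [hyp.per b ⟨by linarith [hb.1], by linarith [hb.2]⟩]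
      ring
    have da : deriv Y (a - 1) = deriv Y a := fper a ⟨by linarith [ha.1], by linarith [ha.2]⟩
    have db : deriv Y (b - 1) = deriv Y b := fper b ⟨by linarith [hb.1], by linarith [hb.2]⟩
    rw [hLD, hLD, hLD, hLD, pa, pb, da, db, hc3]
    have e1 : |(a - 1) - (b - 1)| = |a - b| := by congr 1; ring
    have e2 : ∀ t : ℝ, |(t - 1) - t| = 1 := by
      intro t
      rw [show (t - 1) - t = -1 by ring, abs_neg, abs_one]
    have hYab : |Y a - Y b| ≤ 2 * |a - b| := by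
      refine (abs_sub_le_exp hyp.Y_mem (s := 1 / 2) fun z hz => ?_).trans
        (mul_le_mul_of_nonneg_right exp_half_le (abs_nonneg _))
      have hz' : z ∈ Icc (te - Λ - 2) (te + 2) := by
        rw [mem_uIcc] at hz
        rcases hz with h | h
        · exact ⟨ha'.1.trans h.1, h.2.trans hb'.2⟩
        · exact ⟨hb'.1.trans h.1, h.2.trans ha'.2⟩
      have h1 := (abs_le.1 (hyp.size z hz').2).2
      linarith [hyp.s_le]
    refine core hK hq0 hQ (abs_nonneg _) (hchi01 _) (hchi01 _) (hchi01 _) (hchi01 _)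
      (hc2 _) (hc2 _) (hc2 _) (hc2 _) ?_ (hc1 _ _) ?_ ?_ ?_ (hc4' _ _) ?_ ?_
      (hyp.size a ha').1 (hyp.size b hb').1 ?_ (fd a ha') (fd b hb') ?_
    · exact e1 ▸ hc1 (a - 1) (b - 1)
    · have := hc1 (a - 1) a
      rwa [e2, mul_one] at this
    · have := hc1 (b - 1) b
      rwa [e2, mul_one] at this
    · exact e1 ▸ hc4' (a - 1) (b - 1)
    · have := hc4' (a - 1) a
      rwa [e2, mul_one] at this
    · have := hc4' (b - 1) b
      rwa [e2, mul_one] at this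
    · have e : (Y a - a) - (Y b - b) = (Y a - Y b) - (a - b) := by ring
      rw [e]
      refine (abs_sub _ _).trans ?_
      linarith
    · rw [deriv_eq_exp hyp.Y_mem, deriv_eq_exp hyp.Y_mem]
      have h1 := (abs_le.1 (hyp.size a ha').2).2
      have h2 := (abs_le.1 (hyp.size b hb').2).2
      have h3 := hyp.s_le
      refine (abs_exp_sub_le (by linarith) (by linarith)).trans ?_
      have h4 := hmod a ha' b hb'
      linarith
  -- the clamp
  obtain ⟨cl, hcl⟩ : ∃ cl : ℝ → ℝ, cl = fun t => max lo (min hi t) := ⟨_, rfl⟩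
  have hclm : ∀ t, cl t ∈ Icc lo hi := by
    intro t
    rw [hcl]
    exact ⟨le_max_left _ _, max_le hlohi (min_le_left _ _)⟩
  have claim1 : ∀ y, LD (slowE te Λ Y F) y =
      LD g (cl (g⁻¹ y) - 1) - LD g (cl (g⁻¹ y)) := by
    intro y
    have hz : ∀ t, t < te - Λ → LD g t = 0 := by
      intro t ht
      rw [← LD_one t]
      refine LD_congr ?_
      filter_upwards [Iio_mem_nhds ht] with τ hτ
      exact hY0 τ (le_of_lt hτ)
    rcases le_total (g⁻¹ y) (te + 1) with h | h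
    · rw [hE1 y h]
      rcases le_total lo (g⁻¹ y) with h1 | h1
      · have : cl (g⁻¹ y) = g⁻¹ y := by
          rw [hcl]
          simp only
          rw [min_eq_right (hhi ▸ h), max_eq_right h1]
        rw [this]
      · have : cl (g⁻¹ y) = lo := by
          rw [hcl]
          simp only
          rw [min_eq_right (hhi ▸ h), max_eq_left h1]
        rw [this, hz _ (by linarith), hz _ (by linarith), hz _ (by linarith), hz _ (by linarith)]
    · rw [hE2 y h]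
      have h1 : cl (g⁻¹ y) = te + 1 := by
        rw [hcl]
        simp only
        rw [hhi, min_eq_left h, max_eq_right (hhi ▸ hlohi)]
      have h2 : g⁻¹ (g (te + 1)) = te + 1 := g.symm_apply_apply (te + 1)
      have h3 := hE1 (g (te + 1)) h2.le
      have h4 := hE2 (g (te + 1)) h2.ge
      rw [h4, h2] at h3
      rw [h1, ← h3]
  have claim3 : ∀ y y', |cl (g⁻¹ y) - cl (g⁻¹ y')| ≤ 4 * |y - y'| := by
    intro y y'
    have h1 : ∀ z ∈ uIcc (cl (g⁻¹ y)) (cl (g⁻¹ y')), Real.log (1 / 4) ≤ LD g z := by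
      intro z hz
      have hz' : z ∈ Icc lo hi := by
        rw [mem_uIcc] at hz
        rcases hz with h | h
        · exact ⟨(hclm _).1.trans h.1, h.2.trans (hclm _).2⟩
        · exact ⟨(hclm _).1.trans h.1, h.2.trans (hclm _).2⟩
      rw [hlo, hhi] at hz'
      have hz2 : z ∈ Icc (te - Λ - 2) (te + 2) := ⟨by linarith [hz'.1], by linarith [hz'.2]⟩
      rw [hLD]
      exact Real.log_le_log (by norm_num)
        (core_bd hK hq0 hQ (hchi01 _) (hc2 _) (hyp.size z hz2).1 (fd z hz2)).1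
    have h2 := exp_mul_le_abs_sub hYm h1
    rw [Real.exp_log (by norm_num)] at h2
    have h3 : ∀ y, g (cl (g⁻¹ y)) = max (g lo) (min (g hi) y) := by
      intro y
      rw [hcl]
      simp only
      have e1 : g (g⁻¹ y) = y := g.apply_symm_apply y
      rw [g.monotone.map_max, g.monotone.map_min, e1]
    have h4 : |g (cl (g⁻¹ y)) - g (cl (g⁻¹ y'))| ≤ |y - y'| := by
      rw [h3, h3, max_comm (g lo), max_comm (g lo)]
      refine (abs_max_sub_max_le_abs _ _ _).trans ?_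
      rw [min_comm (g hi), min_comm (g hi)]
      have := abs_min_sub_min_le_max y (g hi) y' (g hi)
      simpa using this
    linarith
  -- conclusion
  intro y y'
  rw [claim1 y, claim1 y']
  have k1 := claim2 _ (hclm (g⁻¹ y)) _ (hclm (g⁻¹ y'))
  have k2 := claim2 _ (hclm (g⁻¹ y')) _ (hclm (g⁻¹ y))
  have k3 := claim3 y y'
  have hn : 0 ≤ |y - y'| := abs_nonneg _
  have k4 : w |cl (g⁻¹ y) - cl (g⁻¹ y')| ≤ w ((256 * C0 + C1 + C2) * |y - y'|) := by
    refine hw.mono (k3.trans ?_)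
    exact mul_le_mul_of_nonneg_right (by linarith) hn
  have k5 := hw.nonneg ((256 * C0 + C1 + C2) * |y - y'|)
  have k6 : 128 * (q * (K + 1)) * (2 * w |cl (g⁻¹ y) - cl (g⁻¹ y')|) ≤
      (256 * C0 + C1 + C2) * (K + 1) / Λ * w ((256 * C0 + C1 + C2) * |y - y'|) := by
    have e1 : 256 * (q * (K + 1)) ≤ (256 * C0 + C1 + C2) * (K + 1) / Λ := by
      rw [hq, le_div_iff₀ hΛp]
      field_simp
      nlinarith
    calc 128 * (q * (K + 1)) * (2 * w |cl (g⁻¹ y) - cl (g⁻¹ y')|)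
        = 256 * (q * (K + 1)) * w |cl (g⁻¹ y) - cl (g⁻¹ y')| := by ring
      _ ≤ _ := mul_le_mul e1 k4 (hw.nonneg _) (by positivity)
  have k7 : |(LD g (cl (g⁻¹ y) - 1) - LD g (cl (g⁻¹ y))) -
      (LD g (cl (g⁻¹ y') - 1) - LD g (cl (g⁻¹ y')))| ≤ 2 := by
    refine (abs_sub _ _).trans ?_
    linarith [k1.2, k2.2]
  have k8 : c3 * |cl (g⁻¹ y) - cl (g⁻¹ y')| ≤ 4 * c3 * |y - y'| := by
    have := mul_le_mul_of_nonneg_left k3 hc30
    linarith
  show _ ≤ max 0 (min (4 * c3 * |y - y'|) 2) +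
    (256 * C0 + C1 + C2) * (K + 1) / Λ * w ((256 * C0 + C1 + C2) * |y - y'|)
  have k9 : 0 ≤ (256 * C0 + C1 + C2) * (K + 1) / Λ * w ((256 * C0 + C1 + C2) * |y - y'|) :=
    mul_nonneg (by positivity) k5
  rcases le_total (4 * c3 * |y - y'|) 2 with h | h
  · rw [min_eq_left h, max_eq_right (by positivity)]
    linarith [k1.1]
  · rw [min_eq_right h, max_eq_right (by norm_num)]
    linarith

end FG
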