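import Pool.Agent.helper97.FG.C4b
import Pool.Agent.helper97.FG.S3b
import Pool.Agent.helper97.FG.L2b
import Pool.Agent.helper97.FG.C2c

/-!
# C5 : moduli of the loop map

author: helper91

Chain: `LD P` has modulus `w`; `LD (P * G)` on `(-∞, yp 0]`: `w₀ + w (2 ·)`; `LD (Yit ..)` on `[-k-1, 0]`:
`w₀ + C_N w (C ·)` (`Yit_mod`); `LD (slowE ..)`: `w₀ + (C (K+1)/Λ) C_N w (C ·)` (`slowE_mod`); lift: `w₀ + .. (C ·)`
(`lift_mod`, the constant in the argument depends on `Λ`); `Rop`: `Rop_mod`; `posPart`: `parts_mod`.  Only the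
coefficient matters: it is at most `1/2` if `Λ ≥ Λ₀`.  (`eX_props` gives `Near 1` for the lift.)
-/

set_option linter.unusedVariables false

open Set Filter Topology
open scoped commutatorElement
open Pool.Agent.helper35.FOL

namespace FG

variable {E : ℝ → ℝ} {l x₀ t₀ : ℝ} {g h p m p' m' : ℝ ≃o ℝ} {w w₁ w₂ φ : ℝ → ℝ}

private theorem C5_near_mono {η η' : ℝ} (h : Near η g) (hη : η ≤ η') : Near η' g :=
  fun x => ⟨(h x).1.trans hη, (h x).2.trans hη⟩

private theorem C5_LD_zero {x : ℝ} (hx : ∀ᶠ y in 𝓝 x, g y = y) : LD g x = 0 := by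
  have h1 : LD g x = LD (1 : ℝ ≃o ℝ) x := LD_congr hx
  rw [h1, LD_one]

/-- a compactly supported element has a modulus -/
private theorem C5_mod_cpt {e : ℝ ≃o ℝ} (he : e ∈ Dd) {a b : ℝ} (ha : ∀ t ≤ a, e t = t)
    (hb : ∀ t, b ≤ t → e t = t) : ∃ w, IsMod w ∧ Mod (LD e) w := by
  have h1 : ∀ x, x < a → LD e x = 0 := fun x hx => C5_LD_zero (by
    filter_upwards [Iio_mem_nhds hx] with y hy
    exact ha y (le_of_lt hy))
  have h2 : ∀ x, b < x → LD e x = 0 := fun x hx => C5_LD_zero (by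
    filter_upwards [Ioi_mem_nhds hx] with y hy
    exact hb y (le_of_lt hy))
  refine exists_isMod_compact (continuous_LD he) (a := a - 1) (b := b + 1) ?_ ?_
  · intro x hx
    rw [h1 x (by linarith), h1 (a - 1) (by linarith)]
  · intro x hx
    rw [h2 x (by linarith), h2 (b + 1) (by linarith)]

/-- a continuous function has a modulus on `[-1, 0]` -/
private theorem C5_mod_Icc {φ : ℝ → ℝ} (hc : Continuous φ) :
    ∃ w, IsMod w ∧ ModOn (Icc (-1) 0) φ w := by
  have h1 : Continuous fun x => φ (max x (-1)) := hc.comp (continuous_id.max continuous_const)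
  obtain ⟨w, hw, h2⟩ := exists_isMod_Iic h1 (a := -1) (b := 0) (by
    intro x hx
    show φ (max x (-1)) = φ (max (-1) (-1))
    rw [max_eq_right hx, max_self])
  refine ⟨w, hw, fun x hx y hy => ?_⟩
  have h3 := h2 x hx.2 y hy.2
  have h4 : |φ (max x (-1)) - φ (max y (-1))| ≤ w |x - y| := h3
  rw [max_eq_left hx.1, max_eq_left hy.1] at h4
  exact h4

/-- modulus of the positive part, as `parts_mod`, with an arbitrary bound -/
private theorem C5_parts_mod (hE : Coord E l x₀ t₀) (ρ X B : ℝ) (hρ : 0 < ρ) (hX : ρ ≤ X)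
    (hB : 0 ≤ B) : ∃ w₀ C, IsMod w₀ ∧ 0 ≤ C ∧
    ∀ {g p m : ℝ ≃o ℝ}, g ∈ Dd → p ∈ Dd → IsLift E g p m → (∀ x, |x| ≤ ρ → g x = x) →
      (∀ x, X ≤ |x| → g x = x) → (∀ x, |LD g x| ≤ B) → ∀ w, IsMod w → Mod (LD g) w →
      Mod (LD p) (fun h => w₀ h + w (C * h)) := by
  obtain ⟨tρ, htρ⟩ := hE.surj hρ
  obtain ⟨tX, htX⟩ := hE.surj (hρ.trans_le hX)
  have hmono := hE.strictMono
  have htt : tρ ≤ tX := by
    rw [← hmono.le_iff_le, htρ, htX]
    exact hX
  set A := B + l * (tX - tρ) with hA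
  set c := l + l * Real.exp A with hc
  have hl := hE.l_pos
  have hc0 : 0 ≤ c := by positivity
  have hd0 : 0 ≤ deriv E tX := (hE.dpos tX).le
  refine ⟨fun h => max 0 (min (c * h) (c * (tX - tρ))), deriv E tX,
    isMod_lin hc0 (mul_nonneg hc0 (by linarith)), hd0, ?_⟩
  intro g p m hg hp hgl hg1 hg2 hg3 w hw hgw
  have hpos : ∀ t, 0 < E t := hE.pos
  -- `p` is the identity outside `[tρ, tX]`
  have hp1 : ∀ t ≤ tρ, p t = t := by
    intro t ht
    apply hmono.injective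
    rw [← hgl.pos t]
    refine hg1 _ ?_
    rw [abs_of_pos (hpos t), ← htρ]
    exact hmono.monotone ht
  have hp2 : ∀ t, tX ≤ t → p t = t := by
    intro t ht
    apply hmono.injective
    rw [← hgl.pos t]
    refine hg2 _ ?_
    rw [abs_of_pos (hpos t), ← htX]
    exact hmono.monotone ht
  have hcont := continuous_LD hp
  have hL1 : ∀ t ≤ tρ, LD p t = 0 := by
    have h1 : ∀ t < tρ, LD p t = 0 := fun t ht => C5_LD_zero (by
      filter_upwards [Iio_mem_nhds ht] with y hy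
      exact hp1 y (le_of_lt hy))
    intro t ht
    rcases ht.lt_or_eq with h | h
    · exact h1 t h
    · have h2 : closure (Iio tρ) ⊆ {t | LD p t = 0} :=
        closure_minimal (fun t ht => h1 t ht) (isClosed_eq hcont continuous_const)
      rw [closure_Iio] at h2
      exact h2 ht
  have hL2 : ∀ t, tX ≤ t → LD p t = 0 := by
    have h1 : ∀ t, tX < t → LD p t = 0 := fun t ht => C5_LD_zero (by
      filter_upwards [Ioi_mem_nhds ht] with y hy
      exact hp2 y (le_of_lt hy))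
    intro t ht
    have h2 : closure (Ioi tX) ⊆ {t | LD p t = 0} :=
      closure_minimal (fun t ht => h1 t ht) (isClosed_eq hcont continuous_const)
    rw [closure_Ioi] at h2
    exact h2 ht
  -- clamping
  have hclamp : ∀ t, LD p t = LD p (max tρ (min t tX)) := by
    intro t
    rcases le_total t tρ with h | h
    · rw [min_eq_left (h.trans htt), max_eq_left h, hL1 t h, hL1 tρ le_rfl]
    · rcases le_total t tX with h' | h'
      · rw [min_eq_left h', max_eq_right h]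
      · rw [min_eq_right h', max_eq_right htt, hL2 t h', hL2 tX le_rfl]
  have hin : ∀ t, max tρ (min t tX) ∈ Icc tρ tX := fun t =>
    ⟨le_max_left _ _, max_le htt (min_le_right _ _)⟩
  have hlip : ∀ s t, |max tρ (min s tX) - max tρ (min t tX)| ≤ |s - t| := by
    intro s t
    refine (abs_max_sub_max_le_max _ _ _ _).trans ?_
    rw [sub_self, abs_zero, max_eq_right (abs_nonneg _)]
    refine (abs_min_sub_min_le_max _ _ _ _).trans ?_
    rw [sub_self, abs_zero, max_eq_left (abs_nonneg _)]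
  -- `p` on `[tρ, tX]`
  have hpin : ∀ t ∈ Icc tρ tX, p t ∈ Icc tρ tX := by
    intro t ht
    have h1 := p.monotone ht.1
    have h2 := p.monotone ht.2
    rw [hp1 tρ le_rfl] at h1
    rw [hp2 tX le_rfl] at h2
    exact ⟨h1, h2⟩
  have hform : ∀ t, LD p t = LD g (E t) - (Real.log (deriv E (p t)) - Real.log (deriv E t)) := by
    intro t
    have := hgl.LD_pos hE hg hp t
    linarith
  have hLp : ∀ t ∈ Icc tρ tX, |LD p t| ≤ A := by
    intro t ht
    rw [hform t]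
    refine (abs_sub _ _).trans ?_
    have h1 := hE.lip (p t) t
    have h2 : |p t - t| ≤ tX - tρ := by
      have h3 := hpin t ht
      rw [abs_le]
      constructor <;> linarith [ht.1, ht.2, h3.1, h3.2]
    have h4 := hg3 (E t)
    have h5 : l * |p t - t| ≤ l * (tX - tρ) := mul_le_mul_of_nonneg_left h2 hl.le
    linarith
  have hmain : ∀ s ∈ Icc tρ tX, ∀ t ∈ Icc tρ tX,
      |LD p s - LD p t| ≤ c * |s - t| + w (deriv E tX * |s - t|) := by
    intro s hs t ht
    rw [hform s, hform t]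
    have e1 : LD g (E s) - (Real.log (deriv E (p s)) - Real.log (deriv E s)) -
        (LD g (E t) - (Real.log (deriv E (p t)) - Real.log (deriv E t))) =
        (LD g (E s) - LD g (E t)) + (Real.log (deriv E s) - Real.log (deriv E t)) -
          (Real.log (deriv E (p s)) - Real.log (deriv E (p t))) := by ring
    rw [e1]
    have h1 := abs_sub ((LD g (E s) - LD g (E t)) + (Real.log (deriv E s) - Real.log (deriv E t)))
      (Real.log (deriv E (p s)) - Real.log (deriv E (p t)))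
    have h2 := abs_add_le (LD g (E s) - LD g (E t))
      (Real.log (deriv E s) - Real.log (deriv E t))
    have h3 := hgw (E s) (E t)
    have h4 : w |E s - E t| ≤ w (deriv E tX * |s - t|) := hw.mono (hE.slope' hs.2 ht.2)
    have h5 := hE.lip s t
    have h6 := hE.lip (p s) (p t)
    have h7 : |p s - p t| ≤ Real.exp A * |s - t| := by
      refine abs_sub_le_exp hp fun z hz => ?_
      have hz' : z ∈ Icc tρ tX := by
        rw [mem_uIcc] at hz
        rcases hz with hz | hz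
        · exact ⟨hs.1.trans hz.1, hz.2.trans ht.2⟩
        · exact ⟨ht.1.trans hz.1, hz.2.trans hs.2⟩
      exact (abs_le.1 (hLp z hz')).2
    have h8 : l * |p s - p t| ≤ l * (Real.exp A * |s - t|) := mul_le_mul_of_nonneg_left h7 hl.le
    have h9 : c * |s - t| = l * |s - t| + l * (Real.exp A * |s - t|) := by
      rw [hc]
      ring
    linarith
  intro s t
  rw [hclamp s, hclamp t]
  have h1 := hmain _ (hin s) _ (hin t)
  have h2 := hlip s t
  have h3 : |max tρ (min s tX) - max tρ (min t tX)| ≤ tX - tρ := by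
    have h4 := hin s
    have h5 := hin t
    rw [abs_le]
    constructor <;> linarith [h4.1, h4.2, h5.1, h5.2]
  have h4 : c * |max tρ (min s tX) - max tρ (min t tX)| ≤
      max 0 (min (c * |s - t|) (c * (tX - tρ))) := by
    refine le_trans ?_ (le_max_right _ _)
    exact le_min (mul_le_mul_of_nonneg_left h2 hc0) (mul_le_mul_of_nonneg_left h3 hc0)
  have h5 : w (deriv E tX * |max tρ (min s tX) - max tρ (min t tX)|) ≤
      w (deriv E tX * |s - t|) := hw.mono (mul_le_mul_of_nonneg_left h2 hd0)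
  linarith

/-- modulus of `P * G` below `yp 0` -/
private theorem C5_PG {P G : ℝ ≃o ℝ} (hP : P ∈ Dd) (hG : G ∈ Dd) {y q : ℝ} (hq : q ≤ 1 / 8)
    (hGs : ∀ t ≤ y, |LD G t| ≤ q) {wG w : ℝ → ℝ} (hw : IsMod w) (h₁ : Mod (LD P) w)
    (h₂ : ModOn (Iic y) (LD G) wG) : ModOn (Iic y) (LD (P * G)) (fun h => w (2 * h) + wG h) := by
  intro a ha b hb
  rw [LD_mul hP hG, LD_mul hP hG]
  have e1 : LD P (G a) + LD G a - (LD P (G b) + LD G b) =
      (LD P (G a) - LD P (G b)) + (LD G a - LD G b) := by ring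
  rw [e1]
  refine (abs_add_le _ _).trans (add_le_add ?_ (h₂ a ha b hb))
  refine (h₁ _ _).trans (hw.mono ?_)
  have h3 : |G a - G b| ≤ Real.exp q * |a - b| := by
    refine abs_sub_le_exp hG fun z hz => ?_
    have hz' : z ≤ y := by
      rw [mem_uIcc] at hz
      have ha' : a ≤ y := ha
      have hb' : b ≤ y := hb
      rcases hz with hz | hz
      · exact hz.2.trans hb'
      · exact hz.2.trans ha'
    exact (abs_le.1 (hGs z hz')).2
  have h4 : Real.exp q ≤ 2 := by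
    have h5 : Real.exp q ≤ Real.exp (1 / 2) := Real.exp_le_exp.2 (by linarith)
    have h6 : Real.exp (1 / 2) * Real.exp (1 / 2) = Real.exp 1 := by
      rw [← Real.exp_add]
      norm_num
    have h7 := Real.exp_one_lt_d9
    have h8 := Real.exp_pos (1 / 2)
    nlinarith
  exact h3.trans (mul_le_mul_of_nonneg_right h4 (abs_nonneg _))

theorem loop_mod (E : ℝ → ℝ) (l x₀ t₀ κ θ₀ θ₁ cu K₀ θ q tκ ta : ℝ) (N : ℕ)
    (hE : Coord E l x₀ t₀) (hκ : 0 < κ) (hθ₀ : κ < θ₀) (hK : 0 ≤ K₀) (hθ : 0 ≤ θ) (hq : 0 < q) :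
    ∃ Λ₀ : ℝ, 1 ≤ Λ₀ ∧
    ∀ {s₀ tb te : ℝ} {ηc Λ : ℝ} {k : ℕ} {u f₁ f₂ f₁c f₂c G Gm yp ym : ℝ ≃o ℝ},
    LoopHyp E l x₀ t₀ κ θ₀ θ₁ cu K₀ s₀ θ q tκ ta tb te N ηc Λ k u f₁ f₂ f₁c f₂c G Gm yp ym →
    (∃ w, IsMod w ∧ Mod (LD f₁) w) →
    Λ₀ ≤ Λ → ∃ w₀ C, IsMod w₀ ∧ 1 ≤ C ∧ ∀ P ∈ Cls q ta tb, ∀ w, IsMod w → Mod (LD P) w →
      Mod (LD (loopMap E te Λ k u f₁ f₁c f₂c G yp (slowE te Λ (Yit Gm ym k) Gm) P))
        (fun h => w₀ h + w (C * h) / 2) := by
  obtain ⟨C₁, hC₁, H₁⟩ := eX_props E l x₀ t₀ K₀ θ tκ hE hK hθ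
  obtain ⟨C₂, hC₂, H₂⟩ := slowE_size
  obtain ⟨CS, hCS, H₃⟩ := slowE_mod
  obtain ⟨C₄, hC₄, H₄⟩ := slowE_formula
  obtain ⟨CN, hCN, H₅⟩ := Yit_mod N
  obtain ⟨CR, hCR, H₆⟩ := Rop_near cu
  set K := K₀ + θ with hKdef
  have hK0 : 0 ≤ K := by positivity
  have hK1 : 0 ≤ K + 1 := by positivity
  have n₂ : 0 ≤ C₂ * (K + 1) := by positivity
  have n₃ : 0 ≤ CS * (K + 1) := by positivity
  have n₄ : 0 ≤ C₄ * (K + 1) := by positivity
  have n₅ : 0 ≤ 2 * (CS * (K + 1) * CN) := by positivity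
  refine ⟨1 + C₁ + C₂ * (K + 1) + CS * (K + 1) + C₄ * (K + 1) + 2 * (CS * (K + 1) * CN),
    by linarith, ?_⟩
  intro s₀ tb te ηc Λ k u f₁ f₂ f₁c f₂c G Gm yp ym H hf₁ hΛ
  have hΛ0 : 0 < Λ := by linarith
  have a₁ : C₁ ≤ Λ := by linarith
  have a₂ : C₂ * (K + 1) ≤ Λ := by linarith
  have a₃ : CS * (K + 1) ≤ Λ := by linarith
  have a₄ : C₄ * (K + 1) ≤ Λ := by linarith
  have a₅ : 2 * (CS * (K + 1) * CN) ≤ Λ := by linarith
  have hX := H.X
  -- the modulus of `G`
  obtain ⟨wG, hwG, hwG'⟩ : ∃ w, IsMod w ∧ ModOn (Iic (yp 0)) (LD G) w := by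
    have h1 : ∀ x, x < tκ → LD G x = 0 := fun x hx => C5_LD_zero (by
      filter_upwards [Iio_mem_nhds hx] with y hy
      exact H.G_id y (le_of_lt hy))
    refine exists_isMod_Iic (continuous_LD H.G_mem) (a := tκ - 1) ?_
    intro x hx
    rw [h1 x (by linarith), h1 (tκ - 1) (by linarith)]
  -- the modulus of `yp`
  obtain ⟨wI, hwI, hwI'⟩ := C5_mod_Icc (continuous_LD H.yp_mem)
  -- slow switching off
  obtain ⟨wS, hwS, H₃'⟩ := H₃ K Λ hK0 a₃
  -- the modulus of the negative side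
  have hem := H₄ (H.slow_m hΛ0) a₄
  set em := slowE te Λ (Yit Gm ym k) Gm with hemdef
  obtain ⟨wm, hwm, hwm'⟩ := C5_mod_cpt hem.1 (a := te - Λ) (b := te + 1 + K)
    (fun t ht => hem.2.2.2.2.2.1 t ht) (fun t ht => hem.2.2.2.2.1 t ht)
  have hemN : Near 1 em := C5_near_mono (H₂ (H.slow_m hΛ0) a₂) (by
    rw [div_le_one hΛ0]
    exact a₂)
  -- the lift
  obtain ⟨CL, hCL, H₇⟩ := lift_mod hE (te + 1 + K) (te - Λ)
  obtain ⟨wL, hwL, H₇'⟩ := H₇ wm hwm
  -- the operator `Rop`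
  obtain ⟨wR, CR', hwR, hCR', H₈⟩ := Rop_mod hX hf₁
  -- the positive part
  have hηκ : 2 * ηc ≤ κ / 8 := by
    have := hX.ηc_le
    linarith
  have hρ : 0 < θ₀ - 2 * ηc := by linarith
  obtain ⟨wP, CP, hwP, hCP, H₉⟩ := C5_parts_mod hE (θ₀ - 2 * ηc) (θ₁ + 2 * ηc) (CR * (ηc + 1)) hρ
    (by
      have h1 := hX.θ_le
      have h2 := hX.ηc_nonneg
      linarith) (by
      have h2 := hX.ηc_nonneg
      positivity)
  set cΛ := CS * (K + 1) / Λ with hcΛ
  have hcΛ0 : 0 ≤ cΛ := by positivity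
  -- the moduli which do not depend on `P`
  set v : ℝ → ℝ := fun h => wS h + cΛ * (CN * wI (CS * h) + CN * wG (CN * (CS * h)) +
    jmp 1 2 (CS * h)) with hv
  have hCS0 : 0 ≤ CS := by linarith
  have hCN0 : 0 ≤ CN := by linarith
  have hCL0 : 0 ≤ CL := by linarith
  have hvM : IsMod v := by
    have j1 := (hwI.comp_mul hCS0).smul hCN0
    have j2 := ((hwG.comp_mul hCN0).comp_mul hCS0).smul hCN0
    have j3 := (isMod_jmp (r := 1) (B := 2) one_pos (by norm_num)).comp_mul hCS0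
    exact hwS.add (((j1.add j2).add j3).smul hcΛ0)
  set D := 2 * (CN * CS) with hD
  have hD0 : 0 ≤ D := by positivity
  have hw₀ : IsMod fun h => wP h + (wR (CP * h) + (wL (CR' * (CP * h)) +
      v (CL * (CR' * (CP * h))))) := by
    have j1 := hwR.comp_mul hCP
    have j2 := (hwL.comp_mul hCR').comp_mul hCP
    have j3 := ((hvM.comp_mul hCL0).comp_mul hCR').comp_mul hCP
    exact hwP.add (j1.add (j2.add j3))
  refine ⟨_, 1 + D * (CL * (CR' * CP)), hw₀, by
    have : 0 ≤ D * (CL * (CR' * CP)) := by positivity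
    linarith, ?_⟩
  intro P hP w hw hPw
  -- step 1
  have s1 := C5_PG (y := yp 0) hP.1 H.G_mem H.p_le (fun t ht => (H.sizeG t ht).2) hw hPw hwG'
  have hw1 : IsMod fun h => w (2 * h) + wG h := (hw.comp_mul (by norm_num)).add hwG
  -- step 2
  have s2 := H₅ (H.line hP) H.θ_small (by linarith [H.p_le]) H.s₀_le _ _ hw1 hwI s1 hwI' k
  have hw2 : IsMod fun h => CN * wI h + CN * (w (2 * (CN * h)) + wG (CN * h)) + jmp 1 2 h :=
    ((hwI.smul hCN0).add ((hw1.comp_mul hCN0).smul hCN0)).add (isMod_jmp one_pos (by norm_num))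
  -- step 3
  have hsub : Icc (te - Λ - 2) (te + 2) ⊆ Icc (-(k : ℝ) - 1) 0 := by
    have h1 := H.k_large
    have h2 := H.te_eq
    have h3 : (0 : ℝ) ≤ N := Nat.cast_nonneg N
    intro t ht
    exact ⟨by linarith [ht.1], by linarith [ht.2]⟩
  have s3 := H₃' (H.slow hΛ0 hP) _ hw2 (fun x hx y hy => s2 x (hsub hx) y (hsub hy))
  have hep := H₄ (H.slow hΛ0 hP) a₄
  have hepN : Near 1 (slowE te Λ (Yit (P * G) yp k) (P * G)) :=
    C5_near_mono (H₂ (H.slow hΛ0 hP) a₂) (by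
      rw [div_le_one hΛ0]
      exact a₂)
  have s3' : Mod (LD (slowE te Λ (Yit (P * G) yp k) (P * G)))
      (fun h => v h + cΛ * CN * w (D * h)) := by
    refine s3.mono fun x hx => le_of_eq ?_
    have e1 : 2 * (CN * (CS * x)) = D * x := by
      rw [hD]
      ring
    show wS x + CS * (K + 1) / Λ * (CN * wI (CS * x) + CN * (w (2 * (CN * (CS * x))) +
      wG (CN * (CS * x))) + jmp 1 2 (CS * x)) = wS x + cΛ * (CN * wI (CS * x) +
        CN * wG (CN * (CS * x)) + jmp 1 2 (CS * x)) + cΛ * CN * w (D * x)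
    rw [e1, ← hcΛ]
    ring
  have hw3 : IsMod fun h => v h + cΛ * CN * w (D * h) :=
    hvM.add ((hw.comp_mul hD0).smul (by positivity))
  -- step 4
  obtain ⟨⟨hXm, hXl⟩, hXs, hXn⟩ := H₁ H a₁ hP
  have s4 := H₇' hXm hep.1 hem.1 hXl (fun t ht => ⟨hep.2.2.2.2.1 t ht, hem.2.2.2.2.1 t ht⟩)
    (fun t ht => ⟨hep.2.2.2.2.2.1 t ht, hem.2.2.2.2.2.1 t ht⟩) hepN hemN hwm' _ hw3 s3'
  have hw4 : IsMod fun h => wL h + (v (CL * h) + cΛ * CN * w (D * (CL * h))) :=
    hwL.add (hw3.comp_mul hCL0)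
  -- step 5
  have hXn1 : Near 1 (eX E te Λ k G yp em P) := C5_near_mono hXn (by
    rw [div_le_one hΛ0]
    exact a₁)
  have s5 := H₈ hXm hXs hXn1 _ hw4 s4
  have hw5 : IsMod fun h => wR h + (wL (CR' * h) + (v (CL * (CR' * h)) +
      cΛ * CN * w (D * (CL * (CR' * h))))) := hwR.add (hw4.comp_mul hCR')
  -- step 6
  obtain ⟨hRm, hRn⟩ := H₆ hX hXm hXs zero_le_one le_rfl hXn1
  have hRid : ∀ x, |x| ≤ θ₀ - 2 * ηc → Rop u f₁ f₁c f₂c (eX E te Λ k G yp em P) x = x := by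
    intro x hx
    exact Rop_id hX hXs (Or.inl ((le_abs_self x).trans hx))
  have hRid' : ∀ x, θ₁ + 2 * ηc ≤ |x| →
      Rop u f₁ f₁c f₂c (eX E te Λ k G yp em P) x = x := by
    intro x hx
    rcases le_total 0 x with h0 | h0
    · rw [abs_of_nonneg h0] at hx
      exact Rop_id hX hXs (Or.inr hx)
    · exact Rop_id hX hXs (Or.inl (by linarith))
  have hR0 : Rop u f₁ f₁c f₂c (eX E te Λ k G yp em P) 0 = 0 := hRid 0 (by
    rw [abs_zero]
    exact hρ.le)
  obtain ⟨hpm, m, hm, hlift⟩ := posPart_spec (exists_parts hE hRm hR0)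
  have s6 := H₉ hRm hpm hlift hRid hRid' (fun x => (hRn x).2) _ hw5 s5
  refine s6.mono fun x hx => ?_
  have hcoef : cΛ * CN ≤ 1 / 2 := by
    rw [hcΛ, div_mul_eq_mul_div, div_le_iff₀ hΛ0]
    linarith
  have hcoef0 : 0 ≤ cΛ * CN := by positivity
  have hmono : w (D * (CL * (CR' * (CP * x)))) ≤ w ((1 + D * (CL * (CR' * CP))) * x) := by
    apply hw.mono
    have e1 : D * (CL * (CR' * (CP * x))) = D * (CL * (CR' * CP)) * x := by ring
    rw [e1]
    nlinarith
  have hwn := hw.nonneg ((1 + D * (CL * (CR' * CP))) * x)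
  have hwn' := hw.nonneg (D * (CL * (CR' * (CP * x))))
  have e2 : cΛ * CN * w (D * (CL * (CR' * (CP * x)))) ≤
      w ((1 + D * (CL * (CR' * CP))) * x) / 2 := by
    have e3 := mul_le_mul_of_nonneg_right hcoef hwn'
    linarith
  show wP x + (wR (CP * x) + (wL (CR' * (CP * x)) + (v (CL * (CR' * (CP * x))) +
    cΛ * CN * w (D * (CL * (CR' * (CP * x))))))) ≤
    wP x + (wR (CP * x) + (wL (CR' * (CP * x)) + v (CL * (CR' * (CP * x))))) +
      w ((1 + D * (CL * (CR' * CP))) * x) / 2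
  linarith

end FG
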