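import Pool.Agent.helper97.FG.B1b

/-!
# C6 : the maps `F#`  (author: helper58)

`F = (positive part of) F₁ F₂`, equal to the identity below.  The collar equation `Yin (t-1) + 1 = F (Yin t)` for `t`
near `0` allows to glue `F` (below `Yin 0`) and `tr 1 * Yin * (tr 1)⁻¹ * Yin⁻¹` (above).
-/

set_option linter.unusedVariables false

open Set Filter Topology
open scoped commutatorElement
open Pool.Agent.helper35.FOL

namespace FG

variable {E : ℝ → ℝ} {l x₀ t₀ : ℝ} {g h p m p' m' : ℝ ≃o ℝ} {w w₁ w₂ φ : ℝ → ℝ}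

theorem exists_Fsharp {F Yin : ℝ ≃o ℝ} (hF : F ∈ Dd) (hY : Yin ∈ Dd) {ι : ℝ} (hι : 0 < ι)
    (hcol : ∀ t, -ι < t → t < ι → F (Yin t) = Yin (t - 1) + 1) :
    ∃ G ∈ Dd, (∀ t, 0 ≤ t → G (Yin t) = Yin (t - 1) + 1) ∧ (∀ t ≤ Yin 0, G t = F t) ∧
      ∀ t ≤ Yin 0, LD G t = LD F t := by
  set H : ℝ ≃o ℝ := tr 1 * Yin * (tr 1)⁻¹ * Yin⁻¹ with hHdef
  have hH : H ∈ Dd :=
    Subgroup.mul_mem _ (Subgroup.mul_mem _ (Subgroup.mul_mem _ (tr_mem 1) hY)
      (Subgroup.inv_mem _ (tr_mem 1))) (Subgroup.inv_mem _ hY)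
  have hHY : ∀ t, H (Yin t) = Yin (t - 1) + 1 := by
    intro t
    have h1 : H (Yin t) = tr 1 (Yin ((tr 1)⁻¹ (Yin⁻¹ (Yin t)))) := rfl
    have h2 : Yin⁻¹ (Yin t) = t := Yin.symm_apply_apply t
    rw [h1, h2, tr_inv_apply, tr_apply]
  have hpq : Yin (-ι) < Yin ι := Yin.strictMono (by linarith)
  have hagree : ∀ x, Yin (-ι) < x → x < Yin ι → F x = H x := by
    intro x hx1 hx2
    obtain ⟨t, rfl⟩ := Yin.surjective x
    have ht1 : -ι < t := Yin.lt_iff_lt.1 hx1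
    have ht2 : t < ι := Yin.lt_iff_lt.1 hx2
    rw [hcol t ht1 ht2, hHY]
  obtain ⟨k, hk, hkF, hkH⟩ := exists_glue hF hH hpq hagree
  have h0 : Yin 0 < Yin ι := Yin.strictMono hι
  refine ⟨k, hk, fun t ht => ?_, fun t ht => ?_, fun t ht => ?_⟩
  · rw [hkH (Yin t) (Yin.strictMono (by linarith)), hHY]
  · exact hkF t (lt_of_le_of_lt ht h0)
  · refine LD_congr ?_
    filter_upwards [eventually_lt_nhds (lt_of_le_of_lt ht h0)] with y hy
    exact hkF y hy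

end FG
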