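import Pool.Agent.helper97.FG.C4c
import Pool.Agent.helper97.FG.C5
import Pool.Agent.helper97.FG.C6
import Pool.Agent.helper97.FG.B3

/-!
# C7 : the core lemma  (author: helper16)

Choices: `κ' ≤ min κ 1` replaces `κ` (the cutoffs are made at `κ'`), `tκ` with `E tκ = κ'/8`, `ta` with
`E ta = (κ' + θ₀)/2`, `tb` with `-K₀ - 2 < tb < -K₀ - 1` and `θ₁ < E tb` (from `hθ₁`), `N` from `N_large`, `q` from
`Np`, then `Λ` from C4, C5, then `k`, then `η`.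
`F₁ = f₁ f₁c⁻¹`, `F₂ = f₂c⁻¹ f₂` fix `0`; `F = posPart (F₁ F₂)` is `E⁻¹ (f₁ f₂) E` where `|x| ≥ κ'`.
`P` = fixed point of `loopMap` (FP); `Y` = lift of `Ych (Yit (P * G) yp k)` and `Ych (Yit Gm ym k)`;
`ψ = psiOp f₁c f₂c (eX .. P)`.
Equation at `x = E t`, `t ≤ 0`: `Ych (t-1) + 1 = e (P (G (Ych t)))` (`slowE_formula`), `G = F₁p F₂p` below `yp 0`,
`P = F₁p Dp F₁p⁻¹`, `e` commutes with `F₁p` (disjoint supports), so the right side is `(F₁ e D F₂)`'s positive part, use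
`core_identity`.  Negative side: `D` is the identity there.  At `0`: `Y`, `e`, `F₁`, `F₂`, `D` are the identity near `0`.
-/

set_option linter.unusedVariables false

open Set Filter Topology
open scoped commutatorElement
open Pool.Agent.helper35.FOL

namespace FG

variable {E : ℝ → ℝ} {l x₀ t₀ : ℝ} {g h p m p' m' : ℝ ≃o ℝ} {w w₁ w₂ φ : ℝ → ℝ}

private theorem app_inv (g : ℝ ≃o ℝ) (x : ℝ) : g (g⁻¹ x) = x := g.apply_symm_apply x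

private theorem inv_app (g : ℝ ≃o ℝ) (x : ℝ) : g⁻¹ (g x) = x := g.symm_apply_apply x

private theorem inv_fix {g : ℝ ≃o ℝ} {x : ℝ} (h : g x = x) : g⁻¹ x = x := by
  have h1 := inv_app g x
  rwa [h] at h1

private theorem near_mul {a b : ℝ} (hg : g ∈ Dd) (hh : h ∈ Dd) (ng : Near a g) (nh : Near b h) :
    Near (a + b) (g * h) := by
  intro x
  refine ⟨?_, ?_⟩
  · show |g (h x) - x| ≤ a + b
    have h1 := (ng (h x)).1
    have h2 := (nh x).1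
    calc |g (h x) - x| = |(g (h x) - h x) + (h x - x)| := by ring_nf
      _ ≤ |g (h x) - h x| + |h x - x| := abs_add_le _ _
      _ ≤ a + b := add_le_add h1 h2
  · rw [LD_mul hg hh]
    exact (abs_add_le _ _).trans (add_le_add (ng (h x)).2 (nh x).2)

private theorem near_inv {a : ℝ} (hg : g ∈ Dd) (ng : Near a g) : Near a g⁻¹ := by
  intro x
  refine ⟨?_, ?_⟩
  · have h1 := (ng (g⁻¹ x)).1
    rw [app_inv] at h1
    rw [abs_sub_comm]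
    exact h1
  · rw [LD_inv hg, abs_neg]
    exact (ng _).2

private theorem near_mono {a b : ℝ} (hab : a ≤ b) (ng : Near a g) : Near b g :=
  fun x => ⟨(ng x).1.trans hab, (ng x).2.trans hab⟩

section xline

variable {κ θ₀ θ₁ cu ηc : ℝ} {u f₁ f₂ f₁c f₂c e : ℝ ≃o ℝ}

/-- `F₁` commutes with `e` -/
private theorem F₁_comm (X : CoreX κ θ₀ θ₁ cu ηc u f₁ f₂ f₁c f₂c) (he : ∀ x, κ / 8 ≤ |x| → e x = x)
    (x : ℝ) : (f₁ * f₁c⁻¹) (e x) = e ((f₁ * f₁c⁻¹) x) := by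
  have hκ := X.κ_pos
  have k8 : |κ / 8| = κ / 8 := abs_of_pos (by linarith)
  have k8' : |-(κ / 8)| = κ / 8 := by rw [abs_neg, k8]
  rcases le_total |x| (κ / 8) with hx | hx
  · have h1 : (f₁ * f₁c⁻¹) x = x := F₁_id X (by linarith)
    rw [h1]
    apply F₁_id X
    have h2 : e x ≤ κ / 8 := by
      have := e.monotone (abs_le.1 hx).2
      rwa [he _ k8.ge] at this
    have h3 : -(κ / 8) ≤ e x := by
      have := e.monotone (abs_le.1 hx).1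
      rwa [he _ k8'.ge] at this
    have h4 : |e x| ≤ κ / 8 := abs_le.2 ⟨h3, h2⟩
    linarith
  · rw [he x hx]
    symm
    apply he
    have hF8 : (f₁ * f₁c⁻¹) (κ / 8) = κ / 8 := F₁_id X (by rw [k8]; linarith)
    have hF8' : (f₁ * f₁c⁻¹) (-(κ / 8)) = -(κ / 8) := F₁_id X (by rw [k8']; linarith)
    rcases le_abs.1 hx with h1 | h1
    · have h2 := (f₁ * f₁c⁻¹).monotone h1
      rw [hF8] at h2
      exact h2.trans (le_abs_self _)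
    · have h2 := (f₁ * f₁c⁻¹).monotone (show x ≤ -(κ / 8) by linarith)
      rw [hF8'] at h2
      have h3 := neg_le_abs ((f₁ * f₁c⁻¹) x)
      linarith

/-- `F₁ F₂ = f₁ f₂` away from `0` -/
private theorem F₁₂_far (X : CoreX κ θ₀ θ₁ cu ηc u f₁ f₂ f₁c f₂c) {x : ℝ} (hx : κ ≤ |f₂ x|) :
    ((f₁ * f₁c⁻¹) * (f₂c⁻¹ * f₂)) x = f₁ (f₂ x) := by
  show f₁ (f₁c⁻¹ (f₂c⁻¹ (f₂ x))) = f₁ (f₂ x)
  rw [inv_fix (X.c₂_out _ hx), inv_fix (X.c₁_out _ hx)]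

/-- the equation from the equations of the parts -/
private theorem core_eq (hE : Coord E l x₀ t₀) {α : ℝ ≃o ℝ} (hαl : IsLift E α (tr 1) (tr 1))
    (X : CoreX κ θ₀ θ₁ cu ηc u f₁ f₂ f₁c f₂c) (he : ∀ x, κ / 8 ≤ |x| → e x = x)
    {F Fm ep em P zp zm Y : ℝ ≃o ℝ} (hF : IsLift E ((f₁ * f₁c⁻¹) * (f₂c⁻¹ * f₂)) F Fm)
    (hel : IsLift E e ep em) (hPl : ∀ t, Rop u f₁ f₁c f₂c e (E t) = E (P t)) (hY : IsLift E Y zp zm)
    (hzp : ∀ t ≤ 0, zp (t - 1) + 1 = ep (P (F (zp t))))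
    (hzm : ∀ t ≤ 0, zm (t - 1) + 1 = em (Fm (zm t))) :
    ∀ x, |x| ≤ E 0 → α (Y (α⁻¹ x)) = f₁ (⁅u, psiOp f₁c f₂c e⁆⁻¹ (f₂ (Y x))) := by
  have hκ := X.κ_pos
  have hθ₀ := X.κ_lt
  have key : ∀ y, f₁ (⁅u, psiOp f₁c f₂c e⁆⁻¹ (f₂ y)) =
      (f₁ * f₁c⁻¹) (e (DOp u (psiOp f₁c f₂c e) ((f₂c⁻¹ * f₂) y))) := by
    intro y
    have h1 := congrArg (fun k : ℝ ≃o ℝ => k y) (core_identity X he)
    exact h1
  have hz : ∀ a : ℝ, |(0 : ℝ)| ≤ a ↔ 0 ≤ a := fun a => by rw [abs_zero]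
  intro x hx
  rw [key]
  rcases lt_trichotomy x 0 with hx0 | hx0 | hx0
  · obtain ⟨t, ht⟩ := hE.surj (show 0 < -x by linarith)
    have hxt : x = -E t := by linarith
    subst hxt
    have ht0 : t ≤ 0 := by
      have h1 : E t ≤ E 0 := by
        rw [abs_neg, abs_of_pos (hE.pos t)] at hx
        exact hx
      exact hE.strictMono.le_iff_le.1 h1
    have hα' : α⁻¹ (-E t) = -E (t - 1) := by
      have h1 := hαl.neg (t - 1)
      rw [tr_apply, sub_add_cancel] at h1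
      rw [← h1, inv_app]
    rw [hα', hY.neg, hαl.neg, tr_apply, hzm t ht0, ← hel.neg, ← hF.neg, hY.neg]
    have hD : DOp u (psiOp f₁c f₂c e) ((f₂c⁻¹ * f₂) (-E (zm t))) = (f₂c⁻¹ * f₂) (-E (zm t)) := by
      apply DOp_id X he
      left
      have h0 : (f₂c⁻¹ * f₂) 0 = 0 := F₂_id X (by rw [abs_zero]; linarith)
      have h1 := (f₂c⁻¹ * f₂).monotone (show -E (zm t) ≤ 0 by linarith [hE.pos (zm t)])
      rw [h0] at h1
      linarith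
    rw [hD, F₁_comm X he]
    rfl
  · subst hx0
    have hα0 : α⁻¹ 0 = 0 := inv_fix hαl.zero
    have hF2 : (f₂c⁻¹ * f₂) 0 = 0 := F₂_id X (by rw [abs_zero]; linarith)
    have hF1 : (f₁ * f₁c⁻¹) 0 = 0 := F₁_id X (by rw [abs_zero]; linarith)
    rw [hα0, hY.zero, hαl.zero, hF2, DOp_id X he (Or.inl (by linarith)), hel.zero, hF1]
  · obtain ⟨t, ht⟩ := hE.surj hx0
    subst ht
    have ht0 : t ≤ 0 := by
      have h1 : E t ≤ E 0 := by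
        rw [abs_of_pos (hE.pos t)] at hx
        exact hx
      exact hE.strictMono.le_iff_le.1 h1
    have hα' : α⁻¹ (E t) = E (t - 1) := by
      have h1 := hαl.pos (t - 1)
      rw [tr_apply, sub_add_cancel] at h1
      rw [← h1, inv_app]
    rw [hα', hY.pos, hαl.pos, tr_apply, hzp t ht0, ← hel.pos, ← hPl, ← hF.pos, hY.pos]
    have hR : ∀ y, Rop u f₁ f₁c f₂c e (((f₁ * f₁c⁻¹) * (f₂c⁻¹ * f₂)) y) =
        (f₁ * f₁c⁻¹) (DOp u (psiOp f₁c f₂c e) ((f₂c⁻¹ * f₂) y)) := by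
      intro y
      show (f₁ * f₁c⁻¹) (DOp u (psiOp f₁c f₂c e) ((f₁ * f₁c⁻¹)⁻¹ ((f₁ * f₁c⁻¹) ((f₂c⁻¹ * f₂) y)))) = _
      rw [inv_app]
    rw [hR, F₁_comm X he]

end xline

/-- sizes of the slowly switched off map -/
private theorem ych_bounds : ∃ C : ℝ, 1 ≤ C ∧ ∀ (te Λ K s : ℝ) (Y : ℝ ≃o ℝ), Y ∈ Dd → 0 ≤ K → 0 ≤ s →
    s ≤ 1 / 2 → 0 < Λ → te < 0 → C * (K + 1) ≤ Λ →
    (∀ t ∈ Icc (te - Λ) 0, |Y t - t| ≤ K ∧ |LD Y t| ≤ s) →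
      Ych te Λ Y ∈ Dd ∧ (∀ t, te ≤ t → Ych te Λ Y t = Y t) ∧ (∀ t, t ≤ te - Λ → Ych te Λ Y t = t) ∧
      ∀ t ≤ 0, |Ych te Λ Y t - t| ≤ K ∧ |LD (Ych te Λ Y) t| ≤ s + C * K / Λ := by
  obtain ⟨C, hC, h⟩ := exists_Ych
  refine ⟨C, hC, fun te Λ K s Y hY hK hs hs' hΛ hte hCK hb => ?_⟩
  obtain ⟨h1, h2, h3, h4, h5, -⟩ := h te Λ K s Y hY hK hs hs' hCK
    fun t ht => hb t ⟨ht.1, ht.2.trans hte.le⟩
  have hCKΛ : 0 ≤ C * K / Λ := by positivity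
  refine ⟨h1, h3, h4, fun t ht => ⟨?_, ?_⟩⟩
  · rw [h2]
    rcases le_total t (te - Λ) with h6 | h6
    · rw [chi_eq_zero hΛ h6]
      simpa using hK
    · have h7 := (hb t ⟨h6, ht⟩).1
      have h8 := chi_nonneg te Λ t
      have h9 := chi_le_one te Λ t
      rw [add_sub_cancel_left, abs_mul, abs_of_nonneg h8]
      calc chi te Λ t * |Y t - t| ≤ 1 * |Y t - t| :=
            mul_le_mul_of_nonneg_right h9 (abs_nonneg _)
        _ ≤ K := by rw [one_mul]; exact h7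
  · rcases lt_or_ge t (te - Λ) with h6 | h6
    · have h7 : LD (Ych te Λ Y) t = LD (1 : ℝ ≃o ℝ) t := by
        apply LD_congr
        filter_upwards [Iio_mem_nhds h6] with y hy
        rw [h4 y (le_of_lt hy)]
        rfl
      rw [h7, LD_one, abs_zero]
      linarith
    · rcases le_or_gt t te with h7 | h7
      · exact h5 t ⟨h6, h7⟩
      · have h8 : LD (Ych te Λ Y) t = LD Y t := by
          apply LD_congr
          filter_upwards [Ioi_mem_nhds h7] with y hy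
          exact h3 y (le_of_lt hy)
        rw [h8]
        have := (hb t ⟨h6, ht⟩).2
        linarith

/-- everything except the choice of the constants -/
private theorem core_of_loop : ∃ C : ℝ, 1 ≤ C ∧
    ∀ {E : ℝ → ℝ} {l x₀ t₀ κ θ₀ θ₁ cu K₀ s₀ θ q tκ ta tb te : ℝ} {N : ℕ} {ηc Λ : ℝ} {k : ℕ}
      {u f₁ f₂ f₁c f₂c G Gm yp ym α F Fm Yin P : ℝ ≃o ℝ}, Coord E l x₀ t₀ →
      IsLift E α (tr 1) (tr 1) →
      LoopHyp E l x₀ t₀ κ θ₀ θ₁ cu K₀ s₀ θ q tκ ta tb te N ηc Λ k u f₁ f₂ f₁c f₂c G Gm yp ym →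
      C * (K₀ + θ + 1) ≤ Λ → IsLift E ((f₁ * f₁c⁻¹) * (f₂c⁻¹ * f₂)) F Fm →
      (∀ t ≤ yp 0, G t = F t) → (∀ t ≤ ym 0, Gm t = Fm t) → IsLift E Yin yp ym → P ∈ Cls q ta tb →
      loopMap E te Λ k u f₁ f₁c f₂c G yp (slowE te Λ (Yit Gm ym k) Gm) P = P →
      IsLift E (eX E te Λ k G yp (slowE te Λ (Yit Gm ym k) Gm) P)
          (slowE te Λ (Yit (P * G) yp k) (P * G)) (slowE te Λ (Yit Gm ym k) Gm) →
      eX E te Λ k G yp (slowE te Λ (Yit Gm ym k) Gm) P ∈ Dd →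
      (∀ x, κ / 8 ≤ |x| → eX E te Λ k G yp (slowE te Λ (Yit Gm ym k) Gm) P x = x) →
      Rop u f₁ f₁c f₂c (eX E te Λ k G yp (slowE te Λ (Yit Gm ym k) Gm) P) ∈ Dd →
      ∃ Y ∈ Dd, ∃ zp ∈ Dd, ∃ zm ∈ Dd, IsLift E Y zp zm ∧ (∀ x, E (-1) ≤ |x| → Y x = Yin x) ∧
        (∀ x, |x| ≤ E 0 → α (Y (α⁻¹ x)) =
          f₁ (⁅u, psiOp f₁c f₂c (eX E te Λ k G yp (slowE te Λ (Yit Gm ym k) Gm) P)⁆⁻¹ (f₂ (Y x)))) ∧
        (∀ t ≤ 0, |zp t - t| ≤ K₀ + θ ∧ |LD zp t| ≤ s₀ + θ + C * (K₀ + θ) / Λ) ∧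
        (∀ t ≤ 0, |zm t - t| ≤ K₀ + θ ∧ |LD zm t| ≤ s₀ + θ + C * (K₀ + θ) / Λ) := by
  obtain ⟨C₁, hC₁, hych⟩ := ych_bounds
  obtain ⟨C₂, hC₂, hform⟩ := slowE_formula
  refine ⟨max C₁ C₂, hC₁.trans (le_max_left _ _), ?_⟩
  intro E l x₀ t₀ κ θ₀ θ₁ cu K₀ s₀ θ q tκ ta tb te N ηc Λ k u f₁ f₂ f₁c f₂c G Gm yp ym α F Fm Yin P
    hE hαl H hΛ hF hG hGm hYin hP hfix hel hem he hRm
  set em := slowE te Λ (Yit Gm ym k) Gm with hemdef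
  set e := eX E te Λ k G yp em P with hedef
  have hK0 := H.K₀_nonneg
  have hs0 := H.s₀_nonneg
  have hs0' := H.s₀_le
  have hθ := H.θ_pos
  have hθ' := H.θ_small
  have hKθ : 0 ≤ K₀ + θ := by linarith
  have hΛ1 : C₁ * (K₀ + θ + 1) ≤ Λ :=
    (mul_le_mul_of_nonneg_right (le_max_left C₁ C₂) (by linarith)).trans hΛ
  have hΛ2 : C₂ * (K₀ + θ + 1) ≤ Λ :=
    (mul_le_mul_of_nonneg_right (le_max_right C₁ C₂) (by linarith)).trans hΛ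
  have hΛ0 : 0 < Λ := by
    have : 0 < C₁ * (K₀ + θ + 1) := mul_pos (by linarith) (by linarith)
    linarith
  have hte : te < 0 := by
    rw [H.te_eq]
    have : (0 : ℝ) ≤ N := Nat.cast_nonneg N
    linarith
  have hte1 : te ≤ -1 := by
    rw [H.te_eq]
    have : (0 : ℝ) ≤ N := Nat.cast_nonneg N
    linarith
  have hk := H.k_large
  -- the transported maps
  have L := H.line hP
  have Lm := H.line_m
  obtain ⟨hsz, -⟩ := Yit_size L k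
  obtain ⟨hszm, -⟩ := Yit_size Lm k
  obtain ⟨hy1, -⟩ := Yit_eq L.col k
  obtain ⟨hy1m, -⟩ := Yit_eq Lm.col k
  have hYm : Yit (P * G) yp k ∈ Dd := Yit_mem L.F_mem L.Y_mem k
  have hYmm : Yit Gm ym k ∈ Dd := Yit_mem Lm.F_mem Lm.Y_mem k
  have hs12 : s₀ + θ ≤ 1 / 2 := by linarith
  have hsθ : 0 ≤ s₀ + θ := by linarith
  obtain ⟨zpm, zp1, zp2, zp3⟩ := hych te Λ (K₀ + θ) (s₀ + θ) (Yit (P * G) yp k) hYm hKθ hsθ hs12 hΛ0 hte hΛ1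
    (fun t ht => hsz t ⟨by linarith [ht.1], ht.2⟩)
  obtain ⟨zmm, zm1, zm2, zm3⟩ := hych te Λ (K₀ + θ) (s₀ + θ) (Yit Gm ym k) hYmm hKθ hsθ hs12 hΛ0 hte hΛ1
    (fun t ht => hszm t ⟨by linarith [ht.1], ht.2⟩)
  set zp := Ych te Λ (Yit (P * G) yp k) with hzpdef
  set zm := Ych te Λ (Yit Gm ym k) with hzmdef
  obtain ⟨Y, hY, hYl⟩ := exists_lift hE zpm zmm (c := 0) (t₁ := te - Λ)
    (fun t ht => ⟨by rw [zp2 t ht, add_zero], by rw [zm2 t ht, add_zero]⟩)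
  have hzp1 : ∀ t, -1 ≤ t → zp t = yp t := fun t ht => by rw [zp1 t (by linarith), hy1 t ht]
  have hzm1 : ∀ t, -1 ≤ t → zm t = ym t := fun t ht => by rw [zm1 t (by linarith), hy1m t ht]
  -- the equations of the parts
  obtain ⟨-, -, -, -, -, -, hep⟩ := hform (H.slow hΛ0 hP) hΛ2
  obtain ⟨-, -, -, -, -, -, hemq⟩ := hform (H.slow_m hΛ0) hΛ2
  have hzpe : ∀ t ≤ 0, zp (t - 1) + 1 = slowE te Λ (Yit (P * G) yp k) (P * G) (P (F (zp t))) := by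
    intro t ht
    rw [hzpdef, hep t, ← hzpdef]
    have h1 : zp t ≤ yp 0 := by
      rw [← hzp1 0 (by norm_num)]
      exact zp.monotone ht
    rw [← hG _ h1]
    rfl
  have hzme : ∀ t ≤ 0, zm (t - 1) + 1 = em (Fm (zm t)) := by
    intro t ht
    rw [hzmdef, hemq t, ← hzmdef, ← hemdef]
    have h1 : zm t ≤ ym 0 := by
      rw [← hzm1 0 (by norm_num)]
      exact zm.monotone ht
    rw [← hGm _ h1]
  -- `P` is the positive part of `Rop`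
  have hR0 : Rop u f₁ f₁c f₂c e 0 = 0 := by
    apply Rop_id H.X he
    left
    have h1 := H.X.ηc_le
    have h2 := H.X.κ_lt
    have h3 := H.X.κ_pos
    linarith
  have hPl : ∀ t, Rop u f₁ f₁c f₂c e (E t) = E (P t) := by
    obtain ⟨p', hp', m', hm', hl⟩ := exists_parts hE hRm hR0
    obtain ⟨-, m'', -, hl2⟩ := posPart_spec (E := E) (g := Rop u f₁ f₁c f₂c e) ⟨p', hp', m', hm', hl⟩
    intro t
    have h1 : posPart E (Rop u f₁ f₁c f₂c e) = P := hfix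
    rw [h1] at hl2
    exact hl2.pos t
  have hCb : C₁ * (K₀ + θ) / Λ ≤ max C₁ C₂ * (K₀ + θ) / Λ :=
    div_le_div_of_nonneg_right (mul_le_mul_of_nonneg_right (le_max_left _ _) hKθ) hΛ0.le
  refine ⟨Y, hY, zp, zpm, zm, zmm, hYl, ?_, core_eq hE hαl H.X he hF hel hPl hYl hzpe hzme,
    fun t ht => ⟨(zp3 t ht).1, (zp3 t ht).2.trans (by linarith)⟩,
    fun t ht => ⟨(zm3 t ht).1, (zm3 t ht).2.trans (by linarith)⟩⟩
  intro x hx
  have hE1 : 0 < E (-1) := hE.pos _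
  rcases le_or_gt 0 x with hx0 | hx0
  · rw [abs_of_nonneg hx0] at hx
    obtain ⟨t, ht⟩ := hE.surj (show 0 < x by linarith)
    subst ht
    have h1 : -1 ≤ t := hE.strictMono.le_iff_le.1 hx
    rw [hYl.pos, hYin.pos, hzp1 t h1]
  · rw [abs_of_neg hx0] at hx
    obtain ⟨t, ht⟩ := hE.surj (show 0 < -x by linarith)
    have hxt : x = -E t := by linarith
    subst hxt
    rw [neg_neg] at hx
    have h1 : -1 ≤ t := hE.strictMono.le_iff_le.1 hx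
    rw [hYl.neg, hYin.neg, hzm1 t h1]

/-- the collar equation for the positive parts -/
private theorem collar (hE : Coord E l x₀ t₀) {α : ℝ ≃o ℝ} (hαl : IsLift E α (tr 1) (tr 1))
    {κ θ₀ θ₁ cu ηc K₀ : ℝ} {u f₁ f₂ f₁c f₂c Yin yp ym F Fm : ℝ ≃o ℝ}
    (X : CoreX κ θ₀ θ₁ cu ηc u f₁ f₂ f₁c f₂c) (hη : ηc ≤ (θ₀ - κ) / 4) (hθ₁ : θ₁ < E (-K₀ - 1))
    (hF : IsLift E ((f₁ * f₁c⁻¹) * (f₂c⁻¹ * f₂)) F Fm) (hY : IsLift E Yin yp ym)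
    (hsp : -K₀ ≤ yp 0) (hsm : -K₀ ≤ ym 0)
    (hcol : ∃ ι : ℝ, 0 < ι ∧ ∀ t, -ι < t → t < ι →
        α (Yin (α⁻¹ (E t))) = f₁ (f₂ (Yin (E t))) ∧ α (Yin (α⁻¹ (-E t))) = f₁ (f₂ (Yin (-E t)))) :
    ∃ ι : ℝ, 0 < ι ∧ ∀ t, -ι < t → t < ι → F (yp t) = yp (t - 1) + 1 ∧ Fm (ym t) = ym (t - 1) + 1 := by
  obtain ⟨ι, hι, hc⟩ := hcol
  have hcp : Tendsto (fun t => yp t) (𝓝 0) (𝓝 (yp 0)) := yp.continuous.tendsto 0
  have hcm : Tendsto (fun t => ym t) (𝓝 0) (𝓝 (ym 0)) := ym.continuous.tendsto 0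
  have h1 : ∀ᶠ t in 𝓝 (0 : ℝ), -K₀ - 1 < yp t := hcp.eventually (lt_mem_nhds (by linarith))
  have h2 : ∀ᶠ t in 𝓝 (0 : ℝ), -K₀ - 1 < ym t := hcm.eventually (lt_mem_nhds (by linarith))
  obtain ⟨δ, hδ, hb⟩ := Metric.eventually_nhds_iff.1 (h1.and h2)
  have hαp : ∀ t, α⁻¹ (E t) = E (t - 1) := fun t => by
    have h3 := hαl.pos (t - 1)
    rw [tr_apply, sub_add_cancel] at h3
    rw [← h3, inv_app]
  have hαm : ∀ t, α⁻¹ (-E t) = -E (t - 1) := fun t => by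
    have h3 := hαl.neg (t - 1)
    rw [tr_apply, sub_add_cancel] at h3
    rw [← h3, inv_app]
  have hκ := X.κ_pos
  have hκθ := X.κ_lt
  have hθθ := X.θ_le
  refine ⟨min ι δ, lt_min hι hδ, fun t ht1 ht2 => ?_⟩
  have ha1 : -ι < t := by linarith [min_le_left ι δ]
  have ha2 : t < ι := by linarith [min_le_left ι δ]
  have ha3 : dist t 0 < δ := by
    rw [Real.dist_eq, sub_zero, abs_lt]
    exact ⟨by linarith [min_le_right ι δ], by linarith [min_le_right ι δ]⟩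
  obtain ⟨hyp, hym⟩ := hb ha3
  obtain ⟨e1, e2⟩ := hc t ha1 ha2
  constructor
  · have hx : κ + ηc ≤ E (yp t) := by
      have := hE.strictMono hyp
      linarith
    have hfar : κ ≤ |f₂ (E (yp t))| := by
      have h4 := (X.near₂ (E (yp t))).1
      have h5 := (abs_le.1 h4).1
      exact le_trans (by linarith) (le_abs_self _)
    rw [hαp, hY.pos, hαl.pos, tr_apply, hY.pos, ← F₁₂_far X hfar, hF.pos] at e1
    exact (hE.strictMono.injective e1).symm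
  · have hx : κ + ηc ≤ E (ym t) := by
      have := hE.strictMono hym
      linarith
    have hfar : κ ≤ |f₂ (-E (ym t))| := by
      have h4 := (X.near₂ (-E (ym t))).1
      have h5 := (abs_le.1 h4).2
      exact le_trans (by linarith) (neg_le_abs _)
    rw [hαm, hY.neg, hαl.neg, tr_apply, hY.neg, ← F₁₂_far X hfar, hF.neg] at e2
    exact (hE.strictMono.injective (neg_injective e2)).symm

/-- size and support of the parts of `F₁ F₂` -/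
private theorem F_size (hE : Coord E l x₀ t₀) {κ : ℝ} (hκ : 0 < κ) : ∃ C : ℝ, 1 ≤ C ∧
    ∀ {θ₀ θ₁ cu ηc : ℝ} {u f₁ f₂ f₁c f₂c : ℝ ≃o ℝ}, CoreX κ θ₀ θ₁ cu ηc u f₁ f₂ f₁c f₂c →
      ∃ F ∈ Dd, ∃ Fm ∈ Dd, IsLift E ((f₁ * f₁c⁻¹) * (f₂c⁻¹ * f₂)) F Fm ∧
        (∀ t, |F t - t| ≤ C * ηc ∧ |LD F t| ≤ C * ηc) ∧ (∀ t, |Fm t - t| ≤ C * ηc ∧ |LD Fm t| ≤ C * ηc) ∧
        ∀ t, E t ≤ κ / 8 → F t = t ∧ Fm t = t := by
  obtain ⟨C, hC, h⟩ := parts_size hE (κ / 8) (by linarith)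
  refine ⟨4 * C, by linarith, ?_⟩
  intro θ₀ θ₁ cu ηc u f₁ f₂ f₁c f₂c X
  have hη := X.ηc_nonneg
  have hid : ∀ x, |x| ≤ κ / 8 → ((f₁ * f₁c⁻¹) * (f₂c⁻¹ * f₂)) x = x := by
    intro x hx
    have h1 : (f₂c⁻¹ * f₂) x = x := F₂_id X (by linarith)
    have h2 : (f₁ * f₁c⁻¹) x = x := F₁_id X (by linarith)
    show (f₁ * f₁c⁻¹) ((f₂c⁻¹ * f₂) x) = x
    rw [h1, h2]
  have m1 : f₁ * f₁c⁻¹ ∈ Dd := Dd.mul_mem X.f₁_mem (Dd.inv_mem X.f₁c_mem)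
  have m2 : f₂c⁻¹ * f₂ ∈ Dd := Dd.mul_mem (Dd.inv_mem X.f₂c_mem) X.f₂_mem
  have hm : (f₁ * f₁c⁻¹) * (f₂c⁻¹ * f₂) ∈ Dd := Dd.mul_mem m1 m2
  have hn : Near (4 * ηc) ((f₁ * f₁c⁻¹) * (f₂c⁻¹ * f₂)) := by
    have n1 := near_mul X.f₁_mem (Dd.inv_mem X.f₁c_mem) X.near₁ (near_inv X.f₁c_mem X.near₁c)
    have n2 := near_mul (Dd.inv_mem X.f₂c_mem) X.f₂_mem (near_inv X.f₂c_mem X.near₂c) X.near₂
    exact near_mono (by linarith) (near_mul m1 m2 n1 n2)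
  obtain ⟨F, hF, Fm, hFm, hl⟩ := exists_parts hE hm (hid 0 (by rw [abs_zero]; linarith))
  obtain ⟨s1, s2⟩ := h hm hl (by linarith) hid hn
  refine ⟨F, hF, Fm, hFm, hl, fun t => ?_, fun t => ?_, fun t ht => ⟨?_, ?_⟩⟩
  · rw [show 4 * C * ηc = C * (4 * ηc) by ring]
    exact s1 t
  · rw [show 4 * C * ηc = C * (4 * ηc) by ring]
    exact s2 t
  · have h3 := hl.pos t
    rw [hid _ (by rw [abs_of_pos (hE.pos t)]; exact ht)] at h3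
    exact (hE.strictMono.injective h3).symm
  · have h3 := hl.neg t
    rw [hid _ (by rw [abs_neg, abs_of_pos (hE.pos t)]; exact ht)] at h3
    exact (hE.strictMono.injective (neg_injective h3)).symm

/-- a compactly supported element of `Dd` has a modulus -/
private theorem exists_mod_cpt {f : ℝ ≃o ℝ} (hf : f ∈ Dd) (hX : ∃ X : ℝ, ∀ x, X ≤ |x| → f x = x) :
    ∃ w, IsMod w ∧ Mod (LD f) w := by
  obtain ⟨X, hX⟩ := hX
  have h0 : ∀ x : ℝ, |X| < |x| → LD f x = 0 := by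
    intro x hx
    have h1 : LD f x = LD (1 : ℝ ≃o ℝ) x := by
      apply LD_congr
      have h2 : ∀ᶠ y in 𝓝 x, |X| < |y| := (continuous_abs.tendsto x).eventually (lt_mem_nhds hx)
      filter_upwards [h2] with y hy
      rw [hX y ((le_abs_self X).trans hy.le)]
      rfl
    rw [h1, LD_one]
  have hp := abs_nonneg X
  refine exists_isMod_compact (continuous_LD hf) (a := -(|X| + 1)) (b := |X| + 1) ?_ ?_
  · intro x hx
    rw [h0 x (by rw [abs_of_neg (by linarith : x < 0)]; linarith),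
      h0 _ (by rw [abs_neg, abs_of_pos (by linarith : 0 < |X| + 1)]; linarith)]
  · intro x hx
    rw [h0 x (by rw [abs_of_pos (by linarith : 0 < x)]; linarith),
      h0 _ (by rw [abs_of_pos (by linarith : 0 < |X| + 1)]; linarith)]

/-- **Core lemma.**  `α` is the mover, expanding at `0`; `u` is affine on `[-κ, κ]` and moves it to `[θ₀, θ₁]`. -/
theorem core (hE : Coord E l x₀ t₀) {α : ℝ ≃o ℝ} (hα : α ∈ Dd) (hαl : IsLift E α (tr 1) (tr 1))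
    {κ θ₀ θ₁ cu K₀ s₀ θ : ℝ} (hκ : 0 < κ) (hκθ : κ < θ₀) (hθθ : θ₀ ≤ θ₁) (hK₀ : 0 ≤ K₀)
    (hθ₁ : θ₁ < E (-K₀ - 1)) (hs₀ : 0 ≤ s₀) (hs₀' : s₀ ≤ 1 / 4) (hθ : 0 < θ) :
    ∃ η : ℝ, 0 < η ∧ ∀ {u f₁ f₂ Yin yp ym : ℝ ≃o ℝ}, u ∈ Dd → (∀ x ∈ Icc (-κ) κ, u x ∈ Icc θ₀ θ₁) →
      (∀ x ∈ Icc (-κ) κ, LD u x = cu) → f₁ ∈ Dd → f₂ ∈ Dd → Near η f₁ → Near η f₂ →
      (∃ X : ℝ, ∀ x, X ≤ |x| → f₁ x = x) →
      Yin ∈ Dd → yp ∈ Dd → ym ∈ Dd → IsLift E Yin yp ym →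
      (∀ t ∈ Icc (-1 : ℝ) 0, |yp t - t| ≤ K₀ ∧ |LD yp t| ≤ s₀) →
      (∀ t ∈ Icc (-1 : ℝ) 0, |ym t - t| ≤ K₀ ∧ |LD ym t| ≤ s₀) →
      (∃ ι : ℝ, 0 < ι ∧ ∀ t, -ι < t → t < ι →
        α (Yin (α⁻¹ (E t))) = f₁ (f₂ (Yin (E t))) ∧ α (Yin (α⁻¹ (-E t))) = f₁ (f₂ (Yin (-E t)))) →
      ∃ Y ∈ Dd, ∃ ψ ∈ Dd, ∃ zp ∈ Dd, ∃ zm ∈ Dd, IsLift E Y zp zm ∧
        (∀ x, E (-1) ≤ |x| → Y x = Yin x) ∧ (∀ x, κ ≤ |x| → ψ x = x) ∧ Near θ ψ ∧
        (∀ x, |x| ≤ E 0 → α (Y (α⁻¹ x)) = f₁ (⁅u, ψ⁆⁻¹ (f₂ (Y x)))) ∧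
        (∀ t ≤ 0, |zp t - t| ≤ K₀ + θ ∧ |LD zp t| ≤ s₀ + θ) ∧
        (∀ t ≤ 0, |zm t - t| ≤ K₀ + θ ∧ |LD zm t| ≤ s₀ + θ) := by
  -- universal constants
  obtain ⟨Cc, hCc, hcut⟩ := exists_cut
  obtain ⟨Cl, hCl, hloop⟩ := core_of_loop
  obtain ⟨Cy, hCy, -⟩ := exists_Ych
  -- geometric data
  set κ' : ℝ := min κ 1 with hκ'def
  have hκ' : 0 < κ' := lt_min hκ one_pos
  have hκ'κ : κ' ≤ κ := min_le_left _ _
  have hκ'1 : κ' ≤ 1 := min_le_right _ _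
  have hκ'θ : κ' < θ₀ := hκ'κ.trans_lt hκθ
  set θ' : ℝ := min (θ / 2) (1 / 4) with hθ'def
  have hθ' : 0 < θ' := lt_min (by linarith) (by norm_num)
  have hθ'1 : θ' ≤ θ / 2 := min_le_left _ _
  have hθ'2 : θ' ≤ 1 / 4 := min_le_right _ _
  obtain ⟨tκ, htκ⟩ := hE.surj (show 0 < κ' / 8 by linarith)
  obtain ⟨ta, hta⟩ := hE.surj (show 0 < (κ' + θ₀) / 2 by linarith)
  have htκta : tκ < ta := by
    apply hE.strictMono.lt_iff_lt.1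
    rw [htκ, hta]
    linarith
  have htκK : tκ < -K₀ - 1 := by
    apply hE.strictMono.lt_iff_lt.1
    rw [htκ]
    linarith
  obtain ⟨tb, htb1, htb2⟩ : ∃ tb, tb < -K₀ - 1 ∧ θ₁ < E tb := by
    have hc : Tendsto E (𝓝 (-K₀ - 1)) (𝓝 (E (-K₀ - 1))) := (hE.smooth.continuous).tendsto _
    have h1 := hc.eventually (lt_mem_nhds hθ₁)
    have h2 : ∀ᶠ t in 𝓝[<] (-K₀ - 1), θ₁ < E t := nhdsWithin_le_nhds h1
    have h3 : ∀ᶠ t in 𝓝[<] (-K₀ - 1), t < -K₀ - 1 := self_mem_nhdsWithin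
    obtain ⟨t, ht⟩ := (h3.and h2).exists
    exact ⟨t, ht⟩
  obtain ⟨N, hN⟩ := exists_nat_ge (K₀ + θ' - tκ)
  set q : ℝ := min (1 / 8) (θ' / (2 * (N + 1))) with hqdef
  have hN0 : (0 : ℝ) ≤ N := Nat.cast_nonneg N
  have hq : 0 < q := lt_min (by norm_num) (by positivity)
  have hq1 : q ≤ 1 / 8 := min_le_left _ _
  have hq2 : N * (2 * q) ≤ θ' := by
    have h1 : q ≤ θ' / (2 * (N + 1)) := min_le_right _ _
    have h2 : q * (2 * (N + 1)) ≤ θ' := (le_div_iff₀ (by positivity)).1 h1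
    have h3 : N * (2 * q) ≤ q * (2 * (N + 1)) := by nlinarith
    linarith
  set te : ℝ := -(N : ℝ) - 3 with htedef
  -- constants of the loop
  obtain ⟨Ce, hCe, heX⟩ := eX_props E l x₀ t₀ K₀ θ' tκ hE hK₀ hθ'.le
  obtain ⟨Λ₁, η₁, hΛ₁, hη₁, hmaps⟩ := loop_maps E l x₀ t₀ κ' θ₀ θ₁ cu K₀ θ' q tκ ta N hE hκ' hκ'θ hK₀ hθ'.le hq
  obtain ⟨Λ₂, hΛ₂, hcontr⟩ := loop_contr E l x₀ t₀ κ' θ₀ θ₁ cu K₀ θ' q tκ ta N hE hκ' hκ'θ hK₀ hθ'.le hq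
  obtain ⟨Λ₃, hΛ₃, hmod⟩ := loop_mod E l x₀ t₀ κ' θ₀ θ₁ cu K₀ θ' q tκ ta N hE hκ' hκ'θ hK₀ hθ'.le hq
  obtain ⟨Cr, hCr, hRop⟩ := Rop_near cu
  obtain ⟨Cf, hCf, hFs⟩ := F_size hE hκ'
  have hKθ' : 0 ≤ K₀ + θ' := by linarith
  set Λ : ℝ := Ce + Λ₁ + Λ₂ + Λ₃ + Cl * (K₀ + θ' + 1) + 2 * Ce / θ + 2 * Cl * (K₀ + θ') / θ with hΛdef
  have ha1 : 0 ≤ Cl * (K₀ + θ' + 1) := mul_nonneg (by linarith) (by linarith)
  have ha2 : 0 ≤ 2 * Ce / θ := by positivity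
  have ha3 : 0 ≤ 2 * Cl * (K₀ + θ') / θ := by positivity
  have hΛ0 : 0 < Λ := by linarith
  have hΛe : Ce ≤ Λ := by linarith
  have hΛa : Λ₁ ≤ Λ := by linarith
  have hΛb : Λ₂ ≤ Λ := by linarith
  have hΛc : Λ₃ ≤ Λ := by linarith
  have hΛd : Cl * (K₀ + θ' + 1) ≤ Λ := by linarith
  have hΛf : Ce / Λ ≤ θ / 2 := by
    have h1 : 2 * Ce / θ ≤ Λ := by linarith
    rw [div_le_iff₀ hθ] at h1
    rw [div_le_iff₀ hΛ0]
    linarith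
  have hΛg : Cl * (K₀ + θ') / Λ ≤ θ / 2 := by
    have h1 : 2 * Cl * (K₀ + θ') / θ ≤ Λ := by linarith
    rw [div_le_iff₀ hθ] at h1
    rw [div_le_iff₀ hΛ0]
    linarith
  obtain ⟨k, hk⟩ := exists_nat_ge (-(te - Λ - 3))
  -- the size of `f₁`, `f₂`
  set δ : ℝ := min (min (min (κ' / 16) η₁) (min ((θ₀ - κ') / 4) ((E tb - θ₁) / 2)))
    (min (min (θ / 4) (q / Cf)) 1) with hδdef
  have hCf0 : 0 < Cf := by linarith
  have hδ : 0 < δ := by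
    refine lt_min (lt_min (lt_min (by linarith) hη₁) (lt_min (by linarith) (by linarith)))
      (lt_min (lt_min (by linarith) (by positivity)) one_pos)
  have hδ1 : δ ≤ κ' / 16 := (min_le_left _ _).trans ((min_le_left _ _).trans (min_le_left _ _))
  have hδ2 : δ ≤ η₁ := (min_le_left _ _).trans ((min_le_left _ _).trans (min_le_right _ _))
  have hδ3 : δ ≤ (θ₀ - κ') / 4 := (min_le_left _ _).trans ((min_le_right _ _).trans (min_le_left _ _))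
  have hδ4 : δ ≤ (E tb - θ₁) / 2 := (min_le_left _ _).trans ((min_le_right _ _).trans (min_le_right _ _))
  have hδ5 : δ ≤ θ / 4 := (min_le_right _ _).trans ((min_le_left _ _).trans (min_le_left _ _))
  have hδ6 : δ ≤ q / Cf := (min_le_right _ _).trans ((min_le_left _ _).trans (min_le_right _ _))
  have hδ7 : δ ≤ 1 := (min_le_right _ _).trans (min_le_right _ _)
  have hCfδ : Cf * δ ≤ q := by
    rw [le_div_iff₀ hCf0] at hδ6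
    linarith
  have hCc0 : 0 < Cc := by linarith
  have hη0 : 0 < δ * κ' / Cc := by positivity
  have hηeq : Cc * (δ * κ' / Cc) / κ' = δ := by field_simp
  have hηle : Cc * (δ * κ' / Cc) ≤ κ' := by
    have : Cc * (δ * κ' / Cc) = δ * κ' := by field_simp
    rw [this]
    nlinarith
  have hηδ : δ * κ' / Cc ≤ δ := by
    rw [div_le_iff₀ hCc0]
    nlinarith
  refine ⟨δ * κ' / Cc, hη0, ?_⟩
  intro u f₁ f₂ Yin yp ym hu huQ huA hf₁ hf₂ hn₁ hn₂ hX hYin hyp hym hYl hszp hszm hcol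
  obtain ⟨f₁c, hf₁c, c1i, c1o, c1n⟩ := hcut hκ' hκ'1 hf₁ hη0.le hηle hn₁
  obtain ⟨f₂c, hf₂c, c2i, c2o, c2n⟩ := hcut hκ' hκ'1 hf₂ hη0.le hηle hn₂
  rw [hηeq] at c1n c2n
  have X : CoreX κ' θ₀ θ₁ cu δ u f₁ f₂ f₁c f₂c :=
    { u_mem := hu, f₁_mem := hf₁, f₂_mem := hf₂, f₁c_mem := hf₁c, f₂c_mem := hf₂c, κ_pos := hκ'
      κ_le := hκ'1, κ_lt := hκ'θ, θ_le := hθθ
      u_Q := fun x hx => huQ x ⟨by linarith [hx.1], by linarith [hx.2]⟩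
      u_aff := fun x hx => huA x ⟨by linarith [hx.1], by linarith [hx.2]⟩
      c₁_in := c1i, c₁_out := c1o, c₂_in := c2i, c₂_out := c2o, ηc_nonneg := hδ.le, ηc_le := hδ1
      near₁ := near_mono hηδ hn₁, near₂ := near_mono hηδ hn₂, near₁c := c1n, near₂c := c2n }
  obtain ⟨F, hF, Fm, hFm, hFl, hFsz, hFmsz, hFid⟩ := hFs X
  have hyp0 : -K₀ ≤ yp 0 := by
    have h1 := (abs_le.1 (hszp 0 ⟨by norm_num, le_rfl⟩).1).1
    linarith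
  have hym0 : -K₀ ≤ ym 0 := by
    have h1 := (abs_le.1 (hszm 0 ⟨by norm_num, le_rfl⟩).1).1
    linarith
  obtain ⟨ι, hι, hcl⟩ := collar hE hαl X hδ3 hθ₁ hFl hYl hyp0 hym0 hcol
  obtain ⟨G, hG, hG1, hG2, hG3⟩ := exists_Fsharp hF hyp hι fun t h1 h2 => (hcl t h1 h2).1
  obtain ⟨Gm, hGm, hGm1, hGm2, hGm3⟩ := exists_Fsharp hFm hym hι fun t h1 h2 => (hcl t h1 h2).2
  have H : LoopHyp E l x₀ t₀ κ' θ₀ θ₁ cu K₀ s₀ θ' q tκ ta tb te N δ Λ k u f₁ f₂ f₁c f₂c G Gm yp ym :=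
    { coord := hE, X := X, yp_mem := hyp, ym_mem := hym, G_mem := hG, Gm_mem := hGm
      K₀_nonneg := hK₀, s₀_nonneg := hs₀, s₀_le := hs₀', θ_pos := hθ', θ_small := hθ'2
      p_pos := hq, p_le := hq1, Np := hq2, size_p := hszp, size_m := hszm, colG := hG1, colGm := hGm1
      sizeG := fun t ht => by
        rw [hG2 t ht, hG3 t ht]
        exact ⟨(hFsz t).1.trans hCfδ, (hFsz t).2.trans hCfδ⟩
      sizeGm := fun t ht => by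
        rw [hGm2 t ht, hGm3 t ht]
        exact ⟨(hFmsz t).1.trans hCfδ, (hFmsz t).2.trans hCfδ⟩
      G_id := fun t ht => by
        rw [hG2 t (by linarith)]
        exact (hFid t (by rw [← htκ]; exact hE.strictMono.monotone ht)).1
      Gm_id := fun t ht => by
        rw [hGm2 t (by linarith)]
        exact (hFid t (by rw [← htκ]; exact hE.strictMono.monotone ht)).2
      N_large := by linarith
      E_tκ := htκ, te_eq := rfl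
      k_large := by linarith
      tκ_lt := htκta
      E_ta := by rw [hta]; linarith
      tb_lt := htb1
      E_tb := by linarith }
  -- the fixed point
  obtain ⟨w₀, C, hw₀, hC, hmod'⟩ := hmod H (exists_mod_cpt hf₁ hX) hΛc
  obtain ⟨P, hP, hfix⟩ := FP hq.le (loopMap E te Λ k u f₁ f₁c f₂c G yp (slowE te Λ (Yit Gm ym k) Gm))
    (hmaps H hΛa hδ2) (hcontr H hΛb) hw₀ hC hmod'
  obtain ⟨⟨hem, hel⟩, he, hen⟩ := heX H hΛe hP
  have hCeΛ : 0 ≤ Ce / Λ := by positivity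
  have hCeΛ1 : Ce / Λ ≤ 1 := by
    rw [div_le_one hΛ0]
    exact hΛe
  obtain ⟨hRm, -⟩ := hRop X hem he hCeΛ hCeΛ1 hen
  obtain ⟨Y, hY, zp, hzp, zm, hzm, hYl', hYin', heq, s1, s2⟩ :=
    hloop hE hαl H hΛd hFl hG2 hGm2 hYl hP hfix hel hem he hRm
  obtain ⟨hψm, hψn⟩ := psiOp_near X hem hCeΛ hen
  refine ⟨Y, hY, _, hψm, zp, hzp, zm, hzm, hYl', hYin', ?_, near_mono (by linarith) hψn, heq, ?_, ?_⟩
  · intro x hx
    exact psiOp_id X he (hκ'κ.trans hx)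
  · intro t ht
    exact ⟨(s1 t ht).1.trans (by linarith), (s1 t ht).2.trans (by linarith)⟩
  · intro t ht
    exact ⟨(s2 t ht).1.trans (by linarith), (s2 t ht).2.trans (by linarith)⟩

end FG
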