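import Pool.Agent.helper97.FG.Basic

/-!
author: helper41
# B1 : elementary facts about `Dd` and `LD`

`LD_commutator`: `⁅g, h⁆ = g * h * g⁻¹ * h⁻¹`, use `LD_mul`, `LD_inv`, with `q = g⁻¹ (h⁻¹ x)`, `h⁻¹ x = g q`, `g⁻¹ (h⁻¹ x) = q`.
-/

set_option linter.unusedVariables false

open Set Filter Topology
open scoped commutatorElement
open Pool.Agent.helper35.FOL

namespace FG

private theorem deriv_tr (c x : ℝ) : deriv (⇑(tr c)) x = 1 := by
  have h : (⇑(tr c)) = fun x => x + c := rfl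
  rw [h]
  simp

theorem tr_mem (c : ℝ) : tr c ∈ Dd := by
  refine ⟨?_, fun x => ?_⟩
  · exact contDiff_id.add contDiff_const
  · rw [deriv_tr]; exact one_pos

theorem LD_tr (c x : ℝ) : LD (tr c) x = 0 := by
  unfold LD
  rw [deriv_tr, Real.log_one]

theorem LD_one (x : ℝ) : LD (1 : ℝ ≃o ℝ) x = 0 := by
  unfold LD
  have h : deriv (⇑(1 : ℝ ≃o ℝ)) x = 1 := deriv_id x
  rw [h, Real.log_one]

theorem tr_mul (c d : ℝ) : tr c * tr d = tr (c + d) := by
  ext x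
  change x + d + c = x + (c + d)
  ring

theorem tr_inv (c : ℝ) : (tr c)⁻¹ = tr (-c) := by
  rw [inv_eq_iff_mul_eq_one, tr_mul]
  ext x
  change x + (c + -c) = x
  ring

@[simp] theorem tr_inv_apply (c x : ℝ) : (tr c)⁻¹ x = x - c := by
  rw [tr_inv, tr_apply]
  ring

theorem tr_pow_apply (c : ℝ) (k : ℕ) (x : ℝ) : ((tr c) ^ k) x = x + k * c := by
  induction k generalizing x with
  | zero =>
    change x = x + ((0 : ℕ) : ℝ) * c
    simp
  | succ k ih =>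
    rw [pow_succ]
    change ((tr c) ^ k) (tr c x) = _
    rw [ih, tr_apply]
    push_cast
    ring

variable {g h : ℝ ≃o ℝ}

theorem Dd_differentiable (hg : g ∈ Dd) : Differentiable ℝ g :=
  hg.1.differentiable one_ne_zero

theorem deriv_eq_exp (hg : g ∈ Dd) (x : ℝ) : deriv g x = Real.exp (LD g x) := by
  unfold LD
  rw [Real.exp_log (hg.2 x)]

theorem continuous_LD (hg : g ∈ Dd) : Continuous (LD g) := by
  unfold LD
  exact (hg.1.continuous_deriv le_rfl).log fun x => (hg.2 x).ne'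

theorem LD_mul (hg : g ∈ Dd) (hh : h ∈ Dd) (x : ℝ) : LD (g * h) x = LD g (h x) + LD h x := by
  unfold LD
  have hd : deriv (⇑(g * h)) x = deriv g (h x) * deriv h x :=
    deriv_comp x (Dd_differentiable hg _) (Dd_differentiable hh _)
  rw [hd, Real.log_mul (hg.2 _).ne' (hh.2 _).ne']

theorem LD_inv (hg : g ∈ Dd) (x : ℝ) : LD g⁻¹ x = - LD g (g⁻¹ x) := by
  have h1 := LD_mul hg (Dd.inv_mem hg) x
  rw [mul_inv_cancel, LD_one] at h1
  linarith

/-- the logarithmic derivative of a commutator: `p = g⁻¹ h⁻¹ x` -/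
theorem LD_commutator (hg : g ∈ Dd) (hh : h ∈ Dd) (x : ℝ) :
    LD ⁅g, h⁆ x = (LD g (h (g⁻¹ (h⁻¹ x))) - LD g (g⁻¹ (h⁻¹ x))) -
      (LD h (g (g⁻¹ (h⁻¹ x))) - LD h (g⁻¹ (h⁻¹ x))) := by
  have hgi := Dd.inv_mem hg
  have hhi := Dd.inv_mem hh
  rw [commutatorElement_def, LD_mul (Dd.mul_mem (Dd.mul_mem hg hh) hgi) hhi,
    LD_mul (Dd.mul_mem hg hh) hgi, LD_mul hg hh, LD_inv hg, LD_inv hh]
  have h1 : g (g⁻¹ (h⁻¹ x)) = h⁻¹ x := g.apply_symm_apply (h⁻¹ x)
  rw [h1]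
  ring

/-- two elements of `Dd` which agree near `x` have the same `LD` at `x` -/
theorem LD_congr {x : ℝ} (hx : ∀ᶠ y in 𝓝 x, g y = h y) : LD g x = LD h x := by
  unfold LD
  have h1 : (⇑g) =ᶠ[𝓝 x] (⇑h) := hx
  rw [h1.deriv_eq]

end FG
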