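import Pool.Agent.helper97.FG.B1

/-!
author: helper94
# B1c : reflections
-/

set_option linter.unusedVariables false

open Set Filter Topology
open scoped commutatorElement
open Pool.Agent.helper35.FOL

namespace FG

variable {g h : ℝ ≃o ℝ}

/-- reflection `x ↦ c - g (c - x)` -/
noncomputable def refl (c : ℝ) (g : ℝ ≃o ℝ) : ℝ ≃o ℝ where
  toFun x := c - g (c - x)
  invFun x := c - g.symm (c - x)
  left_inv x := by simp
  right_inv x := by simp
  map_rel_iff' := by
    intro a b
    show c - g (c - a) ≤ c - g (c - b) ↔ a ≤ b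
    rw [sub_le_sub_iff_left, g.le_iff_le, sub_le_sub_iff_left]

@[simp] theorem refl_apply (c : ℝ) (g : ℝ ≃o ℝ) (x : ℝ) : refl c g x = c - g (c - x) := rfl

theorem refl_mul (c : ℝ) (g h : ℝ ≃o ℝ) : refl c (g * h) = refl c g * refl c h := by
  ext x
  change c - g (h (c - x)) = c - g (c - (c - h (c - x)))
  rw [sub_sub_cancel]

theorem refl_inv (c : ℝ) (g : ℝ ≃o ℝ) : refl c g⁻¹ = (refl c g)⁻¹ := by
  rw [eq_inv_iff_mul_eq_one, ← refl_mul, inv_mul_cancel]
  ext x
  change c - (c - x) = x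
  rw [sub_sub_cancel]

theorem refl_commutator (c : ℝ) (g h : ℝ ≃o ℝ) : refl c ⁅g, h⁆ = ⁅refl c g, refl c h⁆ := by
  rw [commutatorElement_def, commutatorElement_def, refl_mul, refl_mul, refl_mul, refl_inv,
    refl_inv]

theorem refl_refl (c : ℝ) (g : ℝ ≃o ℝ) : refl c (refl c g) = g := by
  ext x
  rw [refl_apply, refl_apply, sub_sub_cancel, sub_sub_cancel]

private theorem deriv_refl (c : ℝ) (hg : g ∈ Dd) (x : ℝ) :
    deriv (⇑(refl c g)) x = deriv g (c - x) := by
  have h1 : HasDerivAt (fun y : ℝ => c - y) (-1) x := by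
    simpa using (hasDerivAt_id x).const_sub c
  have h2 : HasDerivAt g (deriv g (c - x)) (c - x) := (Dd_differentiable hg _).hasDerivAt
  have h3 : HasDerivAt (fun y : ℝ => g (c - y)) (deriv g (c - x) * -1) x :=
    HasDerivAt.comp x h2 h1
  have h4 : HasDerivAt (fun y : ℝ => c - g (c - y)) (-(deriv g (c - x) * -1)) x :=
    h3.const_sub c
  have h5 : (⇑(refl c g)) = fun y : ℝ => c - g (c - y) := rfl
  rw [h5, h4.deriv]
  ring

theorem refl_mem (c : ℝ) (hg : g ∈ Dd) : refl c g ∈ Dd := by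
  refine ⟨?_, fun x => ?_⟩
  · have h5 : (⇑(refl c g)) = fun y : ℝ => c - g (c - y) := rfl
    rw [h5]
    exact contDiff_const.sub (hg.1.comp (contDiff_const.sub contDiff_id))
  · rw [deriv_refl c hg]
    exact hg.2 _

theorem LD_refl (c : ℝ) (hg : g ∈ Dd) (x : ℝ) : LD (refl c g) x = LD g (c - x) := by
  unfold LD
  rw [deriv_refl c hg]

end FG
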