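import Pool.Agent.helper97.FG.B1

/-!
# B2 : calculus of moduli of continuity

author: helper96
-/

set_option linter.unusedVariables false

open Set Filter Topology
open scoped commutatorElement
open Pool.Agent.helper35.FOL

namespace FG

variable {g h : ℝ ≃o ℝ} {w w₁ w₂ φ : ℝ → ℝ}

theorem isMod_zero : IsMod (fun _ => (0 : ℝ)) :=
  ⟨monotone_const, fun _ => le_rfl, ⟨0, fun _ => le_rfl⟩, tendsto_const_nhds⟩

theorem IsMod.add (h₁ : IsMod w₁) (h₂ : IsMod w₂) : IsMod (fun h => w₁ h + w₂ h) := by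
  refine ⟨h₁.mono.add h₂.mono, fun h => add_nonneg (h₁.nonneg h) (h₂.nonneg h), ?_, ?_⟩
  · obtain ⟨B₁, hB₁⟩ := h₁.bdd
    obtain ⟨B₂, hB₂⟩ := h₂.bdd
    exact ⟨B₁ + B₂, fun h => add_le_add (hB₁ h) (hB₂ h)⟩
  · have := h₁.lim.add h₂.lim
    rwa [add_zero] at this

theorem IsMod.smul (hw : IsMod w) {c : ℝ} (hc : 0 ≤ c) : IsMod (fun h => c * w h) := by
  refine ⟨hw.mono.const_mul hc, fun h => mul_nonneg hc (hw.nonneg h), ?_, ?_⟩
  · obtain ⟨B, hB⟩ := hw.bdd
    exact ⟨c * B, fun h => mul_le_mul_of_nonneg_left (hB h) hc⟩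
  · have := hw.lim.const_mul c
    rwa [mul_zero] at this

theorem IsMod.eq_zero (hw : IsMod w) {x : ℝ} (hx : x ≤ 0) : w x = 0 := by
  refine le_antisymm ?_ (hw.nonneg x)
  refine ge_of_tendsto hw.lim ?_
  filter_upwards [self_mem_nhdsWithin] with h hh
  exact hw.mono (hx.trans (le_of_lt hh))

theorem IsMod.comp_mul (hw : IsMod w) {c : ℝ} (hc : 0 ≤ c) : IsMod (fun h => w (c * h)) := by
  refine ⟨fun a b hab => hw.mono (mul_le_mul_of_nonneg_left hab hc), fun h => hw.nonneg _, ?_, ?_⟩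
  · obtain ⟨B, hB⟩ := hw.bdd
    exact ⟨B, fun h => hB _⟩
  · rcases eq_or_lt_of_le hc with h0 | h0
    · have h1 : (fun h : ℝ => w (c * h)) = fun _ => 0 := by
        funext h
        rw [← h0, zero_mul]
        exact hw.eq_zero le_rfl
      rw [h1]
      exact tendsto_const_nhds
    · refine hw.lim.comp ?_
      refine tendsto_nhdsWithin_of_tendsto_nhds_of_eventually_within _ ?_ ?_
      · have h1 : Tendsto (fun h : ℝ => c * h) (𝓝 0) (𝓝 (c * 0)) :=
          (continuous_const_mul c).tendsto 0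
        rw [mul_zero] at h1
        exact h1.mono_left nhdsWithin_le_nhds
      · filter_upwards [self_mem_nhdsWithin] with h hh
        exact mul_pos h0 hh

theorem isMod_jmp {r B : ℝ} (hr : 0 < r) (hB : 0 ≤ B) : IsMod (jmp r B) := by
  refine ⟨fun a b hab => ?_, fun h => ?_, ⟨B, fun h => ?_⟩, ?_⟩
  · unfold jmp
    by_cases ha : a ≤ r
    · rw [if_pos ha]
      split_ifs
      · exact le_rfl
      · exact hB
    · rw [if_neg ha, if_neg (fun hb => ha (hab.trans hb))]
  · unfold jmp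
    split_ifs
    · exact le_rfl
    · exact hB
  · unfold jmp
    split_ifs
    · exact hB
    · exact le_rfl
  · refine Tendsto.congr' ?_ tendsto_const_nhds
    have h1 : ∀ᶠ h : ℝ in 𝓝[>] 0, h < r :=
      nhdsWithin_le_nhds (eventually_lt_nhds hr)
    filter_upwards [h1] with h hh
    unfold jmp
    rw [if_pos hh.le]

/-- `h ↦ min (c h) B` cut at `0` is a modulus -/
theorem isMod_lin {c B : ℝ} (hc : 0 ≤ c) (hB : 0 ≤ B) : IsMod (fun h => max 0 (min (c * h) B)) := by
  refine ⟨fun a b hab => ?_, fun h => le_max_left _ _, ⟨B, fun h => max_le hB (min_le_right _ _)⟩,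
    ?_⟩
  · exact max_le_max le_rfl (min_le_min (mul_le_mul_of_nonneg_left hab hc) le_rfl)
  · have h1 : Continuous (fun h : ℝ => max 0 (min (c * h) B)) :=
      continuous_const.max ((continuous_const_mul c).min continuous_const)
    have h2 := h1.tendsto 0
    simp only [mul_zero, min_eq_left hB, max_self] at h2
    exact h2.mono_left nhdsWithin_le_nhds

theorem Mod.mono (h : Mod φ w₁) (hw : ∀ x, 0 ≤ x → w₁ x ≤ w₂ x) : Mod φ w₂ :=
  fun x y => (h x y).trans (hw _ (abs_nonneg _))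

theorem ModOn.mono {S : Set ℝ} (h : ModOn S φ w₁) (hw : ∀ x, 0 ≤ x → w₁ x ≤ w₂ x) :
    ModOn S φ w₂ :=
  fun x hx y hy => (h x hx y hy).trans (hw _ (abs_nonneg _))

end FG
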