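import Mathlib
import Pool.Agent.helper35.FOL.GDefs

/-!
# FG (Theorem G of project FOL, MP_f9b4a8_gt) : definitions used by all modules

The group is `ℝ ≃o ℝ` (`(g * h) x = g (h x)`), `Dd` is the subgroup of increasing `C¹` diffeomorphisms,
`LD g x = log (deriv g x)`.
-/

set_option linter.unusedVariables false

open Set Filter Topology
open scoped commutatorElement
open Pool.Agent.helper35.FOL

namespace FG

/-- translation `x ↦ x + c` -/
noncomputable def tr (c : ℝ) : ℝ ≃o ℝ := OrderIso.addRight c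

@[simp] theorem tr_apply (c x : ℝ) : tr c x = x + c := rfl

/-- a bounded modulus of continuity (a function of `h = |x - y|`; only its values at `h ≥ 0` matter) -/
structure IsMod (w : ℝ → ℝ) : Prop where
  mono : Monotone w
  nonneg : ∀ h, 0 ≤ w h
  bdd : ∃ B : ℝ, ∀ h, w h ≤ B
  lim : Tendsto w (𝓝[>] 0) (𝓝 0)

/-- `w` is a modulus of continuity of `φ` -/
def Mod (φ w : ℝ → ℝ) : Prop := ∀ x y, |φ x - φ y| ≤ w |x - y|

/-- `w` is a modulus of continuity of `φ` on `S` -/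
def ModOn (S : Set ℝ) (φ w : ℝ → ℝ) : Prop := ∀ x ∈ S, ∀ y ∈ S, |φ x - φ y| ≤ w |x - y|

/-- the coordinate functions `E : ℝ → (0, ∞)` near the fixed point `0` of the mover: the mover is
`α (± E t) = ± E (t + 1)`.  Near `-∞`, `E` is exactly exponential, so `α` is linear near `0`. -/
structure Coord (E : ℝ → ℝ) (l x₀ t₀ : ℝ) : Prop where
  l_pos : 0 < l
  x₀_pos : 0 < x₀
  smooth : ContDiff ℝ 1 E
  pos : ∀ t, 0 < E t
  dpos : ∀ t, 0 < deriv E t
  dmono : Monotone (deriv E)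
  top : Tendsto E atTop atTop
  exp : ∀ t ≤ t₀, E t = x₀ * Real.exp (l * t)
  lip : ∀ s t, |Real.log (deriv E s) - Real.log (deriv E t)| ≤ l * |s - t|

/-- `g` (on the `x`-line, fixing `0`) is given by `p` on the positive side and by `m` on the negative
side, in the coordinate `E` -/
structure IsLift (E : ℝ → ℝ) (g p m : ℝ ≃o ℝ) : Prop where
  zero : g 0 = 0
  pos : ∀ t, g (E t) = E (p t)
  neg : ∀ t, g (-E t) = -E (m t)

/-- `g` is `η`-close to the identity in the `C¹` sense, everywhere -/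
def Near (η : ℝ) (g : ℝ ≃o ℝ) : Prop := ∀ x, |g x - x| ≤ η ∧ |LD g x| ≤ η

/-- the class of small perturbations of the identity supported in `[ta, tb]` -/
def Cls (p ta tb : ℝ) : Set (ℝ ≃o ℝ) :=
  {g | g ∈ Dd ∧ (∀ x, x < ta ∨ tb < x → g x = x) ∧ Near p g}

/-- a function as an order isomorphism (if it is one) -/
noncomputable def toIso (f : ℝ → ℝ) : ℝ ≃o ℝ := by
  classical exact if h : ∃ g : ℝ ≃o ℝ, ∀ x, g x = f x then h.choose else 1

theorem toIso_apply {f : ℝ → ℝ} (h : ∃ g : ℝ ≃o ℝ, ∀ x, g x = f x) (x : ℝ) : toIso f x = f x := by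
  unfold toIso
  rw [dif_pos h]
  exact h.choose_spec x

/-- jump modulus -/
noncomputable def jmp (r B : ℝ) (h : ℝ) : ℝ := if h ≤ r then 0 else B

/-- slow cutoff function: `0` for `t ≤ te - Λ`, `1` for `t ≥ te` -/
noncomputable def chi (te Λ t : ℝ) : ℝ := Real.smoothTransition ((t - te) / Λ + 1)

/-- slow switching off of `Y` -/
noncomputable def Ych (te Λ : ℝ) (Y : ℝ ≃o ℝ) : ℝ ≃o ℝ := toIso fun t => t + chi te Λ t * (Y t - t)

/-- the commutator error of the slow switching off -/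
noncomputable def slowE (te Λ : ℝ) (Y F : ℝ ≃o ℝ) : ℝ ≃o ℝ :=
  tr 1 * Ych te Λ Y * (tr 1)⁻¹ * (Ych te Λ Y)⁻¹ * F⁻¹

/-- transport of `Yin` to the left by `k` steps -/
noncomputable def Yit (F Yin : ℝ ≃o ℝ) (k : ℕ) : ℝ ≃o ℝ := ((tr 1)⁻¹ * F) ^ k * Yin * (tr 1) ^ k

end FG
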