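import Pool.Agent.helper97.FG.C1

/-!
# C2a : the second handle takes over `e` (x-line)

author: helper96

`ψ = f₁c⁻¹ e f₂c⁻¹` (supported in `Q = [-κ, κ]`), `D = u ψ⁻¹ u⁻¹` (supported in `u(Q)`),
`f₁ ⁅u, ψ⁆⁻¹ f₂ = F₁ e D F₂`, `F₁ = f₁ f₁c⁻¹`, `F₂ = f₂c⁻¹ f₂`.
-/

set_option linter.unusedVariables false

open Set Filter Topology
open scoped commutatorElement
open Pool.Agent.helper35.FOL

namespace FG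

variable {E : ℝ → ℝ} {l x₀ t₀ : ℝ} {g h p m p' m' : ℝ ≃o ℝ} {w w₁ w₂ φ : ℝ → ℝ}

/-- data on the x-line: `f₁c, f₂c` are cutoffs of `f₁, f₂`, `u` is affine on `Q = [-κ, κ]` and moves it to
`[θ₀, θ₁]` -/
structure CoreX (κ θ₀ θ₁ cu ηc : ℝ) (u f₁ f₂ f₁c f₂c : ℝ ≃o ℝ) : Prop where
  u_mem : u ∈ Dd
  f₁_mem : f₁ ∈ Dd
  f₂_mem : f₂ ∈ Dd
  f₁c_mem : f₁c ∈ Dd
  f₂c_mem : f₂c ∈ Dd
  κ_pos : 0 < κ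
  κ_le : κ ≤ 1
  κ_lt : κ < θ₀
  θ_le : θ₀ ≤ θ₁
  u_Q : ∀ x ∈ Icc (-κ) κ, u x ∈ Icc θ₀ θ₁
  u_aff : ∀ x ∈ Icc (-κ) κ, LD u x = cu
  c₁_in : ∀ x, |x| ≤ κ / 2 → f₁c x = f₁ x
  c₁_out : ∀ x, κ ≤ |x| → f₁c x = x
  c₂_in : ∀ x, |x| ≤ κ / 2 → f₂c x = f₂ x
  c₂_out : ∀ x, κ ≤ |x| → f₂c x = x
  ηc_nonneg : 0 ≤ ηc
  ηc_le : ηc ≤ κ / 16
  near₁ : Near ηc f₁
  near₂ : Near ηc f₂
  near₁c : Near ηc f₁c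
  near₂c : Near ηc f₂c

/-- the part of the second handle -/
noncomputable def psiOp (f₁c f₂c e : ℝ ≃o ℝ) : ℝ ≃o ℝ := f₁c⁻¹ * e * f₂c⁻¹

/-- the dumped part -/
noncomputable def DOp (u ψ : ℝ ≃o ℝ) : ℝ ≃o ℝ := u * ψ⁻¹ * u⁻¹

/-- the dumped part as seen by the absorber -/
noncomputable def Rop (u f₁ f₁c f₂c e : ℝ ≃o ℝ) : ℝ ≃o ℝ :=
  (f₁ * f₁c⁻¹) * DOp u (psiOp f₁c f₂c e) * (f₁ * f₁c⁻¹)⁻¹

variable {κ θ₀ θ₁ cu ηc : ℝ} {u f₁ f₂ f₁c f₂c e e' : ℝ ≃o ℝ}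

private theorem c2a_apply_inv (g : ℝ ≃o ℝ) (x : ℝ) : g (g⁻¹ x) = x := g.apply_symm_apply x

private theorem c2a_inv_apply (g : ℝ ≃o ℝ) (x : ℝ) : g⁻¹ (g x) = x := g.symm_apply_apply x

private theorem c2a_inv_fix {g : ℝ ≃o ℝ} {x : ℝ} (h : g x = x) : g⁻¹ x = x := by
  have := c2a_inv_apply g x
  rwa [h] at this

private theorem c2a_inv_dist {g : ℝ ≃o ℝ} {η : ℝ} (h : ∀ x, |g x - x| ≤ η) (x : ℝ) :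
    |g⁻¹ x - x| ≤ η := by
  have := h (g⁻¹ x)
  rwa [c2a_apply_inv, abs_sub_comm] at this

theorem F₁_id (X : CoreX κ θ₀ θ₁ cu ηc u f₁ f₂ f₁c f₂c) {x : ℝ} (hx : |x| ≤ κ / 4) :
    (f₁ * f₁c⁻¹) x = x := by
  show f₁ (f₁c⁻¹ x) = x
  have h1 := c2a_inv_dist (fun y => (X.near₁c y).1) x
  have h2 : |f₁c⁻¹ x| ≤ κ / 2 := by
    have h3 : |f₁c⁻¹ x| ≤ |f₁c⁻¹ x - x| + |x| := by
      have := abs_add_le (f₁c⁻¹ x - x) x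
      rwa [sub_add_cancel] at this
    have := X.ηc_le
    have := X.κ_pos
    linarith
  rw [← X.c₁_in _ h2, c2a_apply_inv]

theorem F₂_id (X : CoreX κ θ₀ θ₁ cu ηc u f₁ f₂ f₁c f₂c) {x : ℝ} (hx : |x| ≤ κ / 4) :
    (f₂c⁻¹ * f₂) x = x := by
  show f₂c⁻¹ (f₂ x) = x
  have := X.κ_pos
  rw [← X.c₂_in x (by linarith), c2a_inv_apply]

theorem psiOp_id (X : CoreX κ θ₀ θ₁ cu ηc u f₁ f₂ f₁c f₂c) (he : ∀ x, κ / 8 ≤ |x| → e x = x) {x : ℝ}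
    (hx : κ ≤ |x|) : psiOp f₁c f₂c e x = x := by
  show f₁c⁻¹ (e (f₂c⁻¹ x)) = x
  have := X.κ_pos
  rw [c2a_inv_fix (X.c₂_out x hx), he x (by linarith), c2a_inv_fix (X.c₁_out x hx)]

theorem psiOp_near (X : CoreX κ θ₀ θ₁ cu ηc u f₁ f₂ f₁c f₂c) (hem : e ∈ Dd) {ε : ℝ} (hε : 0 ≤ ε)
    (hn : Near ε e) : psiOp f₁c f₂c e ∈ Dd ∧ Near (2 * ηc + ε) (psiOp f₁c f₂c e) := by
  have m1 := Dd.inv_mem X.f₁c_mem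
  have m2 := Dd.inv_mem X.f₂c_mem
  refine ⟨Dd.mul_mem (Dd.mul_mem m1 hem) m2, fun x => ⟨?_, ?_⟩⟩
  · show |f₁c⁻¹ (e (f₂c⁻¹ x)) - x| ≤ 2 * ηc + ε
    have h1 := c2a_inv_dist (fun y => (X.near₁c y).1) (e (f₂c⁻¹ x))
    have h2 := (hn (f₂c⁻¹ x)).1
    have h3 := c2a_inv_dist (fun y => (X.near₂c y).1) x
    have h4 : f₁c⁻¹ (e (f₂c⁻¹ x)) - x = (f₁c⁻¹ (e (f₂c⁻¹ x)) - e (f₂c⁻¹ x)) +
        (e (f₂c⁻¹ x) - f₂c⁻¹ x) + (f₂c⁻¹ x - x) := by ring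
    rw [h4]
    have h5 := abs_add_three (f₁c⁻¹ (e (f₂c⁻¹ x)) - e (f₂c⁻¹ x)) (e (f₂c⁻¹ x) - f₂c⁻¹ x)
      (f₂c⁻¹ x - x)
    linarith
  · unfold psiOp
    rw [LD_mul (Dd.mul_mem m1 hem) m2, LD_mul m1 hem, LD_inv X.f₁c_mem, LD_inv X.f₂c_mem]
    have h1 := (X.near₁c (f₁c⁻¹ (e (f₂c⁻¹ x)))).2
    have h2 := (hn (f₂c⁻¹ x)).2
    have h3 := (X.near₂c (f₂c⁻¹ x)).2
    rw [abs_le] at h1 h2 h3 ⊢
    constructor <;> linarith [h1.1, h1.2, h2.1, h2.2, h3.1, h3.2]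

theorem DOp_id (X : CoreX κ θ₀ θ₁ cu ηc u f₁ f₂ f₁c f₂c) (he : ∀ x, κ / 8 ≤ |x| → e x = x) {x : ℝ}
    (hx : x ≤ θ₀ ∨ θ₁ ≤ x) : DOp u (psiOp f₁c f₂c e) x = x := by
  have hκ := X.κ_pos
  show u ((psiOp f₁c f₂c e)⁻¹ (u⁻¹ x)) = x
  have h1 : κ ≤ |u⁻¹ x| := by
    rcases hx with hx | hx
    · have h2 := (X.u_Q (-κ) ⟨le_rfl, by linarith⟩).1
      have h3 : u⁻¹ x ≤ -κ := by
        rw [← u.le_iff_le, c2a_apply_inv]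
        exact hx.trans h2
      have h4 := neg_le_abs (u⁻¹ x)
      linarith
    · have h2 := (X.u_Q κ ⟨by linarith, le_rfl⟩).2
      have h3 : κ ≤ u⁻¹ x := by
        rw [← u.le_iff_le, c2a_apply_inv]
        exact h2.trans hx
      exact h3.trans (le_abs_self _)
  rw [c2a_inv_fix (psiOp_id X he h1), c2a_apply_inv]

private theorem c2a_comm (X : CoreX κ θ₀ θ₁ cu ηc u f₁ f₂ f₁c f₂c)
    (he : ∀ x, κ / 8 ≤ |x| → e x = x) :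
    f₂c⁻¹ * DOp u (psiOp f₁c f₂c e) = DOp u (psiOp f₁c f₂c e) * f₂c⁻¹ := by
  have hκ := X.κ_pos
  have hκθ := X.κ_lt
  ext x
  show f₂c⁻¹ (DOp u (psiOp f₁c f₂c e) x) = DOp u (psiOp f₁c f₂c e) (f₂c⁻¹ x)
  have hκ1 : f₂c⁻¹ κ = κ := c2a_inv_fix (X.c₂_out κ (le_abs_self _))
  rcases le_or_gt x κ with h1 | h1
  · have h2 : f₂c⁻¹ x ≤ κ := by
      have := (f₂c⁻¹).monotone h1
      rwa [hκ1] at this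
    rw [DOp_id X he (Or.inl (by linarith)), DOp_id X he (Or.inl (by linarith))]
  · have h2 : f₂c⁻¹ x = x := c2a_inv_fix (X.c₂_out x (h1.le.trans (le_abs_self _)))
    have h3 : κ ≤ DOp u (psiOp f₁c f₂c e) x := by
      have h4 := (DOp u (psiOp f₁c f₂c e)).monotone h1.le
      rwa [DOp_id X he (Or.inl hκθ.le)] at h4
    rw [h2, c2a_inv_fix (X.c₂_out _ (h3.trans (le_abs_self _)))]

/-- the group identity -/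
theorem core_identity (X : CoreX κ θ₀ θ₁ cu ηc u f₁ f₂ f₁c f₂c) (he : ∀ x, κ / 8 ≤ |x| → e x = x) :
    f₁ * ⁅u, psiOp f₁c f₂c e⁆⁻¹ * f₂ =
      (f₁ * f₁c⁻¹) * e * DOp u (psiOp f₁c f₂c e) * (f₂c⁻¹ * f₂) := by
  have h1 : ⁅u, psiOp f₁c f₂c e⁆⁻¹ = psiOp f₁c f₂c e * DOp u (psiOp f₁c f₂c e) := by
    unfold DOp
    rw [commutatorElement_def]
    group
  have h2 : f₁ * ⁅u, psiOp f₁c f₂c e⁆⁻¹ * f₂ =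
      f₁ * f₁c⁻¹ * e * (f₂c⁻¹ * DOp u (psiOp f₁c f₂c e)) * f₂ := by
    rw [h1]
    conv_lhs =>
      rw [show psiOp f₁c f₂c e * DOp u (psiOp f₁c f₂c e) =
        (f₁c⁻¹ * e * f₂c⁻¹) * DOp u (psiOp f₁c f₂c e) from rfl]
    group
  rw [h2, c2a_comm X he]
  group

theorem Rop_id (X : CoreX κ θ₀ θ₁ cu ηc u f₁ f₂ f₁c f₂c) (he : ∀ x, κ / 8 ≤ |x| → e x = x) {x : ℝ}
    (hx : x ≤ θ₀ - 2 * ηc ∨ θ₁ + 2 * ηc ≤ x) : Rop u f₁ f₁c f₂c e x = x := by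
  have h0 : ∀ y, |(f₁ * f₁c⁻¹) y - y| ≤ 2 * ηc := by
    intro y
    show |f₁ (f₁c⁻¹ y) - y| ≤ 2 * ηc
    have h1 := (X.near₁ (f₁c⁻¹ y)).1
    have h2 := c2a_inv_dist (fun y => (X.near₁c y).1) y
    have h3 := abs_sub_le (f₁ (f₁c⁻¹ y)) (f₁c⁻¹ y) y
    linarith
  have h1 := abs_le.1 (c2a_inv_dist h0 x)
  show (f₁ * f₁c⁻¹) (DOp u (psiOp f₁c f₂c e) ((f₁ * f₁c⁻¹)⁻¹ x)) = x
  rw [DOp_id X he (x := (f₁ * f₁c⁻¹)⁻¹ x) ?_, c2a_apply_inv]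
  rcases hx with hx | hx
  · left
    linarith [h1.2]
  · right
    linarith [h1.1]

end FG
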