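import Pool.Agent.helper97.FG.C2a

/-!
# C2b : size and Lipschitz estimates of `Rop` (proof: helper43)

`D x - x = u (ψ⁻¹ y) - u y` with `y = u⁻¹ x`, `y, ψ⁻¹ y ∈ Q`, `LD u = cu` on `Q`; `LD D x = LD ψ⁻¹ y`.
-/

set_option linter.unusedVariables false

open Set Filter Topology
open scoped commutatorElement
open Pool.Agent.helper35.FOL

namespace FG

private theorem C2b_inv_apply (g : ℝ ≃o ℝ) (x : ℝ) : g⁻¹ (g x) = x := g.symm_apply_apply x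

private theorem C2b_apply_inv (g : ℝ ≃o ℝ) (x : ℝ) : g (g⁻¹ x) = x := g.apply_symm_apply x

private theorem C2b_inv_near {g : ℝ ≃o ℝ} {η : ℝ} (hg : g ∈ Dd) (h : Near η g) :
    Near η g⁻¹ := by
  intro x
  refine ⟨?_, ?_⟩
  · have h1 := (h (g⁻¹ x)).1
    rw [C2b_apply_inv] at h1
    rw [abs_sub_comm]
    exact h1
  · rw [LD_inv hg, abs_neg]
    exact (h _).2

private theorem C2b_mul_near {g h : ℝ ≃o ℝ} {η ζ : ℝ} (hg : g ∈ Dd) (hh : h ∈ Dd) (h1 : Near η g)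
    (h2 : Near ζ h) : Near (η + ζ) (g * h) := by
  intro x
  refine ⟨?_, ?_⟩
  · show |g (h x) - x| ≤ η + ζ
    have e : g (h x) - x = (g (h x) - h x) + (h x - x) := by ring
    rw [e]
    exact (abs_add_le _ _).trans (add_le_add (h1 _).1 (h2 _).1)
  · rw [LD_mul hg hh]
    exact (abs_add_le _ _).trans (add_le_add (h1 _).2 (h2 _).2)

private theorem C2b_Q {ψ : ℝ ≃o ℝ} {κ : ℝ} (hκ : 0 < κ) (h : ∀ x, κ ≤ |x| → ψ x = x) :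
    (∀ z, κ ≤ |z| → ψ⁻¹ z = z) ∧ ∀ z ∈ Icc (-κ) κ, ψ⁻¹ z ∈ Icc (-κ) κ := by
  have h1 : ∀ z, κ ≤ |z| → ψ⁻¹ z = z := by
    intro z hz
    have := C2b_inv_apply ψ z
    rwa [h z hz] at this
  refine ⟨h1, fun z hz => ⟨?_, ?_⟩⟩
  · have h2 : ψ⁻¹ (-κ) ≤ ψ⁻¹ z := (ψ⁻¹).monotone hz.1
    rwa [h1 (-κ) (by rw [abs_neg]; exact le_abs_self κ)] at h2
  · have h2 : ψ⁻¹ z ≤ ψ⁻¹ κ := (ψ⁻¹).monotone hz.2
    rwa [h1 κ (le_abs_self κ)] at h2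

/-- size of `D` -/
private theorem C2b_D {κ θ₀ θ₁ cu ηc δ : ℝ} {u f₁ f₂ f₁c f₂c ψ : ℝ ≃o ℝ}
    (X : CoreX κ θ₀ θ₁ cu ηc u f₁ f₂ f₁c f₂c) (hψ : ψ ∈ Dd) (hψ0 : ∀ x, κ ≤ |x| → ψ x = x)
    (hn : Near δ ψ) (y : ℝ) :
    |DOp u ψ y - y| ≤ Real.exp cu * δ ∧ |LD (DOp u ψ) y| ≤ δ := by
  obtain ⟨q1, q2⟩ := C2b_Q X.κ_pos hψ0
  have hδ : 0 ≤ δ := (abs_nonneg _).trans (hn 0).1
  have hinv := C2b_inv_near hψ hn
  have hLD : LD (DOp u ψ) y = LD u (ψ⁻¹ (u⁻¹ y)) - LD ψ (ψ⁻¹ (u⁻¹ y)) - LD u (u⁻¹ y) := by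
    unfold DOp
    rw [LD_mul (Dd.mul_mem X.u_mem (Dd.inv_mem hψ)) (Dd.inv_mem X.u_mem),
      LD_mul X.u_mem (Dd.inv_mem hψ), LD_inv X.u_mem, LD_inv hψ]
    ring
  have hval : DOp u ψ y = u (ψ⁻¹ (u⁻¹ y)) := rfl
  rcases le_or_gt κ |u⁻¹ y| with h1 | h1
  · rw [hLD, hval, q1 _ h1, C2b_apply_inv, sub_self, abs_zero]
    refine ⟨by positivity, ?_⟩
    have e : LD u (u⁻¹ y) - LD ψ (u⁻¹ y) - LD u (u⁻¹ y) = - LD ψ (u⁻¹ y) := by ring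
    rw [e, abs_neg]
    exact (hn _).2
  · have hz : u⁻¹ y ∈ Icc (-κ) κ := ⟨(abs_lt.1 h1).1.le, (abs_lt.1 h1).2.le⟩
    have hz' := q2 _ hz
    refine ⟨?_, ?_⟩
    · have h2 : |u (ψ⁻¹ (u⁻¹ y)) - u (u⁻¹ y)| ≤ Real.exp cu * |ψ⁻¹ (u⁻¹ y) - u⁻¹ y| :=
        abs_sub_le_exp X.u_mem fun z hz2 => (X.u_aff z (uIcc_subset_Icc hz' hz hz2)).le
      rw [C2b_apply_inv] at h2
      rw [hval]
      exact h2.trans (mul_le_mul_of_nonneg_left (hinv _).1 (Real.exp_pos _).le)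
    · rw [hLD, X.u_aff _ hz, X.u_aff _ hz']
      have e : cu - LD ψ (ψ⁻¹ (u⁻¹ y)) - cu = - LD ψ (ψ⁻¹ (u⁻¹ y)) := by ring
      rw [e, abs_neg]
      exact (hn _).2

theorem Rop_near (cu : ℝ) : ∃ C : ℝ, 1 ≤ C ∧ ∀ {κ θ₀ θ₁ ηc ε : ℝ} {u f₁ f₂ f₁c f₂c e : ℝ ≃o ℝ},
    CoreX κ θ₀ θ₁ cu ηc u f₁ f₂ f₁c f₂c → e ∈ Dd → (∀ x, κ / 8 ≤ |x| → e x = x) → 0 ≤ ε → ε ≤ 1 →
      Near ε e → Rop u f₁ f₁c f₂c e ∈ Dd ∧ Near (C * (ηc + ε)) (Rop u f₁ f₁c f₂c e) := by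
  refine ⟨6 + 2 * Real.exp cu, by have := Real.exp_pos cu; linarith, ?_⟩
  intro κ θ₀ θ₁ ηc ε u f₁ f₂ f₁c f₂c e X he he0 hε0 hε1 hen
  obtain ⟨hψ, hψn⟩ := psiOp_near X he hε0 hen
  have hψ0 : ∀ x, κ ≤ |x| → psiOp f₁c f₂c e x = x := fun x hx => psiOp_id X he0 hx
  have hF : f₁ * f₁c⁻¹ ∈ Dd := Dd.mul_mem X.f₁_mem (Dd.inv_mem X.f₁c_mem)
  have hFn : Near (ηc + ηc) (f₁ * f₁c⁻¹) :=
    C2b_mul_near X.f₁_mem (Dd.inv_mem X.f₁c_mem) X.near₁ (C2b_inv_near X.f₁c_mem X.near₁c)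
  have hD : DOp u (psiOp f₁c f₂c e) ∈ Dd :=
    Dd.mul_mem (Dd.mul_mem X.u_mem (Dd.inv_mem hψ)) (Dd.inv_mem X.u_mem)
  have hη := X.ηc_nonneg
  have hexp := Real.exp_pos cu
  have hDn : Near ((1 + Real.exp cu) * (2 * ηc + ε)) (DOp u (psiOp f₁c f₂c e)) := by
    intro y
    obtain ⟨h1, h2⟩ := C2b_D X hψ hψ0 hψn y
    constructor
    · nlinarith
    · nlinarith
  have hR : Rop u f₁ f₁c f₂c e ∈ Dd := by
    unfold Rop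
    exact Dd.mul_mem (Dd.mul_mem (Dd.mul_mem X.f₁_mem (Dd.inv_mem X.f₁c_mem)) hD)
      (Dd.inv_mem (Dd.mul_mem X.f₁_mem (Dd.inv_mem X.f₁c_mem)))
  refine ⟨hR, ?_⟩
  have hFn' : Near (ηc + ηc) (f₁ * f₁c⁻¹) :=
    C2b_mul_near X.f₁_mem (Dd.inv_mem X.f₁c_mem) X.near₁ (C2b_inv_near X.f₁c_mem X.near₁c)
  have hF' : f₁ * f₁c⁻¹ ∈ Dd := Dd.mul_mem X.f₁_mem (Dd.inv_mem X.f₁c_mem)
  intro x
  obtain ⟨y, hy⟩ : ∃ y, y = (f₁ * f₁c⁻¹)⁻¹ x := ⟨_, rfl⟩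
  have hx : (f₁ * f₁c⁻¹) y = x := by rw [hy, C2b_apply_inv]
  obtain ⟨h1, h2⟩ := C2b_D X hψ hψ0 hψn y
  have hval : Rop u f₁ f₁c f₂c e x = (f₁ * f₁c⁻¹) (DOp u (psiOp f₁c f₂c e) y) := by
    rw [hy]; rfl
  constructor
  · have h3 := (hFn' (DOp u (psiOp f₁c f₂c e) y)).1
    have h4 := (hFn' y).1
    rw [hx, abs_sub_comm] at h4
    rw [hval]
    have e1 : (f₁ * f₁c⁻¹) (DOp u (psiOp f₁c f₂c e) y) - x =
        ((f₁ * f₁c⁻¹) (DOp u (psiOp f₁c f₂c e) y) - DOp u (psiOp f₁c f₂c e) y) +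
          ((DOp u (psiOp f₁c f₂c e) y - y) + (y - x)) := by ring
    rw [e1]
    refine (abs_add_le _ _).trans ?_
    have h5 := abs_add_le (DOp u (psiOp f₁c f₂c e) y - y) (y - x)
    nlinarith
  · have e1 : LD (Rop u f₁ f₁c f₂c e) x = LD (f₁ * f₁c⁻¹) (DOp u (psiOp f₁c f₂c e) y) +
        LD (DOp u (psiOp f₁c f₂c e)) y - LD (f₁ * f₁c⁻¹) y := by
      unfold Rop
      rw [LD_mul (Dd.mul_mem hF' hD) (Dd.inv_mem hF'), LD_mul hF' hD, LD_inv hF', ← hy]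
      ring
    rw [e1]
    have h3 := (hFn' (DOp u (psiOp f₁c f₂c e) y)).2
    have h4 := (hFn' y).2
    rw [abs_le] at h2 h3 h4 ⊢
    constructor
    · nlinarith
    · nlinarith

theorem Rop_lip (cu : ℝ) : ∃ C : ℝ, 1 ≤ C ∧ ∀ {κ θ₀ θ₁ ηc ε d : ℝ} {u f₁ f₂ f₁c f₂c e e' : ℝ ≃o ℝ},
    CoreX κ θ₀ θ₁ cu ηc u f₁ f₂ f₁c f₂c → e ∈ Dd → e' ∈ Dd → (∀ x, κ / 8 ≤ |x| → e x = x) →
      (∀ x, κ / 8 ≤ |x| → e' x = x) → Near 1 e → Near 1 e' → (∀ x, |e x - e' x| ≤ d) →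
        ∀ x, |Rop u f₁ f₁c f₂c e x - Rop u f₁ f₁c f₂c e' x| ≤ C * d := by
  refine ⟨Real.exp (cu + 4) + 1, by have := Real.exp_pos (cu + 4); linarith, ?_⟩
  intro κ θ₀ θ₁ ηc ε d u f₁ f₂ f₁c f₂c e e' X he he' he0 he0' hn hn' hd x
  have hd0 : 0 ≤ d := (abs_nonneg _).trans (hd 0)
  have hη := X.ηc_nonneg
  have hη' : ηc ≤ 1 / 16 := X.ηc_le.trans (by linarith [X.κ_le])
  obtain ⟨hψ, hψn⟩ := psiOp_near X he zero_le_one hn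
  obtain ⟨hψ', hψn'⟩ := psiOp_near X he' zero_le_one hn'
  have hψ0 : ∀ x, κ ≤ |x| → psiOp f₁c f₂c e x = x := fun x hx => psiOp_id X he0 hx
  have hψ0' : ∀ x, κ ≤ |x| → psiOp f₁c f₂c e' x = x := fun x hx => psiOp_id X he0' hx
  obtain ⟨q1, q2⟩ := C2b_Q X.κ_pos hψ0
  obtain ⟨q1', q2'⟩ := C2b_Q X.κ_pos hψ0'
  have hFn' : Near (ηc + ηc) (f₁ * f₁c⁻¹) :=
    C2b_mul_near X.f₁_mem (Dd.inv_mem X.f₁c_mem) X.near₁ (C2b_inv_near X.f₁c_mem X.near₁c)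
  have hF' : f₁ * f₁c⁻¹ ∈ Dd := Dd.mul_mem X.f₁_mem (Dd.inv_mem X.f₁c_mem)
  obtain ⟨y, hy⟩ : ∃ y, y = (f₁ * f₁c⁻¹)⁻¹ x := ⟨_, rfl⟩
  obtain ⟨z, hz⟩ : ∃ z, z = u⁻¹ y := ⟨_, rfl⟩
  have hval : Rop u f₁ f₁c f₂c e x = (f₁ * f₁c⁻¹) (u ((psiOp f₁c f₂c e)⁻¹ z)) := by
    rw [hz, hy]; rfl
  have hval' : Rop u f₁ f₁c f₂c e' x = (f₁ * f₁c⁻¹) (u ((psiOp f₁c f₂c e')⁻¹ z)) := by
    rw [hz, hy]; rfl
  -- the difference of the inverses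
  have hψd : ∀ b, |psiOp f₁c f₂c e b - psiOp f₁c f₂c e' b| ≤ Real.exp 1 * d := by
    intro b
    have h1 : |f₁c⁻¹ (e (f₂c⁻¹ b)) - f₁c⁻¹ (e' (f₂c⁻¹ b))| ≤
        Real.exp 1 * |e (f₂c⁻¹ b) - e' (f₂c⁻¹ b)| := by
      refine abs_sub_le_exp (Dd.inv_mem X.f₁c_mem) fun w _ => ?_
      have := (abs_le.1 (C2b_inv_near X.f₁c_mem X.near₁c w).2).2
      linarith
    exact h1.trans (mul_le_mul_of_nonneg_left (hd _) (Real.exp_pos _).le)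
  have hinv : |(psiOp f₁c f₂c e)⁻¹ z - (psiOp f₁c f₂c e')⁻¹ z| ≤ Real.exp 3 * d := by
    obtain ⟨a, ha⟩ : ∃ a, a = (psiOp f₁c f₂c e)⁻¹ z := ⟨_, rfl⟩
    obtain ⟨b, hb⟩ : ∃ b, b = (psiOp f₁c f₂c e')⁻¹ z := ⟨_, rfl⟩
    have ha' : psiOp f₁c f₂c e a = z := by rw [ha, C2b_apply_inv]
    have hb' : psiOp f₁c f₂c e' b = z := by rw [hb, C2b_apply_inv]
    rw [← ha, ← hb]
    have h1 : Real.exp (-2) * |a - b| ≤ |psiOp f₁c f₂c e a - psiOp f₁c f₂c e b| := by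
      refine exp_mul_le_abs_sub hψ fun w _ => ?_
      have := (abs_le.1 (hψn w).2).1
      linarith
    have h2 : |psiOp f₁c f₂c e a - psiOp f₁c f₂c e b| ≤ Real.exp 1 * d := by
      rw [ha', ← hb', abs_sub_comm]
      exact hψd b
    have h3 : |a - b| = Real.exp 2 * (Real.exp (-2) * |a - b|) := by
      rw [← mul_assoc, ← Real.exp_add]
      norm_num
    rw [h3]
    calc Real.exp 2 * (Real.exp (-2) * |a - b|) ≤ Real.exp 2 * (Real.exp 1 * d) :=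
          mul_le_mul_of_nonneg_left (h1.trans h2) (Real.exp_pos _).le
      _ = Real.exp 3 * d := by
          rw [← mul_assoc, ← Real.exp_add]
          norm_num
  have hu : |u ((psiOp f₁c f₂c e)⁻¹ z) - u ((psiOp f₁c f₂c e')⁻¹ z)| ≤
      Real.exp cu * (Real.exp 3 * d) := by
    rcases le_or_gt κ |z| with h1 | h1
    · rw [q1 z h1, q1' z h1, sub_self, abs_zero]
      positivity
    · have hzz : z ∈ Icc (-κ) κ := ⟨(abs_lt.1 h1).1.le, (abs_lt.1 h1).2.le⟩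
      refine (abs_sub_le_exp X.u_mem fun w hw =>
        (X.u_aff w (uIcc_subset_Icc (q2 z hzz) (q2' z hzz) hw)).le).trans ?_
      exact mul_le_mul_of_nonneg_left hinv (Real.exp_pos _).le
  have hF : |(f₁ * f₁c⁻¹) (u ((psiOp f₁c f₂c e)⁻¹ z)) - (f₁ * f₁c⁻¹) (u ((psiOp f₁c f₂c e')⁻¹ z))| ≤
      Real.exp 1 * |u ((psiOp f₁c f₂c e)⁻¹ z) - u ((psiOp f₁c f₂c e')⁻¹ z)| := by
    refine abs_sub_le_exp hF' fun w _ => ?_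
    have := (abs_le.1 (hFn' w).2).2
    linarith
  rw [hval, hval']
  refine hF.trans ?_
  calc Real.exp 1 * |u ((psiOp f₁c f₂c e)⁻¹ z) - u ((psiOp f₁c f₂c e')⁻¹ z)|
      ≤ Real.exp 1 * (Real.exp cu * (Real.exp 3 * d)) :=
        mul_le_mul_of_nonneg_left hu (Real.exp_pos _).le
    _ = Real.exp (cu + 4) * d := by
        have : Real.exp (cu + 4) = Real.exp 1 * (Real.exp cu * Real.exp 3) := by
          rw [← Real.exp_add, ← Real.exp_add]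
          congr 1
          ring
        rw [this]
        ring
    _ ≤ (Real.exp (cu + 4) + 1) * d := by nlinarith

end FG
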