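import Pool.Agent.helper97.FG.B1

/-!
author: helper41
# L1 : transport, equation and sizes

`Yit F Yin (k+1) = (tr 1)⁻¹ F (Yit F Yin k) (tr 1)`.  Induction: `Yit (k+1) t = Yit k t` for `t ≥ -k-1`.
-/

set_option linter.unusedVariables false

open Set Filter Topology
open scoped commutatorElement
open Pool.Agent.helper35.FOL

namespace FG

variable {g h : ℝ ≃o ℝ} {w w₁ w₂ φ : ℝ → ℝ}

private theorem Yit_zero (F Yin : ℝ ≃o ℝ) : Yit F Yin 0 = Yin := by
  unfold Yit
  simp

private theorem Yit_succ (F Yin : ℝ ≃o ℝ) (k : ℕ) (t : ℝ) :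
    Yit F Yin (k + 1) t = F (Yit F Yin k (t + 1)) - 1 := by
  have h : Yit F Yin (k + 1) = (tr 1)⁻¹ * F * Yit F Yin k * tr 1 := by
    unfold Yit
    rw [pow_succ' ((tr 1)⁻¹ * F) k, pow_succ (tr 1) k]
    simp only [mul_assoc]
  rw [h]
  change (tr 1)⁻¹ (F (Yit F Yin k (tr 1 t))) = _
  rw [tr_inv_apply, tr_apply]

theorem Yit_mem {F Yin : ℝ ≃o ℝ} (hF : F ∈ Dd) (hY : Yin ∈ Dd) (k : ℕ) : Yit F Yin k ∈ Dd := by
  unfold Yit
  exact Dd.mul_mem (Dd.mul_mem (Dd.pow_mem (Dd.mul_mem (Dd.inv_mem (tr_mem 1)) hF) k) hY)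
    (Dd.pow_mem (tr_mem 1) k)

theorem Yit_eq {F Yin : ℝ ≃o ℝ} (hcol : ∀ t, 0 ≤ t → F (Yin t) = Yin (t - 1) + 1) (k : ℕ) :
    (∀ t, -1 ≤ t → Yit F Yin k t = Yin t) ∧
    ∀ t, -(k : ℝ) ≤ t → F (Yit F Yin k t) = Yit F Yin k (t - 1) + 1 := by
  induction k with
  | zero =>
    refine ⟨fun t _ => by rw [Yit_zero], fun t ht => ?_⟩
    rw [Yit_zero]
    exact hcol t (by simpa using ht)
  | succ k ih =>
    obtain ⟨ha, hb⟩ := ih
    have hk : (0 : ℝ) ≤ k := Nat.cast_nonneg k
    have hc : ∀ t, -(k : ℝ) - 1 ≤ t → Yit F Yin (k + 1) t = Yit F Yin k t := by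
      intro t ht
      rw [Yit_succ, hb (t + 1) (by linarith)]
      have : t + 1 - 1 = t := by ring
      rw [this]
      ring
    refine ⟨fun t ht => ?_, fun t ht => ?_⟩
    · rw [hc t (by linarith), ha t ht]
    · push_cast at ht
      rw [hc t (by linarith), Yit_succ]
      have : t - 1 + 1 = t := by ring
      rw [this]
      ring

private theorem LD_eq_of_eqOn {g h : ℝ ≃o ℝ} (hg : g ∈ Dd) (hh : h ∈ Dd) {S : Set ℝ} (hS : UniqueDiffOn ℝ S)
    (he : ∀ y ∈ S, g y = h y) {x : ℝ} (hx : x ∈ S) : LD g x = LD h x := by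
  have h1 : derivWithin g S x = deriv g x := (Dd_differentiable hg x).derivWithin (hS x hx)
  have h2 : derivWithin h S x = deriv h x := (Dd_differentiable hh x).derivWithin (hS x hx)
  have h3 : derivWithin g S x = derivWithin h S x := derivWithin_congr (fun y hy => he y hy) (he x hx)
  unfold LD
  rw [← h1, ← h2, h3]

/-- hypotheses on `Yin` and `F` for the estimates: `N` = number of nontrivial steps -/
structure LineHyp (K₀ s₀ η θ tκ : ℝ) (N : ℕ) (F Yin : ℝ ≃o ℝ) : Prop where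
  F_mem : F ∈ Dd
  Y_mem : Yin ∈ Dd
  K₀_nonneg : 0 ≤ K₀
  s₀_nonneg : 0 ≤ s₀
  η_nonneg : 0 ≤ η
  small : N * η ≤ θ
  col : ∀ t, 0 ≤ t → F (Yin t) = Yin (t - 1) + 1
  size_Y : ∀ t ∈ Icc (-1 : ℝ) 0, |Yin t - t| ≤ K₀ ∧ |LD Yin t| ≤ s₀
  size_F : ∀ t ≤ Yin 0, |F t - t| ≤ η ∧ |LD F t| ≤ η
  F_id : ∀ t ≤ tκ, F t = t
  N_large : -(N : ℝ) + (K₀ + θ) ≤ tκ

/-- size of the transported map, and periodicity below `-N` -/
theorem Yit_size {K₀ s₀ η θ tκ : ℝ} {N : ℕ} {F Yin : ℝ ≃o ℝ} (H : LineHyp K₀ s₀ η θ tκ N F Yin) (k : ℕ) :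
    (∀ t ∈ Icc (-(k : ℝ) - 1) 0, |Yit F Yin k t - t| ≤ K₀ + θ ∧ |LD (Yit F Yin k) t| ≤ s₀ + θ) ∧
    ∀ t ∈ Icc (-(k : ℝ)) (-(N : ℝ)), Yit F Yin k (t - 1) = Yit F Yin k t - 1 := by
  obtain ⟨hF, hY, hK, hs, hη, hθ, hcol, hsY, hsF, hid, hN⟩ := H
  obtain ⟨ha, hb⟩ := Yit_eq hcol k
  have hm := Yit_mem hF hY k
  set Z := Yit F Yin k with hZ
  have hN0 : (0 : ℝ) ≤ N := Nat.cast_nonneg N
  -- the equation for `LD`
  have hLD : ∀ t, -(k : ℝ) ≤ t → LD Z (t - 1) = LD F (Z t) + LD Z t := by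
    intro t ht
    have h1 : LD (F * Z) t = LD (tr 1 * Z * (tr 1)⁻¹) t := by
      refine LD_eq_of_eqOn (Dd.mul_mem hF hm)
        (Dd.mul_mem (Dd.mul_mem (tr_mem 1) hm) (Dd.inv_mem (tr_mem 1))) (uniqueDiffOn_Ici (-(k : ℝ)))
        (fun y hy => ?_) ht
      change F (Z y) = tr 1 (Z ((tr 1)⁻¹ y))
      rw [tr_inv_apply, tr_apply]
      exact hb y hy
    rw [LD_mul hF hm, LD_mul (Dd.mul_mem (tr_mem 1) hm) (Dd.inv_mem (tr_mem 1)),
      LD_mul (tr_mem 1) hm, LD_tr, tr_inv, LD_tr, tr_apply] at h1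
    have : t + -1 = t - 1 := by ring
    rw [this] at h1
    linarith
  have hLDid : ∀ t ≤ tκ, LD F t = 0 := by
    intro t ht
    rw [LD_eq_of_eqOn hF (Dd.one_mem) (uniqueDiffOn_Iic tκ) (fun y hy => hid y hy) ht, LD_one]
  have hle : ∀ t ≤ 0, Z t ≤ Yin 0 := by
    intro t ht
    rw [← ha 0 (by norm_num)]
    exact Z.monotone ht
  have key : ∀ j : ℕ, j ≤ k → ∀ t ∈ Icc (-(j : ℝ) - 1) 0,
      |Z t - t| ≤ K₀ + ((min j N : ℕ) : ℝ) * η ∧ |LD Z t| ≤ s₀ + ((min j N : ℕ) : ℝ) * η := by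
    intro j
    induction j with
    | zero =>
      intro _ t ht
      have ht' : t ∈ Icc (-1 : ℝ) 0 := by simpa using ht
      have h1 : Z t = Yin t := ha t ht'.1
      have h2 : LD Z t = LD Yin t :=
        LD_eq_of_eqOn hm hY (uniqueDiffOn_Ici (-1 : ℝ)) (fun y hy => ha y hy) ht'.1
      rw [h1, h2]
      simpa using hsY t ht'
    | succ j ih =>
      intro hj t ht
      have ihj := ih (by omega)
      have hjk : ((j : ℝ) + 1) ≤ k := by exact_mod_cast hj
      push_cast at ht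
      by_cases hc : -(j : ℝ) - 1 ≤ t
      · obtain ⟨h1, h2⟩ := ihj t ⟨hc, ht.2⟩
        have h3 : ((min j N : ℕ) : ℝ) ≤ ((min (j + 1) N : ℕ) : ℝ) := by
          exact_mod_cast min_le_min (Nat.le_succ j) le_rfl
        have h4 := mul_le_mul_of_nonneg_right h3 hη
        exact ⟨by linarith, by linarith⟩
      · push Not at hc
        have hj0 : (0 : ℝ) ≤ j := Nat.cast_nonneg j
        obtain ⟨h1, h2⟩ := ihj (t + 1) ⟨by linarith [ht.1], by linarith⟩
        have e1 : Z t = F (Z (t + 1)) - 1 := by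
          have := hb (t + 1) (by linarith [ht.1])
          rw [this]
          have : t + 1 - 1 = t := by ring
          rw [this]
          ring
        have e2 : LD Z t = LD F (Z (t + 1)) + LD Z (t + 1) := by
          have := hLD (t + 1) (by linarith [ht.1])
          have h5 : t + 1 - 1 = t := by ring
          rw [h5] at this
          exact this
        by_cases hjN : j < N
        · have h3 : min (j + 1) N = j + 1 := by omega
          have h4 : min j N = j := by omega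
          rw [h4] at h1 h2
          rw [h3]
          obtain ⟨f1, f2⟩ := hsF (Z (t + 1)) (hle (t + 1) (by linarith))
          push_cast
          constructor
          · have : Z t - t = (F (Z (t + 1)) - Z (t + 1)) + (Z (t + 1) - (t + 1)) := by
              rw [e1]; ring
            rw [this]
            have := abs_add_le (F (Z (t + 1)) - Z (t + 1)) (Z (t + 1) - (t + 1))
            linarith
          · rw [e2]
            have := abs_add_le (LD F (Z (t + 1))) (LD Z (t + 1))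
            linarith
        · push Not at hjN
          have h3 : min (j + 1) N = N := by omega
          have h4 : min j N = N := by omega
          have hjN' : (N : ℝ) ≤ j := by exact_mod_cast hjN
          rw [h4] at h1 h2
          rw [h3]
          have h5 : Z (t + 1) ≤ tκ := by
            have := (abs_le.1 h1).2
            linarith
          constructor
          · have : Z t - t = Z (t + 1) - (t + 1) := by
              rw [e1, hid _ h5]; ring
            rw [this]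
            exact h1
          · rw [e2, hLDid _ h5, zero_add]
            exact h2
  have hmin : ((min k N : ℕ) : ℝ) * η ≤ θ := by
    have : ((min k N : ℕ) : ℝ) ≤ N := by exact_mod_cast min_le_right k N
    exact le_trans (mul_le_mul_of_nonneg_right this hη) hθ
  have hi : ∀ t ∈ Icc (-(k : ℝ) - 1) 0, |Z t - t| ≤ K₀ + θ ∧ |LD Z t| ≤ s₀ + θ := by
    intro t ht
    obtain ⟨h1, h2⟩ := key k le_rfl t ht
    exact ⟨by linarith, by linarith⟩
  refine ⟨hi, fun t ht => ?_⟩
  have h1 := (abs_le.1 (hi t ⟨by linarith [ht.1], by linarith [ht.2]⟩).1).2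
  have h2 : Z t ≤ tκ := by linarith [ht.2]
  have h3 := hb t ht.1
  rw [hid _ h2] at h3
  linarith

end FG
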