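import Pool.Agent.helper97.FG.S1

/-!
# S2 : the commutator error of slow switching off: formula and size

With `w = (Ych Y)⁻¹ y`: `slowE y = y + (χ (w-1) - χ w) (Y w - w)`.  For `w ≥ te + 1` both sides are `y` (use `hF`,
`Ych = Y` there), for `w ≤ te + 1` use `F = id` at `Ych w` and the periodicity of `Y - id`; for `w ≤ te - Λ` both
`χ` vanish.

author: helper59
-/

set_option linter.unusedVariables false

open Set Filter Topology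
open scoped commutatorElement
open Pool.Agent.helper35.FOL

namespace FG

variable {g h : ℝ ≃o ℝ} {w w₁ w₂ φ : ℝ → ℝ}

/-- hypotheses on `Y` (periodic near `[te - Λ, te]`) and `F` -/
structure SlowHyp (te Λ K s : ℝ) (Y F : ℝ ≃o ℝ) : Prop where
  Y_mem : Y ∈ Dd
  F_mem : F ∈ Dd
  K_nonneg : 0 ≤ K
  s_nonneg : 0 ≤ s
  s_le : s ≤ 1 / 2
  size : ∀ t ∈ Icc (te - Λ - 2) (te + 2), |Y t - t| ≤ K ∧ |LD Y t| ≤ s
  per : ∀ t ∈ Icc (te - Λ - 1) (te + 2), Y (t - 1) = Y t - 1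
  F_id : ∀ y ≤ Y (te + 1), F y = y
  F_eq : ∀ t, te + 1 ≤ t → F (Y t) = Y (t - 1) + 1

/-- an element of `Dd` which is the identity on a set with unique derivatives has `LD = 0` there -/
theorem S2_LD_eq_zero {S : Set ℝ} (hS : UniqueDiffOn ℝ S) {g : ℝ ≃o ℝ} (hg : g ∈ Dd)
    (h : ∀ x ∈ S, g x = x) {x : ℝ} (hx : x ∈ S) : LD g x = 0 := by
  have h1 : deriv g x = 1 := by
    rw [← (Dd_differentiable hg x).derivWithin (hS x hx)]
    rw [derivWithin_congr (f := fun y => y) (fun y hy => h y hy) (h x hx)]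
    exact derivWithin_id x S (hS x hx)
  unfold LD
  rw [h1, Real.log_one]

theorem slowE_formula : ∃ C : ℝ, 1 ≤ C ∧ ∀ {te Λ K s : ℝ} {Y F : ℝ ≃o ℝ}, SlowHyp te Λ K s Y F →
    C * (K + 1) ≤ Λ →
      slowE te Λ Y F ∈ Dd ∧
      (∀ y, slowE te Λ Y F y = y + (chi te Λ ((Ych te Λ Y)⁻¹ y - 1) - chi te Λ ((Ych te Λ Y)⁻¹ y)) *
        (Y ((Ych te Λ Y)⁻¹ y) - (Ych te Λ Y)⁻¹ y)) ∧
      (∀ y, (Ych te Λ Y)⁻¹ y ≤ te + 1 → LD (slowE te Λ Y F) y =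
        LD (Ych te Λ Y) ((Ych te Λ Y)⁻¹ y - 1) - LD (Ych te Λ Y) ((Ych te Λ Y)⁻¹ y)) ∧
      (∀ y, te + 1 ≤ (Ych te Λ Y)⁻¹ y → LD (slowE te Λ Y F) y = 0) ∧
      (∀ y, te + 1 + K ≤ y → slowE te Λ Y F y = y) ∧
      (∀ y, y ≤ te - Λ → slowE te Λ Y F y = y) ∧
      (∀ t, Ych te Λ Y (t - 1) + 1 = slowE te Λ Y F (F (Ych te Λ Y t))) := by
  obtain ⟨C, hC, hY⟩ := exists_Ych
  refine ⟨C, hC, fun {te Λ K s Y F} H hΛ => ?_⟩
  have hΛ0 : 0 < Λ := by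
    have : 0 < C * (K + 1) := by
      have := H.K_nonneg
      positivity
    linarith
  obtain ⟨hYd, hYf, hYr, hYl, -, -⟩ := hY te Λ K s Y H.Y_mem H.K_nonneg H.s_nonneg H.s_le hΛ
    (fun t ht => H.size t ⟨by linarith [ht.1], by linarith [ht.2]⟩)
  have hmem : slowE te Λ Y F ∈ Dd :=
    Dd.mul_mem (Dd.mul_mem (Dd.mul_mem (Dd.mul_mem (tr_mem 1) hYd) (Dd.inv_mem (tr_mem 1)))
      (Dd.inv_mem hYd)) (Dd.inv_mem H.F_mem)
  have happ : ∀ y, slowE te Λ Y F y =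
      Ych te Λ Y ((Ych te Λ Y)⁻¹ (F⁻¹ y) - 1) + 1 := by
    intro y
    show tr 1 (Ych te Λ Y ((tr 1)⁻¹ ((Ych te Λ Y)⁻¹ (F⁻¹ y)))) = _
    rw [tr_inv_apply, tr_apply]
  have hinv : ∀ (g : ℝ ≃o ℝ) (x : ℝ), g (g⁻¹ x) = x := fun g x => g.apply_symm_apply x
  have hinv' : ∀ (g : ℝ ≃o ℝ) (x : ℝ), g⁻¹ (g x) = x := fun g x => g.symm_apply_apply x
  have hmono : ∀ (g : ℝ ≃o ℝ) {x y : ℝ}, x ≤ y → g x ≤ g y := fun g {x y} h => g.monotone h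
  -- the case `w ≤ te + 1`
  have hFi : ∀ y ≤ Y (te + 1), F⁻¹ y = y := by
    intro y hy
    have := hinv' F y
    rwa [H.F_id y hy] at this
  have hle : ∀ y, (Ych te Λ Y)⁻¹ y ≤ te + 1 → y ≤ Y (te + 1) := by
    intro y hy
    have := hmono (Ych te Λ Y) hy
    rwa [hinv, hYr (te + 1) (by linarith)] at this
  have hge : ∀ y, te + 1 ≤ (Ych te Λ Y)⁻¹ y → Y (te + 1) ≤ y := by
    intro y hy
    have := hmono (Ych te Λ Y) hy
    rwa [hinv, hYr (te + 1) (by linarith)] at this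
  have hright : ∀ y, Y (te + 1) ≤ y → slowE te Λ Y F y = y := by
    intro y hy
    have h1 : Y (te + 1) ≤ F⁻¹ y := by
      have := hmono F⁻¹ hy
      rwa [hFi _ le_rfl] at this
    have h2 : te + 1 ≤ Y⁻¹ (F⁻¹ y) := by
      have := hmono Y⁻¹ h1
      rwa [hinv'] at this
    have h3 : Y (Y⁻¹ (F⁻¹ y)) = F⁻¹ y := hinv _ _
    have h4 : Ych te Λ Y (Y⁻¹ (F⁻¹ y)) = F⁻¹ y := by
      rw [hYr _ (by linarith), h3]
    have h5 : (Ych te Λ Y)⁻¹ (F⁻¹ y) = Y⁻¹ (F⁻¹ y) := by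
      have := hinv' (Ych te Λ Y) (Y⁻¹ (F⁻¹ y))
      rwa [h4] at this
    rw [happ, h5, hYr _ (by linarith), ← H.F_eq _ h2, h3, hinv]
  have hformula : ∀ y, slowE te Λ Y F y = y + (chi te Λ ((Ych te Λ Y)⁻¹ y - 1) -
      chi te Λ ((Ych te Λ Y)⁻¹ y)) * (Y ((Ych te Λ Y)⁻¹ y) - (Ych te Λ Y)⁻¹ y) := by
    intro y
    have hy : y = (Ych te Λ Y)⁻¹ y + chi te Λ ((Ych te Λ Y)⁻¹ y) *
        (Y ((Ych te Λ Y)⁻¹ y) - (Ych te Λ Y)⁻¹ y) := by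
      have := hYf ((Ych te Λ Y)⁻¹ y)
      rwa [hinv] at this
    rcases le_total ((Ych te Λ Y)⁻¹ y) (te + 1) with hw | hw
    · rw [happ, hFi y (hle y hw), hYf]
      rcases lt_or_ge ((Ych te Λ Y)⁻¹ y) (te - Λ - 1) with hw2 | hw2
      · rw [chi_eq_zero (t := (Ych te Λ Y)⁻¹ y) hΛ0 (by linarith)] at hy ⊢
        rw [chi_eq_zero (t := (Ych te Λ Y)⁻¹ y - 1) hΛ0 (by linarith)]
        linarith
      · rw [H.per _ ⟨hw2, by linarith⟩]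
        generalize (Ych te Λ Y)⁻¹ y = w at *
        linear_combination -hy
    · rw [hright y (hge y hw), chi_eq_one (t := (Ych te Λ Y)⁻¹ y) hΛ0 (by linarith),
        chi_eq_one (t := (Ych te Λ Y)⁻¹ y - 1) hΛ0 (by linarith)]
      ring
  refine ⟨hmem, hformula, fun y hy => ?_, fun y hy => ?_, fun y hy => ?_, fun y hy => ?_,
    fun t => ?_⟩
  · have h1 : LD F⁻¹ y = 0 := by
      rw [LD_inv H.F_mem, hFi y (hle y hy)]
      rw [S2_LD_eq_zero (uniqueDiffOn_Iic (Y (te + 1))) H.F_mem (fun x hx => H.F_id x hx) (hle y hy)]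
      simp
    show LD (tr 1 * Ych te Λ Y * (tr 1)⁻¹ * (Ych te Λ Y)⁻¹ * F⁻¹) y = _
    rw [LD_mul (Dd.mul_mem (Dd.mul_mem (Dd.mul_mem (tr_mem 1) hYd) (Dd.inv_mem (tr_mem 1)))
      (Dd.inv_mem hYd)) (Dd.inv_mem H.F_mem), h1, hFi y (hle y hy),
      LD_mul (Dd.mul_mem (Dd.mul_mem (tr_mem 1) hYd) (Dd.inv_mem (tr_mem 1))) (Dd.inv_mem hYd),
      LD_mul (Dd.mul_mem (tr_mem 1) hYd) (Dd.inv_mem (tr_mem 1)), LD_mul (tr_mem 1) hYd,
      LD_tr, LD_inv hYd, LD_inv (tr_mem 1), LD_tr, tr_inv_apply]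
    ring
  · exact S2_LD_eq_zero (uniqueDiffOn_Ici (Y (te + 1))) hmem (fun x hx => hright x hx) (hge y hy)
  · apply hright
    have := (abs_le.1 (H.size (te + 1) ⟨by linarith, by linarith⟩).1).2
    linarith
  · have h1 : (Ych te Λ Y)⁻¹ y = y := by
      have := hinv' (Ych te Λ Y) y
      rwa [hYl y hy] at this
    rw [hformula, h1, chi_eq_zero (t := y) hΛ0 hy, chi_eq_zero (t := y - 1) hΛ0 (by linarith)]
    ring
  · rw [happ, hinv', hinv']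

end FG
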