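import Pool.Agent.helper97.FG.B1b
import Pool.Agent.helper97.FG.B1c

/-!
# T1 : the coordinate `E`, lifts and parts  (author: helper58)

`exists_lift`: `g x = E (p (E⁻¹ x))` for `x > 0`, `0` at `0`, `-E (m (E⁻¹ (-x)))` for `x < 0`; near `0` it is
`x ↦ exp (l c) x`.  `exists_parts`: `p = E⁻¹ ∘ g ∘ E`.
-/

set_option linter.unusedVariables false

open Set Filter Topology
open scoped commutatorElement
open Pool.Agent.helper35.FOL

namespace FG

variable {E : ℝ → ℝ} {l x₀ t₀ : ℝ} {g h p m p' m' : ℝ ≃o ℝ} {w w₁ w₂ φ : ℝ → ℝ}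

theorem Coord.strictMono (hE : Coord E l x₀ t₀) : StrictMono E :=
  strictMono_of_deriv_pos hE.dpos

theorem Coord.bot (hE : Coord E l x₀ t₀) : Tendsto E atBot (𝓝 0) := by
  have h1 : Tendsto (fun t : ℝ => x₀ * Real.exp (l * t)) atBot (𝓝 (x₀ * 0)) :=
    (Real.tendsto_exp_atBot.comp (tendsto_id.const_mul_atBot hE.l_pos)).const_mul x₀
  rw [mul_zero] at h1
  refine h1.congr' ?_
  filter_upwards [eventually_le_atBot t₀] with t ht
  exact (hE.exp t ht).symm

private theorem Coord.diff (hE : Coord E l x₀ t₀) : Differentiable ℝ E :=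
  hE.smooth.differentiable one_ne_zero

theorem Coord.surj (hE : Coord E l x₀ t₀) {x : ℝ} (hx : 0 < x) : ∃ t, E t = x := by
  have h1 : ∃ a, E a ≤ x := ((hE.bot.eventually (gt_mem_nhds hx)).exists).imp fun _ h => h.le
  have h2 : ∃ b, x ≤ E b := (hE.top.eventually (eventually_ge_atTop x)).exists
  exact mem_range_of_exists_le_of_exists_ge hE.diff.continuous h1 h2

private theorem Coord.mvt (hE : Coord E l x₀ t₀) {s t : ℝ} (hst : s < t) :
    ∃ c, s < c ∧ c < t ∧ E t - E s = deriv E c * (t - s) := by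
  obtain ⟨c, hc, hc'⟩ := exists_deriv_eq_slope E hst hE.diff.continuous.continuousOn
    hE.diff.differentiableOn
  refine ⟨c, hc.1, hc.2, ?_⟩
  rw [hc', div_mul_cancel₀]
  exact (sub_pos.2 hst).ne'

/-- `E` is convex-like: slopes are at least the derivative at the left end -/
theorem Coord.slope (hE : Coord E l x₀ t₀) {a s t : ℝ} (hs : a ≤ s) (ht : a ≤ t) :
    deriv E a * |s - t| ≤ |E s - E t| := by
  have key : ∀ s t, a ≤ s → s < t → deriv E a * |s - t| ≤ |E s - E t| := by
    intro s t hs hst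
    obtain ⟨c, hc1, hc2, hc⟩ := hE.mvt hst
    rw [abs_sub_comm s t, abs_sub_comm (E s) (E t), hc, abs_mul, abs_of_pos (hE.dpos c)]
    exact mul_le_mul_of_nonneg_right (hE.dmono (by linarith)) (abs_nonneg _)
  rcases lt_trichotomy s t with h | h | h
  · exact key s t hs h
  · subst h; simp
  · rw [abs_sub_comm s t, abs_sub_comm (E s) (E t)]
    exact key t s ht h

theorem Coord.slope' (hE : Coord E l x₀ t₀) {b s t : ℝ} (hs : s ≤ b) (ht : t ≤ b) :
    |E s - E t| ≤ deriv E b * |s - t| := by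
  have key : ∀ s t, t ≤ b → s < t → |E s - E t| ≤ deriv E b * |s - t| := by
    intro s t ht hst
    obtain ⟨c, hc1, hc2, hc⟩ := hE.mvt hst
    rw [abs_sub_comm s t, abs_sub_comm (E s) (E t), hc, abs_mul, abs_of_pos (hE.dpos c)]
    exact mul_le_mul_of_nonneg_right (hE.dmono (by linarith)) (abs_nonneg _)
  rcases lt_trichotomy s t with h | h | h
  · exact key s t ht h
  · subst h; simp
  · rw [abs_sub_comm s t, abs_sub_comm (E s) (E t)]
    exact key t s hs h

/-- the logarithm of `E` is an element of `Dd` -/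
private theorem Coord.exists_log (hE : Coord E l x₀ t₀) :
    ∃ L ∈ Dd, (∀ t, E t = Real.exp (L t)) ∧ ∀ t ≤ t₀, L t = Real.log x₀ + l * t := by
  have hne : ∀ t, E t ≠ 0 := fun t => (hE.pos t).ne'
  have hsm : ContDiff ℝ 1 (fun t => Real.log (E t)) := hE.smooth.log hne
  have hd : ∀ t, deriv (fun t => Real.log (E t)) t = deriv E t / E t := fun t =>
    ((hE.diff t).hasDerivAt.log (hne t)).deriv
  obtain ⟨L, hL, hLe, -⟩ := exists_Dd hsm
    (fun t => by rw [hd]; exact div_pos (hE.dpos t) (hE.pos t))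
    (Real.tendsto_log_atTop.comp hE.top)
    (by
      refine Real.tendsto_log_nhdsGT_zero.comp ?_
      exact tendsto_nhdsWithin_iff.2 ⟨hE.bot, Eventually.of_forall fun t => hE.pos t⟩)
  refine ⟨L, hL, fun t => ?_, fun t ht => ?_⟩
  · rw [hLe, Real.exp_log (hE.pos t)]
  · rw [hLe, hE.exp t ht, Real.log_mul hE.x₀_pos.ne' (Real.exp_pos _).ne', Real.log_exp]

/-- lifting a pair `P, M` in the logarithmic coordinate -/
private theorem exists_lift_log {P M : ℝ ≃o ℝ} (hP : P ∈ Dd) (hM : M ∈ Dd) {c s₁ : ℝ}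
    (h : ∀ s ≤ s₁, P s = s + c ∧ M s = s + c) :
    ∃ g ∈ Dd, g 0 = 0 ∧ (∀ s, g (Real.exp s) = Real.exp (P s)) ∧
      ∀ s, g (-Real.exp s) = -Real.exp (M s) := by
  classical
  set f : ℝ → ℝ := fun x => if 0 < x then Real.exp (P (Real.log x)) else
    if x < 0 then -Real.exp (M (Real.log (-x))) else 0 with hf
  have hfpos : ∀ x, 0 < x → f x = Real.exp (P (Real.log x)) := fun x hx => by
    simp only [hf]; rw [if_pos hx]
  have hfneg : ∀ x, x < 0 → f x = -Real.exp (M (Real.log (-x))) := fun x hx => by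
    simp only [hf]; rw [if_neg (not_lt.2 hx.le), if_pos hx]
  have hf0 : f 0 = 0 := by simp [hf]
  have hlin : ∀ x, |x| < Real.exp s₁ → f x = Real.exp c * x := by
    intro x hx
    rcases lt_trichotomy x 0 with h0 | h0 | h0
    · have h1 : 0 < -x := by linarith
      rw [abs_of_neg h0] at hx
      have h2 : Real.log (-x) ≤ s₁ := ((Real.log_lt_iff_lt_exp h1).2 hx).le
      rw [hfneg x h0, (h _ h2).2, Real.exp_add, Real.exp_log h1]
      ring
    · subst h0; rw [hf0, mul_zero]
    · rw [abs_of_pos h0] at hx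
      have h2 : Real.log x ≤ s₁ := ((Real.log_lt_iff_lt_exp h0).2 hx).le
      rw [hfpos x h0, (h _ h2).1, Real.exp_add, Real.exp_log h0]
      ring
  have hPd : Differentiable ℝ P := Dd_differentiable hP
  have hMd : Differentiable ℝ M := Dd_differentiable hM
  -- local forms
  have hev_pos : ∀ x, 0 < x → f =ᶠ[𝓝 x] fun x => Real.exp (P (Real.log x)) := fun x hx => by
    filter_upwards [eventually_gt_nhds hx] with y hy using hfpos y hy
  have hev_neg : ∀ x, x < 0 → f =ᶠ[𝓝 x] fun x => -Real.exp (M (Real.log (-x))) := fun x hx => by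
    filter_upwards [eventually_lt_nhds hx] with y hy using hfneg y hy
  have hev_zero : f =ᶠ[𝓝 0] fun x => Real.exp c * x := by
    have : ∀ᶠ x : ℝ in 𝓝 0, |x| < Real.exp s₁ := by
      have h1 : Tendsto (fun x : ℝ => |x|) (𝓝 0) (𝓝 |(0:ℝ)|) := continuous_abs.tendsto 0
      rw [abs_zero] at h1
      exact h1.eventually (gt_mem_nhds (Real.exp_pos _))
    filter_upwards [this] with x hx using hlin x hx
  have hsm : ContDiff ℝ 1 f := by
    rw [contDiff_iff_contDiffAt]
    intro x
    rcases lt_trichotomy x 0 with h0 | h0 | h0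
    · refine ContDiffAt.congr_of_eventuallyEq ?_ (hev_neg x h0)
      have h1 : ContDiffAt ℝ 1 (fun x : ℝ => Real.log (-x)) x :=
        (contDiff_neg.contDiffAt).log (by simpa using h0.ne)
      exact ((mem_Dd.1 hM).1.contDiffAt.comp x h1).exp.neg
    · subst h0
      refine ContDiffAt.congr_of_eventuallyEq ?_ hev_zero
      exact contDiffAt_const.mul contDiffAt_id
    · refine ContDiffAt.congr_of_eventuallyEq ?_ (hev_pos x h0)
      have h1 : ContDiffAt ℝ 1 (fun x : ℝ => Real.log x) x :=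
        contDiffAt_id.log h0.ne'
      exact ((mem_Dd.1 hP).1.contDiffAt.comp x h1).exp
  have hdpos : ∀ x, 0 < deriv f x := by
    intro x
    rcases lt_trichotomy x 0 with h0 | h0 | h0
    · rw [(hev_neg x h0).deriv_eq]
      have h1 : HasDerivAt (fun x : ℝ => Real.log (-x)) ((-x)⁻¹ * (-1)) x := by
        have := (Real.hasDerivAt_log (x := -x) (by linarith)).comp x (hasDerivAt_neg x)
        exact this
      have h2 : HasDerivAt (fun x : ℝ => M (Real.log (-x)))
          (deriv M (Real.log (-x)) * ((-x)⁻¹ * (-1))) x :=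
        (hMd (Real.log (-x))).hasDerivAt.comp x h1
      have h3 := h2.exp.neg
      have h4 : deriv (fun x : ℝ => -Real.exp (M (Real.log (-x)))) x =
          -(Real.exp (M (Real.log (-x))) * (deriv M (Real.log (-x)) * ((-x)⁻¹ * (-1)))) :=
        h3.deriv
      rw [h4]
      have h5 := (mem_Dd.1 hM).2 (Real.log (-x))
      have h6 : 0 < (-x)⁻¹ := inv_pos.2 (by linarith)
      have h7 : 0 < Real.exp (M (Real.log (-x))) * (deriv M (Real.log (-x)) * (-x)⁻¹) := by
        positivity
      linarith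
    · subst h0
      rw [hev_zero.deriv_eq]
      have : HasDerivAt (fun x : ℝ => Real.exp c * x) (Real.exp c * 1) 0 :=
        (hasDerivAt_id (0 : ℝ)).const_mul _
      rw [this.deriv, mul_one]
      exact Real.exp_pos _
    · rw [(hev_pos x h0).deriv_eq]
      have h2 : HasDerivAt (fun x : ℝ => P (Real.log x))
          (deriv P (Real.log x) * x⁻¹) x :=
        (hPd (Real.log x)).hasDerivAt.comp x (Real.hasDerivAt_log h0.ne')
      rw [h2.exp.deriv]
      have h5 := (mem_Dd.1 hP).2 (Real.log x)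
      have h6 : 0 < x⁻¹ := inv_pos.2 h0
      positivity
  have htop : Tendsto f atTop atTop := by
    have h1 : Tendsto (fun x => Real.exp (P (Real.log x))) atTop atTop :=
      Real.tendsto_exp_atTop.comp (P.tendsto_atTop.comp Real.tendsto_log_atTop)
    refine h1.congr' ?_
    filter_upwards [eventually_gt_atTop 0] with x hx using (hfpos x hx).symm
  have hbot : Tendsto f atBot atBot := by
    have h1 : Tendsto (fun x => -Real.exp (M (Real.log (-x)))) atBot atBot :=
      tendsto_neg_atTop_atBot.comp (Real.tendsto_exp_atTop.comp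
        (M.tendsto_atTop.comp (Real.tendsto_log_atTop.comp tendsto_neg_atBot_atTop)))
    refine h1.congr' ?_
    filter_upwards [eventually_lt_atBot 0] with x hx using (hfneg x hx).symm
  obtain ⟨g, hg, hgf, -⟩ := exists_Dd hsm hdpos htop hbot
  refine ⟨g, hg, by rw [hgf, hf0], fun s => ?_, fun s => ?_⟩
  · rw [hgf, hfpos _ (Real.exp_pos s), Real.log_exp]
  · rw [hgf, hfneg _ (neg_lt_zero.2 (Real.exp_pos s)), neg_neg, Real.log_exp]

/-- parts in the logarithmic coordinate -/
private theorem exists_part_log (hg : g ∈ Dd) (h0 : g 0 = 0) :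
    ∃ P ∈ Dd, ∀ s, g (Real.exp s) = Real.exp (P s) := by
  have hgp : ∀ s, 0 < g (Real.exp s) := fun s => by
    rw [← h0]; exact g.strictMono (Real.exp_pos s)
  have hd : Differentiable ℝ g := Dd_differentiable hg
  have hsm : ContDiff ℝ 1 (fun s => Real.log (g (Real.exp s))) :=
    ((mem_Dd.1 hg).1.comp Real.contDiff_exp).log fun s => (hgp s).ne'
  have hdd : ∀ s, HasDerivAt (fun s => Real.log (g (Real.exp s)))
      (deriv g (Real.exp s) * Real.exp s / g (Real.exp s)) s := fun s => by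
    have h1 : HasDerivAt (fun s => g (Real.exp s)) (deriv g (Real.exp s) * Real.exp s) s :=
      (hd (Real.exp s)).hasDerivAt.comp s (Real.hasDerivAt_exp s)
    exact h1.log (hgp s).ne'
  obtain ⟨P, hP, hPe, -⟩ := exists_Dd hsm
    (fun s => by
      rw [(hdd s).deriv]
      exact div_pos (mul_pos ((mem_Dd.1 hg).2 _) (Real.exp_pos s)) (hgp s))
    (Real.tendsto_log_atTop.comp (g.tendsto_atTop.comp Real.tendsto_exp_atTop))
    (by
      refine Real.tendsto_log_nhdsGT_zero.comp ?_
      refine tendsto_nhdsWithin_iff.2 ⟨?_, Eventually.of_forall fun s => hgp s⟩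
      have h1 : Tendsto g (𝓝 0) (𝓝 (g 0)) := hd.continuous.tendsto 0
      rw [h0] at h1
      exact h1.comp Real.tendsto_exp_atBot)
  exact ⟨P, hP, fun s => by rw [hPe, Real.exp_log (hgp s)]⟩

/-- lifting a pair: both maps are translations by the same `c` near `-∞` -/
theorem exists_lift (hE : Coord E l x₀ t₀) (hp : p ∈ Dd) (hm : m ∈ Dd) {c t₁ : ℝ}
    (h : ∀ t ≤ t₁, p t = t + c ∧ m t = t + c) : ∃ g ∈ Dd, IsLift E g p m := by
  obtain ⟨L, hL, hLE, hLt⟩ := hE.exists_log
  have hPmem : L * p * L⁻¹ ∈ Dd := Subgroup.mul_mem _ (Subgroup.mul_mem _ hL hp)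
    (Subgroup.inv_mem _ hL)
  have hMmem : L * m * L⁻¹ ∈ Dd := Subgroup.mul_mem _ (Subgroup.mul_mem _ hL hm)
    (Subgroup.inv_mem _ hL)
  set t₂ : ℝ := min (min t₀ t₁) (t₀ - c) with ht₂
  have hloc : ∀ s ≤ L t₂, (L * p * L⁻¹) s = s + l * c ∧ (L * m * L⁻¹) s = s + l * c := by
    intro s hs
    obtain ⟨t, rfl⟩ := L.surjective s
    have ht : t ≤ t₂ := L.le_iff_le.1 hs
    have hta : t ≤ t₀ := ht.trans ((min_le_left _ _).trans (min_le_left _ _))
    have htb : t ≤ t₁ := ht.trans ((min_le_left _ _).trans (min_le_right _ _))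
    have htc : t + c ≤ t₀ := by
      have := ht.trans (min_le_right _ _)
      linarith
    have e1 : (L * p * L⁻¹) (L t) = L (p t) := by
      show L (p (L⁻¹ (L t))) = L (p t)
      have : L⁻¹ (L t) = t := L.symm_apply_apply t
      rw [this]
    have e2 : (L * m * L⁻¹) (L t) = L (m t) := by
      show L (m (L⁻¹ (L t))) = L (m t)
      have : L⁻¹ (L t) = t := L.symm_apply_apply t
      rw [this]
    rw [e1, e2, (h t htb).1, (h t htb).2, hLt _ htc, hLt _ hta]
    constructor <;> ring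
  obtain ⟨g, hg, hg0, hgp, hgm⟩ := exists_lift_log hPmem hMmem hloc
  refine ⟨g, hg, hg0, fun t => ?_, fun t => ?_⟩
  · rw [hLE t, hgp, hLE (p t)]
    show Real.exp (L (p (L⁻¹ (L t)))) = Real.exp (L (p t))
    have : L⁻¹ (L t) = t := L.symm_apply_apply t
    rw [this]
  · rw [hLE t, hgm, hLE (m t)]
    show -Real.exp (L (m (L⁻¹ (L t)))) = -Real.exp (L (m t))
    have : L⁻¹ (L t) = t := L.symm_apply_apply t
    rw [this]

/-- every `g ∈ Dd` fixing `0` has parts -/
theorem exists_parts (hE : Coord E l x₀ t₀) (hg : g ∈ Dd) (h0 : g 0 = 0) :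
    ∃ p ∈ Dd, ∃ m ∈ Dd, IsLift E g p m := by
  obtain ⟨L, hL, hLE, hLt⟩ := hE.exists_log
  obtain ⟨P, hP, hgP⟩ := exists_part_log hg h0
  have hr : refl 0 g ∈ Dd := refl_mem 0 hg
  have hr0 : refl 0 g 0 = 0 := by simp [h0]
  obtain ⟨M, hM, hgM⟩ := exists_part_log hr hr0
  have hgM' : ∀ s, g (-Real.exp s) = -Real.exp (M s) := fun s => by
    rw [← hgM s]; simp
  refine ⟨L⁻¹ * P * L, Subgroup.mul_mem _ (Subgroup.mul_mem _ (Subgroup.inv_mem _ hL) hP) hL,
    L⁻¹ * M * L, Subgroup.mul_mem _ (Subgroup.mul_mem _ (Subgroup.inv_mem _ hL) hM) hL,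
    h0, fun t => ?_, fun t => ?_⟩
  · rw [hLE t, hgP, hLE]
    show Real.exp (P (L t)) = Real.exp (L (L⁻¹ (P (L t))))
    have : L (L⁻¹ (P (L t))) = P (L t) := L.apply_symm_apply _
    rw [this]
  · rw [hLE t, hgM', hLE]
    show -Real.exp (M (L t)) = -Real.exp (L (L⁻¹ (M (L t))))
    have : L (L⁻¹ (M (L t))) = M (L t) := L.apply_symm_apply _
    rw [this]

theorem IsLift.mul (hE : Coord E l x₀ t₀) (h₁ : IsLift E g p m) (h₂ : IsLift E h p' m') :
    IsLift E (g * h) (p * p') (m * m') := by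
  refine ⟨?_, fun t => ?_, fun t => ?_⟩
  · show g (h 0) = 0
    rw [h₂.zero, h₁.zero]
  · show g (h (E t)) = E (p (p' t))
    rw [h₂.pos, h₁.pos]
  · show g (h (-E t)) = -E (m (m' t))
    rw [h₂.neg, h₁.neg]

theorem IsLift.inv (hE : Coord E l x₀ t₀) (h₁ : IsLift E g p m) : IsLift E g⁻¹ p⁻¹ m⁻¹ := by
  have key : ∀ x y, g y = x → g⁻¹ x = y := fun x y hxy => by
    rw [← hxy]; exact g.symm_apply_apply y
  refine ⟨key _ _ h₁.zero, fun t => key _ _ ?_, fun t => key _ _ ?_⟩
  · rw [h₁.pos]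
    have : p (p⁻¹ t) = t := p.apply_symm_apply t
    rw [this]
  · rw [h₁.neg]
    have : m (m⁻¹ t) = t := m.apply_symm_apply t
    rw [this]

theorem IsLift.one (hE : Coord E l x₀ t₀) : IsLift E 1 1 1 :=
  ⟨rfl, fun t => rfl, fun t => rfl⟩

/-- the lift is determined by the parts -/
theorem IsLift.unique (hE : Coord E l x₀ t₀) (h₁ : IsLift E g p m) (h₂ : IsLift E h p m) : g = h := by
  apply DFunLike.ext
  intro x
  rcases lt_trichotomy x 0 with h0 | h0 | h0
  · obtain ⟨t, ht⟩ := hE.surj (x := -x) (by linarith)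
    have : x = -E t := by linarith
    rw [this, h₁.neg, h₂.neg]
  · subst h0; rw [h₁.zero, h₂.zero]
  · obtain ⟨t, ht⟩ := hE.surj h0
    rw [← ht, h₁.pos, h₂.pos]

/-- the parts are determined by the lift -/
theorem IsLift.parts_unique (hE : Coord E l x₀ t₀) (h₁ : IsLift E g p m) (h₂ : IsLift E g p' m') :
    p = p' ∧ m = m' := by
  constructor
  · apply DFunLike.ext
    intro t
    apply hE.strictMono.injective
    rw [← h₁.pos, ← h₂.pos]
  · apply DFunLike.ext
    intro t
    apply hE.strictMono.injective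
    apply neg_injective
    rw [← h₁.neg, ← h₂.neg]

theorem IsLift.LD_pos (hE : Coord E l x₀ t₀) (hg : g ∈ Dd) (hp : p ∈ Dd) (h : IsLift E g p m) (t : ℝ) :
    LD g (E t) = LD p t + Real.log (deriv E (p t)) - Real.log (deriv E t) := by
  have h1 : HasDerivAt (fun t => g (E t)) (deriv g (E t) * deriv E t) t :=
    (Dd_differentiable hg (E t)).hasDerivAt.comp t (hE.diff t).hasDerivAt
  have h2 : HasDerivAt (fun t => E (p t)) (deriv E (p t) * deriv p t) t :=
    (hE.diff (p t)).hasDerivAt.comp t (Dd_differentiable hp t).hasDerivAt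
  have h3 : (fun t => g (E t)) = fun t => E (p t) := funext h.pos
  rw [h3] at h1
  have h4 : deriv g (E t) * deriv E t = deriv E (p t) * deriv p t := h1.unique h2
  have h5 := congrArg Real.log h4
  rw [Real.log_mul ((mem_Dd.1 hg).2 _).ne' (hE.dpos t).ne',
    Real.log_mul (hE.dpos _).ne' ((mem_Dd.1 hp).2 _).ne'] at h5
  unfold LD
  linarith

theorem IsLift.LD_neg (hE : Coord E l x₀ t₀) (hg : g ∈ Dd) (hm : m ∈ Dd) (h : IsLift E g p m) (t : ℝ) :
    LD g (-E t) = LD m t + Real.log (deriv E (m t)) - Real.log (deriv E t) := by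
  have h1 : HasDerivAt (fun t => g (-E t)) (deriv g (-E t) * -deriv E t) t :=
    (Dd_differentiable hg (-E t)).hasDerivAt.comp t (hE.diff t).hasDerivAt.neg
  have h2 : HasDerivAt (fun t => -E (m t)) (-(deriv E (m t) * deriv m t)) t :=
    ((hE.diff (m t)).hasDerivAt.comp t (Dd_differentiable hm t).hasDerivAt).neg
  have h3 : (fun t => g (-E t)) = fun t => -E (m t) := funext h.neg
  rw [h3] at h1
  have h4 : deriv g (-E t) * -deriv E t = -(deriv E (m t) * deriv m t) := h1.unique h2
  have h4' : deriv g (-E t) * deriv E t = deriv E (m t) * deriv m t := by linarith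
  have h5 := congrArg Real.log h4'
  rw [Real.log_mul ((mem_Dd.1 hg).2 _).ne' (hE.dpos t).ne',
    Real.log_mul (hE.dpos _).ne' ((mem_Dd.1 hm).2 _).ne'] at h5
  unfold LD
  linarith

/-- reflection exchanges the parts -/
theorem IsLift.refl (hE : Coord E l x₀ t₀) (h : IsLift E g p m) : IsLift E (refl 0 g) m p := by
  refine ⟨?_, fun t => ?_, fun t => ?_⟩
  · simp [h.zero]
  · rw [refl_apply, zero_sub, zero_sub, h.neg, neg_neg]
  · rw [refl_apply, zero_sub, zero_sub, neg_neg, h.pos]

end FG
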