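import Pool.Agent.helper97.FG.C2a
import Pool.Agent.helper97.FG.S2
import Pool.Agent.helper97.FG.L1
import Pool.Agent.helper97.FG.T1

/-!
# C3 : the loop map: definitions
-/

set_option linter.unusedVariables false

open Set Filter Topology
open scoped commutatorElement
open Pool.Agent.helper35.FOL

namespace FG

variable {E : ℝ → ℝ} {l x₀ t₀ : ℝ} {g h p m p' m' : ℝ ≃o ℝ} {w w₁ w₂ φ : ℝ → ℝ}

/-- the lift of a pair, chosen -/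
noncomputable def liftIso (E : ℝ → ℝ) (p m : ℝ ≃o ℝ) : ℝ ≃o ℝ := by
  classical exact if h : ∃ g : ℝ ≃o ℝ, g ∈ Dd ∧ IsLift E g p m then h.choose else 1

theorem liftIso_spec {E : ℝ → ℝ} {p m : ℝ ≃o ℝ} (h : ∃ g : ℝ ≃o ℝ, g ∈ Dd ∧ IsLift E g p m) :
    liftIso E p m ∈ Dd ∧ IsLift E (liftIso E p m) p m := by
  unfold liftIso
  rw [dif_pos h]
  exact h.choose_spec

/-- the positive part, chosen -/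
noncomputable def posPart (E : ℝ → ℝ) (g : ℝ ≃o ℝ) : ℝ ≃o ℝ := by
  classical exact if h : ∃ p : ℝ ≃o ℝ, p ∈ Dd ∧ ∃ m ∈ Dd, IsLift E g p m then h.choose else 1

theorem posPart_spec {E : ℝ → ℝ} {g : ℝ ≃o ℝ} (h : ∃ p : ℝ ≃o ℝ, p ∈ Dd ∧ ∃ m ∈ Dd, IsLift E g p m) :
    posPart E g ∈ Dd ∧ ∃ m ∈ Dd, IsLift E g (posPart E g) m := by
  unfold posPart
  rw [dif_pos h]
  exact h.choose_spec

/-- the error of switching off on the x-line; `em` is the (fixed) error on the negative side -/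
noncomputable def eX (E : ℝ → ℝ) (te Λ : ℝ) (k : ℕ) (G yp em P : ℝ ≃o ℝ) : ℝ ≃o ℝ :=
  liftIso E (slowE te Λ (Yit (P * G) yp k) (P * G)) em

/-- the loop map -/
noncomputable def loopMap (E : ℝ → ℝ) (te Λ : ℝ) (k : ℕ) (u f₁ f₁c f₂c G yp em P : ℝ ≃o ℝ) :
    ℝ ≃o ℝ :=
  posPart E (Rop u f₁ f₁c f₂c (eX E te Λ k G yp em P))

/-- all data of the loop.  `G` (`Gm`) is the map `F#` on the positive (negative) `t`-line. -/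
structure LoopHyp (E : ℝ → ℝ) (l x₀ t₀ κ θ₀ θ₁ cu K₀ s₀ θ p tκ ta tb te : ℝ) (N : ℕ)
    (ηc Λ : ℝ) (k : ℕ) (u f₁ f₂ f₁c f₂c G Gm yp ym : ℝ ≃o ℝ) : Prop where
  coord : Coord E l x₀ t₀
  X : CoreX κ θ₀ θ₁ cu ηc u f₁ f₂ f₁c f₂c
  yp_mem : yp ∈ Dd
  ym_mem : ym ∈ Dd
  G_mem : G ∈ Dd
  Gm_mem : Gm ∈ Dd
  K₀_nonneg : 0 ≤ K₀
  s₀_nonneg : 0 ≤ s₀
  s₀_le : s₀ ≤ 1 / 4
  θ_pos : 0 < θ
  θ_small : θ ≤ 1 / 4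
  p_pos : 0 < p
  p_le : p ≤ 1 / 8
  Np : N * (2 * p) ≤ θ
  size_p : ∀ t ∈ Icc (-1 : ℝ) 0, |yp t - t| ≤ K₀ ∧ |LD yp t| ≤ s₀
  size_m : ∀ t ∈ Icc (-1 : ℝ) 0, |ym t - t| ≤ K₀ ∧ |LD ym t| ≤ s₀
  colG : ∀ t, 0 ≤ t → G (yp t) = yp (t - 1) + 1
  colGm : ∀ t, 0 ≤ t → Gm (ym t) = ym (t - 1) + 1
  sizeG : ∀ t ≤ yp 0, |G t - t| ≤ p ∧ |LD G t| ≤ p
  sizeGm : ∀ t ≤ ym 0, |Gm t - t| ≤ p ∧ |LD Gm t| ≤ p
  G_id : ∀ t ≤ tκ, G t = t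
  Gm_id : ∀ t ≤ tκ, Gm t = t
  N_large : -(N : ℝ) + (K₀ + θ) ≤ tκ
  E_tκ : E tκ = κ / 8
  te_eq : te = -(N : ℝ) - 3
  k_large : -(k : ℝ) ≤ te - Λ - 3
  tκ_lt : tκ < ta
  E_ta : E ta ≤ θ₀ - 2 * ηc
  tb_lt : tb < -K₀ - 1
  E_tb : θ₁ + 2 * ηc ≤ E tb

end FG
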