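import Pool.Agent.helper97.FG.C3

/-!
author: helper51
# C3b : the loop data satisfy the hypotheses of the line lemmas (L1) and of slow switching off (S2)

`(P * G) (yp t) = P (yp (t-1) + 1)` for `t ≥ 0` and `yp (t-1) + 1 ≥ -K₀ > tb`, where `P` is the identity.
-/

set_option linter.unusedVariables false

open Set Filter Topology
open scoped commutatorElement
open Pool.Agent.helper35.FOL

namespace FG

variable {E : ℝ → ℝ} {l x₀ t₀ : ℝ} {g h p m p' m' : ℝ ≃o ℝ} {w w₁ w₂ φ : ℝ → ℝ}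

variable {κ θ₀ θ₁ cu K₀ s₀ θ q tκ ta tb te : ℝ} {N : ℕ} {ηc Λ : ℝ} {k : ℕ}
  {u f₁ f₂ f₁c f₂c G Gm yp ym : ℝ ≃o ℝ}

private theorem C3b_slow_of_line {K₀ s₀ η θ tκ te Λ : ℝ} {N k : ℕ} {F Yin : ℝ ≃o ℝ}
    (H : LineHyp K₀ s₀ η θ tκ N F Yin) (hs₀ : s₀ ≤ 1 / 4) (hθ0 : 0 < θ) (hθ : θ ≤ 1 / 4)
    (hte : te = -(N : ℝ) - 3) (hk : -(k : ℝ) ≤ te - Λ - 3) (hΛ : 0 < Λ) :
    SlowHyp te Λ (K₀ + θ) (s₀ + θ) (Yit F Yin k) F := by
  obtain ⟨h1, h2⟩ := Yit_size H k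
  obtain ⟨_, h4⟩ := Yit_eq H.col k
  have hN0 : (0 : ℝ) ≤ N := Nat.cast_nonneg N
  have hK := H.K₀_nonneg
  have hs := H.s₀_nonneg
  have hNl := H.N_large
  refine ⟨Yit_mem H.F_mem H.Y_mem k, H.F_mem, by linarith, by linarith, by linarith, ?_, ?_, ?_, ?_⟩
  · intro t ht
    exact h1 t ⟨by linarith [ht.1], by linarith [ht.2]⟩
  · intro t ht
    exact h2 t ⟨by linarith [ht.1], by linarith [ht.2]⟩
  · intro y hy
    refine H.F_id y (hy.trans ?_)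
    have := (abs_le.1 (h1 (te + 1) ⟨by linarith, by linarith⟩).1).2
    linarith
  · intro t ht
    exact h4 t (by linarith)

/-- `P * G` satisfies the hypotheses of the line lemmas -/
theorem LoopHyp.line (H : LoopHyp E l x₀ t₀ κ θ₀ θ₁ cu K₀ s₀ θ q tκ ta tb te N ηc Λ k u f₁ f₂ f₁c f₂c
    G Gm yp ym) {P : ℝ ≃o ℝ} (hP : P ∈ Cls q ta tb) :
    LineHyp K₀ s₀ (2 * q) θ tκ N (P * G) yp := by
  obtain ⟨hPD, hPid, hPn⟩ := hP
  have hq := H.p_pos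
  refine ⟨Dd.mul_mem hPD H.G_mem, H.yp_mem, H.K₀_nonneg, H.s₀_nonneg, by linarith, H.Np, ?_,
    H.size_p, ?_, ?_, H.N_large⟩
  · intro t ht
    change P (G (yp t)) = _
    rw [H.colG t ht]
    refine hPid _ (Or.inr ?_)
    have h1 : yp (-1) ≤ yp (t - 1) := yp.monotone (by linarith)
    have h2 := (abs_le.1 (H.size_p (-1) ⟨le_rfl, by norm_num⟩).1).1
    have h3 := H.tb_lt
    linarith
  · intro t ht
    obtain ⟨h1, h2⟩ := H.sizeG t ht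
    obtain ⟨h3, h4⟩ := hPn (G t)
    constructor
    · change |P (G t) - t| ≤ 2 * q
      have e : P (G t) - t = (P (G t) - G t) + (G t - t) := by ring
      rw [e]
      have := abs_add_le (P (G t) - G t) (G t - t)
      linarith
    · rw [LD_mul hPD H.G_mem]
      have h5 := (hPn (G t)).2
      have := abs_add_le (LD P (G t)) (LD G t)
      linarith
  · intro t ht
    change P (G t) = t
    rw [H.G_id t ht]
    exact hPid t (Or.inl (lt_of_le_of_lt ht H.tκ_lt))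

theorem LoopHyp.line_m (H : LoopHyp E l x₀ t₀ κ θ₀ θ₁ cu K₀ s₀ θ q tκ ta tb te N ηc Λ k u f₁ f₂ f₁c f₂c
    G Gm yp ym) : LineHyp K₀ s₀ (2 * q) θ tκ N Gm ym := by
  have hq := H.p_pos
  refine ⟨H.Gm_mem, H.ym_mem, H.K₀_nonneg, H.s₀_nonneg, by linarith, H.Np, H.colGm,
    H.size_m, ?_, H.Gm_id, H.N_large⟩
  intro t ht
  obtain ⟨h1, h2⟩ := H.sizeGm t ht
  exact ⟨by linarith, by linarith⟩

/-- `Yit` satisfies the hypotheses of the slow switching off -/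
theorem LoopHyp.slow (H : LoopHyp E l x₀ t₀ κ θ₀ θ₁ cu K₀ s₀ θ q tκ ta tb te N ηc Λ k u f₁ f₂ f₁c f₂c
    G Gm yp ym) (hΛ : 0 < Λ) {P : ℝ ≃o ℝ} (hP : P ∈ Cls q ta tb) :
    SlowHyp te Λ (K₀ + θ) (s₀ + θ) (Yit (P * G) yp k) (P * G) :=
  C3b_slow_of_line (H.line hP) H.s₀_le H.θ_pos H.θ_small H.te_eq H.k_large hΛ

theorem LoopHyp.slow_m (H : LoopHyp E l x₀ t₀ κ θ₀ θ₁ cu K₀ s₀ θ q tκ ta tb te N ηc Λ k u f₁ f₂ f₁c f₂c
    G Gm yp ym) (hΛ : 0 < Λ) :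
    SlowHyp te Λ (K₀ + θ) (s₀ + θ) (Yit Gm ym k) Gm :=
  C3b_slow_of_line H.line_m H.s₀_le H.θ_pos H.θ_small H.te_eq H.k_large hΛ

end FG
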