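import Pool.Agent.helper97.FG.S2

/-!
# S2b : the size of the commutator error

author: helper76

`|e y - y| ≤ (C/Λ) K` by the formula; `LD e y = log D(w-1) - log D(w)`, `D = deriv (Ych Y)`,
`D(w-1) - D(w) = (χ'(w-1) - χ'(w)) (Y w - w) + (χ(w-1) - χ(w)) (Y' w - 1)` by periodicity, `D ≥ 1/2`.
-/

set_option linter.unusedVariables false

open Set Filter Topology
open scoped commutatorElement
open Pool.Agent.helper35.FOL

namespace FG

variable {g h : ℝ ≃o ℝ} {w w₁ w₂ φ : ℝ → ℝ}

private theorem S2b_exp : Real.exp (1 / 2) ≤ 33 / 20 := by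
  by_contra hlt
  push Not at hlt
  have h1 : Real.exp (1 / 2) * Real.exp (1 / 2) = Real.exp 1 := by
    rw [← Real.exp_add]
    norm_num
  have h2 := Real.exp_one_lt_d9
  nlinarith

private theorem S2b_exp' : 20 / 33 ≤ Real.exp (-(1 / 2)) := by
  rw [Real.exp_neg]
  have h1 := S2b_exp
  have h2 := Real.exp_pos (1 / 2)
  rw [le_inv_comm₀ (by norm_num) h2]
  norm_num
  linarith

private theorem S2b_log {a b : ℝ} (ha : 1 / 2 ≤ a) (hb : 1 / 2 ≤ b) :
    |Real.log a - Real.log b| ≤ 2 * |a - b| := by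
  have key : ∀ x y : ℝ, 1 / 2 ≤ x → 1 / 2 ≤ y → Real.log x - Real.log y ≤ 2 * |x - y| := by
    intro x y hx hy
    have hx0 : 0 < x := by linarith
    have hy0 : 0 < y := by linarith
    rw [← Real.log_div hx0.ne' hy0.ne']
    refine (Real.log_le_sub_one_of_pos (div_pos hx0 hy0)).trans ?_
    have h1 : x / y - 1 = (x - y) / y := by field_simp
    rw [h1, div_le_iff₀ hy0]
    have h2 := le_abs_self (x - y)
    have h3 := abs_nonneg (x - y)
    nlinarith
  rw [abs_le]
  refine ⟨?_, key a b ha hb⟩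
  have := key b a hb ha
  rw [abs_sub_comm] at this
  linarith

/-- one point -/
private theorem S2b_pt {c K χ χ' d y : ℝ} (h0 : 0 ≤ χ) (h1 : χ ≤ 1) (hχ' : |χ'| ≤ c)
    (hy : |y| ≤ K) (hcK : c * K ≤ 1 / 10) (hd : 20 / 33 ≤ d) :
    1 / 2 ≤ 1 + χ' * y + χ * (d - 1) := by
  have h2 : |χ' * y| ≤ c * K := by
    rw [abs_mul]
    exact mul_le_mul hχ' hy (abs_nonneg _) ((abs_nonneg _).trans hχ')
  have h3 := (abs_le.1 h2).1
  have h4 : -(13 / 33) ≤ χ * (d - 1) := by nlinarith
  linarith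

/-- the size is `O(1/Λ)` -/
theorem slowE_size : ∃ C : ℝ, 1 ≤ C ∧ ∀ {te Λ K s : ℝ} {Y F : ℝ ≃o ℝ}, SlowHyp te Λ K s Y F →
    C * (K + 1) ≤ Λ → Near (C * (K + 1) / Λ) (slowE te Λ Y F) := by
  obtain ⟨C₁, hC₁, H₁⟩ := slowE_formula
  obtain ⟨C₂, hC₂, H₂⟩ := exists_chi_bounds
  obtain ⟨C₃, hC₃, H₃⟩ := exists_Ych
  refine ⟨C₁ + 10 * C₂ + C₃, by linarith, ?_⟩
  intro te Λ K s Y F hS hΛ
  have hK := hS.K_nonneg
  have hK1 : 0 < K + 1 := by linarith
  have hΛ₁ : C₁ * (K + 1) ≤ Λ := by nlinarith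
  have hΛ₂ : 10 * (C₂ * (K + 1)) ≤ Λ := by nlinarith
  have hΛ₃ : C₃ * (K + 1) ≤ Λ := by nlinarith
  have hΛ1 : 1 ≤ Λ := by nlinarith
  have hΛ0 : 0 < Λ := by linarith
  obtain ⟨-, hE, hL, hL0, -, -, -⟩ := H₁ hS hΛ₁
  obtain ⟨hx1, hx2, hx3⟩ := H₂ te Λ hΛ0
  obtain ⟨hYm, -, -, hYl, -, hD⟩ := H₃ te Λ K s Y hS.Y_mem hK hS.s_nonneg hS.s_le hΛ₃
    (fun t ht => hS.size t ⟨by linarith [ht.1], by linarith [ht.2]⟩)
  have hc : C₂ / Λ * (K + 1) ≤ 1 / 10 := by
    rw [div_mul_eq_mul_div, div_le_iff₀ hΛ0]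
    linarith
  have hc0 : 0 ≤ C₂ / Λ := by positivity
  have hcK : C₂ / Λ * K ≤ 1 / 10 := by nlinarith
  have hbig : 2 * (C₂ / Λ * (K + 1)) ≤ (C₁ + 10 * C₂ + C₃) * (K + 1) / Λ := by
    have h1 : 2 * (C₂ / Λ * (K + 1)) = 2 * C₂ * (K + 1) / Λ := by ring
    rw [h1]
    gcongr
    linarith
  have hdχ : ∀ w : ℝ, |chi te Λ (w - 1) - chi te Λ w| ≤ C₂ / Λ := by
    intro w
    have h1 := hx1 (w - 1) w
    have h2 : |w - 1 - w| = 1 := by
      rw [show w - 1 - w = -1 by ring]
      norm_num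
    rw [h2, mul_one] at h1
    exact h1
  have hdχ' : ∀ w : ℝ, |deriv (chi te Λ) (w - 1) - deriv (chi te Λ) w| ≤ C₂ / Λ := by
    intro w
    have h1 := hx3 (w - 1) w
    have h2 : |w - 1 - w| = 1 := by
      rw [show w - 1 - w = -1 by ring]
      norm_num
    rw [h2, mul_one] at h1
    refine h1.trans ?_
    have h3 : Λ ≤ Λ ^ 2 := by nlinarith
    exact div_le_div_of_nonneg_left (by linarith) hΛ0 h3
  intro y
  set w := (Ych te Λ Y)⁻¹ y with hw
  have hEy := hE y
  rw [← hw] at hEy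
  constructor
  · rw [hEy, add_sub_cancel_left, abs_mul]
    rcases lt_or_ge w (te - Λ) with h1 | h1
    · rw [chi_eq_zero hΛ0 h1.le, chi_eq_zero hΛ0 (by linarith : w - 1 ≤ te - Λ), sub_self,
        abs_zero, zero_mul]
      positivity
    · rcases lt_or_ge (te + 1) w with h2 | h2
      · rw [chi_eq_one hΛ0 (by linarith : te ≤ w), chi_eq_one hΛ0 (by linarith : te ≤ w - 1),
          sub_self, abs_zero, zero_mul]
        positivity
      · have h3 := (hS.size w ⟨by linarith, by linarith⟩).1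
        calc |chi te Λ (w - 1) - chi te Λ w| * |Y w - w| ≤ C₂ / Λ * K :=
              mul_le_mul (hdχ w) h3 (abs_nonneg _) hc0
          _ ≤ 2 * (C₂ / Λ * (K + 1)) := by nlinarith
          _ ≤ _ := hbig
  · rcases lt_or_ge (te + 1) w with h2 | h2
    · rw [hL0 y h2.le, abs_zero]
      positivity
    · rw [hL y h2, ← hw]
      rcases lt_or_ge w (te - Λ) with h1 | h1
      · have hid : ∀ t, t < te - Λ → LD (Ych te Λ Y) t = 0 := by
          intro t ht
          have h3 : LD (Ych te Λ Y) t = LD (1 : ℝ ≃o ℝ) t := by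
            apply LD_congr
            filter_upwards [Iio_mem_nhds ht] with u hu
            exact hYl u (le_of_lt hu)
          rw [h3, LD_one]
        rw [hid w h1, hid (w - 1) (by linarith), sub_self, abs_zero]
        positivity
      · -- the main case
        have hper : Y (w - 1) = Y w - 1 := hS.per w ⟨by linarith, by linarith⟩
        have hper' : deriv Y (w - 1) = deriv Y w := by
          have h3 : (fun t => Y (t - 1)) =ᶠ[𝓝 w] fun t => Y t - 1 := by
            filter_upwards [Icc_mem_nhds (by linarith : te - Λ - 1 < w)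
              (by linarith : w < te + 2)] with t ht
            exact hS.per t ht
          have h4 := h3.deriv_eq
          rw [deriv_comp_sub_const, deriv_sub_const] at h4
          exact h4
        have hsz := hS.size w ⟨by linarith, by linarith⟩
        have hYd : deriv Y w = Real.exp (LD Y w) := deriv_eq_exp hS.Y_mem w
        have hLD := abs_le.1 hsz.2
        have hs2 := hS.s_le
        have hlow : 20 / 33 ≤ deriv Y w := by
          rw [hYd]
          exact S2b_exp'.trans (Real.exp_le_exp.2 (by linarith))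
        have hup : deriv Y w ≤ 33 / 20 := by
          rw [hYd]
          exact (Real.exp_le_exp.2 (by linarith)).trans S2b_exp
        have e1 : deriv (Ych te Λ Y) w = 1 + deriv (chi te Λ) w * (Y w - w) +
            chi te Λ w * (deriv Y w - 1) := hD w
        have e2 : deriv (Ych te Λ Y) (w - 1) = 1 + deriv (chi te Λ) (w - 1) * (Y w - w) +
            chi te Λ (w - 1) * (deriv Y w - 1) := by
          rw [hD (w - 1), hper, hper']
          ring
        have b1 : 1 / 2 ≤ deriv (Ych te Λ Y) w := by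
          rw [e1]
          exact S2b_pt (chi_nonneg _ _ _) (chi_le_one _ _ _) (hx2 w) hsz.1 hcK hlow
        have b2 : 1 / 2 ≤ deriv (Ych te Λ Y) (w - 1) := by
          rw [e2]
          exact S2b_pt (chi_nonneg _ _ _) (chi_le_one _ _ _) (hx2 _) hsz.1 hcK hlow
        have b3 : |deriv (Ych te Λ Y) (w - 1) - deriv (Ych te Λ Y) w| ≤ C₂ / Λ * (K + 1) := by
          have e3 : deriv (Ych te Λ Y) (w - 1) - deriv (Ych te Λ Y) w =
              (deriv (chi te Λ) (w - 1) - deriv (chi te Λ) w) * (Y w - w) +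
                (chi te Λ (w - 1) - chi te Λ w) * (deriv Y w - 1) := by
            rw [e1, e2]
            ring
          rw [e3]
          refine (abs_add_le _ _).trans ?_
          rw [abs_mul, abs_mul]
          have h5 : |deriv Y w - 1| ≤ 1 := by
            rw [abs_le]
            constructor <;> linarith
          have h6 : |deriv (chi te Λ) (w - 1) - deriv (chi te Λ) w| * |Y w - w| ≤ C₂ / Λ * K :=
            mul_le_mul (hdχ' w) hsz.1 (abs_nonneg _) hc0
          have h7 : |chi te Λ (w - 1) - chi te Λ w| * |deriv Y w - 1| ≤ C₂ / Λ * 1 :=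
            mul_le_mul (hdχ w) h5 (abs_nonneg _) hc0
          linarith
        show |Real.log (deriv (Ych te Λ Y) (w - 1)) - Real.log (deriv (Ych te Λ Y) w)| ≤ _
        calc |Real.log (deriv (Ych te Λ Y) (w - 1)) - Real.log (deriv (Ych te Λ Y) w)|
            ≤ 2 * |deriv (Ych te Λ Y) (w - 1) - deriv (Ych te Λ Y) w| := S2b_log b2 b1
          _ ≤ 2 * (C₂ / Λ * (K + 1)) := by linarith
          _ ≤ _ := hbig

end FG
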