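import Pool.Agent.helper97.FG.T1
import Pool.Agent.helper97.FG.B2b

/-!
# T2b : estimates for lifts

author: helper76

`|E (p t) - E t| ≤ deriv E a * |p t - t|` for `t ≤ a` (`Coord.slope'`, `p t ≤ a`), `LD g (E t) = LD p t + log E'(p t) - log E'(t)`.
For the modulus: between points of different sign, or with a point where `g` is the identity, pass through the zone where
`LD g = 0`.
-/

set_option linter.unusedVariables false

open Set Filter Topology
open scoped commutatorElement
open Pool.Agent.helper35.FOL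

namespace FG

variable {E : ℝ → ℝ} {l x₀ t₀ : ℝ} {g h p m p' m' : ℝ ≃o ℝ} {w w₁ w₂ φ : ℝ → ℝ}

/-- a bound away from zero extends to zero -/
private theorem T2b_dense (hg : g ∈ Dd) {B : ℝ} (h : ∀ x, x ≠ 0 → |LD g x| ≤ B) (x : ℝ) :
    |LD g x| ≤ B := by
  have hcl : IsClosed {x | |LD g x| ≤ B} :=
    isClosed_le (continuous_LD hg).abs continuous_const
  have h1 : closure ({0}ᶜ : Set ℝ) ⊆ {x | |LD g x| ≤ B} := closure_minimal (fun x hx => h x hx) hcl
  rw [(dense_compl_singleton (0 : ℝ)).closure_eq] at h1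
  exact h1 (mem_univ x)

private theorem T2b_le {a t : ℝ} (hp : p a = a) (ht : t ≤ a) : p t ≤ a := by
  have h1 := p.monotone ht
  rwa [hp] at h1

/-- size of the logarithmic derivative in the coordinate -/
private theorem T2b_LD (hE : Coord E l x₀ t₀) {ε : ℝ} (hn : Near ε p) (t : ℝ) :
    |LD p t + Real.log (deriv E (p t)) - Real.log (deriv E t)| ≤ (1 + l) * ε := by
  have h1 := (hn t).2
  have h2 := hE.lip (p t) t
  have h3 := (hn t).1
  have h4 : l * |p t - t| ≤ l * ε := mul_le_mul_of_nonneg_left h3 hE.l_pos.le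
  calc |LD p t + Real.log (deriv E (p t)) - Real.log (deriv E t)|
      = |LD p t + (Real.log (deriv E (p t)) - Real.log (deriv E t))| := by rw [add_sub_assoc]
    _ ≤ |LD p t| + |Real.log (deriv E (p t)) - Real.log (deriv E t)| := abs_add_le _ _
    _ ≤ (1 + l) * ε := by linarith

private theorem T2b_E (hE : Coord E l x₀ t₀) {a ε : ℝ} (hid : ∀ t, a ≤ t → p t = t)
    (hn : Near ε p) (t : ℝ) : |E (p t) - E t| ≤ deriv E a * ε := by
  have hε : 0 ≤ ε := (abs_nonneg _).trans (hn t).1
  have hd := (hE.dpos a).le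
  rcases le_total a t with h | h
  · rw [hid t h, sub_self, abs_zero]
    positivity
  · exact (hE.slope' (T2b_le (hid a le_rfl) h) h).trans
      (mul_le_mul_of_nonneg_left (hn t).1 hd)

/-- lifts of pairs supported in `(-∞, a]` (and equal to the identity below `b`): size.  The constant depends
only on `E` and `a`, not on `b`. -/
theorem lift_size (hE : Coord E l x₀ t₀) (a : ℝ) : ∃ C : ℝ, 1 ≤ C ∧ ∀ {g p m : ℝ ≃o ℝ} {ε : ℝ},
    g ∈ Dd → p ∈ Dd → m ∈ Dd → IsLift E g p m → 0 ≤ ε → ε ≤ 1 → (∀ t, a ≤ t → p t = t ∧ m t = t) →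
      Near ε p → Near ε m → Near (C * ε) g := by
  refine ⟨1 + l + deriv E a, by linarith [hE.l_pos, hE.dpos a], ?_⟩
  intro g p m ε hg hp hm hL hε _ hid hnp hnm
  have hd := hE.dpos a
  have hl := hE.l_pos
  have hb1 : deriv E a * ε ≤ (1 + l + deriv E a) * ε := by nlinarith
  have hb2 : (1 + l) * ε ≤ (1 + l + deriv E a) * ε := by nlinarith
  have h0 : ∀ x, |g x - x| ≤ (1 + l + deriv E a) * ε := by
    intro x
    rcases lt_trichotomy x 0 with hx | hx | hx
    · obtain ⟨t, ht⟩ := hE.surj (neg_pos.2 hx)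
      have hx' : x = -E t := by linarith
      rw [hx', hL.neg t]
      have h1 := T2b_E hE (fun t ht => (hid t ht).2) hnm t
      rw [show -E (m t) - -E t = -(E (m t) - E t) by ring, abs_neg]
      exact h1.trans hb1
    · rw [hx, hL.zero, sub_zero, abs_zero]
      positivity
    · obtain ⟨t, ht⟩ := hE.surj hx
      rw [← ht, hL.pos t]
      exact (T2b_E hE (fun t ht => (hid t ht).1) hnp t).trans hb1
  have h1 : ∀ x, |LD g x| ≤ (1 + l + deriv E a) * ε := by
    refine T2b_dense hg fun x hx0 => ?_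
    rcases lt_or_gt_of_ne hx0 with hx | hx
    · obtain ⟨t, ht⟩ := hE.surj (neg_pos.2 hx)
      have hx' : x = -E t := by linarith
      rw [hx', hL.LD_neg hE hg hm t]
      exact (T2b_LD hE hnm t).trans hb2
    · obtain ⟨t, ht⟩ := hE.surj hx
      rw [← ht, hL.LD_pos hE hg hp t]
      exact (T2b_LD hE hnp t).trans hb2
  exact fun x => ⟨h0 x, h1 x⟩

/-- Lipschitz dependence of the lift on the positive part -/
theorem lift_lip (hE : Coord E l x₀ t₀) (a : ℝ) : ∃ C : ℝ, 1 ≤ C ∧ ∀ {g g' p p' m : ℝ ≃o ℝ} {d : ℝ},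
    IsLift E g p m → IsLift E g' p' m → (∀ t, a ≤ t → p t = t) → (∀ t, a ≤ t → p' t = t) →
      (∀ t, |p t - p' t| ≤ d) → ∀ x, |g x - g' x| ≤ C * d := by
  refine ⟨1 + deriv E a, by linarith [hE.dpos a], ?_⟩
  intro g g' p p' m d hL hL' hid hid' hd x
  have hE' := hE.dpos a
  have hd0 : 0 ≤ d := (abs_nonneg _).trans (hd 0)
  have hb : deriv E a * d ≤ (1 + deriv E a) * d := by nlinarith
  rcases lt_trichotomy x 0 with hx | hx | hx
  · obtain ⟨t, ht⟩ := hE.surj (neg_pos.2 hx)
    have hx' : x = -E t := by linarith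
    rw [hx', hL.neg t, hL'.neg t, sub_self, abs_zero]
    positivity
  · rw [hx, hL.zero, hL'.zero, sub_self, abs_zero]
    positivity
  · obtain ⟨t, ht⟩ := hE.surj hx
    rw [← ht, hL.pos t, hL'.pos t]
    rcases le_total a t with h | h
    · rw [hid t h, hid' t h, sub_self, abs_zero]
      positivity
    · exact ((hE.slope' (T2b_le (hid a le_rfl) h) (T2b_le (hid' a le_rfl) h)).trans
        (mul_le_mul_of_nonneg_left (hd t) hE'.le)).trans hb

/-- the constant -/
private noncomputable def T2b_C (E : ℝ → ℝ) (b : ℝ) : ℝ := max 1 (1 / deriv E b)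

/-- the modulus coming from the coordinate -/
private noncomputable def T2b_J (E : ℝ → ℝ) (l b : ℝ) (h : ℝ) : ℝ :=
  max 0 (min (l * (Real.exp 1 + 1) * T2b_C E b * h) (2 * l))

private theorem T2b_J_mono (hE : Coord E l x₀ t₀) (b : ℝ) : IsMod (T2b_J E l b) := by
  have h1 : 1 ≤ T2b_C E b := le_max_left _ _
  have hl := hE.l_pos
  exact isMod_lin (by positivity) (by positivity)

private theorem T2b_one (hE : Coord E l x₀ t₀) {b : ℝ} (hp : p ∈ Dd) (hn : Near 1 p)
    (hw : IsMod w) (hm : Mod (LD p) w) {t s : ℝ} (ht : b ≤ t) (hs : b ≤ s) :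
    |(LD p t + Real.log (deriv E (p t)) - Real.log (deriv E t)) -
      (LD p s + Real.log (deriv E (p s)) - Real.log (deriv E s))| ≤
      w (T2b_C E b * |E t - E s|) + T2b_J E l b |E t - E s| := by
  have hl := hE.l_pos
  have hd := hE.dpos b
  have hC : 1 / deriv E b ≤ T2b_C E b := le_max_right _ _
  have h1 : |t - s| ≤ T2b_C E b * |E t - E s| := by
    have h2 := hE.slope ht hs
    have h3 : |t - s| ≤ 1 / deriv E b * |E t - E s| := by
      rw [one_div, ← div_eq_inv_mul, le_div_iff₀ hd]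
      linarith
    exact h3.trans (mul_le_mul_of_nonneg_right hC (abs_nonneg _))
  have h2 : |LD p t - LD p s| ≤ w (T2b_C E b * |E t - E s|) :=
    (hm t s).trans (hw.mono h1)
  have h3 : |p t - p s| ≤ Real.exp 1 * |t - s| :=
    abs_sub_le_exp hp fun z _ => (le_abs_self _).trans (hn z).2
  have e1 := hE.lip (p t) (p s)
  have e2 := hE.lip t s
  have e3 := hE.lip (p t) t
  have e4 := hE.lip (p s) s
  have n1 := (hn t).1
  have n2 := (hn s).1
  have h4 : |(Real.log (deriv E (p t)) - Real.log (deriv E t)) -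
      (Real.log (deriv E (p s)) - Real.log (deriv E s))| ≤ T2b_J E l b |E t - E s| := by
    refine le_max_of_le_right (le_min ?_ ?_)
    · calc |(Real.log (deriv E (p t)) - Real.log (deriv E t)) -
            (Real.log (deriv E (p s)) - Real.log (deriv E s))|
          = |(Real.log (deriv E (p t)) - Real.log (deriv E (p s))) -
            (Real.log (deriv E t) - Real.log (deriv E s))| := by congr 1; ring
        _ ≤ |Real.log (deriv E (p t)) - Real.log (deriv E (p s))| +
            |Real.log (deriv E t) - Real.log (deriv E s)| := abs_sub _ _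
        _ ≤ l * (Real.exp 1 * |t - s|) + l * |t - s| := by
            refine add_le_add (e1.trans (mul_le_mul_of_nonneg_left h3 hl.le)) e2
        _ = l * (Real.exp 1 + 1) * |t - s| := by ring
        _ ≤ l * (Real.exp 1 + 1) * (T2b_C E b * |E t - E s|) :=
            mul_le_mul_of_nonneg_left h1 (by positivity)
        _ = _ := by ring
    · calc |(Real.log (deriv E (p t)) - Real.log (deriv E t)) -
            (Real.log (deriv E (p s)) - Real.log (deriv E s))|
          ≤ |Real.log (deriv E (p t)) - Real.log (deriv E t)| +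
            |Real.log (deriv E (p s)) - Real.log (deriv E s)| := abs_sub _ _
        _ ≤ l * 1 + l * 1 := by
            refine add_le_add (e3.trans (mul_le_mul_of_nonneg_left n1 hl.le))
              (e4.trans (mul_le_mul_of_nonneg_left n2 hl.le))
        _ = 2 * l := by ring
  calc |(LD p t + Real.log (deriv E (p t)) - Real.log (deriv E t)) -
      (LD p s + Real.log (deriv E (p s)) - Real.log (deriv E s))|
      = |(LD p t - LD p s) + ((Real.log (deriv E (p t)) - Real.log (deriv E t)) -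
        (Real.log (deriv E (p s)) - Real.log (deriv E s)))| := by congr 1; ring
    _ ≤ _ := (abs_add_le _ _).trans (add_le_add h2 h4)

private theorem T2b_zero (hE : Coord E l x₀ t₀) {b : ℝ} (hg : g ∈ Dd) (hL : IsLift E g p m)
    (hid : ∀ t, t ≤ b → p t = t ∧ m t = t) {x : ℝ} (hx : |x| ≤ E b) : LD g x = 0 := by
  have hb := hE.pos b
  have hgx : ∀ x, |x| < E b → g x = x := by
    intro x hx
    rcases lt_trichotomy x 0 with h | h | h
    · obtain ⟨t, ht⟩ := hE.surj (neg_pos.2 h)
      have hx' : x = -E t := by linarith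
      have htb : t < b := by
        rw [abs_of_neg h, ← ht] at hx
        exact hE.strictMono.lt_iff_lt.1 hx
      rw [hx', hL.neg t, (hid t htb.le).2]
    · rw [h, hL.zero]
    · obtain ⟨t, ht⟩ := hE.surj h
      have htb : t < b := by
        rw [abs_of_pos h, ← ht] at hx
        exact hE.strictMono.lt_iff_lt.1 hx
      rw [← ht, hL.pos t, (hid t htb.le).1]
  have h1 : ∀ x ∈ Ioo (-E b) (E b), LD g x = 0 := by
    intro x hx
    have h2 : LD g x = LD (1 : ℝ ≃o ℝ) x := by
      apply LD_congr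
      filter_upwards [Ioo_mem_nhds hx.1 hx.2] with y hy
      exact hgx y (abs_lt.2 hy)
    rw [h2, LD_one]
  have h2 : closure (Ioo (-E b) (E b)) ⊆ {x | LD g x = 0} :=
    closure_minimal h1 (isClosed_eq (continuous_LD hg) continuous_const)
  rw [closure_Ioo (by linarith : -E b ≠ E b)] at h2
  exact h2 (abs_le.1 hx)

/-- modulus of the lift, supports in `[b, a]`; here everything may depend on `b` -/
theorem lift_mod (hE : Coord E l x₀ t₀) (a b : ℝ) : ∃ C : ℝ, 1 ≤ C ∧ ∀ wm, IsMod wm → ∃ w₀, IsMod w₀ ∧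
    ∀ {g p m : ℝ ≃o ℝ}, g ∈ Dd → p ∈ Dd → m ∈ Dd → IsLift E g p m →
      (∀ t, a ≤ t → p t = t ∧ m t = t) → (∀ t, t ≤ b → p t = t ∧ m t = t) → Near 1 p → Near 1 m →
      Mod (LD m) wm → ∀ w, IsMod w → Mod (LD p) w → Mod (LD g) (fun h => w₀ h + w (C * h)) := by
  refine ⟨T2b_C E b, le_max_left _ _, ?_⟩
  intro wm hwm
  have hC1 : 1 ≤ T2b_C E b := le_max_left _ _
  have hC0 : 0 ≤ T2b_C E b := by linarith
  have hJ : IsMod (T2b_J E l b) := T2b_J_mono hE b
  refine ⟨fun h => wm (T2b_C E b * h) + 2 * T2b_J E l b h,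
    (hwm.comp_mul hC0).add (hJ.smul (by norm_num)), ?_⟩
  intro g p m hg hp hm hL _ hid hnp hnm hmm w hw hmp
  have hb := hE.pos b
  have F1 : ∀ x, |x| ≤ E b → LD g x = 0 := fun x hx => T2b_zero hE hg hL hid hx
  have F2 : ∀ x y, E b ≤ x → E b ≤ y →
      |LD g x - LD g y| ≤ w (T2b_C E b * |x - y|) + T2b_J E l b |x - y| := by
    intro x y hx hy
    obtain ⟨t, rfl⟩ := hE.surj (hb.trans_le hx)
    obtain ⟨s, rfl⟩ := hE.surj (hb.trans_le hy)
    rw [hL.LD_pos hE hg hp t, hL.LD_pos hE hg hp s]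
    exact T2b_one hE hp hnp hw hmp (hE.strictMono.le_iff_le.1 hx) (hE.strictMono.le_iff_le.1 hy)
  have F3 : ∀ x y, x ≤ -E b → y ≤ -E b →
      |LD g x - LD g y| ≤ wm (T2b_C E b * |x - y|) + T2b_J E l b |x - y| := by
    intro x y hx hy
    obtain ⟨t, ht⟩ := hE.surj (by linarith : 0 < -x)
    obtain ⟨s, hs⟩ := hE.surj (by linarith : 0 < -y)
    have hx' : x = -E t := by linarith
    have hy' : y = -E s := by linarith
    rw [hx', hy', hL.LD_neg hE hg hm t, hL.LD_neg hE hg hm s]
    have h1 : |-E t - -E s| = |E t - E s| := by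
      rw [show -E t - -E s = -(E t - E s) by ring, abs_neg]
    rw [h1]
    exact T2b_one hE hm hnm hwm hmm (hE.strictMono.le_iff_le.1 (by linarith))
      (hE.strictMono.le_iff_le.1 (by linarith))
  have hsplit : ∀ x, LD g x = LD g (max x (E b)) + LD g (min x (-E b)) := by
    intro x
    rcases le_total (E b) x with h | h
    · rw [max_eq_left h, min_eq_right (by linarith), F1 (-E b) (by rw [abs_neg, abs_of_pos hb]),
        add_zero]
    · rw [max_eq_right h, F1 (E b) (by rw [abs_of_pos hb]), zero_add]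
      rcases le_total x (-E b) with h2 | h2
      · rw [min_eq_left h2]
      · rw [min_eq_right h2, F1 (-E b) (by rw [abs_neg, abs_of_pos hb]), F1 x (abs_le.2 ⟨h2, h⟩)]
  intro x y
  have a1 := F2 (max x (E b)) (max y (E b)) (le_max_right _ _) (le_max_right _ _)
  have a2 := F3 (min x (-E b)) (min y (-E b)) (min_le_right _ _) (min_le_right _ _)
  have d1 : |max x (E b) - max y (E b)| ≤ |x - y| := abs_max_sub_max_le_abs x y (E b)
  have d2 : |min x (-E b) - min y (-E b)| ≤ |x - y| := by
    have h1 := abs_min_sub_min_le_max x (-E b) y (-E b)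
    rwa [sub_self, abs_zero, max_eq_left (abs_nonneg _)] at h1
  have b1 : w (T2b_C E b * |max x (E b) - max y (E b)|) ≤ w (T2b_C E b * |x - y|) :=
    hw.mono (mul_le_mul_of_nonneg_left d1 hC0)
  have b2 : wm (T2b_C E b * |min x (-E b) - min y (-E b)|) ≤ wm (T2b_C E b * |x - y|) :=
    hwm.mono (mul_le_mul_of_nonneg_left d2 hC0)
  have b3 := hJ.mono d1
  have b4 := hJ.mono d2
  rw [hsplit x, hsplit y]
  show _ ≤ wm (T2b_C E b * |x - y|) + 2 * T2b_J E l b |x - y| + w (T2b_C E b * |x - y|)
  calc |LD g (max x (E b)) + LD g (min x (-E b)) - (LD g (max y (E b)) + LD g (min y (-E b)))|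
      = |(LD g (max x (E b)) - LD g (max y (E b))) +
        (LD g (min x (-E b)) - LD g (min y (-E b)))| := by congr 1; ring
    _ ≤ |LD g (max x (E b)) - LD g (max y (E b))| +
        |LD g (min x (-E b)) - LD g (min y (-E b))| := abs_add_le _ _
    _ ≤ _ := by linarith

end FG
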