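import Pool.Agent.helper97.FG.C3b
import Pool.Agent.helper97.FG.S2b
import Pool.Agent.helper97.FG.T2b

/-!
# C4a : the error of switching off on the x-line

author: helper28

`exists_lift` (both sides are the identity for `t ≤ te - Λ`), `liftIso_spec`, `slowE_size`, `lift_size` with `a = tκ`
(`te + 1 + K₀ + θ ≤ tκ`).
-/

set_option linter.unusedVariables false

open Set Filter Topology
open scoped commutatorElement
open Pool.Agent.helper35.FOL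

namespace FG

variable {E : ℝ → ℝ} {l x₀ t₀ : ℝ} {g h p m p' m' : ℝ ≃o ℝ} {w w₁ w₂ φ : ℝ → ℝ}

private theorem C4a_near {η η' : ℝ} {g : ℝ ≃o ℝ} (h : Near η g) (hη : η ≤ η') : Near η' g :=
  fun x => ⟨(h x).1.trans hη, (h x).2.trans hη⟩

/-- the error on the x-line: membership, support, size -/
theorem eX_props (E : ℝ → ℝ) (l x₀ t₀ K₀ θ tκ : ℝ) (hE : Coord E l x₀ t₀) (hK : 0 ≤ K₀) (hθ : 0 ≤ θ) :
    ∃ C : ℝ, 1 ≤ C ∧
    ∀ {κ θ₀ θ₁ cu s₀ q ta tb te : ℝ} {N : ℕ} {ηc Λ : ℝ} {k : ℕ} {u f₁ f₂ f₁c f₂c G Gm yp ym P : ℝ ≃o ℝ},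
    LoopHyp E l x₀ t₀ κ θ₀ θ₁ cu K₀ s₀ θ q tκ ta tb te N ηc Λ k u f₁ f₂ f₁c f₂c G Gm yp ym →
    C ≤ Λ → P ∈ Cls q ta tb →
      (eX E te Λ k G yp (slowE te Λ (Yit Gm ym k) Gm) P ∈ Dd ∧
        IsLift E (eX E te Λ k G yp (slowE te Λ (Yit Gm ym k) Gm) P)
          (slowE te Λ (Yit (P * G) yp k) (P * G)) (slowE te Λ (Yit Gm ym k) Gm)) ∧
      (∀ x, κ / 8 ≤ |x| → eX E te Λ k G yp (slowE te Λ (Yit Gm ym k) Gm) P x = x) ∧
      Near (C / Λ) (eX E te Λ k G yp (slowE te Λ (Yit Gm ym k) Gm) P) := by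
  obtain ⟨C₁, hC₁, H₁⟩ := slowE_formula
  obtain ⟨C₂, hC₂, H₂⟩ := slowE_size
  obtain ⟨C₃, hC₃, H₃⟩ := lift_size hE tκ
  have hK1 : 1 ≤ K₀ + θ + 1 := by linarith
  have hc1 : 1 ≤ C₁ * (K₀ + θ + 1) := by nlinarith
  have hc2 : 1 ≤ C₂ * (K₀ + θ + 1) := by nlinarith
  have hc3 : C₂ * (K₀ + θ + 1) ≤ C₃ * (C₂ * (K₀ + θ + 1)) := by nlinarith
  refine ⟨C₃ * (C₂ * (K₀ + θ + 1)) + C₁ * (K₀ + θ + 1), by linarith, ?_⟩
  intro κ θ₀ θ₁ cu s₀ q ta tb te N ηc Λ k u f₁ f₂ f₁c f₂c G Gm yp ym P H hΛ hP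
  have hΛ0 : 0 < Λ := by linarith
  have hSp := H.slow hΛ0 hP
  have hSm := H.slow_m hΛ0
  obtain ⟨hp, -, -, -, hpr, hpl, -⟩ := H₁ hSp (by linarith)
  obtain ⟨hm, -, -, -, hmr, hml, -⟩ := H₁ hSm (by linarith)
  have hnp := H₂ hSp (by linarith)
  have hnm := H₂ hSm (by linarith)
  obtain ⟨hg, hlift⟩ := liftIso_spec (exists_lift hE hp hm (c := 0) (t₁ := te - Λ)
    (fun t ht => ⟨by rw [hpl t ht, add_zero], by rw [hml t ht, add_zero]⟩))
  have htκ : te + 1 + (K₀ + θ) ≤ tκ := by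
    have h1 := H.N_large
    have h2 := H.te_eq
    linarith
  have hid : ∀ t, tκ ≤ t → slowE te Λ (Yit (P * G) yp k) (P * G) t = t ∧
      slowE te Λ (Yit Gm ym k) Gm t = t :=
    fun t ht => ⟨hpr t (htκ.trans ht), hmr t (htκ.trans ht)⟩
  refine ⟨⟨hg, hlift⟩, fun x hx => ?_, ?_⟩
  · have hEκ := H.E_tκ
    have hpos := hE.pos tκ
    have hx0 : 0 < |x| := by linarith
    obtain ⟨t, ht⟩ := hE.surj hx0
    have htt : tκ ≤ t := by
      rw [← hE.strictMono.le_iff_le, ht, hEκ]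
      exact hx
    obtain ⟨h1, h2⟩ := hid t htt
    rcases le_or_gt 0 x with h0 | h0
    · rw [abs_of_nonneg h0] at ht
      rw [← ht]
      have h3 := hlift.pos t
      rw [h1] at h3
      exact h3
    · rw [abs_of_neg h0] at ht
      have hxe : x = -E t := by linarith
      rw [hxe]
      have h3 := hlift.neg t
      rw [h2] at h3
      exact h3
  · have hε0 : 0 ≤ C₂ * (K₀ + θ + 1) / Λ := by positivity
    have hε1 : C₂ * (K₀ + θ + 1) / Λ ≤ 1 := by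
      rw [div_le_one hΛ0]
      linarith
    have h4 := H₃ hg hp hm hlift hε0 hε1 hid hnp hnm
    refine C4a_near h4 ?_
    rw [← mul_div_assoc]
    apply div_le_div_of_nonneg_right _ hΛ0.le
    linarith

end FG
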