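import Pool.Agent.helper97.FG.T1
import Pool.Agent.helper97.FG.B2b

/-!
author: helper94
# T2a : estimates for parts

`tρ` with `E tρ = ρ`: `p t = t` for `t ≤ tρ`, and `t, p t ≥ tρ` otherwise, so `deriv E tρ * |p t - t| ≤ |g (E t) - E t|`
(`Coord.slope`).  `LD p t = LD g (E t) + log E'(t) - log E'(p t)` and `|log E' s - log E' t| ≤ l |s - t|`.
-/

set_option linter.unusedVariables false

open Set Filter Topology
open scoped commutatorElement
open Pool.Agent.helper35.FOL

namespace FG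

variable {E : ℝ → ℝ} {l x₀ t₀ : ℝ} {g h p m p' m' : ℝ ≃o ℝ} {w w₁ w₂ φ : ℝ → ℝ}

/-- below the level `ρ` the positive part is the identity -/
private theorem part_id (hE : Coord E l x₀ t₀) {ρ tρ : ℝ} (htρ : E tρ = ρ) (h : IsLift E g p m)
    (hg : ∀ x, |x| ≤ ρ → g x = x) {t : ℝ} (ht : t ≤ tρ) : p t = t := by
  apply hE.strictMono.injective
  rw [← h.pos]
  apply hg
  rw [abs_of_pos (hE.pos t), ← htρ]
  exact hE.strictMono.monotone ht

private theorem part_ge (hE : Coord E l x₀ t₀) {ρ tρ : ℝ} (htρ : E tρ = ρ) (h : IsLift E g p m)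
    (hg : ∀ x, |x| ≤ ρ → g x = x) {t : ℝ} (ht : tρ ≤ t) : tρ ≤ p t := by
  have h1 : p tρ = tρ := part_id hE htρ h hg le_rfl
  calc tρ = p tρ := h1.symm
    _ ≤ p t := p.monotone ht

/-- the displacement of the positive part -/
private theorem part_le (hE : Coord E l x₀ t₀) {ρ tρ : ℝ} (htρ : E tρ = ρ) (h : IsLift E g p m)
    (hg : ∀ x, |x| ≤ ρ → g x = x) {η : ℝ} (hη : 0 ≤ η) (hn : ∀ x, |g x - x| ≤ η) (t : ℝ) :
    |p t - t| ≤ η / deriv E tρ := by
  have hd := hE.dpos tρ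
  rcases le_total t tρ with ht | ht
  · rw [part_id hE htρ h hg ht, sub_self, abs_zero]
    positivity
  · rw [le_div_iff₀ hd, mul_comm]
    refine (hE.slope (part_ge hE htρ h hg ht) ht).trans ?_
    rw [← h.pos]
    exact hn _

private theorem part_size (hE : Coord E l x₀ t₀) {ρ tρ : ℝ} (htρ : E tρ = ρ) {η : ℝ}
    (hgd : g ∈ Dd) (h : IsLift E g p m) (hη : 0 ≤ η) (hg : ∀ x, |x| ≤ ρ → g x = x)
    (hn : Near η g) (t : ℝ) :
    |p t - t| ≤ (1 + (1 + l) / deriv E tρ) * η ∧ |LD p t| ≤ (1 + (1 + l) / deriv E tρ) * η := by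
  have hd := hE.dpos tρ
  have hl := hE.l_pos
  have h1 := part_le hE htρ h hg hη (fun x => (hn x).1) t
  obtain ⟨p', hp', m', hm', hL'⟩ := exists_parts hE hgd h.zero
  obtain ⟨hpp, -⟩ := IsLift.parts_unique hE h hL'
  have hpd : p ∈ Dd := hpp ▸ hp'
  have h2 := h.LD_pos hE hgd hpd t
  have h3 := hE.lip t (p t)
  have h4 := (hn (E t)).2
  have e0 : (1 + (1 + l) / deriv E tρ) * η = η + η / deriv E tρ + l * (η / deriv E tρ) := by
    ring
  have h0 : 0 ≤ η / deriv E tρ := by positivity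
  have h5 : l * |p t - t| ≤ l * (η / deriv E tρ) := mul_le_mul_of_nonneg_left h1 hl.le
  have h6 : 0 ≤ l * (η / deriv E tρ) := by positivity
  rw [e0]
  refine ⟨by linarith, ?_⟩
  rw [abs_sub_comm t (p t)] at h3
  rw [abs_le] at h3 h4 ⊢
  constructor <;> linarith [h3.1, h3.2, h4.1, h4.2]

private theorem refl_near {η : ℝ} (hg : g ∈ Dd) (h : Near η g) : Near η (refl 0 g) := by
  intro x
  rw [LD_refl 0 hg, refl_apply]
  refine ⟨?_, (h _).2⟩
  have h1 := (h (0 - x)).1
  have h2 : 0 - g (0 - x) - x = -(g (0 - x) - (0 - x)) := by ring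
  rw [h2, abs_neg]
  exact h1

private theorem refl_id {ρ : ℝ} (h : ∀ x, |x| ≤ ρ → g x = x) (x : ℝ) (hx : |x| ≤ ρ) :
    refl 0 g x = x := by
  rw [refl_apply, h (0 - x) (by rwa [zero_sub, abs_neg])]
  ring

/-- the parts of a map which is the identity near `0`, and close to the identity: sizes -/
theorem parts_size (hE : Coord E l x₀ t₀) (ρ : ℝ) (hρ : 0 < ρ) : ∃ C : ℝ, 1 ≤ C ∧ ∀ {g p m : ℝ ≃o ℝ} {η : ℝ},
    g ∈ Dd → IsLift E g p m → 0 ≤ η → (∀ x, |x| ≤ ρ → g x = x) → Near η g →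
      (∀ t, |p t - t| ≤ C * η ∧ |LD p t| ≤ C * η) ∧ ∀ t, |m t - t| ≤ C * η ∧ |LD m t| ≤ C * η := by
  obtain ⟨tρ, htρ⟩ := hE.surj hρ
  have hd := hE.dpos tρ
  have hl := hE.l_pos
  have h0 : 0 ≤ (1 + l) / deriv E tρ := by positivity
  refine ⟨1 + (1 + l) / deriv E tρ, by linarith, fun hgd h hη hg hn => ⟨fun t => ?_, fun t => ?_⟩⟩
  · exact part_size hE htρ hgd h hη hg hn t
  · exact part_size hE htρ (refl_mem 0 hgd) (h.refl hE) hη (refl_id hg) (refl_near hgd hn) t

/-- Lipschitz dependence of the positive part -/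
theorem parts_lip (hE : Coord E l x₀ t₀) (ρ : ℝ) (hρ : 0 < ρ) : ∃ C : ℝ, 1 ≤ C ∧
    ∀ {g g' p m p' m' : ℝ ≃o ℝ} {d : ℝ}, IsLift E g p m → IsLift E g' p' m' →
      (∀ x, |x| ≤ ρ → g x = x) → (∀ x, |x| ≤ ρ → g' x = x) → (∀ x, |g x - g' x| ≤ d) →
        ∀ t, |p t - p' t| ≤ C * d := by
  obtain ⟨tρ, htρ⟩ := hE.surj hρ
  have hd := hE.dpos tρ
  have h0 : 0 ≤ 1 / deriv E tρ := by positivity
  refine ⟨1 + 1 / deriv E tρ, by linarith, fun {g g' p m p' m' d} h h' hg hg' hn t => ?_⟩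
  have hd0 : 0 ≤ d := (abs_nonneg _).trans (hn 0)
  have e0 : (1 + 1 / deriv E tρ) * d = d + d / deriv E tρ := by ring
  have h1 : 0 ≤ d / deriv E tρ := by positivity
  rw [e0]
  rcases le_total t tρ with ht | ht
  · rw [part_id hE htρ h hg ht, part_id hE htρ h' hg' ht, sub_self, abs_zero]
    linarith
  · have h2 : |p t - p' t| ≤ d / deriv E tρ := by
      rw [le_div_iff₀ hd, mul_comm]
      refine (hE.slope (part_ge hE htρ h hg ht) (part_ge hE htρ h' hg' ht)).trans ?_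
      rw [← h.pos, ← h'.pos]
      exact hn _
    linarith

/-- above `X` the derivative is one -/
private theorem LD_top {X : ℝ} (hgd : g ∈ Dd) (hg : ∀ x, X ≤ |x| → g x = x) {x : ℝ} (hx0 : 0 < X)
    (hx : X ≤ x) : LD g x = 0 := by
  have h1 : ∀ y, X < y → LD g y = 0 := by
    intro y hy
    rw [← LD_one y]
    apply LD_congr
    filter_upwards [lt_mem_nhds hy] with z hz
    rw [hg z (hz.le.trans (le_abs_self z))]
    rfl
  rcases eq_or_lt_of_le hx with h2 | h2
  · rw [← h2]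
    have h3 : Tendsto (LD g) (𝓝[>] X) (𝓝 (LD g X)) :=
      ((continuous_LD hgd).tendsto X).mono_left nhdsWithin_le_nhds
    have h4 : Tendsto (LD g) (𝓝[>] X) (𝓝 0) := by
      refine Tendsto.congr' ?_ tendsto_const_nhds
      filter_upwards [self_mem_nhdsWithin] with y hy
      exact (h1 y hy).symm
    exact tendsto_nhds_unique h3 h4
  · exact h1 x h2

/-- modulus of the positive part: `g` is the identity for `|x| ≤ ρ` and for `|x| ≥ X` -/
theorem parts_mod (hE : Coord E l x₀ t₀) (ρ X : ℝ) (hρ : 0 < ρ) (hX : ρ ≤ X) : ∃ w₀ C, IsMod w₀ ∧ 0 ≤ C ∧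
    ∀ {g p m : ℝ ≃o ℝ}, g ∈ Dd → IsLift E g p m → (∀ x, |x| ≤ ρ → g x = x) → (∀ x, X ≤ |x| → g x = x) →
      Near 1 g → ∀ w, IsMod w → Mod (LD g) w → Mod (LD p) (fun h => w₀ h + w (C * h)) := by
  obtain ⟨C₁, hC₁, hsize⟩ := parts_size hE ρ hρ
  obtain ⟨tX, htX⟩ := hE.surj (hρ.trans_le hX)
  have hl := hE.l_pos
  have hC0 : 0 ≤ C₁ := by linarith
  refine ⟨fun h => max 0 (min (l * (1 + Real.exp C₁) * h) (2 * l * C₁)), deriv E tX,
    isMod_lin (by positivity) (by positivity), (hE.dpos tX).le,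
    fun {g p m} hgd h hg hgX hn w hw hmod s t => ?_⟩
  have hsz := (hsize hgd h zero_le_one hg hn).1
  obtain ⟨p', hp', m', hm', hL'⟩ := exists_parts hE hgd h.zero
  obtain ⟨hpp, -⟩ := IsLift.parts_unique hE h hL'
  have hpd : p ∈ Dd := hpp ▸ hp'
  have hs2 := h.LD_pos hE hgd hpd s
  have ht2 := h.LD_pos hE hgd hpd t
  -- the first term
  have hclamp : ∀ u, LD g (E u) = LD g (E (min u tX)) := by
    intro u
    rcases le_total u tX with hu | hu
    · rw [min_eq_left hu]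
    · rw [min_eq_right hu, htX, LD_top hgd hgX (hρ.trans_le hX) le_rfl,
        LD_top hgd hgX (hρ.trans_le hX) (by rw [← htX]; exact hE.strictMono.monotone hu)]
  have h1 : |LD g (E s) - LD g (E t)| ≤ w (deriv E tX * |s - t|) := by
    rw [hclamp s, hclamp t]
    refine (hmod _ _).trans (hw.mono ?_)
    refine (hE.slope' (min_le_right s tX) (min_le_right t tX)).trans ?_
    refine mul_le_mul_of_nonneg_left ?_ (hE.dpos tX).le
    have h2 := abs_min_sub_min_le_max s tX t tX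
    rwa [sub_self, abs_zero, max_eq_left (abs_nonneg _)] at h2
  -- the second term
  have h3 : |(Real.log (deriv E s) - Real.log (deriv E (p s))) -
      (Real.log (deriv E t) - Real.log (deriv E (p t)))| ≤
      max 0 (min (l * (1 + Real.exp C₁) * |s - t|) (2 * l * C₁)) := by
    refine le_max_of_le_right (le_min ?_ ?_)
    · have h4 := hE.lip s t
      have h5 := hE.lip (p s) (p t)
      have h6 : |p s - p t| ≤ Real.exp C₁ * |s - t| := abs_sub_le_exp hpd fun z _ => by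
        have h7 := (hsz z).2
        rw [mul_one] at h7
        exact (abs_le.1 h7).2
      have h8 : l * |p s - p t| ≤ l * (Real.exp C₁ * |s - t|) :=
        mul_le_mul_of_nonneg_left h6 hl.le
      have e1 : l * (1 + Real.exp C₁) * |s - t| = l * |s - t| + l * (Real.exp C₁ * |s - t|) := by
        ring
      rw [e1]
      rw [abs_le] at h4 h5 ⊢
      constructor <;> linarith [h4.1, h4.2, h5.1, h5.2]
    · have h4 : ∀ u, |Real.log (deriv E u) - Real.log (deriv E (p u))| ≤ l * C₁ := by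
        intro u
        refine (hE.lip u (p u)).trans ?_
        have h5 := (hsz u).1
        rw [mul_one] at h5
        rw [abs_sub_comm]
        exact mul_le_mul_of_nonneg_left h5 hl.le
      have h5 := h4 s
      have h6 := h4 t
      rw [abs_le] at h5 h6 ⊢
      constructor <;> linarith [h5.1, h5.2, h6.1, h6.2]
  have e2 : LD p s - LD p t = (LD g (E s) - LD g (E t)) +
      ((Real.log (deriv E s) - Real.log (deriv E (p s))) -
      (Real.log (deriv E t) - Real.log (deriv E (p t)))) := by linarith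
  rw [e2]
  refine (abs_add_le _ _).trans ?_
  linarith

end FG
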