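import Pool.Agent.helper97.FG.C4a
import Pool.Agent.helper97.FG.C2b
import Pool.Agent.helper97.FG.T2a

/-!
# C4b : the loop map maps the class into itself

author: helper88

`Rop_id` (support), `Rop_near`, `exists_parts` (`Rop 0 = 0`), `parts_size` with `ρ = E ta`.
-/

set_option linter.unusedVariables false

open Set Filter Topology
open scoped commutatorElement
open Pool.Agent.helper35.FOL

namespace FG

variable {E : ℝ → ℝ} {l x₀ t₀ : ℝ} {g h p m p' m' : ℝ ≃o ℝ} {w w₁ w₂ φ : ℝ → ℝ}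

theorem loop_maps (E : ℝ → ℝ) (l x₀ t₀ κ θ₀ θ₁ cu K₀ θ q tκ ta : ℝ) (N : ℕ)
    (hE : Coord E l x₀ t₀) (hκ : 0 < κ) (hθ₀ : κ < θ₀) (hK : 0 ≤ K₀) (hθ : 0 ≤ θ) (hq : 0 < q) :
    ∃ Λ₀ η₀ : ℝ, 1 ≤ Λ₀ ∧ 0 < η₀ ∧
    ∀ {s₀ tb te : ℝ} {ηc Λ : ℝ} {k : ℕ} {u f₁ f₂ f₁c f₂c G Gm yp ym : ℝ ≃o ℝ},
    LoopHyp E l x₀ t₀ κ θ₀ θ₁ cu K₀ s₀ θ q tκ ta tb te N ηc Λ k u f₁ f₂ f₁c f₂c G Gm yp ym →
    Λ₀ ≤ Λ → ηc ≤ η₀ → ∀ P ∈ Cls q ta tb,
      loopMap E te Λ k u f₁ f₁c f₂c G yp (slowE te Λ (Yit Gm ym k) Gm) P ∈ Cls q ta tb := by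
  obtain ⟨C1, hC1, h1⟩ := eX_props E l x₀ t₀ K₀ θ tκ hE hK hθ
  obtain ⟨C2, hC2, h2⟩ := Rop_near cu
  obtain ⟨C3, hC3, h3⟩ := parts_size hE (E ta) (hE.pos ta)
  have hC1p : 0 < C1 := by linarith
  have hC2p : 0 < C2 := by linarith
  have hC3p : 0 < C3 := by linarith
  refine ⟨max C1 (2 * C1 * C2 * C3 / q), q / (2 * C2 * C3), hC1.trans (le_max_left _ _),
    by positivity, ?_⟩
  intro s₀ tb te ηc Λ k u f₁ f₂ f₁c f₂c G Gm yp ym H hΛ hη P hP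
  have hΛ1 : C1 ≤ Λ := (le_max_left _ _).trans hΛ
  have hΛ2 : 2 * C1 * C2 * C3 / q ≤ Λ := (le_max_right _ _).trans hΛ
  have hΛp : 0 < Λ := by linarith
  have hηc := H.X.ηc_nonneg
  obtain ⟨⟨heD, -⟩, heo, hen⟩ := h1 H hΛ1 hP
  unfold loopMap
  generalize eX E te Λ k G yp (slowE te Λ (Yit Gm ym k) Gm) P = e at heD heo hen ⊢
  have hε0 : 0 ≤ C1 / Λ := by positivity
  have hε1 : C1 / Λ ≤ 1 := (div_le_one hΛp).2 hΛ1
  obtain ⟨hRD, hRn⟩ := h2 H.X heD heo hε0 hε1 hen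
  have hRid : ∀ x, x ≤ θ₀ - 2 * ηc ∨ θ₁ + 2 * ηc ≤ x → Rop u f₁ f₁c f₂c e x = x :=
    fun x hx => Rop_id H.X heo hx
  have hR0 : ∀ x, |x| ≤ E ta → Rop u f₁ f₁c f₂c e x = x := fun x hx =>
    hRid x (Or.inl (((le_abs_self x).trans hx).trans H.E_ta))
  have hz : Rop u f₁ f₁c f₂c e 0 = 0 := hR0 0 (by rw [abs_zero]; exact (hE.pos ta).le)
  obtain ⟨hpD, m, hmD, hL⟩ := posPart_spec (exists_parts hE hRD hz)
  obtain ⟨hp, -⟩ := h3 hRD hL (by positivity) hR0 hRn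
  have hbound : C3 * (C2 * (ηc + C1 / Λ)) ≤ q := by
    have e1 : C2 * C3 * ηc ≤ q / 2 := by
      have e2 : C2 * C3 * ηc ≤ C2 * C3 * (q / (2 * C2 * C3)) :=
        mul_le_mul_of_nonneg_left hη (by positivity)
      have e3 : C2 * C3 * (q / (2 * C2 * C3)) = q / 2 := by field_simp
      linarith
    have e4 : C2 * C3 * (C1 / Λ) ≤ q / 2 := by
      rw [div_le_iff₀ hq] at hΛ2
      have e5 : C2 * C3 * (C1 / Λ) = (C1 * C2 * C3) / Λ := by ring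
      rw [e5, div_le_iff₀ hΛp]
      linarith
    linarith
  refine ⟨hpD, ?_, ?_⟩
  · intro t ht
    apply hE.strictMono.injective
    rw [← hL.pos]
    apply hRid
    rcases ht with h | h
    · exact Or.inl ((hE.strictMono h).le.trans H.E_ta)
    · exact Or.inr (H.E_tb.trans (hE.strictMono h).le)
  · intro t
    exact ⟨(hp t).1.trans hbound, (hp t).2.trans hbound⟩

end FG
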