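import Pool.Agent.helper97.FG.L1
import Pool.Agent.helper97.FG.B1b

/-!
author: helper1
# L2a : Lipschitz dependence of the transported map on `F`

For `t < -1` (and `t ≥ -k-1`): `Y t = F (Y (t+1)) - 1` (`Yit_eq`), `Y (t+1) ≤ Yin 0`; `F` is `exp η ≤ 2`-Lipschitz there.
`Δ_j ≤ 2 Δ_{j-1} + d` for the first `N` steps, afterwards both are periodic (`Yit_size`).
-/

set_option linter.unusedVariables false

open Set Filter Topology
open scoped commutatorElement
open Pool.Agent.helper35.FOL

namespace FG

private theorem exp_le_two {η : ℝ} (h : η ≤ 1 / 4) : Real.exp η ≤ 2 := by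
  have h1 : (1 : ℝ) - η ≤ Real.exp (-η) := by
    have := Real.add_one_le_exp (-η)
    linarith
  have h2 : Real.exp η * Real.exp (-η) = 1 := by
    rw [← Real.exp_add]; simp
  have h3 := Real.exp_pos η
  nlinarith

/-- `θ ≤ 1/4`, so the Lipschitz constant of `F` is at most `2`; `C` depends only on `N` -/
theorem Yit_lip (N : ℕ) : ∃ C : ℝ, 1 ≤ C ∧ ∀ {K₀ s₀ η θ tκ d : ℝ} {F F' Yin : ℝ ≃o ℝ},
    LineHyp K₀ s₀ η θ tκ N F Yin → LineHyp K₀ s₀ η θ tκ N F' Yin → θ ≤ 1 / 4 → η ≤ 1 / 4 →
    (∀ t ≤ Yin 0, |F t - F' t| ≤ d) → ∀ k : ℕ, ∀ t ∈ Icc (-(k : ℝ) - 1) 0,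
      |Yit F Yin k t - Yit F' Yin k t| ≤ C * d := by
  refine ⟨2 ^ N, one_le_pow₀ (by norm_num), ?_⟩
  intro K₀ s₀ η θ tκ d F F' Yin H H' hθ hη hd k
  have hd0 : 0 ≤ d := le_trans (abs_nonneg _) (hd (Yin 0) le_rfl)
  obtain ⟨ha, hb⟩ := Yit_eq H.col k
  obtain ⟨ha', hb'⟩ := Yit_eq H'.col k
  have hper := (Yit_size H k).2
  have hper' := (Yit_size H' k).2
  set Z := Yit F Yin k with hZ
  set Z' := Yit F' Yin k with hZ'
  have hle : ∀ t ≤ 0, Z t ≤ Yin 0 := by
    intro t ht
    rw [← ha 0 (by norm_num)]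
    exact Z.monotone ht
  have hle' : ∀ t ≤ 0, Z' t ≤ Yin 0 := by
    intro t ht
    rw [← ha' 0 (by norm_num)]
    exact Z'.monotone ht
  have key : ∀ j : ℕ, j ≤ k → ∀ t ∈ Icc (-(j : ℝ) - 1) 0,
      |Z t - Z' t| ≤ (2 ^ (min j N) - 1) * d := by
    intro j
    induction j with
    | zero =>
      intro _ t ht
      have ht' : t ∈ Icc (-1 : ℝ) 0 := by simpa using ht
      rw [ha t ht'.1, ha' t ht'.1]
      simp
    | succ j ih =>
      intro hj t ht
      have ihj := ih (by omega)
      have hjk : ((j : ℝ) + 1) ≤ k := by exact_mod_cast hj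
      push_cast at ht
      by_cases hc : -(j : ℝ) - 1 ≤ t
      · have h1 := ihj t ⟨hc, ht.2⟩
        have h3 : (2 : ℝ) ^ (min j N) ≤ 2 ^ (min (j + 1) N) :=
          pow_le_pow_right₀ (by norm_num) (min_le_min (Nat.le_succ j) le_rfl)
        have h4 := mul_le_mul_of_nonneg_right h3 hd0
        linarith
      · push Not at hc
        have hj0 : (0 : ℝ) ≤ j := Nat.cast_nonneg j
        have h1 := ihj (t + 1) ⟨by linarith [ht.1], by linarith⟩
        have e1 : Z t = F (Z (t + 1)) - 1 := by
          have := hb (t + 1) (by linarith [ht.1])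
          rw [this]
          have : t + 1 - 1 = t := by ring
          rw [this]
          ring
        have e2 : Z' t = F' (Z' (t + 1)) - 1 := by
          have := hb' (t + 1) (by linarith [ht.1])
          rw [this]
          have : t + 1 - 1 = t := by ring
          rw [this]
          ring
        by_cases hjN : j < N
        · have h3 : min (j + 1) N = j + 1 := by omega
          have h4 : min j N = j := by omega
          rw [h4] at h1
          rw [h3]
          have f1 : |F (Z (t + 1)) - F (Z' (t + 1))| ≤ Real.exp η * |Z (t + 1) - Z' (t + 1)| := by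
            refine abs_sub_le_exp H.F_mem (fun z hz => ?_)
            have hz' : z ≤ Yin 0 := le_trans hz.2 (max_le (hle _ (by linarith)) (hle' _ (by linarith)))
            exact (abs_le.1 (H.size_F z hz').2).2
          have f2 := hd (Z' (t + 1)) (hle' _ (by linarith))
          have f3 := exp_le_two hη
          have f4 : Real.exp η * |Z (t + 1) - Z' (t + 1)| ≤ 2 * ((2 ^ j - 1) * d) :=
            mul_le_mul f3 h1 (abs_nonneg _) (by norm_num)
          have : Z t - Z' t = (F (Z (t + 1)) - F (Z' (t + 1))) + (F (Z' (t + 1)) - F' (Z' (t + 1))) := by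
            rw [e1, e2]; ring
          rw [this]
          have f5 := abs_add_le (F (Z (t + 1)) - F (Z' (t + 1))) (F (Z' (t + 1)) - F' (Z' (t + 1)))
          have f6 : ((2 : ℝ) ^ (j + 1) - 1) * d = 2 * ((2 ^ j - 1) * d) + d := by ring
          rw [f6]
          linarith
        · push Not at hjN
          have h3 : min (j + 1) N = N := by omega
          have h4 : min j N = N := by omega
          have hjN' : (N : ℝ) ≤ j := by exact_mod_cast hjN
          rw [h4] at h1
          rw [h3]
          have g1 := hper (t + 1) ⟨by linarith [ht.1], by linarith⟩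
          have g2 := hper' (t + 1) ⟨by linarith [ht.1], by linarith⟩
          have h5 : t + 1 - 1 = t := by ring
          rw [h5] at g1 g2
          rw [g1, g2]
          have : Z (t + 1) - 1 - (Z' (t + 1) - 1) = Z (t + 1) - Z' (t + 1) := by ring
          rw [this]
          exact h1
  intro t ht
  have h1 := key k le_rfl t ht
  have h2 : (2 : ℝ) ^ (min k N) ≤ 2 ^ N := pow_le_pow_right₀ (by norm_num) (min_le_right k N)
  have h3 : ((2 : ℝ) ^ (min k N) - 1) * d ≤ 2 ^ N * d :=
    mul_le_mul_of_nonneg_right (by linarith) hd0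
  linarith

end FG
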