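import Pool.Agent.helper97.FG.S2b
import Pool.Agent.helper97.FG.B1b

/-!
# S3a : Lipschitz dependence of the commutator error on `Y`

author: helper78

`e y - y = G(w) ζ(w)`, `G(w) = χ (w-1) - χ w`, `ζ = Y - id`, `w = (Ych Y)⁻¹ y`, `w' = (Ych Y')⁻¹ y`.  `|G| ≤ C/Λ`,
`|G w - G w'| ≤ (C/Λ²) |w - w'|` (mean value theorem with `χ'`), and `|w - w'| ≤ 4 d` because
`Ych Y w = Ych Y' w' = y` and `|Ych Y - Ych Y'| ≤ d` there.
For `w ≥ te + 1` and `w' ≥ te + 1` both are `y`.  If `w < te + 1` and `w' > te + 2` then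
`Y'(te+2) ≤ y ≤ Y(te+1)` and `Y'(te+2) = Y'(te+1) + 1`, so `d ≥ 1` and the size bound is enough.
-/

set_option linter.unusedVariables false

open Set Filter Topology
open scoped commutatorElement
open Pool.Agent.helper35.FOL

namespace FG

/-- the function `G w = χ (w - 1) - χ w` -/
private theorem S3a_G {te Λ C₀ : ℝ} (hΛ : 0 < Λ)
    (h1 : ∀ s t, |chi te Λ s - chi te Λ t| ≤ C₀ / Λ * |s - t|)
    (h3 : ∀ s t, |deriv (chi te Λ) s - deriv (chi te Λ) t| ≤ C₀ / Λ ^ 2 * |s - t|) :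
    (∀ w, |chi te Λ (w - 1) - chi te Λ w| ≤ C₀ / Λ) ∧
    (∀ w w', |(chi te Λ (w - 1) - chi te Λ w) - (chi te Λ (w' - 1) - chi te Λ w')| ≤
      C₀ / Λ ^ 2 * |w - w'|) := by
  have habs : ∀ w : ℝ, |w - 1 - w| = 1 := by
    intro w
    have : w - 1 - w = -1 := by ring
    rw [this, abs_neg, abs_one]
  refine ⟨fun w => ?_, fun w w' => ?_⟩
  · have h := h1 (w - 1) w
    rwa [habs, mul_one] at h
  · have hd : Differentiable ℝ (chi te Λ) := (contDiff_chi te Λ).differentiable one_ne_zero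
    have hG : ∀ x ∈ (univ : Set ℝ), HasDerivWithinAt
        (fun x => chi te Λ (x - 1) - chi te Λ x)
        (deriv (chi te Λ) (x - 1) - deriv (chi te Λ) x) univ x := by
      intro x _
      exact (((hd (x - 1)).hasDerivAt.comp_sub_const x 1).sub (hd x).hasDerivAt).hasDerivWithinAt
    have hb : ∀ x ∈ (univ : Set ℝ),
        ‖deriv (chi te Λ) (x - 1) - deriv (chi te Λ) x‖ ≤ C₀ / Λ ^ 2 := by
      intro x _
      have h := h3 (x - 1) x
      rwa [habs, mul_one] at h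
    have h := convex_univ.norm_image_sub_le_of_norm_hasDerivWithin_le hG hb
      (mem_univ w') (mem_univ w)
    simpa [Real.norm_eq_abs] using h

/-- lower bound for the slope of `Ych Y` -/
private theorem S3a_slope {te Λ K s C₀ : ℝ} {Y F : ℝ ≃o ℝ} (hY : SlowHyp te Λ K s Y F)
    (hΛ : 0 < Λ) (hC : C₀ * K / Λ ≤ 1 / 4) (h2 : ∀ t, |deriv (chi te Λ) t| ≤ C₀ / Λ)
    (hm : Ych te Λ Y ∈ Dd)
    (hd : ∀ t, deriv (Ych te Λ Y) t = 1 + deriv (chi te Λ) t * (Y t - t) +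
        chi te Λ t * (deriv Y t - 1)) {x y : ℝ} (hx : x ∈ Icc (te - Λ - 2) (te + 2))
    (hy : y ∈ Icc (te - Λ - 2) (te + 2)) :
    |x - y| ≤ 4 * |Ych te Λ Y x - Ych te Λ Y y| := by
  have hlow : ∀ z ∈ uIcc x y, Real.log (1 / 4) ≤ LD (Ych te Λ Y) z := by
    intro z hz
    have hz' : z ∈ Icc (te - Λ - 2) (te + 2) := by
      rcases le_total x y with h | h
      · rw [uIcc_of_le h] at hz
        exact ⟨hx.1.trans hz.1, hz.2.trans hy.2⟩
      · rw [uIcc_of_ge h] at hz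
        exact ⟨hy.1.trans hz.1, hz.2.trans hx.2⟩
    unfold LD
    refine Real.log_le_log (by norm_num) ?_
    rw [hd z]
    obtain ⟨a1, a2⟩ := hY.size z hz'
    have a3 : 1 / 2 ≤ deriv Y z := by
      rw [deriv_eq_exp hY.Y_mem]
      have a4 := Real.add_one_le_exp (LD Y z)
      have a5 := (abs_le.1 a2).1
      have a6 := hY.s_le
      linarith
    have a7 : |deriv (chi te Λ) z * (Y z - z)| ≤ 1 / 4 := by
      rw [abs_mul]
      refine (mul_le_mul (h2 z) a1 (abs_nonneg _) ((abs_nonneg _).trans (h2 z))).trans ?_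
      refine le_trans (le_of_eq ?_) hC
      ring
    have a8 := (abs_le.1 a7).1
    have a9 := chi_nonneg te Λ z
    have a10 := chi_le_one te Λ z
    nlinarith
  have h := exp_mul_le_abs_sub hm hlow
  rw [Real.exp_log (by norm_num)] at h
  linarith

/-- the main case -/
private theorem S3a_key {te Λ K s d C₀ : ℝ} {Y F Y' F' : ℝ ≃o ℝ}
    (hY : SlowHyp te Λ K s Y F) (hY' : SlowHyp te Λ K s Y' F') (hΛ : 1 ≤ Λ) (hC0 : 1 ≤ C₀)
    (hC : C₀ * K / Λ ≤ 1 / 4)
    (h1 : ∀ s t, |chi te Λ s - chi te Λ t| ≤ C₀ / Λ * |s - t|)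
    (h2 : ∀ t, |deriv (chi te Λ) t| ≤ C₀ / Λ)
    (h3 : ∀ s t, |deriv (chi te Λ) s - deriv (chi te Λ) t| ≤ C₀ / Λ ^ 2 * |s - t|)
    (hm : Ych te Λ Y ∈ Dd) (hm' : Ych te Λ Y' ∈ Dd)
    (hf : ∀ t, Ych te Λ Y t = t + chi te Λ t * (Y t - t))
    (hf' : ∀ t, Ych te Λ Y' t = t + chi te Λ t * (Y' t - t))
    (hr : ∀ t, te ≤ t → Ych te Λ Y t = Y t)
    (hr' : ∀ t, te ≤ t → Ych te Λ Y' t = Y' t)
    (hl : ∀ t, t ≤ te - Λ → Ych te Λ Y t = t)
    (hl' : ∀ t, t ≤ te - Λ → Ych te Λ Y' t = t)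
    (hd' : ∀ t, deriv (Ych te Λ Y') t = 1 + deriv (chi te Λ) t * (Y' t - t) +
        chi te Λ t * (deriv Y' t - 1))
    (hdd : ∀ t ∈ Icc (te - Λ - 2) (te + 2), |Y t - Y' t| ≤ d) {w w' : ℝ}
    (hw1 : te - Λ < w) (hw2 : w < te + 1) (hww : Ych te Λ Y w = Ych te Λ Y' w') :
    |(chi te Λ (w - 1) - chi te Λ w) * (Y w - w) -
      (chi te Λ (w' - 1) - chi te Λ w') * (Y' w' - w')| ≤ 13 * C₀ * (K + 1) / Λ * d := by
  have hΛ0 : 0 < Λ := by linarith
  have hK := hY.K_nonneg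
  obtain ⟨hG1, hG2⟩ := S3a_G hΛ0 h1 h3
  have hwI : w ∈ Icc (te - Λ - 2) (te + 2) := ⟨by linarith, by linarith⟩
  have hd0 : 0 ≤ d := (abs_nonneg _).trans (hdd w hwI)
  obtain ⟨hYw, -⟩ := hY.size w hwI
  have hC0' : 0 ≤ C₀ := by linarith
  have hw'l : te - Λ < w' := by
    by_contra hcon
    push Not at hcon
    rw [hl' w' hcon] at hww
    have h4 := (Ych te Λ Y).strictMono hw1
    rw [hl _ le_rfl, hww] at h4
    linarith
  by_cases hw'r : w' ≤ te + 2
  · have hw'I : w' ∈ Icc (te - Λ - 2) (te + 2) := ⟨by linarith, hw'r⟩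
    have h4 : |Ych te Λ Y' w - Ych te Λ Y' w'| ≤ d := by
      rw [← hww, hf, hf']
      have h5 : w + chi te Λ w * (Y' w - w) - (w + chi te Λ w * (Y w - w)) =
          -(chi te Λ w * (Y w - Y' w)) := by ring
      rw [h5, abs_neg, abs_mul, abs_of_nonneg (chi_nonneg te Λ w)]
      calc chi te Λ w * |Y w - Y' w| ≤ 1 * d :=
            mul_le_mul (chi_le_one te Λ w) (hdd w hwI) (abs_nonneg _) zero_le_one
        _ = d := one_mul d
    have h5 : |w - w'| ≤ 4 * d := by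
      have := S3a_slope hY' hΛ0 hC h2 hm' hd' hwI hw'I
      linarith
    have h6 : |Y' w - Y' w'| ≤ 2 * |w - w'| := by
      have h7 : ∀ z ∈ uIcc w w', LD Y' z ≤ 1 / 2 := by
        intro z hz
        have hz' : z ∈ Icc (te - Λ - 2) (te + 2) := by
          rcases le_total w w' with h | h
          · rw [uIcc_of_le h] at hz
            exact ⟨hwI.1.trans hz.1, hz.2.trans hw'I.2⟩
          · rw [uIcc_of_ge h] at hz
            exact ⟨hw'I.1.trans hz.1, hz.2.trans hwI.2⟩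
        have h8 := (abs_le.1 (hY'.size z hz').2).2
        have h9 := hY'.s_le
        linarith
      have h8 := abs_sub_le_exp hY'.Y_mem h7
      have h9 : Real.exp (1 / 2) ≤ 2 := by
        have h10 : Real.exp (1 / 2) * Real.exp (1 / 2) = Real.exp 1 := by
          rw [← Real.exp_add]
          norm_num
        have h11 := Real.exp_one_lt_d9
        have h12 := Real.exp_pos (1 / 2)
        nlinarith
      refine h8.trans ?_
      exact mul_le_mul_of_nonneg_right h9 (abs_nonneg _)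
    have h7 : |(Y w - w) - (Y' w' - w')| ≤ 13 * d := by
      have h8 : (Y w - w) - (Y' w' - w') = (Y w - Y' w) + (Y' w - Y' w') + -(w - w') := by ring
      rw [h8]
      have h9 := abs_add_three (Y w - Y' w) (Y' w - Y' w') (-(w - w'))
      rw [abs_neg] at h9
      have h10 := hdd w hwI
      linarith
    have h8 : (chi te Λ (w - 1) - chi te Λ w) * (Y w - w) -
        (chi te Λ (w' - 1) - chi te Λ w') * (Y' w' - w') =
        ((chi te Λ (w - 1) - chi te Λ w) - (chi te Λ (w' - 1) - chi te Λ w')) * (Y w - w) +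
        (chi te Λ (w' - 1) - chi te Λ w') * ((Y w - w) - (Y' w' - w')) := by ring
    rw [h8]
    have h9 : |((chi te Λ (w - 1) - chi te Λ w) - (chi te Λ (w' - 1) - chi te Λ w')) *
        (Y w - w)| ≤ C₀ / Λ * (4 * d) * K := by
      rw [abs_mul]
      refine mul_le_mul ?_ hYw (abs_nonneg _) (by positivity)
      refine (hG2 w w').trans ?_
      refine mul_le_mul ?_ h5 (abs_nonneg _) (by positivity)
      refine div_le_div_of_nonneg_left hC0' hΛ0 ?_
      nlinarith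
    have h10 : |(chi te Λ (w' - 1) - chi te Λ w') * ((Y w - w) - (Y' w' - w'))| ≤
        C₀ / Λ * (13 * d) := by
      rw [abs_mul]
      exact mul_le_mul (hG1 w') h7 (abs_nonneg _) (by positivity)
    refine (abs_add_le _ _).trans ((add_le_add h9 h10).trans ?_)
    have h11 : 13 * C₀ * (K + 1) / Λ * d - (C₀ / Λ * (4 * d) * K + C₀ / Λ * (13 * d)) =
        9 * (C₀ / Λ * d * K) := by ring
    have h12 : 0 ≤ C₀ / Λ * d * K := by positivity
    linarith
  · push Not at hw'r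
    have h4 : 1 ≤ d := by
      have h5 : Ych te Λ Y w < Y (te + 1) := by
        rw [← hr (te + 1) (by linarith)]
        exact (Ych te Λ Y).strictMono hw2
      have h6 : Y' (te + 2) < Ych te Λ Y' w' := by
        rw [← hr' (te + 2) (by linarith)]
        exact (Ych te Λ Y').strictMono hw'r
      have h7 := hY'.per (te + 2) ⟨by linarith, le_rfl⟩
      have h8 : te + 2 - 1 = te + 1 := by ring
      rw [h8] at h7
      have h9 := (abs_le.1 (hdd (te + 1) ⟨by linarith, by linarith⟩)).2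
      linarith
    have h5 : chi te Λ (w' - 1) - chi te Λ w' = 0 := by
      rw [chi_eq_one hΛ0 (by linarith), chi_eq_one hΛ0 (by linarith), sub_self]
    rw [h5, zero_mul, sub_zero, abs_mul]
    have h6 : |chi te Λ (w - 1) - chi te Λ w| * |Y w - w| ≤ C₀ / Λ * K :=
      mul_le_mul (hG1 w) hYw (abs_nonneg _) (by positivity)
    have h7 : 0 ≤ C₀ / Λ := by positivity
    have h8 : C₀ / Λ * K ≤ C₀ / Λ * K * d := by
      have : 0 ≤ C₀ / Λ * K := by positivity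
      nlinarith
    have h9 : 13 * C₀ * (K + 1) / Λ * d - C₀ / Λ * K * d =
        12 * (C₀ / Λ * K * d) + 13 * (C₀ / Λ * d) := by ring
    have h10 : 0 ≤ C₀ / Λ * K * d := by positivity
    have h11 : 0 ≤ C₀ / Λ * d := by positivity
    linarith

theorem slowE_lip : ∃ C : ℝ, 1 ≤ C ∧ ∀ {te Λ K s d : ℝ} {Y F Y' F' : ℝ ≃o ℝ}, SlowHyp te Λ K s Y F →
    SlowHyp te Λ K s Y' F' → C * (K + 1) ≤ Λ → (∀ t ∈ Icc (te - Λ - 2) (te + 2), |Y t - Y' t| ≤ d) →
      ∀ y, |slowE te Λ Y F y - slowE te Λ Y' F' y| ≤ C * (K + 1) / Λ * d := by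
  obtain ⟨C₀, hC₀, H0⟩ := exists_chi_bounds
  obtain ⟨C₁, hC₁, H1⟩ := slowE_formula
  obtain ⟨C₂, hC₂, H2⟩ := exists_Ych
  refine ⟨13 * C₀ + C₁ + C₂, by linarith, ?_⟩
  intro te Λ K s d Y F Y' F' hY hY' hΛC hdd y
  have hK := hY.K_nonneg
  have hK1 : 1 ≤ K + 1 := by linarith
  have hb1 : C₁ * (K + 1) ≤ Λ := by nlinarith
  have hb2 : C₂ * (K + 1) ≤ Λ := by nlinarith
  have hb0 : 13 * C₀ * (K + 1) ≤ Λ := by nlinarith
  have hΛ : 1 ≤ Λ := by nlinarith
  have hΛ0 : 0 < Λ := by linarith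
  obtain ⟨hc1, hc2, hc3⟩ := H0 te Λ hΛ0
  have hCK : C₀ * K / Λ ≤ 1 / 4 := by
    rw [div_le_iff₀ hΛ0]
    nlinarith
  have hsz : ∀ t ∈ Icc (te - Λ) te, |Y t - t| ≤ K ∧ |LD Y t| ≤ s := fun t ht =>
    hY.size t ⟨by linarith [ht.1], by linarith [ht.2]⟩
  have hsz' : ∀ t ∈ Icc (te - Λ) te, |Y' t - t| ≤ K ∧ |LD Y' t| ≤ s := fun t ht =>
    hY'.size t ⟨by linarith [ht.1], by linarith [ht.2]⟩
  obtain ⟨hm, hf, hr, hl, -, hd⟩ := H2 te Λ K s Y hY.Y_mem hK hY.s_nonneg hY.s_le hb2 hsz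
  obtain ⟨hm', hf', hr', hl', -, hd'⟩ := H2 te Λ K s Y' hY'.Y_mem hK hY'.s_nonneg hY'.s_le hb2 hsz'
  obtain ⟨-, he, -⟩ := H1 hY hb1
  obtain ⟨-, he', -⟩ := H1 hY' hb1
  rw [he y, he' y]
  set w := (Ych te Λ Y)⁻¹ y with hw
  set w' := (Ych te Λ Y')⁻¹ y with hw'
  have hyw : Ych te Λ Y w = y := (Ych te Λ Y).apply_symm_apply y
  have hyw' : Ych te Λ Y' w' = y := (Ych te Λ Y').apply_symm_apply y
  have hd0 : 0 ≤ d := (abs_nonneg _).trans (hdd te ⟨by linarith, by linarith⟩)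
  have hsimp : y + (chi te Λ (w - 1) - chi te Λ w) * (Y w - w) -
      (y + (chi te Λ (w' - 1) - chi te Λ w') * (Y' w' - w')) =
      (chi te Λ (w - 1) - chi te Λ w) * (Y w - w) -
      (chi te Λ (w' - 1) - chi te Λ w') * (Y' w' - w') := by ring
  rw [hsimp]
  have hfin : 13 * C₀ * (K + 1) / Λ * d ≤ (13 * C₀ + C₁ + C₂) * (K + 1) / Λ * d := by
    refine mul_le_mul_of_nonneg_right ?_ hd0
    refine div_le_div_of_nonneg_right ?_ hΛ0.le
    nlinarith
  have hzero : ∀ v, ¬ (te - Λ < v ∧ v < te + 1) → chi te Λ (v - 1) - chi te Λ v = 0 := by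
    intro v hv
    by_cases h : te - Λ < v
    · have h' : te + 1 ≤ v := by
        by_contra h''
        exact hv ⟨h, not_le.1 h''⟩
      rw [chi_eq_one hΛ0 (by linarith), chi_eq_one hΛ0 (by linarith), sub_self]
    · push Not at h
      rw [chi_eq_zero hΛ0 (by linarith), chi_eq_zero hΛ0 h, sub_self]
  by_cases h1 : te - Λ < w ∧ w < te + 1
  · exact (S3a_key hY hY' hΛ hC₀ hCK hc1 hc2 hc3 hm hm' hf hf' hr hr' hl hl' hd' hdd h1.1 h1.2
      (hyw.trans hyw'.symm)).trans hfin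
  · by_cases h2 : te - Λ < w' ∧ w' < te + 1
    · have hdd' : ∀ t ∈ Icc (te - Λ - 2) (te + 2), |Y' t - Y t| ≤ d := fun t ht => by
        rw [abs_sub_comm]
        exact hdd t ht
      rw [abs_sub_comm]
      exact (S3a_key hY' hY hΛ hC₀ hCK hc1 hc2 hc3 hm' hm hf' hf hr' hr hl' hl hd hdd' h2.1 h2.2
        (hyw'.trans hyw.symm)).trans hfin
    · rw [hzero w h1, hzero w' h2, zero_mul, zero_mul, sub_self, abs_zero]
      positivity

end FG
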