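import Pool.Agent.helper97.FG.C4b
import Pool.Agent.helper97.FG.S3a
import Pool.Agent.helper97.FG.L2a

/-!
# C4c : the loop map is a contraction

author: helper78

`|(P*G) t - (P'*G) t| ≤ d`, `Yit_lip`, `slowE_lip`, `lift_lip` (`a = tκ`), `Rop_lip`, `parts_lip` (`ρ = E ta`).
-/

set_option linter.unusedVariables false

open Set Filter Topology
open scoped commutatorElement
open Pool.Agent.helper35.FOL

namespace FG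

variable {E : ℝ → ℝ} {l x₀ t₀ : ℝ} {g h p m p' m' : ℝ ≃o ℝ} {w w₁ w₂ φ : ℝ → ℝ}

theorem loop_contr (E : ℝ → ℝ) (l x₀ t₀ κ θ₀ θ₁ cu K₀ θ q tκ ta : ℝ) (N : ℕ)
    (hE : Coord E l x₀ t₀) (hκ : 0 < κ) (hθ₀ : κ < θ₀) (hK : 0 ≤ K₀) (hθ : 0 ≤ θ) (hq : 0 < q) :
    ∃ Λ₀ : ℝ, 1 ≤ Λ₀ ∧
    ∀ {s₀ tb te : ℝ} {ηc Λ : ℝ} {k : ℕ} {u f₁ f₂ f₁c f₂c G Gm yp ym : ℝ ≃o ℝ},
    LoopHyp E l x₀ t₀ κ θ₀ θ₁ cu K₀ s₀ θ q tκ ta tb te N ηc Λ k u f₁ f₂ f₁c f₂c G Gm yp ym →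
    Λ₀ ≤ Λ → ∀ P ∈ Cls q ta tb, ∀ P' ∈ Cls q ta tb, ∀ d, (∀ t, |P t - P' t| ≤ d) → ∀ t,
      |loopMap E te Λ k u f₁ f₁c f₂c G yp (slowE te Λ (Yit Gm ym k) Gm) P t -
        loopMap E te Λ k u f₁ f₁c f₂c G yp (slowE te Λ (Yit Gm ym k) Gm) P' t| ≤ d / 2 := by
  obtain ⟨C1, hC1, H1⟩ := Yit_lip N
  obtain ⟨C2, hC2, H2⟩ := slowE_lip
  obtain ⟨C3, hC3, H3⟩ := lift_lip hE tκ
  obtain ⟨C4, hC4, H4⟩ := Rop_lip cu
  obtain ⟨C4', hC4', H4'⟩ := Rop_near cu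
  obtain ⟨C5, hC5, H5⟩ := parts_lip hE (E ta) (hE.pos ta)
  obtain ⟨C6, hC6, H6⟩ := eX_props E l x₀ t₀ K₀ θ tκ hE hK hθ
  obtain ⟨C7, hC7, H7⟩ := slowE_formula
  set B : ℝ := K₀ + θ + 1 with hB
  have hB1 : 1 ≤ B := by linarith
  have hB0 : 0 ≤ B := by linarith
  set M : ℝ := C5 * (C4 * (C3 * (C2 * B * C1))) with hM
  have hM0 : 0 ≤ M := by positivity
  have hCB2 : 0 ≤ C2 * B := by positivity
  have hCB7 : 0 ≤ C7 * B := by positivity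
  refine ⟨2 * M + C6 + C7 * B + C2 * B, by nlinarith, ?_⟩
  intro s₀ tb te ηc Λ k u f₁ f₂ f₁c f₂c G Gm yp ym H hΛ P hP P' hP' d hd t
  have hΛ1 : 1 ≤ Λ := by nlinarith
  have hΛ0 : 0 < Λ := by linarith
  have hΛ2 : C2 * (K₀ + θ + 1) ≤ Λ := by
    rw [← hB]
    linarith
  have hΛ6 : C6 ≤ Λ := by linarith
  have hΛ7 : C7 * (K₀ + θ + 1) ≤ Λ := by
    rw [← hB]
    linarith
  have hΛM : 2 * M ≤ Λ := by linarith
  have hd0 : 0 ≤ d := (abs_nonneg _).trans (hd 0)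
  have hN0 : (0 : ℝ) ≤ N := Nat.cast_nonneg N
  have hte := H.te_eq
  have hk := H.k_large
  have hθ4 := H.θ_small
  have hq8 := H.p_le
  have hNl := H.N_large
  -- the transported maps
  have e1 : ∀ t ∈ Icc (te - Λ - 2) (te + 2),
      |Yit (P * G) yp k t - Yit (P' * G) yp k t| ≤ C1 * d := by
    intro t ht
    refine H1 (H.line hP) (H.line hP') hθ4 (by linarith) (fun t _ => hd (G t)) k t ⟨?_, ?_⟩
    · linarith [ht.1]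
    · linarith [ht.2]
  -- the errors on the positive line
  have e2 := fun y => H2 (H.slow hΛ0 hP) (H.slow hΛ0 hP') hΛ2 e1 y
  have hsup : ∀ {Q : ℝ ≃o ℝ}, Q ∈ Cls q ta tb → ∀ t, tκ ≤ t →
      slowE te Λ (Yit (Q * G) yp k) (Q * G) t = t := by
    intro Q hQ t ht
    obtain ⟨-, -, -, -, h5, -, -⟩ := H7 (H.slow hΛ0 hQ) hΛ7
    exact h5 t (by linarith)
  -- the errors on the x-line
  obtain ⟨⟨m1, l1⟩, s1, n1⟩ := H6 H hΛ6 hP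
  obtain ⟨⟨m2, l2⟩, s2, n2⟩ := H6 H hΛ6 hP'
  have e3 := H3 l1 l2 (hsup hP) (hsup hP') e2
  have hone : C6 / Λ ≤ 1 := by
    rw [div_le_one hΛ0]
    exact hΛ6
  have n1' : Near 1 (eX E te Λ k G yp (slowE te Λ (Yit Gm ym k) Gm) P) := fun x =>
    ⟨(n1 x).1.trans hone, (n1 x).2.trans hone⟩
  have n2' : Near 1 (eX E te Λ k G yp (slowE te Λ (Yit Gm ym k) Gm) P') := fun x =>
    ⟨(n2 x).1.trans hone, (n2 x).2.trans hone⟩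
  have e4 := H4 (ε := 0) H.X m1 m2 s1 s2 n1' n2' e3
  -- the parts
  have hid : ∀ {e : ℝ ≃o ℝ}, (∀ x, κ / 8 ≤ |x| → e x = x) → ∀ x, |x| ≤ E ta →
      Rop u f₁ f₁c f₂c e x = x := by
    intro e he x hx
    exact Rop_id H.X he (Or.inl ((le_abs_self x).trans (hx.trans H.E_ta)))
  have hpart : ∀ {e : ℝ ≃o ℝ}, e ∈ Dd → (∀ x, κ / 8 ≤ |x| → e x = x) → Near 1 e →
      ∃ m, IsLift E (Rop u f₁ f₁c f₂c e) (posPart E (Rop u f₁ f₁c f₂c e)) m := by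
    intro e he hs hn
    have h1 := (H4' H.X he hs zero_le_one le_rfl hn).1
    have h2 : Rop u f₁ f₁c f₂c e 0 = 0 := hid hs 0 (by rw [abs_zero]; exact (hE.pos ta).le)
    obtain ⟨m, -, hm⟩ := (posPart_spec (exists_parts hE h1 h2)).2
    exact ⟨m, hm⟩
  obtain ⟨p1, L1⟩ := hpart m1 s1 n1'
  obtain ⟨p2, L2⟩ := hpart m2 s2 n2'
  have e5 := H5 L1 L2 (hid s1) (hid s2) e4 t
  refine e5.trans ?_
  have e6 : C5 * (C4 * (C3 * (C2 * (K₀ + θ + 1) / Λ * (C1 * d)))) = M / Λ * d := by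
    rw [hM, hB]
    ring
  rw [e6]
  have e7 : M / Λ ≤ 1 / 2 := by
    rw [div_le_iff₀ hΛ0]
    linarith
  calc M / Λ * d ≤ 1 / 2 * d := mul_le_mul_of_nonneg_right e7 hd0
    _ = d / 2 := by ring

end FG
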