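import Pool.Agent.helper97.FG.B1b
import Pool.Agent.helper97.FG.B1c
import Pool.Agent.helper32.FolG.Base

/-!
author: helper12
# N0 : calculus of `Near` and `NT`
-/

set_option linter.unusedVariables false

open Set Filter Topology
open scoped commutatorElement
open Pool.Agent.helper35.FOL

namespace FG

variable {g h m : ℝ ≃o ℝ} {a b c d e η K : ℝ}

/-- `g` is `η`-close to the translation by `d` in the `C¹` sense, everywhere -/
def NT (d η : ℝ) (g : ℝ ≃o ℝ) : Prop := ∀ x, |g x - (x + d)| ≤ η ∧ |LD g x| ≤ η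

/-- almost Lipschitz -/
def AL (L ε : ℝ) (φ : ℝ → ℝ) : Prop := ∀ x y, |φ x - φ y| ≤ L * |x - y| + ε

private theorem inv_self (g : ℝ ≃o ℝ) (x : ℝ) : g⁻¹ (g x) = x := g.symm_apply_apply x

private theorem self_inv (g : ℝ ≃o ℝ) (x : ℝ) : g (g⁻¹ x) = x := g.apply_symm_apply x

theorem Near.mono (h1 : Near a g) (hab : a ≤ b) : Near b g :=
  fun x => ⟨(h1 x).1.trans hab, (h1 x).2.trans hab⟩

theorem Near.nonneg (h1 : Near a g) : 0 ≤ a := (abs_nonneg _).trans (h1 0).1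

theorem near_one (ha : 0 ≤ a) : Near a (1 : ℝ ≃o ℝ) := by
  intro x
  refine ⟨?_, ?_⟩
  · have : (1 : ℝ ≃o ℝ) x = x := rfl
    rw [this, sub_self, abs_zero]
    exact ha
  · rw [LD_one, abs_zero]
    exact ha

theorem near_tr {t : ℝ} (ht : |t| ≤ a) : Near a (tr t) := by
  intro x
  refine ⟨?_, ?_⟩
  · rw [tr_apply, add_sub_cancel_left]
    exact ht
  · rw [LD_tr, abs_zero]
    exact (abs_nonneg t).trans ht

theorem Near.mul (hg : g ∈ Dd) (hh : h ∈ Dd) (h1 : Near a g) (h2 : Near b h) : Near (a + b) (g * h) := by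
  intro x
  constructor
  · have e : (g * h) x - x = (g (h x) - h x) + (h x - x) := by
      change g (h x) - x = _
      ring
    rw [e]
    exact (abs_add_le _ _).trans (add_le_add (h1 _).1 (h2 _).1)
  · rw [LD_mul hg hh]
    exact (abs_add_le _ _).trans (add_le_add (h1 _).2 (h2 _).2)

theorem Near.inv (hg : g ∈ Dd) (h1 : Near a g) : Near a g⁻¹ := by
  intro x
  constructor
  · have h2 := (h1 (g⁻¹ x)).1
    rw [self_inv] at h2
    rw [abs_sub_comm]
    exact h2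
  · rw [LD_inv hg, abs_neg]
    exact (h1 _).2

theorem Near.pow (hg : g ∈ Dd) (h1 : Near a g) (k : ℕ) : Near (k * a) (g ^ k) := by
  induction k with
  | zero =>
    rw [pow_zero, Nat.cast_zero, zero_mul]
    exact near_one le_rfl
  | succ k ih =>
    rw [pow_succ, Nat.cast_succ, add_mul, one_mul]
    exact Near.mul (Dd.pow_mem hg k) hg ih h1

/-- conjugation by a translation -/
theorem Near.conj_tr (hg : g ∈ Dd) (h1 : Near a g) (t : ℝ) : Near a (tr t * g * (tr t)⁻¹) := by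
  intro x
  constructor
  · have e : (tr t * g * (tr t)⁻¹) x - x = g (x - t) - (x - t) := by
      change tr t (g ((tr t)⁻¹ x)) - x = _
      rw [tr_inv_apply, tr_apply]
      ring
    rw [e]
    exact (h1 _).1
  · have e : LD (tr t * g * (tr t)⁻¹) x = LD g (x - t) := by
      rw [LD_mul (Dd.mul_mem (tr_mem t) hg) (Dd.inv_mem (tr_mem t)), LD_mul (tr_mem t) hg,
        tr_inv, LD_tr, LD_tr, tr_apply, zero_add, add_zero, sub_eq_add_neg]
    rw [e]
    exact (h1 _).2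

/-- conjugation by a map with small `LD` -/
theorem Near.conj (hg : g ∈ Dd) (hm : m ∈ Dd) (h1 : Near a g) (hb : b ≤ 1 / 2) (h2 : ∀ x, |LD m x| ≤ b) :
    Near (2 * a + 2 * b) (m * g * m⁻¹) ∧ (∀ x, |(m * g * m⁻¹) x - x| ≤ 2 * a) ∧
      ∀ x, |LD (m * g * m⁻¹) x| ≤ a + 2 * b := by
  have ha := h1.nonneg
  have hb0 : 0 ≤ b := (abs_nonneg _).trans (h2 0)
  have e1 : ∀ x, |(m * g * m⁻¹) x - x| ≤ 2 * a := by
    intro x
    have h3 : (m * g * m⁻¹) x - x = m (g (m⁻¹ x)) - m (m⁻¹ x) := by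
      rw [self_inv]
      rfl
    rw [h3]
    refine (abs_sub_le_exp hm (s := 1 / 2) fun z _ => ((abs_le.1 (h2 z)).2).trans hb).trans ?_
    have h4 : Real.exp (1 / 2) ≤ 2 := by
      have h5 : Real.exp (1 / 2) * Real.exp (1 / 2) = Real.exp 1 := by
        rw [← Real.exp_add]
        norm_num
      have h6 := Real.exp_one_lt_d9
      nlinarith [Real.exp_pos (1 / 2)]
    exact mul_le_mul h4 (h1 _).1 (abs_nonneg _) (by norm_num)
  have e2 : ∀ x, |LD (m * g * m⁻¹) x| ≤ a + 2 * b := by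
    intro x
    rw [LD_mul (Dd.mul_mem hm hg) (Dd.inv_mem hm), LD_mul hm hg, LD_inv hm]
    have h3 := abs_le.1 (h2 (g (m⁻¹ x)))
    have h4 := abs_le.1 ((h1 (m⁻¹ x)).2)
    have h5 := abs_le.1 (h2 (m⁻¹ x))
    rw [abs_le]
    constructor <;> linarith
  exact ⟨fun x => ⟨(e1 x).trans (by linarith), (e2 x).trans (by linarith)⟩, e1, e2⟩

theorem NT.mono (h1 : NT d a g) (hab : a ≤ b) : NT d b g :=
  fun x => ⟨(h1 x).1.trans hab, (h1 x).2.trans hab⟩

theorem NT.near (h1 : NT d a g) : Near (|d| + a) g := by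
  intro x
  constructor
  · have e : g x - x = d + (g x - (x + d)) := by ring
    rw [e]
    exact (abs_add_le _ _).trans (add_le_add le_rfl (h1 x).1)
  · exact (h1 x).2.trans (by linarith [abs_nonneg d])

theorem NT_zero : NT 0 a g ↔ Near a g := by
  unfold NT Near
  simp only [add_zero]

/-- two maps close to translations almost commute -/
theorem NT.commutator (hg : g ∈ Dd) (hh : h ∈ Dd) (h1 : NT d a g) (h2 : NT e b h) :
    Near (2 * a + 2 * b) ⁅g, h⁆ := by
  intro x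
  have hx : h (g (g⁻¹ (h⁻¹ x))) = x := by rw [self_inv, self_inv]
  constructor
  · have h3 : ⁅g, h⁆ x - x = g (h (g⁻¹ (h⁻¹ x))) - h (g (g⁻¹ (h⁻¹ x))) := by
      rw [hx]
      rfl
    rw [h3]
    generalize g⁻¹ (h⁻¹ x) = y
    have a1 := abs_le.1 (h1 (h y)).1
    have a2 := abs_le.1 (h2 y).1
    have a3 := abs_le.1 (h1 y).1
    have a4 := abs_le.1 (h2 (g y)).1
    rw [abs_le]
    constructor <;> linarith
  · have h3 : LD ⁅g, h⁆ x = LD g (h (g⁻¹ (h⁻¹ x))) + LD h (g⁻¹ (h⁻¹ x)) - LD g (g⁻¹ (h⁻¹ x)) -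
        LD h (g (g⁻¹ (h⁻¹ x))) := by
      rw [commutatorElement_def, LD_mul (Dd.mul_mem (Dd.mul_mem hg hh) (Dd.inv_mem hg))
        (Dd.inv_mem hh), LD_mul (Dd.mul_mem hg hh) (Dd.inv_mem hg), LD_mul hg hh, LD_inv hg,
        LD_inv hh, self_inv g]
      ring
    rw [h3]
    generalize g⁻¹ (h⁻¹ x) = y
    have a1 := abs_le.1 (h1 (h y)).2
    have a2 := abs_le.1 (h2 y).2
    have a3 := abs_le.1 (h1 y).2
    have a4 := abs_le.1 (h2 (g y)).2
    rw [abs_le]
    constructor <;> linarith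

/-- a glued map is near if both pieces are -/
theorem Near.of_pieces (hg : g ∈ Dd) (h1 : ∀ x, x ≤ c → |g x - x| ≤ a) (h2 : ∀ x, c ≤ x → |g x - x| ≤ a)
    (h3 : ∀ x, x < c → |LD g x| ≤ a) (h4 : ∀ x, c < x → |LD g x| ≤ a) : Near a g := by
  have hcl : IsClosed {x | |LD g x| ≤ a} :=
    isClosed_le (continuous_LD hg).abs continuous_const
  have hc : |LD g c| ≤ a := by
    have h5 : closure (Iio c) ⊆ {x | |LD g x| ≤ a} := hcl.closure_subset_iff.2 fun x hx => h3 x hx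
    rw [closure_Iio] at h5
    exact h5 (mem_Iic.2 le_rfl)
  intro x
  rcases lt_trichotomy x c with hx | rfl | hx
  · exact ⟨h1 x hx.le, h3 x hx⟩
  · exact ⟨h1 x le_rfl, hc⟩
  · exact ⟨h2 x hx.le, h4 x hx⟩

end FG
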