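import Pool.Agent.helper97.FG.N0

/-!
author: helper12
# N0b : locality of words

If the maps agree on `[z, ∞)` and displace the points of `[z, z + k e]` by at most `e`, then words of length `k` agree
on `[z + k e, ∞)`: each letter `g` (or `g⁻¹`) maps `[z + j e, ∞)` into `[z + (j-1) e, ∞)`.
-/

set_option linter.unusedVariables false

open Set Filter Topology
open scoped commutatorElement
open Pool.Agent.helper35.FOL
open Pool.Agent.helper32.FolG (Q4 InDd wrd Fx)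

namespace FG

variable {u c u' c' : ℝ ≃o ℝ} {z e : ℝ} {P R : Q4}

/-- the letters `f`, `f'` agree on `S (j+1)` and map it into `S j` -/
private def Gd (S : ℕ → Set ℝ) (k : ℕ) (f f' : ℝ ≃o ℝ) : Prop :=
  ∀ j < k, ∀ x ∈ S (j + 1), f x = f' x ∧ f x ∈ S j

private theorem gd_list {S : ℕ → Set ℝ} {k : ℕ} (L : List ((ℝ ≃o ℝ) × (ℝ ≃o ℝ)))
    (hL : ∀ p ∈ L, Gd S k p.1 p.2) (i : ℕ) (hi : L.length + i ≤ k) :
    ∀ x ∈ S (L.length + i), (L.map Prod.fst).prod x = (L.map Prod.snd).prod x ∧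
      (L.map Prod.fst).prod x ∈ S i := by
  induction L generalizing i with
  | nil =>
    intro x hx
    rw [List.length_nil, zero_add] at hx
    exact ⟨rfl, hx⟩
  | cons p L ih =>
    intro x hx
    rw [List.length_cons] at hi hx
    have h1 := ih (fun q hq => hL q (List.mem_cons_of_mem _ hq)) (i + 1) (by omega) x (by
      have : L.length + (i + 1) = L.length + 1 + i := by omega
      rw [this]
      exact hx)
    have h2 := hL p List.mem_cons_self i (by omega) _ h1.2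
    have e1 : (List.map Prod.fst (p :: L)).prod x = p.1 ((List.map Prod.fst L).prod x) := by
      rw [List.map_cons, List.prod_cons]
      rfl
    have e2 : (List.map Prod.snd (p :: L)).prod x = p.2 ((List.map Prod.snd L).prod x) := by
      rw [List.map_cons, List.prod_cons]
      rfl
    rw [e1, e2, ← h1.1]
    exact h2

private theorem gd_comm {S : ℕ → Set ℝ} (hu : Gd S 4 u u') (hui : Gd S 4 u⁻¹ u'⁻¹)
    (hc : Gd S 4 c c') (hci : Gd S 4 c⁻¹ c'⁻¹) :
    ∀ x ∈ S 4, ⁅u, c⁆ x = ⁅u', c'⁆ x ∧ ⁅u, c⁆⁻¹ x = ⁅u', c'⁆⁻¹ x := by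
  intro x hx
  constructor
  · have h1 := gd_list (S := S) (k := 4) [(u, u'), (c, c'), (u⁻¹, u'⁻¹), (c⁻¹, c'⁻¹)] (by
      intro p hp
      simp only [List.mem_cons, List.not_mem_nil, or_false] at hp
      rcases hp with rfl | rfl | rfl | rfl <;> assumption) 0 (by simp) x hx
    have h2 := h1.1
    simp only [List.map_cons, List.map_nil, List.prod_cons, List.prod_nil, mul_one] at h2
    rw [commutatorElement_def, commutatorElement_def, mul_assoc, mul_assoc, mul_assoc (u' * c'),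
      mul_assoc]
    exact h2
  · rw [commutatorElement_inv, commutatorElement_inv]
    have h1 := gd_list (S := S) (k := 4) [(c, c'), (u, u'), (c⁻¹, c'⁻¹), (u⁻¹, u'⁻¹)] (by
      intro p hp
      simp only [List.mem_cons, List.not_mem_nil, or_false] at hp
      rcases hp with rfl | rfl | rfl | rfl <;> assumption) 0 (by simp) x hx
    have h2 := h1.1
    simp only [List.map_cons, List.map_nil, List.prod_cons, List.prod_nil, mul_one] at h2
    rw [commutatorElement_def, commutatorElement_def, mul_assoc, mul_assoc, mul_assoc (c' * u'),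
      mul_assoc]
    exact h2

private theorem gd_wrd {S : ℕ → Set ℝ} (h : ∀ i, Gd S 8 (P i) (R i))
    (hi : ∀ i, Gd S 8 (P i)⁻¹ (R i)⁻¹) : ∀ x ∈ S 8, wrd P x = wrd R x := by
  intro x hx
  have h1 := gd_list (S := S) (k := 8) [(P 0, R 0), (P 1, R 1), ((P 0)⁻¹, (R 0)⁻¹),
    ((P 1)⁻¹, (R 1)⁻¹), (P 2, R 2), (P 3, R 3), ((P 2)⁻¹, (R 2)⁻¹), ((P 3)⁻¹, (R 3)⁻¹)] (by
      intro p hp
      simp only [List.mem_cons, List.not_mem_nil, or_false] at hp
      rcases hp with rfl | rfl | rfl | rfl | rfl | rfl | rfl | rfl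
      · exact h 0
      · exact h 1
      · exact hi 0
      · exact hi 1
      · exact h 2
      · exact h 3
      · exact hi 2
      · exact hi 3) 0 (by simp) x hx
  have h2 := h1.1
  simp only [List.map_cons, List.map_nil, List.prod_cons, List.prod_nil, mul_one] at h2
  have e1 : ∀ Q : Q4, wrd Q = Q 0 * (Q 1 * ((Q 0)⁻¹ * ((Q 1)⁻¹ * (Q 2 * (Q 3 * ((Q 2)⁻¹ *
      (Q 3)⁻¹)))))) := by
    intro Q
    unfold wrd
    rw [commutatorElement_def, commutatorElement_def]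
    simp only [mul_assoc]
  rw [e1 P, e1 R]
  exact h2

private theorem inv_eq_of {g g' : ℝ ≃o ℝ} {x : ℝ} (h : g (g⁻¹ x) = g' (g⁻¹ x)) :
    g⁻¹ x = g'⁻¹ x := by
  have h1 : g (g⁻¹ x) = x := g.apply_symm_apply x
  rw [h1] at h
  have h2 : g'⁻¹ (g' (g⁻¹ x)) = g⁻¹ x := g'.symm_apply_apply _
  rw [← h] at h2
  exact h2.symm

private theorem le_inv {g : ℝ ≃o ℝ} {x y : ℝ} (h : g y ≤ x) : y ≤ g⁻¹ x := by
  have h2 : g⁻¹ (g y) = y := g.symm_apply_apply y
  rw [← h2]
  exact (g⁻¹).monotone h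

private theorem inv_le' {g : ℝ ≃o ℝ} {x y : ℝ} (h : x ≤ g y) : g⁻¹ x ≤ y := by
  have h2 : g⁻¹ (g y) = y := g.symm_apply_apply y
  rw [← h2]
  exact (g⁻¹).monotone h

/-! right half-lines -/

private theorem gd_right {g g' : ℝ ≃o ℝ} {k : ℕ} (he : 0 ≤ e) (h : ∀ x, z ≤ x → g x = g' x)
    (hd : ∀ x ∈ Icc z (z + k * e), |g x - x| ≤ e) :
    Gd (fun j => Ici (z + j * e)) k g g' ∧ Gd (fun j => Ici (z + j * e)) k g⁻¹ g'⁻¹ := by
  constructor
  · intro j hj x hx
    rw [mem_Ici] at hx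
    push_cast at hx
    have hj0 : (0 : ℝ) ≤ j := Nat.cast_nonneg j
    have hj1 : (j : ℝ) + 1 ≤ k := by exact_mod_cast hj
    have h0 : 0 ≤ ((j : ℝ) + 1) * e := by positivity
    refine ⟨h x (by linarith), ?_⟩
    rw [mem_Ici]
    have h1 := (abs_le.1 (hd (z + (j + 1) * e) ⟨by linarith, by
      have := mul_le_mul_of_nonneg_right hj1 he
      linarith⟩)).1
    have h2 := g.monotone hx
    linarith
  · intro j hj x hx
    rw [mem_Ici] at hx
    push_cast at hx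
    have hj0 : (0 : ℝ) ≤ j := Nat.cast_nonneg j
    have hj1 : (j : ℝ) ≤ k := by
      have : (j : ℝ) < k := by exact_mod_cast hj
      exact this.le
    have h0 : 0 ≤ (j : ℝ) * e := by positivity
    have h1 := (abs_le.1 (hd (z + j * e) ⟨by linarith, by
      have := mul_le_mul_of_nonneg_right hj1 he
      linarith⟩)).2
    have h2 : z + j * e ≤ g⁻¹ x := le_inv (by linarith)
    exact ⟨inv_eq_of (h _ (by linarith)), h2⟩

/-! left half-lines -/

private theorem gd_left {g g' : ℝ ≃o ℝ} {k : ℕ} (he : 0 ≤ e) (h : ∀ x, x ≤ z → g x = g' x)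
    (hd : ∀ x ∈ Icc (z - k * e) z, |g x - x| ≤ e) :
    Gd (fun j => Iic (z - j * e)) k g g' ∧ Gd (fun j => Iic (z - j * e)) k g⁻¹ g'⁻¹ := by
  constructor
  · intro j hj x hx
    rw [mem_Iic] at hx
    push_cast at hx
    have hj0 : (0 : ℝ) ≤ j := Nat.cast_nonneg j
    have hj1 : (j : ℝ) + 1 ≤ k := by exact_mod_cast hj
    have h0 : 0 ≤ ((j : ℝ) + 1) * e := by positivity
    refine ⟨h x (by linarith), ?_⟩
    rw [mem_Iic]
    have h1 := (abs_le.1 (hd (z - (j + 1) * e) ⟨by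
      have := mul_le_mul_of_nonneg_right hj1 he
      linarith, by linarith⟩)).2
    have h2 := g.monotone hx
    linarith
  · intro j hj x hx
    rw [mem_Iic] at hx
    push_cast at hx
    have hj0 : (0 : ℝ) ≤ j := Nat.cast_nonneg j
    have hj1 : (j : ℝ) ≤ k := by
      have : (j : ℝ) < k := by exact_mod_cast hj
      exact this.le
    have h0 : 0 ≤ (j : ℝ) * e := by positivity
    have h1 := (abs_le.1 (hd (z - j * e) ⟨by
      have := mul_le_mul_of_nonneg_right hj1 he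
      linarith, by linarith⟩)).1
    have h2 : g⁻¹ x ≤ z - j * e := inv_le' (by linarith)
    exact ⟨inv_eq_of (h _ (by linarith)), h2⟩

/-! intervals -/

private theorem gd_Icc {g g' : ℝ ≃o ℝ} {a b : ℝ} {k : ℕ} (he : 0 ≤ e)
    (h : ∀ x ∈ Icc a b, g x = g' x) (hd : ∀ x ∈ Icc a b, |g x - x| ≤ e) :
    Gd (fun j => Icc (a + j * e) (b - j * e)) k g g' ∧
      Gd (fun j => Icc (a + j * e) (b - j * e)) k g⁻¹ g'⁻¹ := by
  constructor
  · intro j hj x hx
    obtain ⟨hx1, hx2⟩ := hx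
    push_cast at hx1 hx2
    have hj0 : (0 : ℝ) ≤ j := Nat.cast_nonneg j
    have h0 : 0 ≤ ((j : ℝ) + 1) * e := by positivity
    have hx : x ∈ Icc a b := ⟨by linarith, by linarith⟩
    have h1 := abs_le.1 (hd x hx)
    exact ⟨h x hx, by linarith [h1.1], by linarith [h1.2]⟩
  · intro j hj x hx
    obtain ⟨hx1, hx2⟩ := hx
    push_cast at hx1 hx2
    have hj0 : (0 : ℝ) ≤ j := Nat.cast_nonneg j
    have h0 : 0 ≤ (j : ℝ) * e := by positivity
    have h1 := (abs_le.1 (hd (a + j * e) ⟨by linarith, by linarith⟩)).2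
    have h2 := (abs_le.1 (hd (b - j * e) ⟨by linarith, by linarith⟩)).1
    have h3 : a + j * e ≤ g⁻¹ x := le_inv (by linarith)
    have h4 : g⁻¹ x ≤ b - j * e := inv_le' (by linarith)
    exact ⟨inv_eq_of (h _ ⟨by linarith, by linarith⟩), h3, h4⟩

theorem comm_congr_right (he : 0 ≤ e) (hu : ∀ x, z ≤ x → u x = u' x) (hc : ∀ x, z ≤ x → c x = c' x)
    (hu' : ∀ x ∈ Icc z (z + 4 * e), |u x - x| ≤ e) (hc' : ∀ x ∈ Icc z (z + 4 * e), |c x - x| ≤ e) :
    ∀ x, z + 4 * e ≤ x → ⁅u, c⁆ x = ⁅u', c'⁆ x ∧ ⁅u, c⁆⁻¹ x = ⁅u', c'⁆⁻¹ x := by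
  intro x hx
  have h1 := gd_right (k := 4) he hu (by exact_mod_cast hu')
  have h2 := gd_right (k := 4) he hc (by exact_mod_cast hc')
  exact gd_comm h1.1 h1.2 h2.1 h2.2 x (by
    rw [mem_Ici]
    exact_mod_cast hx)

theorem comm_congr_left (he : 0 ≤ e) (hu : ∀ x, x ≤ z → u x = u' x) (hc : ∀ x, x ≤ z → c x = c' x)
    (hu' : ∀ x ∈ Icc (z - 4 * e) z, |u x - x| ≤ e) (hc' : ∀ x ∈ Icc (z - 4 * e) z, |c x - x| ≤ e) :
    ∀ x, x ≤ z - 4 * e → ⁅u, c⁆ x = ⁅u', c'⁆ x ∧ ⁅u, c⁆⁻¹ x = ⁅u', c'⁆⁻¹ x := by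
  intro x hx
  have h1 := gd_left (k := 4) he hu (by exact_mod_cast hu')
  have h2 := gd_left (k := 4) he hc (by exact_mod_cast hc')
  exact gd_comm h1.1 h1.2 h2.1 h2.2 x (by
    rw [mem_Iic]
    exact_mod_cast hx)

theorem wrd_congr_right (he : 0 ≤ e) (h : ∀ i x, z ≤ x → P i x = R i x)
    (h' : ∀ i, ∀ x ∈ Icc z (z + 8 * e), |P i x - x| ≤ e) : ∀ x, z + 8 * e ≤ x → wrd P x = wrd R x := by
  intro x hx
  have h1 : ∀ i, _ := fun i => gd_right (k := 8) he (h i) (by exact_mod_cast h' i)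
  exact gd_wrd (fun i => (h1 i).1) (fun i => (h1 i).2) x (by
    rw [mem_Ici]
    exact_mod_cast hx)

theorem wrd_congr_left (he : 0 ≤ e) (h : ∀ i x, x ≤ z → P i x = R i x)
    (h' : ∀ i, ∀ x ∈ Icc (z - 8 * e) z, |P i x - x| ≤ e) : ∀ x, x ≤ z - 8 * e → wrd P x = wrd R x := by
  intro x hx
  have h1 : ∀ i, _ := fun i => gd_left (k := 8) he (h i) (by exact_mod_cast h' i)
  exact gd_wrd (fun i => (h1 i).1) (fun i => (h1 i).2) x (by
    rw [mem_Iic]
    exact_mod_cast hx)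

/-- the same on an interval: agreement on `[a, b]` only -/
theorem wrd_congr_Icc {a b : ℝ} (he : 0 ≤ e) (h : ∀ i, ∀ x ∈ Icc a b, P i x = R i x)
    (h' : ∀ i, ∀ x ∈ Icc a b, |P i x - x| ≤ e) : ∀ x ∈ Icc (a + 8 * e) (b - 8 * e), wrd P x = wrd R x := by
  intro x hx
  have h1 : ∀ i, _ := fun i => gd_Icc (k := 8) he (h i) (h' i)
  exact gd_wrd (fun i => (h1 i).1) (fun i => (h1 i).2) x (by exact_mod_cast hx)

end FG
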