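import Pool.Agent.helper97.FG.N0b

/-!
author: helper59
# N0c : gluing quadruples
-/

set_option linter.unusedVariables false

open Set Filter Topology
open scoped commutatorElement
open Pool.Agent.helper35.FOL
open Pool.Agent.helper32.FolG (Q4 InDd wrd Fx)

namespace FG

variable {P R : Q4}

/-- `P` on the left of `z`, `R` on the right (`exists_glue` with `p = z - 1/2`, `q = z + 1/2`; then locality) -/
theorem glue_quad (hP : InDd P) (hR : InDd R) {z : ℝ} (hag : ∀ i x, |x - z| ≤ 1 / 2 → P i x = R i x)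
    (hd : ∀ i x, |x - z| ≤ 1 / 2 → |P i x - x| ≤ 1 / 32) :
    ∃ Q : Q4, InDd Q ∧ (∀ i x, x ≤ z + 1 / 2 → Q i x = P i x) ∧ (∀ i x, z - 1 / 2 ≤ x → Q i x = R i x) ∧
      (∀ x, x ≤ z → wrd Q x = wrd P x) ∧ (∀ x, z ≤ x → wrd Q x = wrd R x) ∧
      (∀ i x, x ≤ z → LD (Q i) x = LD (P i) x) ∧ ∀ i x, z ≤ x → LD (Q i) x = LD (R i) x := by
  have hex : ∀ i, ∃ k ∈ Dd, (∀ x, x < z + 1 / 2 → k x = P i x) ∧ ∀ x, z - 1 / 2 < x → k x = R i x :=
    fun i => exists_glue (hP i) (hR i) (by linarith) fun x h1 h2 =>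
      hag i x (abs_le.2 ⟨by linarith, by linarith⟩)
  choose Q hQ hQl hQr using hex
  have hl : ∀ i x, x ≤ z + 1 / 2 → Q i x = P i x := by
    intro i x hx
    rcases hx.lt_or_eq with h | h
    · exact hQl i x h
    · rw [hQr i x (by linarith), hag i x (abs_le.2 ⟨by linarith, by linarith⟩)]
  have hr : ∀ i x, z - 1 / 2 ≤ x → Q i x = R i x := by
    intro i x hx
    rcases hx.lt_or_eq with h | h
    · exact hQr i x h
    · rw [hQl i x (by linarith), hag i x (abs_le.2 ⟨by linarith, by linarith⟩)]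
  refine ⟨Q, hQ, hl, hr, fun x hx => ?_, fun x hx => ?_, fun i x hx => ?_, fun i x hx => ?_⟩
  · refine wrd_congr_left (e := 1 / 32) (z := z + 1 / 2) (by norm_num) hl ?_ x (by linarith)
    intro i y hy
    rw [hl i y hy.2]
    exact hd i y (abs_le.2 ⟨by linarith [hy.1], by linarith [hy.2]⟩)
  · refine wrd_congr_right (e := 1 / 32) (z := z - 1 / 2) (by norm_num) hr ?_ x (by linarith)
    intro i y hy
    have hy' : |y - z| ≤ 1 / 2 := abs_le.2 ⟨by linarith [hy.1], by linarith [hy.2]⟩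
    rw [hr i y hy.1, ← hag i y hy']
    exact hd i y hy'
  · apply LD_congr
    filter_upwards [Iio_mem_nhds (show x < z + 1 / 2 by linarith)] with y hy
    exact hl i y (le_of_lt hy)
  · apply LD_congr
    filter_upwards [Ioi_mem_nhds (show z - 1 / 2 < x by linarith)] with y hy
    exact hr i y (le_of_lt hy)

/-- reflection of a quadruple -/
theorem wrd_refl (c : ℝ) (q : Q4) : wrd (fun i => refl c (q i)) = refl c (wrd q) := by
  unfold wrd
  rw [refl_mul, refl_commutator, refl_commutator]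

/-- conjugation of a quadruple -/
theorem wrd_conj (c : ℝ ≃o ℝ) (q : Q4) : wrd (fun i => c * q i * c⁻¹) = c * wrd q * c⁻¹ := by
  unfold wrd
  simp only [commutatorElement_def]
  group

end FG
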