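import Pool.Agent.helper97.FG.N0

/-!
# N7 : the start lemma
author: helper23

`β = (T⁻¹ f)^k T^k` with `T = tr (σ δ)`, `k` large (`(k-1) δ ≥ 2 R + 4`): `β = id` where `T^k x` is beyond the support of
`f`, and `T β T⁻¹ = f β` at the points `x` with `T^(k-1) x` beyond the support of `f`.
`(T⁻¹ f)^k T^k = ∏_{j=1}^k T^{-j} f T^j`, so `Near (k η) β`.
-/

set_option linter.unusedVariables false

open Set Filter Topology
open scoped commutatorElement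
open Pool.Agent.helper35.FOL

namespace FG

/-- the product `∏_{j=1}^k T^{-j} f T^j` -/
private theorem N7_near {t η : ℝ} {f : ℝ ≃o ℝ} (hf : f ∈ Dd) (hη : Near η f) (k : ℕ) :
    Near (k * η) (((tr t)⁻¹ * f) ^ k * tr t ^ k) := by
  induction k with
  | zero =>
    rw [pow_zero, pow_zero, one_mul, Nat.cast_zero, zero_mul]
    exact near_one le_rfl
  | succ k ih =>
    have hT : tr t ∈ Dd := tr_mem t
    have hm : ((tr t)⁻¹ * f) ^ k * tr t ^ k ∈ Dd :=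
      Dd.mul_mem (Dd.pow_mem (Dd.mul_mem (Dd.inv_mem hT) hf) k) (Dd.pow_mem hT k)
    have e : ((tr t)⁻¹ * f) ^ (k + 1) * tr t ^ (k + 1) =
        (tr (-t) * f * (tr (-t))⁻¹) * (tr (-t) * (((tr t)⁻¹ * f) ^ k * tr t ^ k) * (tr (-t))⁻¹) := by
      rw [← tr_inv, inv_inv, pow_succ', pow_succ (tr t) k]
      group
    rw [e, Nat.cast_succ, add_mul, one_mul, add_comm]
    have h1 := Near.conj_tr hf hη (-t)
    have h2 := Near.conj_tr hm ih (-t)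
    have hT' : tr (-t) ∈ Dd := tr_mem (-t)
    exact Near.mul (Dd.mul_mem (Dd.mul_mem hT' hf) (Dd.inv_mem hT'))
      (Dd.mul_mem (Dd.mul_mem hT' hm) (Dd.inv_mem hT')) h1 h2

theorem exists_start {R δ : ℝ} (hR : 0 ≤ R) (hδ : 0 < δ) (hδ1 : δ ≤ 1) {ε : ℝ} (hε : 0 < ε) :
    ∃ η : ℝ, 0 < η ∧ ∀ {σ z : ℝ} {f : ℝ ≃o ℝ}, (σ = 1 ∨ σ = -1) → f ∈ Dd → Near η f →
      (∀ x, R ≤ |x - z| → f x = x) →
      ∃ β ∈ Dd, Near ε β ∧ ∀ x, |x - z| ≤ R → ⁅tr (σ * δ), β⁆ x = f x := by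
  obtain ⟨m, hm⟩ := exists_nat_ge ((2 * R + 1) / δ)
  have hm' : 2 * R + 1 ≤ m * δ := (div_le_iff₀ hδ).1 hm
  have hmin : 0 < min ε 1 := lt_min hε one_pos
  refine ⟨min ε 1 / ((m + 1 : ℕ) : ℝ), by positivity, ?_⟩
  intro σ z f hσ hf hη hsupp
  set T : ℝ ≃o ℝ := tr (σ * δ) with hT
  have hTm : T ∈ Dd := tr_mem _
  set β : ℝ ≃o ℝ := (T⁻¹ * f) ^ (m + 1) * T ^ (m + 1) with hβ
  have hβm : β ∈ Dd :=
    Dd.mul_mem (Dd.pow_mem (Dd.mul_mem (Dd.inv_mem hTm) hf) _) (Dd.pow_mem hTm _)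
  have hN : Near (min ε 1) β := by
    have h1 := N7_near (t := σ * δ) hf hη (m + 1)
    have h2 : ((m + 1 : ℕ) : ℝ) * (min ε 1 / ((m + 1 : ℕ) : ℝ)) = min ε 1 := by
      field_simp
    rw [h2] at h1
    exact h1
  refine ⟨β, hβm, hN.mono (min_le_left _ _), ?_⟩
  intro x hx
  obtain ⟨y, rfl⟩ : ∃ y, β y = x := ⟨β⁻¹ x, β.apply_symm_apply x⟩
  have hy : |β y - y| ≤ 1 := (hN y).1.trans (min_le_right _ _)
  have hTy : (T ^ (m + 1)) y = y + ((m + 1 : ℕ) : ℝ) * (σ * δ) := tr_pow_apply _ _ _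
  have hfix : f ((T ^ (m + 1)) y) = (T ^ (m + 1)) y := by
    apply hsupp
    rw [hTy]
    have a1 := abs_le.1 hx
    have a2 := abs_le.1 hy
    have h3 : 2 * R + 1 ≤ ((m + 1 : ℕ) : ℝ) * δ := by
      push_cast
      linarith
    rcases hσ with rfl | rfl
    · rw [le_abs]
      left
      linarith
    · rw [le_abs]
      right
      have h4 : ((m + 1 : ℕ) : ℝ) * (-1 * δ) = -(((m + 1 : ℕ) : ℝ) * δ) := by ring
      rw [h4]
      linarith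
  have e1 : T * β * T⁻¹ = f * ((T⁻¹ * f) ^ m * T ^ m) := by
    rw [hβ, pow_succ' (T⁻¹ * f) m, pow_succ T m]
    simp only [mul_assoc, mul_inv_cancel_left, mul_inv_cancel, mul_one]
  have e2 : β y = ((T⁻¹ * f) ^ m * T ^ m) y := by
    have h5 : β = (T⁻¹ * f) ^ m * (T⁻¹ * f * T ^ (m + 1)) := by
      rw [hβ, pow_succ (T⁻¹ * f) m]
      group
    have h6 : (T⁻¹ * f * T ^ (m + 1)) y = (T ^ m) y := by
      change T⁻¹ (f ((T ^ (m + 1)) y)) = _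
      rw [hfix, pow_succ' T m]
      exact T.symm_apply_apply _
    rw [h5]
    change ((T⁻¹ * f) ^ m) ((T⁻¹ * f * T ^ (m + 1)) y) = ((T⁻¹ * f) ^ m) ((T ^ m) y)
    rw [h6]
  have e3 : ⁅T, β⁆ (β y) = (T * β * T⁻¹) y := by
    change (T * β * T⁻¹) (β⁻¹ (β y)) = _
    congr 1
    exact β.symm_apply_apply y
  rw [e3, e1]
  change f (((T⁻¹ * f) ^ m * T ^ m) y) = _
  rw [← e2]

end FG
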