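import Pool.Agent.helper97.FG.N8d
import Pool.Agent.helper97.FG.N7
import Pool.Agent.helper97.FG.N0d

/-!
# N11 : chains of cells

author: helper58

Induction on `m ≥ 1`; `m = 1` is `cell`.  Step: `z = a + m ℓ`, `σ_m = (-1)^m σ`.  Cut `f` to the window
`[z - 9, z + 9]` (`exists_cutNT` with `d = 0`: `f' = f` on `|x - z| ≤ 8`, `f' = id` for `|x - z| ≥ 9`), `β` from `exists_start` with
`R = 9`, `ε = δ`.  The induction hypothesis on `[a, z]` with `βr = β`, the cell on `[z, z + ℓ]` with `βl = β`, glue at `z`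
(`glue_quad`; both sides are `(x + σ_m δ, β, x + δ, id)` for `|x - z| ≤ 1/2`).
-/

set_option linter.unusedVariables false

open Set Filter Topology
open scoped commutatorElement
open Pool.Agent.helper35.FOL
open Pool.Agent.helper32.FolG (Q4 InDd wrd Fx)

namespace FG

/-- gluing two segments -/
private theorem seg_glue {δ K σ σ' σ'' a z b : ℝ} {f βl β βr : ℝ ≃o ℝ} {P R : Q4} (haz : a ≤ z)
    (hzb : z ≤ b) (hK : K * δ ≤ 1 / 32) (hP : Seg δ K σ σ' a z f βl β P)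
    (hR : Seg δ K σ' σ'' z b f β βr R) : ∃ Q : Q4, Seg δ K σ σ'' a b f βl βr Q := by
  have hag : ∀ i x, |x - z| ≤ 1 / 2 → P i x = R i x := by
    intro i x hx
    obtain ⟨hx1, hx2⟩ := abs_le.1 hx
    obtain ⟨p0, p1, p3⟩ := hP.right x (by linarith)
    obtain ⟨r0, r1, r3⟩ := hR.left x (by linarith)
    fin_cases i
    · exact p0.trans r0.symm
    · exact p1.trans r1.symm
    · exact (hP.two x).trans (hR.two x).symm
    · exact p3.trans r3.symm
  have hd : ∀ i x, |x - z| ≤ 1 / 2 → |P i x - x| ≤ 1 / 32 := fun i x _ =>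
    ((hP.near i) x).1.trans hK
  obtain ⟨Q, hQ, h1, h2, h3, h4, h5, h6⟩ := glue_quad hP.mem hR.mem hag hd
  refine ⟨Q, hQ, fun x hx => ?_, fun x hx => ?_, fun x => ?_, fun i x => ?_, fun x hx => ?_⟩
  · rw [h1 0 x (by linarith), h1 1 x (by linarith), h1 3 x (by linarith)]
    exact hP.left x hx
  · rw [h2 0 x (by linarith), h2 1 x (by linarith), h2 3 x (by linarith)]
    exact hR.right x hx
  · rcases le_total x z with h | h
    · rw [h1 2 x (by linarith), hP.two x]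
    · rw [h2 2 x (by linarith), hR.two x]
  · rcases le_total x z with h | h
    · rw [h1 i x (by linarith), h5 i x h]
      exact (hP.near i) x
    · rw [h2 i x (by linarith), h6 i x h]
      exact (hR.near i) x
  · rcases le_total x z with h | h
    · rw [h3 x h]
      exact hP.eq x ⟨hx.1, h⟩
    · rw [h4 x h]
      exact hR.eq x ⟨h, hx.2⟩

theorem chain {A : ℝ} (hA : 1 ≤ A) : ∃ A' δ₀ : ℝ, 1 ≤ A' ∧ 0 < δ₀ ∧ ∀ δ : ℝ, 0 < δ → δ ≤ δ₀ →
    ∃ η : ℝ, 0 < η ∧ ∀ {m : ℕ} {σ a ℓ : ℝ} {f βl βr : ℝ ≃o ℝ}, 1 ≤ m → (σ = 1 ∨ σ = -1) → 8 ≤ ℓ → ℓ ≤ 16 →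
      f ∈ Dd → βl ∈ Dd → βr ∈ Dd → Near η f → (∃ X : ℝ, ∀ x, X ≤ |x| → f x = x) →
      Near (A * δ) βl → Near (A * δ) βr →
      (∀ x ∈ Icc (a - 5) (a + 7), ⁅tr (σ * δ), βl⁆ x = f x) →
      (∀ x ∈ Icc (a + m * ℓ - 7) (a + m * ℓ + 5), ⁅tr ((-1) ^ m * σ * δ), βr⁆ x = f x) →
      ∃ Q : Q4, Seg δ A' σ ((-1) ^ m * σ) a (a + m * ℓ) f βl βr Q := by
  obtain ⟨A', δ₀, hA', hδ₀, hcell⟩ := cell hA
  obtain ⟨C₀, hC₀, hcut⟩ := exists_cutNT
  have hC0 : 0 < C₀ := by linarith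
  have hA0 : 0 < A' := by linarith
  refine ⟨A', min δ₀ (1 / (32 * A')), hA', lt_min hδ₀ (by positivity), fun δ hδ hδle => ?_⟩
  have hδ1 : δ ≤ δ₀ := hδle.trans (min_le_left _ _)
  have hδ2 : δ ≤ 1 / (32 * A') := hδle.trans (min_le_right _ _)
  have hK : A' * δ ≤ 1 / 32 := by
    rw [le_div_iff₀ (by positivity)] at hδ2
    linarith
  have hδ1' : δ ≤ 1 := by
    have : δ ≤ A' * δ := by nlinarith
    linarith
  obtain ⟨ηc, hηc, hcell⟩ := hcell δ hδ hδ1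
  obtain ⟨ηs, hηs, hstart⟩ := exists_start (R := 9) (by norm_num) hδ hδ1' (ε := A * δ)
    (mul_pos (by linarith) hδ)
  refine ⟨min ηc (min (ηs / C₀) (1 / C₀)), lt_min hηc (lt_min (by positivity) (by positivity)), ?_⟩
  intro m σ a ℓ f βl βr hm hσ hℓ hℓ' hf hβl hβr hη hX hNl hNr hL hR
  have hη0 : 0 ≤ min ηc (min (ηs / C₀) (1 / C₀)) := hη.nonneg
  have hηc' : Near ηc f := hη.mono (min_le_left _ _)
  have hC1 : C₀ * min ηc (min (ηs / C₀) (1 / C₀)) ≤ ηs := by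
    have h1 : min ηc (min (ηs / C₀) (1 / C₀)) ≤ ηs / C₀ :=
      (min_le_right _ _).trans (min_le_left _ _)
    calc C₀ * min ηc (min (ηs / C₀) (1 / C₀)) ≤ C₀ * (ηs / C₀) :=
          mul_le_mul_of_nonneg_left h1 hC0.le
      _ = ηs := by field_simp
  have hC2 : C₀ * min ηc (min (ηs / C₀) (1 / C₀)) ≤ 1 := by
    have h1 : min ηc (min (ηs / C₀) (1 / C₀)) ≤ 1 / C₀ :=
      (min_le_right _ _).trans (min_le_right _ _)
    calc C₀ * min ηc (min (ηs / C₀) (1 / C₀)) ≤ C₀ * (1 / C₀) :=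
          mul_le_mul_of_nonneg_left h1 hC0.le
      _ = 1 := by field_simp
  -- the intermediate maps
  have hmid : ∀ (τ z : ℝ), (τ = 1 ∨ τ = -1) → ∃ β ∈ Dd, Near (A * δ) β ∧
      ∀ x ∈ Icc (z - 7) (z + 7), ⁅tr (τ * δ), β⁆ x = f x := by
    intro τ z hτ
    obtain ⟨f', hf', hN, he, ho⟩ := hcut (a := z - 9) (b := z + 9) (d := 0) hf (by linarith) hη0 hC2
      (fun x _ => by rw [add_zero]; exact hη x)
    have hN' : Near ηs f' := (NT_zero.1 hN).mono hC1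
    obtain ⟨β, hβ, hNβ, hβe⟩ := hstart (σ := τ) (z := z) (f := f') hτ hf' hN' (fun x hx => by
      rw [ho x, add_zero]
      rcases le_abs.1 hx with h | h
      · right; linarith
      · left; linarith)
    refine ⟨β, hβ, hNβ, fun x hx => ?_⟩
    rw [hβe x (abs_le.2 ⟨by linarith [hx.1], by linarith [hx.2]⟩)]
    exact he x ⟨by linarith [hx.1], by linarith [hx.2]⟩
  have key : ∀ m : ℕ, 1 ≤ m → ∀ βr : ℝ ≃o ℝ, βr ∈ Dd → Near (A * δ) βr →
      (∀ x ∈ Icc (a + m * ℓ - 7) (a + m * ℓ + 5), ⁅tr ((-1) ^ m * σ * δ), βr⁆ x = f x) →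
      ∃ Q : Q4, Seg δ A' σ ((-1) ^ m * σ) a (a + m * ℓ) f βl βr Q := by
    intro m hm
    induction m, hm using Nat.le_induction with
    | base =>
      intro βr hβr hNr hR
      rw [Nat.cast_one, one_mul] at hR ⊢
      rw [pow_one, neg_one_mul] at hR ⊢
      exact hcell hσ (by linarith) (by linarith) hf hβl hβr hηc' hX hNl hNr hL hR
    | succ m hm ih =>
      intro βr hβr hNr hR
      have hσm : (-1 : ℝ) ^ m * σ = 1 ∨ (-1 : ℝ) ^ m * σ = -1 := by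
        rcases neg_one_pow_eq_or ℝ m with h | h <;> rcases hσ with h' | h' <;> rw [h, h'] <;>
          norm_num
      have e1 : a + ((m + 1 : ℕ) : ℝ) * ℓ = a + m * ℓ + ℓ := by push_cast; ring
      have e2 : (-1 : ℝ) ^ (m + 1) * σ = -((-1) ^ m * σ) := by ring
      rw [e1, e2] at hR ⊢
      obtain ⟨β, hβ, hNβ, hβe⟩ := hmid ((-1) ^ m * σ) (a + m * ℓ) hσm
      obtain ⟨P, hP⟩ := ih β hβ hNβ (fun x hx => hβe x ⟨hx.1, by linarith [hx.2]⟩)
      obtain ⟨R, hRR⟩ := hcell (a := a + m * ℓ) (b := a + m * ℓ + ℓ) hσm (by linarith) (by linarith)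
        hf hβ hβr hηc' hX hNβ hNr (fun x hx => hβe x ⟨by linarith [hx.1], hx.2⟩) hR
      have hmℓ : 0 ≤ (m : ℝ) * ℓ := by positivity
      exact seg_glue (by linarith) (by linarith) hK hP hRR
  exact key m hm βr hβr hNr hR

end FG
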