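import Pool.Agent.helper97.FG.N0
import Pool.Agent.helper97.FG.T1

/-!
author: helper41
# N1a : the coordinate of the unit cell

`Ed δ t = exp (δ t)` for `t ≤ 0`, `1 + δ t` for `t ≥ 0`;  `EE δ t = Ed δ (t + 2/δ)`, so that `EE δ 0 = 3`,
`EE δ t = 3 + δ t` for `t ≥ -2/δ` and `EE δ t = exp 2 * exp (δ t)` for `t ≤ -2/δ`.
The mover `α`: `α (± EE δ t) = ± EE δ (t+1)`: `α x = x + δ` for `x ≥ 1`, `α x = exp δ * x` for `|x| ≤ exp (-δ)`,
`α x = 1 + δ + log x` for `exp (-δ) ≤ x ≤ 1` (as `x = exp (δ t)` with `t ∈ [-1,0]`, `α x = 1 + δ (t+1)`), `α` odd.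
`deriv (EE δ)` is `δ exp (δ (t + 2/δ))` resp. `δ`.
-/

set_option linter.unusedVariables false

open Set Filter Topology
open scoped commutatorElement
open Pool.Agent.helper35.FOL

namespace FG

/-- exponential to the left of `0`, affine to the right -/
noncomputable def Ed (δ t : ℝ) : ℝ := if t ≤ 0 then Real.exp (δ * t) else 1 + δ * t

/-- the coordinate of the unit cell -/
noncomputable def EE (δ t : ℝ) : ℝ := Ed δ (t + 2 / δ)

private theorem N1a_two {δ t : ℝ} (hδ : 0 < δ) : δ * (t + 2 / δ) = δ * t + 2 := by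
  field_simp

theorem EE_affine {δ t : ℝ} (hδ : 0 < δ) (ht : -(2 / δ) ≤ t) : EE δ t = 3 + δ * t := by
  unfold EE Ed
  split_ifs with h
  · have h1 : t + 2 / δ = 0 := le_antisymm h (by linarith)
    have h2 := N1a_two (t := t) hδ
    rw [h1, mul_zero] at h2
    rw [h1, mul_zero, Real.exp_zero]
    linarith
  · rw [N1a_two hδ]
    ring

theorem EE_exp {δ t : ℝ} (hδ : 0 < δ) (ht : t ≤ -(2 / δ)) : EE δ t = Real.exp 2 * Real.exp (δ * t) := by
  unfold EE Ed
  rw [if_pos (by linarith), N1a_two hδ, add_comm, Real.exp_add]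

private theorem N1a_hasDerivAt_Ed (δ t : ℝ) :
    HasDerivAt (Ed δ) (δ * Real.exp (δ * min t 0)) t := by
  have h1 : ∀ s : ℝ, HasDerivAt (fun s : ℝ => Real.exp (δ * s)) (δ * Real.exp (δ * s)) s := by
    intro s
    have h2 := ((hasDerivAt_id s).const_mul δ).exp
    simp only [mul_one, id_eq] at h2
    rw [mul_comm]
    exact h2
  have h2 : ∀ s : ℝ, HasDerivAt (fun s : ℝ => 1 + δ * s) δ s := by
    intro s
    have h3 := ((hasDerivAt_id s).const_mul δ).const_add 1
    simp only [mul_one, id_eq] at h3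
    exact h3
  have e1 : ∀ s ∈ Iic (0 : ℝ), Ed δ s = Real.exp (δ * s) := fun s hs => by
    unfold Ed
    rw [if_pos (mem_Iic.1 hs)]
  have e2 : ∀ s ∈ Ici (0 : ℝ), Ed δ s = 1 + δ * s := fun s hs => by
    unfold Ed
    split_ifs with h
    · have : s = 0 := le_antisymm h hs
      rw [this, mul_zero, Real.exp_zero, add_zero]
    · rfl
  rcases lt_trichotomy t 0 with ht | rfl | ht
  · rw [min_eq_left ht.le]
    refine (h1 t).congr_of_eventuallyEq ?_
    filter_upwards [Iio_mem_nhds ht] with s hs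
    exact e1 s (mem_Iic.2 (le_of_lt hs))
  · rw [min_self, mul_zero, Real.exp_zero, mul_one]
    have h3 : HasDerivWithinAt (Ed δ) δ (Iic 0) 0 := by
      have h4 := (h1 0).hasDerivWithinAt (s := Iic 0)
      rw [mul_zero, Real.exp_zero, mul_one] at h4
      exact h4.congr e1 (e1 0 (mem_Iic.2 le_rfl))
    have h5 : HasDerivWithinAt (Ed δ) δ (Ici 0) 0 :=
      (h2 0).hasDerivWithinAt.congr e2 (e2 0 (mem_Ici.2 le_rfl))
    have h6 := h3.union h5
    rw [Iic_union_Ici] at h6
    exact h6.hasDerivAt univ_mem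
  · rw [min_eq_right ht.le, mul_zero, Real.exp_zero, mul_one]
    refine (h2 t).congr_of_eventuallyEq ?_
    filter_upwards [Ioi_mem_nhds ht] with s hs
    exact e2 s (mem_Ici.2 (le_of_lt hs))

private theorem N1a_hasDerivAt (δ t : ℝ) :
    HasDerivAt (EE δ) (δ * Real.exp (δ * min (t + 2 / δ) 0)) t := by
  have h := (N1a_hasDerivAt_Ed δ (t + 2 / δ)).comp_add_const t (2 / δ)
  exact h

private theorem N1a_deriv (δ : ℝ) :
    deriv (EE δ) = fun t => δ * Real.exp (δ * min (t + 2 / δ) 0) :=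
  funext fun t => (N1a_hasDerivAt δ t).deriv

theorem coord_EE {δ : ℝ} (hδ : 0 < δ) : Coord (EE δ) δ (Real.exp 2) (-(2 / δ)) := by
  constructor
  case l_pos => exact hδ
  case x₀_pos => exact Real.exp_pos _
  case smooth =>
    rw [contDiff_one_iff_deriv]
    refine ⟨fun t => (N1a_hasDerivAt δ t).differentiableAt, ?_⟩
    rw [N1a_deriv]
    fun_prop
  case pos =>
    intro t
    rcases le_total t (-(2 / δ)) with h | h
    · rw [EE_exp hδ h]
      positivity
    · rw [EE_affine hδ h]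
      have h1 : δ * (-(2 / δ)) ≤ δ * t := mul_le_mul_of_nonneg_left h hδ.le
      have h2 : δ * (-(2 / δ)) = -2 := by field_simp
      linarith
  case dpos =>
    intro t
    rw [N1a_deriv]
    positivity
  case dmono =>
    rw [N1a_deriv]
    intro s t hst
    have h1 : min (s + 2 / δ) 0 ≤ min (t + 2 / δ) 0 := min_le_min (by linarith) le_rfl
    exact mul_le_mul_of_nonneg_left
      (Real.exp_le_exp.2 (mul_le_mul_of_nonneg_left h1 hδ.le)) hδ.le
  case top =>
    have h1 : Tendsto (fun t : ℝ => 3 + δ * t) atTop atTop :=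
      tendsto_atTop_add_const_left _ _ (tendsto_id.const_mul_atTop hδ)
    refine h1.congr' ?_
    filter_upwards [eventually_ge_atTop (-(2 / δ))] with t ht
    exact (EE_affine hδ ht).symm
  case exp => exact fun t ht => EE_exp hδ ht
  case lip =>
    intro s t
    rw [N1a_deriv]
    simp only
    rw [Real.log_mul hδ.ne' (Real.exp_pos _).ne', Real.log_mul hδ.ne' (Real.exp_pos _).ne',
      Real.log_exp, Real.log_exp]
    have h1 : Real.log δ + δ * min (s + 2 / δ) 0 - (Real.log δ + δ * min (t + 2 / δ) 0) =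
        δ * (min (s + 2 / δ) 0 - min (t + 2 / δ) 0) := by ring
    rw [h1, abs_mul, abs_of_pos hδ]
    refine mul_le_mul_of_nonneg_left ?_ hδ.le
    refine (abs_min_sub_min_le_max _ _ _ _).trans ?_
    rw [sub_self, abs_zero, add_sub_add_right_eq_sub]
    exact max_le le_rfl (abs_nonneg _)

theorem deriv_EE_le {δ : ℝ} (hδ : 0 < δ) (t : ℝ) : 0 < deriv (EE δ) t ∧ deriv (EE δ) t ≤ δ := by
  rw [N1a_deriv]
  refine ⟨by positivity, ?_⟩
  simp only
  have h1 : Real.exp (δ * min (t + 2 / δ) 0) ≤ 1 := by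
    rw [Real.exp_le_one_iff]
    exact mul_nonpos_of_nonneg_of_nonpos hδ.le (min_le_right _ _)
  calc δ * Real.exp (δ * min (t + 2 / δ) 0) ≤ δ * 1 := mul_le_mul_of_nonneg_left h1 hδ.le
    _ = δ := mul_one δ

/-- the derivative is `δ` on the affine part -/
theorem deriv_EE_affine {δ t : ℝ} (hδ : 0 < δ) (ht : -(2 / δ) ≤ t) : deriv (EE δ) t = δ := by
  rw [N1a_deriv]
  simp only
  rw [min_eq_right (by linarith), mul_zero, Real.exp_zero, mul_one]

end FG
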