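import Pool.Agent.helper97.FG.N1a

/-!
# N1b : the mover of the unit cell

author: helper78

Existence: `exists_lift` (T1) with `p = m = tr 1`, `c = 1`; then compute with `EE_affine`, `EE_exp`.
`LD α x = 0` for `|x| ≥ 1`, `= -log |x|` for `exp (-δ) ≤ |x| ≤ 1`, `= δ` for `|x| ≤ exp (-δ)`: it is `exp δ`-Lipschitz.
-/

set_option linter.unusedVariables false

open Set Filter Topology
open scoped commutatorElement
open Pool.Agent.helper35.FOL

namespace FG

/-- the derivative on the exponential part -/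
private theorem N1b_deriv_exp {δ t : ℝ} (hδ : 0 < δ) (ht : t ≤ -(2 / δ)) :
    deriv (EE δ) t = δ * EE δ t := by
  rcases lt_or_eq_of_le ht with h | h
  · have h1 : EE δ =ᶠ[𝓝 t] fun s => Real.exp 2 * Real.exp (δ * s) := by
      filter_upwards [Iio_mem_nhds h] with s hs
      exact EE_exp hδ (le_of_lt hs)
    have h2 : HasDerivAt (fun s : ℝ => δ * s) δ t := by
      simpa using (hasDerivAt_id t).const_mul δ
    have h3 : HasDerivAt (fun s => Real.exp 2 * Real.exp (δ * s))
        (Real.exp 2 * (Real.exp (δ * t) * δ)) t := (h2.exp).const_mul _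
    rw [h1.deriv_eq, h3.deriv, EE_exp hδ ht]
    ring
  · rw [deriv_EE_affine hδ h.ge, EE_affine hδ h.ge, h]
    field_simp
    ring

/-- the clamped logarithm -/
private noncomputable def N1b_g (δ r : ℝ) : ℝ := -Real.log (max (Real.exp (-δ)) (min 1 r))

private theorem N1b_clamp_pos (δ r : ℝ) : 0 < max (Real.exp (-δ)) (min 1 r) :=
  lt_max_of_lt_left (Real.exp_pos _)

private theorem N1b_g_bound {δ : ℝ} (hδ : 0 < δ) (r : ℝ) : 0 ≤ N1b_g δ r ∧ N1b_g δ r ≤ δ := by
  unfold N1b_g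
  have h1 : max (Real.exp (-δ)) (min 1 r) ≤ 1 :=
    max_le (Real.exp_le_one_iff.2 (by linarith)) (min_le_left _ _)
  have h2 : Real.exp (-δ) ≤ max (Real.exp (-δ)) (min 1 r) := le_max_left _ _
  have h3 := Real.log_nonpos (N1b_clamp_pos δ r).le h1
  have h4 := Real.log_le_log (Real.exp_pos _) h2
  rw [Real.log_exp] at h4
  constructor <;> linarith

private theorem N1b_log_lip {δ a b : ℝ} (hδ1 : δ ≤ 1) (ha : Real.exp (-δ) ≤ a)
    (hb : Real.exp (-δ) ≤ b) : |Real.log a - Real.log b| ≤ 3 * |a - b| := by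
  have key : ∀ a b : ℝ, Real.exp (-δ) ≤ a → Real.exp (-δ) ≤ b → b ≤ a →
      Real.log a - Real.log b ≤ 3 * (a - b) := by
    intro a b ha hb hab
    have hb0 : 0 < b := (Real.exp_pos _).trans_le hb
    have ha0 : 0 < a := (Real.exp_pos _).trans_le ha
    rw [← Real.log_div ha0.ne' hb0.ne']
    have h1 := Real.log_le_sub_one_of_pos (div_pos ha0 hb0)
    have h2 : a / b - 1 = (a - b) / b := by field_simp
    rw [h2] at h1
    refine h1.trans ?_
    rw [div_le_iff₀ hb0]
    have h3 : 1 ≤ 3 * b := by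
      have h4 : Real.exp (-1) ≤ Real.exp (-δ) := Real.exp_le_exp.2 (by linarith)
      have h5 : Real.exp (-1) * Real.exp 1 = 1 := by
        rw [← Real.exp_add]
        norm_num
      have h6 := Real.exp_one_lt_d9
      have h7 := Real.exp_pos (-1)
      nlinarith
    nlinarith
  rcases le_total b a with h | h
  · have h1 := key a b ha hb h
    have h2 := Real.log_le_log ((Real.exp_pos _).trans_le hb) h
    rw [abs_of_nonneg (by linarith), abs_of_nonneg (by linarith)]
    exact h1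
  · have h1 := key b a hb ha h
    have h2 := Real.log_le_log ((Real.exp_pos _).trans_le ha) h
    rw [abs_of_nonpos (by linarith), abs_of_nonpos (by linarith)]
    linarith

private theorem N1b_g_lip {δ : ℝ} (hδ1 : δ ≤ 1) (r s : ℝ) :
    |N1b_g δ r - N1b_g δ s| ≤ 3 * |r - s| := by
  unfold N1b_g
  have h1 := N1b_log_lip hδ1 (le_max_left (Real.exp (-δ)) (min 1 r))
    (le_max_left (Real.exp (-δ)) (min 1 s))
  have h2 : |max (Real.exp (-δ)) (min 1 r) - max (Real.exp (-δ)) (min 1 s)| ≤ |r - s| := by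
    refine (abs_max_sub_max_le_max _ _ _ _).trans ?_
    rw [sub_self, abs_zero]
    refine max_le (abs_nonneg _) ((abs_min_sub_min_le_max _ _ _ _).trans ?_)
    rw [sub_self, abs_zero]
    exact max_le (abs_nonneg _) le_rfl
  have h3 : -Real.log (max (Real.exp (-δ)) (min 1 r)) -
      -Real.log (max (Real.exp (-δ)) (min 1 s)) =
      -(Real.log (max (Real.exp (-δ)) (min 1 r)) - Real.log (max (Real.exp (-δ)) (min 1 s))) := by
    ring
  rw [h3, abs_neg]
  linarith

private theorem N1b_g_cont {δ : ℝ} (hδ1 : δ ≤ 1) : Continuous fun x : ℝ => N1b_g δ |x| := by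
  have h : LipschitzWith 3 fun x : ℝ => N1b_g δ |x| := by
    refine LipschitzWith.of_dist_le_mul fun x y => ?_
    rw [Real.dist_eq, Real.dist_eq]
    refine (N1b_g_lip hδ1 _ _).trans ?_
    have h1 := abs_abs_sub_abs_le_abs_sub x y
    have h2 : ((3 : NNReal) : ℝ) = 3 := rfl
    rw [h2]
    linarith
  exact h.continuous

/-- the value of the logarithmic derivative in the coordinate -/
private theorem N1b_val {δ : ℝ} (hδ : 0 < δ) (t : ℝ) :
    Real.log (deriv (EE δ) (t + 1)) - Real.log (deriv (EE δ) t) = N1b_g δ (EE δ t) := by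
  have hE := coord_EE hδ
  have hpos := hE.pos t
  have e0 : EE δ (-(2 / δ)) = 1 := by
    rw [EE_affine hδ le_rfl]
    field_simp
    ring
  have e1 : EE δ (-(2 / δ) - 1) = Real.exp (-δ) := by
    rw [EE_exp hδ (by linarith), ← Real.exp_add]
    congr 1
    field_simp
    ring
  unfold N1b_g
  rcases le_or_gt (-(2 / δ)) t with h | h
  · have h1 : 1 ≤ EE δ t := by
      rw [← e0]
      exact hE.strictMono.monotone h
    rw [deriv_EE_affine hδ h, deriv_EE_affine hδ (by linarith), sub_self, min_eq_left h1,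
      max_eq_right (Real.exp_le_one_iff.2 (by linarith)), Real.log_one, neg_zero]
  · have h1 : EE δ t ≤ 1 := by
      rw [← e0]
      exact hE.strictMono.monotone h.le
    rw [min_eq_right h1, N1b_deriv_exp hδ h.le]
    rcases le_or_gt (-(2 / δ) - 1) t with h2 | h2
    · have h3 : Real.exp (-δ) ≤ EE δ t := by
        rw [← e1]
        exact hE.strictMono.monotone h2
      rw [max_eq_right h3, deriv_EE_affine hδ (by linarith), Real.log_mul hδ.ne' hpos.ne']
      ring
    · have h3 : EE δ t ≤ Real.exp (-δ) := by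
        rw [← e1]
        exact hE.strictMono.monotone h2.le
      rw [max_eq_left h3, N1b_deriv_exp hδ (by linarith), Real.log_exp,
        Real.log_mul hδ.ne' (hE.pos _).ne', Real.log_mul hδ.ne' hpos.ne',
        EE_exp hδ (by linarith), EE_exp hδ h.le, Real.log_mul (Real.exp_pos _).ne'
        (Real.exp_pos _).ne', Real.log_mul (Real.exp_pos _).ne' (Real.exp_pos _).ne',
        Real.log_exp, Real.log_exp, Real.log_exp]
      ring

theorem exists_alpha {δ : ℝ} (hδ : 0 < δ) (hδ1 : δ ≤ 1) : ∃ α ∈ Dd, IsLift (EE δ) α (tr 1) (tr 1) ∧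
    (∀ x, 1 ≤ x → α x = x + δ) ∧ (∀ x, x ≤ -1 → α x = x - δ) ∧
    (∀ x, |x| ≤ Real.exp (-δ) → α x = Real.exp δ * x) ∧
    (∀ x, |α x - x| ≤ δ) ∧ (∀ x, 0 ≤ LD α x ∧ LD α x ≤ δ) ∧ ∀ x y, |LD α x - LD α y| ≤ 3 * |x - y| := by
  have hE := coord_EE hδ
  obtain ⟨α, hα, hL⟩ := exists_lift hE (tr_mem 1) (tr_mem 1) (c := 1) (t₁ := 0)
    (fun t _ => ⟨tr_apply 1 t, tr_apply 1 t⟩)
  have hp : ∀ t, α (EE δ t) = EE δ (t + 1) := fun t => hL.pos t
  have hm : ∀ t, α (-EE δ t) = -EE δ (t + 1) := fun t => hL.neg t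
  have e1 : EE δ (-(2 / δ) - 1) = Real.exp (-δ) := by
    rw [EE_exp hδ (by linarith), ← Real.exp_add]
    congr 1
    field_simp
    ring
  -- the step of the coordinate
  have hstep : ∀ t, |EE δ (t + 1) - EE δ t| ≤ δ := by
    intro t
    have h1 := hE.slope' (b := t + 1) (s := t + 1) (t := t) le_rfl (by linarith)
    have h2 : |t + 1 - t| = 1 := by
      rw [add_sub_cancel_left, abs_one]
    rw [h2, mul_one] at h1
    exact h1.trans (deriv_EE_le hδ _).2
  have hbig : ∀ x, 1 ≤ x → EE δ ((x - 3) / δ) = x ∧ EE δ ((x - 3) / δ + 1) = x + δ := by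
    intro x hx
    have h1 : -(2 / δ) ≤ (x - 3) / δ := by
      rw [← neg_div]
      exact div_le_div_of_nonneg_right (by linarith) hδ.le
    constructor
    · rw [EE_affine hδ h1]
      field_simp
      ring
    · rw [EE_affine hδ (by linarith)]
      field_simp
      ring
  have hsmall : ∀ t, EE δ t ≤ Real.exp (-δ) → EE δ (t + 1) = Real.exp δ * EE δ t := by
    intro t ht
    rw [← e1] at ht
    have h1 := hE.strictMono.le_iff_le.1 ht
    rw [EE_exp hδ (by linarith), EE_exp hδ (by linarith), mul_add, mul_one, Real.exp_add]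
    ring
  -- the logarithmic derivative
  have hLD : ∀ x, LD α x = N1b_g δ |x| := by
    have h1 : EqOn (LD α) (fun x => N1b_g δ |x|) ({0}ᶜ : Set ℝ) := by
      intro x hx
      have hx0 : x ≠ 0 := hx
      show LD α x = N1b_g δ |x|
      rcases lt_or_gt_of_ne hx0 with h | h
      · obtain ⟨t, ht⟩ := hE.surj (neg_pos.2 h)
        have hx' : x = -EE δ t := by linarith
        have h2 : |x| = EE δ t := by rw [abs_of_neg h, ht]
        rw [h2, hx', hL.LD_neg hE hα (tr_mem 1) t, LD_tr, zero_add, tr_apply]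
        exact N1b_val hδ t
      · obtain ⟨t, ht⟩ := hE.surj h
        rw [abs_of_pos h, ← ht, hL.LD_pos hE hα (tr_mem 1) t, LD_tr, zero_add, tr_apply]
        exact N1b_val hδ t
    have h2 := (continuous_LD hα).ext_on (dense_compl_singleton (0 : ℝ)) (N1b_g_cont hδ1) h1
    intro x
    exact congrFun h2 x
  refine ⟨α, hα, hL, ?_, ?_, ?_, ?_, ?_, ?_⟩
  · intro x hx
    obtain ⟨h1, h2⟩ := hbig x hx
    have h3 := hp ((x - 3) / δ)
    rwa [h1, h2] at h3
  · intro x hx
    obtain ⟨h1, h2⟩ := hbig (-x) (by linarith)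
    have h3 := hm ((-x - 3) / δ)
    rw [h1, h2, neg_neg] at h3
    rw [h3]
    ring
  · intro x hx
    rcases lt_trichotomy x 0 with h | h | h
    · obtain ⟨t, ht⟩ := hE.surj (neg_pos.2 h)
      have hx' : x = -EE δ t := by linarith
      rw [abs_of_neg h, ← ht] at hx
      rw [hx', hm, hsmall t hx]
      ring
    · rw [h, hL.zero, mul_zero]
    · obtain ⟨t, ht⟩ := hE.surj h
      rw [abs_of_pos h, ← ht] at hx
      rw [← ht, hp, hsmall t hx]
  · intro x
    rcases lt_trichotomy x 0 with h | h | h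
    · obtain ⟨t, ht⟩ := hE.surj (neg_pos.2 h)
      have hx' : x = -EE δ t := by linarith
      rw [hx', hm]
      have h1 : -EE δ (t + 1) - -EE δ t = -(EE δ (t + 1) - EE δ t) := by ring
      rw [h1, abs_neg]
      exact hstep t
    · rw [h, hL.zero, sub_zero, abs_zero]
      exact hδ.le
    · obtain ⟨t, ht⟩ := hE.surj h
      rw [← ht, hp]
      exact hstep t
  · intro x
    rw [hLD]
    exact N1b_g_bound hδ _
  · intro x y
    rw [hLD, hLD]
    refine (N1b_g_lip hδ1 _ _).trans ?_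
    have h1 := abs_abs_sub_abs_le_abs_sub x y
    linarith

/-- conjugation of a map close to the identity by `α` -/
theorem conj_near {δ η : ℝ} (hδ1 : δ ≤ 1) {α f : ℝ ≃o ℝ} (hα : α ∈ Dd) (hf : f ∈ Dd)
    (h1 : ∀ x, 0 ≤ LD α x ∧ LD α x ≤ δ) (h2 : ∀ x y, |LD α x - LD α y| ≤ 3 * |x - y|) (h3 : Near η f) :
    Near (4 * η) (α * f * α⁻¹) ∧ Near (4 * η) (α⁻¹ * f * α) := by
  have hη : 0 ≤ η := (abs_nonneg _).trans (h3 0).1
  have hup : ∀ x y, |α x - α y| ≤ 3 * |x - y| := by
    intro x y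
    have h4 := abs_sub_le_exp hα (s := 1) (x := x) (y := y) (fun z _ => (h1 z).2.trans hδ1)
    have h5 := Real.exp_one_lt_d9
    have h6 := abs_nonneg (x - y)
    nlinarith
  have hlow : ∀ x y, |x - y| ≤ |α x - α y| := by
    intro x y
    have h4 := exp_mul_le_abs_sub hα (s := 0) (x := x) (y := y) (fun z _ => (h1 z).1)
    rwa [Real.exp_zero, one_mul] at h4
  have hai : ∀ x, α (α⁻¹ x) = x := fun x => α.apply_symm_apply x
  have hia : ∀ x, α⁻¹ (α x) = x := fun x => α.symm_apply_apply x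
  refine ⟨fun x => ⟨?_, ?_⟩, fun x => ⟨?_, ?_⟩⟩
  · show |α (f (α⁻¹ x)) - x| ≤ 4 * η
    have h4 := hup (f (α⁻¹ x)) (α⁻¹ x)
    rw [hai] at h4
    have h5 := (h3 (α⁻¹ x)).1
    linarith
  · rw [LD_mul (Dd.mul_mem hα hf) (Dd.inv_mem hα), LD_mul hα hf, LD_inv hα]
    have h4 := h2 (f (α⁻¹ x)) (α⁻¹ x)
    have h5 := (h3 (α⁻¹ x)).1
    have h6 := (h3 (α⁻¹ x)).2
    rw [abs_le] at h4 h6 ⊢
    constructor <;> linarith [h4.1, h4.2, h6.1, h6.2]
  · show |α⁻¹ (f (α x)) - x| ≤ 4 * η
    have h4 := hlow (α⁻¹ (f (α x))) x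
    rw [hai] at h4
    have h5 := (h3 (α x)).1
    linarith
  · rw [LD_mul (Dd.mul_mem (Dd.inv_mem hα) hf) hα, LD_mul (Dd.inv_mem hα) hf, LD_inv hα]
    have h4 := hlow (α⁻¹ (f (α x))) x
    rw [hai] at h4
    have h5 := (h3 (α x)).1
    have h6 := (h3 (α x)).2
    have h7 := h2 (α⁻¹ (f (α x))) x
    rw [abs_le] at h6 h7 ⊢
    constructor <;> linarith [h6.1, h6.2, h7.1, h7.2]

end FG
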