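import Pool.Agent.helper97.FG.N1b
import Pool.Agent.helper97.FG.C7

/-!
author: helper39
# N1c : the core lemma in the unit cell

`core` with `E = EE δ`, `l = δ`, `x₀ = exp 2`, `t₀ = -2/δ`, `κ = δ/4`, `θ₀ = δ/2`, `θ₁ = 2δ`, `cu = 0`, `K₀ = A`,
`s₀ = A δ`, `θ = δ`.  `θ₁ < EE δ (-A - 1) = 3 - δ (A+1)` and `A δ ≤ 1/4` for small `δ`.
Parts of `Yin`: `exists_parts`; for `t ∈ [-1,0]`: `EE δ (yp t) = Yin (3 + δ t)`, and `Yin (3 + δ t) ≥ 1`, so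
`yp t = (Yin (3 + δ t) - 3)/δ`, `|yp t - t| ≤ A`, `LD yp t = LD Yin (EE δ t) ≤ A δ` (`IsLift.LD_pos`, `deriv_EE_affine`).
Output: `x = EE δ t`, `t ≤ 0`: `|Y x - x| = |EE δ (zp t) - EE δ t| ≤ δ (A + δ)` (`deriv_EE_le`),
`LD Y x = LD zp t + log E'(zp t) - log E'(t)`, at most `A δ + δ + δ (A + δ)`; at `x = 0` by continuity.
-/

set_option linter.unusedVariables false

open Set Filter Topology
open scoped commutatorElement
open Pool.Agent.helper35.FOL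

namespace FG

theorem core_unit {A : ℝ} (hA : 1 ≤ A) : ∃ δ₀ : ℝ, 0 < δ₀ ∧ δ₀ ≤ 1 / 100 ∧ ∀ δ : ℝ, 0 < δ → δ ≤ δ₀ →
    ∀ {α : ℝ ≃o ℝ}, α ∈ Dd → IsLift (EE δ) α (tr 1) (tr 1) →
    ∃ η : ℝ, 0 < η ∧ ∀ {u f₁ f₂ Yin : ℝ ≃o ℝ}, u ∈ Dd →
      (∀ x, |x| ≤ δ / 4 → δ / 2 ≤ u x ∧ u x ≤ 2 * δ ∧ LD u x = 0) →
      f₁ ∈ Dd → f₂ ∈ Dd → Near η f₁ → Near η f₂ → (∃ X : ℝ, ∀ x, X ≤ |x| → f₁ x = x) →
      Yin ∈ Dd → Yin 0 = 0 → (∀ x, 2 ≤ |x| → |Yin x - x| ≤ A * δ ∧ |LD Yin x| ≤ A * δ) →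
      (∃ ι : ℝ, 0 < ι ∧ ∀ x, |(|x| - 3)| < ι → α (Yin (α⁻¹ x)) = f₁ (f₂ (Yin x))) →
      ∃ Y ∈ Dd, ∃ ψ ∈ Dd, Y 0 = 0 ∧ (∀ x, 3 - δ ≤ |x| → Y x = Yin x) ∧ (∀ x, δ / 4 ≤ |x| → ψ x = x) ∧
        Near δ ψ ∧ (∀ x, |x| ≤ 3 → α (Y (α⁻¹ x)) = f₁ (⁅u, ψ⁆⁻¹ (f₂ (Y x)))) ∧
        ∀ x, |Y x - x| ≤ (A + 1) * δ ∧ |LD Y x| ≤ (2 * A + 2) * δ := by
  refine ⟨1 / (100 * A), by positivity, ?_, ?_⟩
  · rw [div_le_div_iff₀ (by positivity) (by norm_num)]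
    linarith
  intro δ hδ hδ0 α hα hαl
  have hAδ : A * δ ≤ 1 / 100 := by
    rw [le_div_iff₀ (by positivity)] at hδ0
    linarith
  have hδ1 : δ ≤ 1 / 100 := by nlinarith
  have hE : Coord (EE δ) δ (Real.exp 2) (-(2 / δ)) := coord_EE hδ
  have h2δ : (200 : ℝ) ≤ 2 / δ := by
    rw [le_div_iff₀ hδ]
    linarith
  have hA2 : A + 1 ≤ 2 / δ := by
    rw [le_div_iff₀ hδ]
    linarith
  have hE0 : EE δ 0 = 3 := by
    rw [EE_affine hδ (by linarith)]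
    ring
  have hE1 : EE δ (-1) = 3 - δ := by
    rw [EE_affine hδ (by linarith)]
    ring
  have hEb : EE δ (-(2 / δ)) = 1 := by
    rw [EE_affine hδ le_rfl]
    have : δ * (2 / δ) = 2 := by field_simp
    linarith
  have hEd : EE δ (-A - 1) = 3 - δ * (A + 1) := by
    rw [EE_affine hδ (by linarith)]
    ring
  have hEE : ∀ s t, |EE δ s - EE δ t| ≤ δ * |s - t| := by
    intro s t
    refine (hE.slope' (b := max s t) (le_max_left _ _) (le_max_right _ _)).trans ?_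
    exact mul_le_mul_of_nonneg_right (deriv_EE_le hδ _).2 (abs_nonneg _)
  obtain ⟨η, hη, hcore⟩ := core hE hα hαl (κ := δ / 4) (θ₀ := δ / 2) (θ₁ := 2 * δ) (cu := 0) (K₀ := A)
    (s₀ := A * δ) (θ := δ) (by linarith) (by linarith) (by linarith) (by linarith)
    (by rw [hEd]; linarith) (by positivity) (by linarith) hδ
  refine ⟨η, hη, ?_⟩
  intro u f₁ f₂ Yin hu huQ hf₁ hf₂ hn₁ hn₂ hX hYin hYin0 hsz hcol
  obtain ⟨yp, hyp, ym, hym, hYl⟩ := exists_parts hE hYin hYin0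
  -- sizes of the parts
  have haff : ∀ t, -1 ≤ t → EE δ t = 3 + δ * t := fun t ht => EE_affine hδ (by linarith)
  have hpart : ∀ t ∈ Icc (-1 : ℝ) 0, ∀ y : ℝ, |EE δ y - EE δ t| ≤ A * δ →
      -(2 / δ) ≤ y ∧ |y - t| ≤ A := by
    intro t ht y hy
    have h1 : EE δ t = 3 + δ * t := haff t ht.1
    have h2 : -δ ≤ δ * t := by nlinarith [ht.1]
    have h3 := abs_le.1 hy
    have h4 : EE δ (-(2 / δ)) ≤ EE δ y := by
      rw [hEb]
      linarith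
    have h5 : -(2 / δ) ≤ y := hE.strictMono.le_iff_le.1 h4
    refine ⟨h5, ?_⟩
    rw [EE_affine hδ h5, h1] at hy
    have h6 : 3 + δ * y - (3 + δ * t) = δ * (y - t) := by ring
    rw [h6, abs_mul, abs_of_pos hδ, mul_comm A δ] at hy
    exact le_of_mul_le_mul_left hy hδ
  have hbig : ∀ t ∈ Icc (-1 : ℝ) 0, 2 ≤ |EE δ t| := by
    intro t ht
    rw [abs_of_pos (hE.pos t), haff t ht.1]
    nlinarith [ht.1]
  have hszp : ∀ t ∈ Icc (-1 : ℝ) 0, |yp t - t| ≤ A ∧ |LD yp t| ≤ A * δ := by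
    intro t ht
    obtain ⟨h1, h2⟩ := hsz (EE δ t) (hbig t ht)
    rw [hYl.pos] at h1
    obtain ⟨h3, h4⟩ := hpart t ht (yp t) h1
    refine ⟨h4, ?_⟩
    have h5 := IsLift.LD_pos hE hYin hyp hYl t
    rw [deriv_EE_affine hδ h3, deriv_EE_affine hδ (by linarith [ht.1]), add_sub_cancel_right] at h5
    rw [← h5]
    exact h2
  have hszm : ∀ t ∈ Icc (-1 : ℝ) 0, |ym t - t| ≤ A ∧ |LD ym t| ≤ A * δ := by
    intro t ht
    obtain ⟨h1, h2⟩ := hsz (-EE δ t) (by rw [abs_neg]; exact hbig t ht)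
    rw [hYl.neg] at h1
    have h1' : |EE δ (ym t) - EE δ t| ≤ A * δ := by
      have h6 : -EE δ (ym t) - -EE δ t = -(EE δ (ym t) - EE δ t) := by ring
      rwa [h6, abs_neg] at h1
    obtain ⟨h3, h4⟩ := hpart t ht (ym t) h1'
    refine ⟨h4, ?_⟩
    have h5 := IsLift.LD_neg hE hYin hym hYl t
    rw [deriv_EE_affine hδ h3, deriv_EE_affine hδ (by linarith [ht.1]), add_sub_cancel_right] at h5
    rw [← h5]
    exact h2
  have hcol' : ∃ ι : ℝ, 0 < ι ∧ ∀ t, -ι < t → t < ι →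
      α (Yin (α⁻¹ (EE δ t))) = f₁ (f₂ (Yin (EE δ t))) ∧
        α (Yin (α⁻¹ (-EE δ t))) = f₁ (f₂ (Yin (-EE δ t))) := by
    obtain ⟨ι, hι, hc⟩ := hcol
    refine ⟨min (ι / δ) 1, lt_min (by positivity) one_pos, fun t ht1 ht2 => ?_⟩
    have h1 : |t| < ι / δ := abs_lt.2 ⟨by linarith [min_le_left (ι / δ) 1],
      ht2.trans_le (min_le_left _ _)⟩
    have h2 : -1 ≤ t := by linarith [min_le_right (ι / δ) 1]
    have h3 : |(|EE δ t| - 3)| < ι := by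
      rw [abs_of_pos (hE.pos t), haff t h2, add_sub_cancel_left, abs_mul, abs_of_pos hδ]
      rw [lt_div_iff₀ hδ] at h1
      linarith
    refine ⟨hc _ h3, hc _ ?_⟩
    rw [abs_neg]
    exact h3
  obtain ⟨Y, hY, ψ, hψ, zp, hzp, zm, hzm, hl, hout, hψo, hψn, heq, hp1, hm1⟩ :=
    hcore hu (fun x hx => ⟨(huQ x (abs_le.2 hx)).1, (huQ x (abs_le.2 hx)).2.1⟩)
      (fun x hx => (huQ x (abs_le.2 hx)).2.2) hf₁ hf₂ hn₁ hn₂ hX hYin hyp hym hYl hszp hszm hcol'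
  rw [hE0] at heq
  rw [hE1] at hout
  refine ⟨Y, hY, ψ, hψ, hl.zero, hout, hψo, hψn, heq, ?_⟩
  -- sizes
  have hdd : ∀ {z t : ℝ}, |z - t| ≤ A + δ → δ * |z - t| ≤ (A + 1) * δ := by
    intro z t h
    have h1 : δ * |z - t| ≤ δ * (A + δ) := mul_le_mul_of_nonneg_left h hδ.le
    nlinarith
  have hldd : ∀ {z t L : ℝ}, |z - t| ≤ A + δ → |L| ≤ A * δ + δ →
      |L + Real.log (deriv (EE δ) z) - Real.log (deriv (EE δ) t)| ≤ (2 * A + 2) * δ := by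
    intro z t L h hL
    have h1 := hE.lip z t
    have h2 := hdd h
    have h3 : L + Real.log (deriv (EE δ) z) - Real.log (deriv (EE δ) t) =
        L + (Real.log (deriv (EE δ) z) - Real.log (deriv (EE δ) t)) := by ring
    rw [h3]
    refine (abs_add_le _ _).trans ?_
    linarith
  have hpos : ∀ x, 0 < x → x ≤ 3 → |Y x - x| ≤ (A + 1) * δ ∧ |LD Y x| ≤ (2 * A + 2) * δ := by
    intro x hx0 hx3
    obtain ⟨t, ht⟩ := hE.surj hx0
    subst ht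
    have ht0 : t ≤ 0 := by
      rw [← hE0] at hx3
      exact hE.strictMono.le_iff_le.1 hx3
    obtain ⟨h1, h2⟩ := hp1 t ht0
    rw [hl.pos, IsLift.LD_pos hE hY hzp hl t]
    exact ⟨(hEE _ _).trans (hdd h1), hldd h1 h2⟩
  have hneg : ∀ x, x < 0 → -3 ≤ x → |Y x - x| ≤ (A + 1) * δ ∧ |LD Y x| ≤ (2 * A + 2) * δ := by
    intro x hx0 hx3
    obtain ⟨t, ht⟩ := hE.surj (show 0 < -x by linarith)
    have hxt : x = -EE δ t := by linarith
    subst hxt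
    have ht0 : t ≤ 0 := by
      have h3 : EE δ t ≤ EE δ 0 := by
        rw [hE0]
        linarith
      exact hE.strictMono.le_iff_le.1 h3
    obtain ⟨h1, h2⟩ := hm1 t ht0
    rw [hl.neg, IsLift.LD_neg hE hY hzm hl t]
    refine ⟨?_, hldd h1 h2⟩
    have h6 : -EE δ (zm t) - -EE δ t = -(EE δ (zm t) - EE δ t) := by ring
    rw [h6, abs_neg]
    exact (hEE _ _).trans (hdd h1)
  have hfar : ∀ x, 3 < |x| → |Y x - x| ≤ (A + 1) * δ ∧ |LD Y x| ≤ (2 * A + 2) * δ := by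
    intro x hx
    have h1 := hsz x (by linarith)
    have h2 : LD Y x = LD Yin x := by
      refine LD_congr ?_
      have h3 : ∀ᶠ y in 𝓝 x, 3 < |y| := (continuous_abs.tendsto x).eventually (lt_mem_nhds hx)
      filter_upwards [h3] with y hy
      exact hout y (by linarith)
    rw [h2, hout x (by linarith)]
    exact ⟨h1.1.trans (by nlinarith), h1.2.trans (by nlinarith)⟩
  intro x
  rcases lt_trichotomy x 0 with h0 | h0 | h0
  · rcases le_or_gt (-3) x with h3 | h3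
    · exact hneg x h0 h3
    · exact hfar x (by rw [abs_of_neg h0]; linarith)
  · subst h0
    refine ⟨?_, ?_⟩
    · rw [hl.zero, sub_zero, abs_zero]
      positivity
    · have hcl : IsClosed {x | |LD Y x| ≤ (2 * A + 2) * δ} :=
        isClosed_le (continuous_LD hY).abs continuous_const
      have h5 : closure (Ioo (0 : ℝ) 3) ⊆ {x | |LD Y x| ≤ (2 * A + 2) * δ} :=
        hcl.closure_subset_iff.2 fun x hx => (hpos x hx.1 hx.2.le).2
      rw [closure_Ioo (by norm_num)] at h5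
      exact h5 ⟨le_rfl, by norm_num⟩
  · rcases le_or_gt x 3 with h3 | h3
    · exact hpos x h0 h3
    · exact hfar x (by rw [abs_of_pos h0]; exact h3)

end FG
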