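import Pool.Agent.helper97.FG.N0
import Pool.Agent.helper97.FG.C1
import Pool.Agent.helper97.FG.S0

/-!
# N2a : transitions between translations

author: helper43

`exists_to_exact`: `exists_interp` (`L = 1`, `s = K = η`).
`exists_tr_tr`: `k x = x + d₂ + (d₁ - d₂) χ(x)`, `χ = chi 0 1` (`0` for `x ≤ -1`, `1` for `x ≥ 0`; bounds
`exists_chi_bounds`), `LD k = log (1 + (d₁ - d₂) χ')` is Lipschitz.
-/

set_option linter.unusedVariables false

open Set Filter Topology
open scoped commutatorElement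
open Pool.Agent.helper35.FOL

namespace FG

/-- `k = g` for `x ≥ 0`, `k = tr d` for `x ≤ -1` -/
theorem exists_to_exact : ∃ C : ℝ, 1 ≤ C ∧ ∀ {d η : ℝ} {g : ℝ ≃o ℝ}, g ∈ Dd → C * η ≤ 1 → NT d η g →
    ∃ k ∈ Dd, (∀ x, 0 ≤ x → k x = g x) ∧ (∀ x, x ≤ -1 → k x = x + d) ∧ NT d (C * η) k := by
  obtain ⟨C, hC, hI⟩ := exists_interp
  refine ⟨C + 4, by linarith, fun {d η g} hg hs hN => ?_⟩
  have hη : 0 ≤ η := (abs_nonneg _).trans (hN 0).1
  obtain ⟨k, hk, h1, h2, h3⟩ := hI (a := -1) (L := 1) (K := η) (s := η) (g := tr d) (h := g)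
    one_pos (tr_mem d) hg hη hη (by nlinarith) (by nlinarith) (by
      intro x _
      refine ⟨?_, (hN x).2, ?_⟩
      · rw [LD_tr, abs_zero]; exact hη
      · rw [tr_apply, abs_sub_comm]; exact (hN x).1)
  refine ⟨k, hk, fun x hx => h2 x (by linarith), fun x hx => h1 x hx, fun x => ?_⟩
  have hCη : 0 ≤ C * η := by positivity
  have hle : η ≤ (C + 4) * η := by nlinarith
  rcases lt_or_ge x (-1) with hx | hx
  · constructor
    · rw [h1 x hx.le, tr_apply, sub_self, abs_zero]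
      linarith
    · have h4 : LD k x = LD (tr d) x := LD_congr (by
        filter_upwards [Iio_mem_nhds hx] with y hy
        exact h1 y (le_of_lt hy))
      rw [h4, LD_tr, abs_zero]
      linarith
  · rcases le_or_gt x 0 with hx' | hx'
    · obtain ⟨a1, a2, a3⟩ := h3 x ⟨hx, by linarith⟩
      constructor
      · rw [tr_apply] at a3
        linarith
      · rw [div_one] at a1
        linarith
    · constructor
      · rw [h2 x (by linarith)]
        exact (hN x).1.trans hle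
      · have h4 : LD k x = LD g x := LD_congr (by
          filter_upwards [Ioi_mem_nhds hx'] with y hy
          exact h2 y (by
            have : (0 : ℝ) < y := hy
            linarith))
        rw [h4]
        exact (hN x).2.trans hle

private theorem log_lip {a b : ℝ} (ha : 1 / 2 ≤ a) (hb : 1 / 2 ≤ b) :
    |Real.log a - Real.log b| ≤ 2 * |a - b| := by
  have key : ∀ a b : ℝ, 1 / 2 ≤ a → 1 / 2 ≤ b → Real.log a - Real.log b ≤ 2 * |a - b| := by
    intro a b ha hb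
    have ha0 : 0 < a := by linarith
    have hb0 : 0 < b := by linarith
    rw [← Real.log_div ha0.ne' hb0.ne']
    have h1 := Real.log_le_sub_one_of_pos (div_pos ha0 hb0)
    have h2 : a / b - 1 = (a - b) / b := by field_simp
    rw [h2] at h1
    refine h1.trans ?_
    rw [div_le_iff₀ hb0]
    have h3 := le_abs_self (a - b)
    have h4 := abs_nonneg (a - b)
    nlinarith
  rw [abs_le]
  constructor
  · have := key b a hb ha
    rw [abs_sub_comm] at this
    linarith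
  · exact key a b ha hb

/-- `k = tr d₁` for `x ≥ 0`, `k = tr d₂` for `x ≤ -1` -/
theorem exists_tr_tr : ∃ C : ℝ, 1 ≤ C ∧ ∀ {K d₁ d₂ : ℝ}, |d₁| ≤ K → |d₂| ≤ K → C * K ≤ 1 →
    ∃ k ∈ Dd, (∀ x, 0 ≤ x → k x = x + d₁) ∧ (∀ x, x ≤ -1 → k x = x + d₂) ∧ Near (C * K) k ∧
      AL (C * K) 0 (LD k) := by
  obtain ⟨C, hC, hb⟩ := exists_chi_bounds
  obtain ⟨-, hb1, hb2⟩ := hb 0 1 one_pos
  refine ⟨4 * C, by linarith, fun {K d₁ d₂} h1 h2 hs => ?_⟩
  have hK : 0 ≤ K := (abs_nonneg _).trans h1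
  have hd : |d₁ - d₂| ≤ 2 * K := by
    have := abs_sub d₁ d₂
    linarith
  have hc := contDiff_chi 0 1
  have hF : ContDiff ℝ 1 (fun x : ℝ => x + (d₂ + (d₁ - d₂) * chi 0 1 x)) :=
    contDiff_id.add (contDiff_const.add (contDiff_const.mul hc))
  have hder : ∀ x, deriv (fun x : ℝ => x + (d₂ + (d₁ - d₂) * chi 0 1 x)) x =
      1 + (d₁ - d₂) * deriv (chi 0 1) x := by
    intro x
    have h3 : HasDerivAt (fun x : ℝ => x + (d₂ + (d₁ - d₂) * chi 0 1 x))
        (1 + (d₁ - d₂) * deriv (chi 0 1) x) x :=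
      (hasDerivAt_id x).add
        ((((hc.differentiable one_ne_zero x).hasDerivAt).const_mul (d₁ - d₂)).const_add d₂)
    exact h3.deriv
  have hsm : ∀ x, |(d₁ - d₂) * deriv (chi 0 1) x| ≤ 2 * K * C := by
    intro x
    rw [abs_mul]
    have h3 := hb1 x
    rw [div_one] at h3
    exact mul_le_mul hd h3 (abs_nonneg _) (by positivity)
  have hhalf : ∀ x, 1 / 2 ≤ deriv (fun x : ℝ => x + (d₂ + (d₁ - d₂) * chi 0 1 x)) x := by
    intro x
    rw [hder]
    have h3 := (abs_le.1 (hsm x)).1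
    linarith
  have hconv : ∀ x, |d₂ + (d₁ - d₂) * chi 0 1 x| ≤ K := by
    intro x
    have c0 := chi_nonneg 0 1 x
    have c1 := chi_le_one 0 1 x
    obtain ⟨a1, a2⟩ := abs_le.1 h1
    obtain ⟨a3, a4⟩ := abs_le.1 h2
    have e : d₂ + (d₁ - d₂) * chi 0 1 x = d₂ * (1 - chi 0 1 x) + d₁ * chi 0 1 x := by ring
    rw [e, abs_le]
    constructor
    · nlinarith [mul_nonneg (sub_nonneg.2 c1) (sub_nonneg.2 a3),
        mul_nonneg c0 (sub_nonneg.2 a1)]
    · nlinarith [mul_nonneg (sub_nonneg.2 c1) (sub_nonneg.2 a4),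
        mul_nonneg c0 (sub_nonneg.2 a2)]
  obtain ⟨k, hk, hkF, hkL⟩ := exists_Dd_of_bdd hF (fun x => by linarith [hhalf x]) (C := K)
    (fun x => by rw [add_sub_cancel_left]; exact hconv x)
  refine ⟨k, hk, fun x hx => ?_, fun x hx => ?_, fun x => ⟨?_, ?_⟩, fun x y => ?_⟩
  · rw [hkF, chi_eq_one one_pos hx]
    ring
  · rw [hkF, chi_eq_zero one_pos (by linarith)]
    ring
  · rw [hkF, add_sub_cancel_left]
    refine (hconv x).trans ?_
    nlinarith
  · rw [hkL]
    have h3 : |deriv (fun x : ℝ => x + (d₂ + (d₁ - d₂) * chi 0 1 x)) x - 1| ≤ 2 * K * C := by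
      rw [hder, add_sub_cancel_left]
      exact hsm x
    have h4 := C1_abs_log_le h3 (by linarith)
    linarith
  · rw [hkL, hkL]
    refine (log_lip (hhalf x) (hhalf y)).trans ?_
    rw [hder, hder]
    have e : 1 + (d₁ - d₂) * deriv (chi 0 1) x - (1 + (d₁ - d₂) * deriv (chi 0 1) y) =
        (d₁ - d₂) * (deriv (chi 0 1) x - deriv (chi 0 1) y) := by ring
    rw [e, abs_mul]
    have h3 := hb2 x y
    rw [one_pow, div_one] at h3
    have h4 := mul_le_mul hd h3 (abs_nonneg _) (show (0 : ℝ) ≤ 2 * K by positivity)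
    linarith

/-- both: `k = g` for `x ≥ 0`, `k = tr d₂` for `x ≤ -2` (glue the two maps along `[-1-1/8, -1]`; shift the second one
by `-9/8`), with almost Lipschitz `LD k` -/
theorem exists_NT_tr : ∃ C : ℝ, 1 ≤ C ∧ ∀ {K d d₂ η : ℝ} {g : ℝ ≃o ℝ}, g ∈ Dd → 0 ≤ η → |d| ≤ K → |d₂| ≤ K →
    C * (K + η) ≤ 1 → NT d η g →
    ∃ k ∈ Dd, (∀ x, 0 ≤ x → k x = g x) ∧ (∀ x, x ≤ -3 → k x = x + d₂) ∧ Near (C * (K + η)) k ∧
      AL (C * K) (C * η) (LD k) := by
  obtain ⟨C₁, hC₁, H₁⟩ := exists_to_exact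
  obtain ⟨C₂, hC₂, H₂⟩ := exists_tr_tr
  refine ⟨2 * C₁ + C₂, by linarith, fun {K d d₂ η g} hg hη h1 h2 hs hN => ?_⟩
  have hK : 0 ≤ K := (abs_nonneg _).trans h1
  have b1 : 0 ≤ C₁ * K := by positivity
  have b2 : 0 ≤ C₁ * η := by positivity
  have b3 : 0 ≤ C₂ * K := by positivity
  have b4 : 0 ≤ C₂ * η := by positivity
  obtain ⟨k₁, hk₁, p1, p2, p3⟩ := H₁ hg (by nlinarith) hN
  obtain ⟨k₂, hk₂, q1, q2, q3, q4⟩ := H₂ h1 h2 (by nlinarith)
  obtain ⟨m, hm⟩ : ∃ m, m = tr (-(9 / 8)) * k₂ * (tr (-(9 / 8)))⁻¹ := ⟨_, rfl⟩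
  have hmD : m ∈ Dd := by
    rw [hm]
    exact Dd.mul_mem (Dd.mul_mem (tr_mem _) hk₂) (Dd.inv_mem (tr_mem _))
  have hmx : ∀ x, m x = k₂ (x + 9 / 8) - 9 / 8 := by
    intro x
    rw [hm]
    change tr (-(9 / 8)) (k₂ ((tr (-(9 / 8)))⁻¹ x)) = _
    rw [tr_inv_apply, tr_apply, sub_neg_eq_add]
    ring
  have hmL : ∀ x, LD m x = LD k₂ (x + 9 / 8) := by
    intro x
    rw [hm, LD_mul (Dd.mul_mem (tr_mem _) hk₂) (Dd.inv_mem (tr_mem _)), LD_mul (tr_mem _) hk₂,
      tr_inv, LD_tr, LD_tr, tr_apply, zero_add, add_zero, neg_neg]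
  have hmN : Near (C₂ * K) m := by
    rw [hm]
    exact Near.conj_tr hk₂ q3 _
  obtain ⟨k, hk, r1, r2⟩ := exists_glue hmD hk₁ (p := -(9 / 8)) (q := -1) (by norm_num) (by
    intro x hx1 hx2
    rw [hmx, q1 _ (by linarith), p2 x hx2.le]
    ring)
  have s1 : ∀ x, x < -1 → LD k x = LD m x := fun x hx => LD_congr (by
    filter_upwards [Iio_mem_nhds hx] with y hy
    exact r1 y hy)
  have s2 : ∀ x, -(9 / 8) < x → LD k x = LD k₁ x := fun x hx => LD_congr (by
    filter_upwards [Ioi_mem_nhds hx] with y hy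
    exact r2 y hy)
  have s3 : ∀ x, -(9 / 8) < x → LD m x = 0 := by
    intro x hx
    have h4 : LD m x = LD (tr d) x := LD_congr (by
      filter_upwards [Ioi_mem_nhds hx] with y hy
      have hy' : -(9 / 8) < y := hy
      rw [hmx, q1 _ (by linarith), tr_apply]
      ring)
    rw [h4, LD_tr]
  have s4 : ∀ x, |LD k x - LD m x| ≤ C₁ * η := by
    intro x
    rcases lt_or_ge x (-1) with hx | hx
    · rw [s1 x hx, sub_self, abs_zero]
      exact b2
    · rw [s2 x (by linarith), s3 x (by linarith), sub_zero]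
      exact (p3 x).2
  refine ⟨k, hk, fun x hx => ?_, fun x hx => ?_, fun x => ?_, fun x y => ?_⟩
  · rw [r2 x (by linarith), p1 x hx]
  · rw [r1 x (by linarith), hmx, q2 _ (by linarith)]
    ring
  · rcases lt_or_ge x (-1) with hx | hx
    · rw [r1 x hx, s1 x hx]
      exact ⟨(hmN x).1.trans (by nlinarith), (hmN x).2.trans (by nlinarith)⟩
    · rw [r2 x (by linarith), s2 x (by linarith)]
      constructor
      · have e : k₁ x - x = d + (k₁ x - (x + d)) := by ring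
        rw [e]
        refine (abs_add_le _ _).trans ((add_le_add h1 (p3 x).1).trans ?_)
        nlinarith
      · exact (p3 x).2.trans (by nlinarith)
  · have h4 := q4 (x + 9 / 8) (y + 9 / 8)
    rw [← hmL, ← hmL, add_sub_add_right_eq_sub, add_zero] at h4
    have h5 := abs_le.1 (s4 x)
    have h6 := abs_le.1 (s4 y)
    have h7 := abs_le.1 h4
    have h8 : C₂ * K * |x - y| ≤ (2 * C₁ + C₂) * K * |x - y| := by
      have := abs_nonneg (x - y)
      nlinarith [mul_nonneg b1 this]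
    rw [abs_le]
    constructor <;> nlinarith

end FG
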