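import Pool.Agent.helper97.FG.N0

/-!
author: helper39
# N4a : transport of a solution of a commutator equation (mover to the right)

The equation `m n m⁻¹ n⁻¹ = g` reads `m (n y) = g (n (m y))`, i.e. `n (m y) = m₂ (n y)` with `m₂ = g⁻¹ m`.
`n = m₂^{-k} b m^k`.  If the equation holds for `b` on `[0,∞)`, then `n = b` on `[0,∞)` and the equation holds for `n` at
`y` if `0 ≤ m^k y`.
Sizes: `m₂^{-k} = (m⁻¹ g)^k = (∏_{j=1}^k P_j) m^{-k}` with `P_j = m^{-j} g m^j`; `|P_j x - x| ≤ 2 γ`,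
`|LD P_j| ≤ γ + 2 j μ` (`LD P_j x = LD (m^{-j}) (g y) - LD (m^{-j}) y + LD g y`, `y = m^j x`, `|LD (m^{±j})| ≤ j μ ≤ 1/4`);
`|m^{-k} b m^k - id| ≤ 2 D`, `|LD (m^{-k} b m^k)| ≤ S + 2 k μ`.
-/

set_option linter.unusedVariables false

open Set Filter Topology
open scoped commutatorElement
open Pool.Agent.helper35.FOL

namespace FG

private theorem N4a_self_inv (g : ℝ ≃o ℝ) (x : ℝ) : g (g⁻¹ x) = x := g.apply_symm_apply x

private theorem N4a_inv_self (g : ℝ ≃o ℝ) (x : ℝ) : g⁻¹ (g x) = x := g.symm_apply_apply x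

private theorem N4a_mul (g h : ℝ ≃o ℝ) (x : ℝ) : (g * h) x = g (h x) := rfl

private theorem N4a_pow_mem {m : ℝ ≃o ℝ} (hm : m ∈ Dd) (k : ℕ) : m ^ k ∈ Dd := Dd.pow_mem hm k

private theorem N4a_exp : Real.exp (1 / 4) ≤ 2 := by
  have h1 : Real.exp (1 / 4) ^ 4 ≤ 2 ^ 4 := by
    rw [← Real.exp_nat_mul]
    norm_num
    have := Real.exp_one_lt_d9
    linarith
  exact le_of_pow_le_pow_left₀ (by norm_num) (by norm_num) h1

theorem LD_pow {m : ℝ ≃o ℝ} (hm : m ∈ Dd) {μ : ℝ} (h : ∀ x, |LD m x| ≤ μ) (k : ℕ) :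
    (∀ x, |LD (m ^ k) x| ≤ k * μ) ∧ ∀ x, |LD ((m ^ k)⁻¹) x| ≤ k * μ := by
  have h1 : ∀ k : ℕ, ∀ x, |LD (m ^ k) x| ≤ k * μ := by
    intro k
    induction k with
    | zero =>
      intro x
      rw [pow_zero, LD_one, abs_zero, Nat.cast_zero, zero_mul]
    | succ k ih =>
      intro x
      rw [pow_succ, LD_mul (N4a_pow_mem hm k) hm, Nat.cast_succ, add_mul, one_mul]
      exact (abs_add_le _ _).trans (add_le_add (ih _) (h x))
  refine ⟨h1 k, fun x => ?_⟩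
  rw [LD_inv (N4a_pow_mem hm k), abs_neg]
  exact h1 k _

theorem inv_mul_pow (m g : ℝ ≃o ℝ) (k : ℕ) :
    (m⁻¹ * g) ^ (k + 1) = (m⁻¹ * g) ^ k * m ^ k * ((m ^ (k + 1))⁻¹ * g * m ^ (k + 1)) * (m ^ (k + 1))⁻¹ := by
  have h1 : m ^ k * (m ^ (k + 1))⁻¹ = m⁻¹ := by
    rw [pow_succ', mul_inv_rev, mul_inv_cancel_left]
  calc (m⁻¹ * g) ^ (k + 1) = (m⁻¹ * g) ^ k * (m⁻¹ * g) := pow_succ _ _
    _ = (m⁻¹ * g) ^ k * ((m ^ k * (m ^ (k + 1))⁻¹) * g) := by rw [h1]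
    _ = _ := by simp only [mul_assoc, mul_inv_cancel, mul_one]

theorem absorb_right {μ γ D S : ℝ} {k : ℕ} {m g b : ℝ ≃o ℝ} (hm : m ∈ Dd) (hg : g ∈ Dd) (hb : b ∈ Dd)
    (hkμ : k * μ ≤ 1 / 4) (hmL : ∀ x, |LD m x| ≤ μ) (hgN : Near γ g) (hb1 : ∀ x, |b x - x| ≤ D)
    (hb2 : ∀ x, |LD b x| ≤ S) (hmove : ∀ x, x ≤ m x) (heq : ∀ y, 0 ≤ y → m (b y) = g (b (m y))) :
    ∃ n ∈ Dd, (∀ y, 0 ≤ y → n y = b y) ∧ (∀ y, 0 ≤ (m ^ k) y → m (n y) = g (n (m y))) ∧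
      (∀ x, |n x - x| ≤ 2 * D + 2 * k * γ) ∧ ∀ x, |LD n x| ≤ S + k * γ + 4 * k ^ 2 * μ := by
  have hμ : 0 ≤ μ := (abs_nonneg _).trans (hmL 0)
  have hγ : 0 ≤ γ := hgN.nonneg
  have hk0 : (0 : ℝ) ≤ k := Nat.cast_nonneg k
  obtain ⟨m₂, hm₂⟩ : ∃ m₂ : ℝ ≃o ℝ, m₂ = g⁻¹ * m := ⟨_, rfl⟩
  have hm₂m : m₂ ∈ Dd := by
    rw [hm₂]
    exact Dd.mul_mem (Dd.inv_mem hg) hm
  have hgm : ∀ x, g (m₂ x) = m x := by
    intro x
    rw [hm₂, N4a_mul, N4a_self_inv]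
  -- the intertwining relation
  have h1 : ∀ y, 0 ≤ y → m₂ (b y) = b (m y) := by
    intro y hy
    rw [hm₂, N4a_mul, heq y hy, N4a_inv_self]
  have h2 : ∀ j : ℕ, ∀ y, 0 ≤ y → (m₂ ^ j) (b y) = b ((m ^ j) y) := by
    intro j
    induction j with
    | zero => intro y _; rfl
    | succ j ih =>
      intro y hy
      rw [pow_succ, pow_succ, N4a_mul, N4a_mul, h1 y hy, ih _ (hy.trans (hmove y))]
  set C : ℝ ≃o ℝ := (m ^ k)⁻¹ * b * m ^ k with hC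
  set Q : ℕ → (ℝ ≃o ℝ) := fun j => (m⁻¹ * g) ^ j * m ^ j with hQ
  have hinv : (m₂ ^ k)⁻¹ = (m⁻¹ * g) ^ k := by
    rw [← inv_pow, hm₂, mul_inv_rev, inv_inv]
  have hn : (m₂ ^ k)⁻¹ * b * m ^ k = Q k * C := by
    rw [hinv, hQ, hC]
    simp only [mul_assoc, mul_inv_cancel_left]
  -- the pieces
  have hexp : ∀ {h : ℝ ≃o ℝ}, h ∈ Dd → (∀ x, |LD h x| ≤ 1 / 4) → ∀ x y, |h x - h y| ≤ 2 * |x - y| := by
    intro h hh hL x y
    refine (abs_sub_le_exp hh (s := 1 / 4) fun z _ => (abs_le.1 (hL z)).2).trans ?_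
    exact mul_le_mul_of_nonneg_right N4a_exp (abs_nonneg _)
  have hjμ : ∀ j : ℕ, j ≤ k → (j : ℝ) * μ ≤ k * μ := fun j hj =>
    mul_le_mul_of_nonneg_right (Nat.cast_le.2 hj) hμ
  have hconj : ∀ (h : ℝ ≃o ℝ) (a c : ℝ) (j : ℕ), h ∈ Dd → j ≤ k → (∀ x, |h x - x| ≤ a) →
      (∀ x, |LD h x| ≤ c) → (∀ x, |((m ^ j)⁻¹ * h * m ^ j) x - x| ≤ 2 * a) ∧
        ∀ x, |LD ((m ^ j)⁻¹ * h * m ^ j) x| ≤ c + 2 * (k * μ) := by
    intro h a c j hh hj ha hc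
    have hmj := N4a_pow_mem hm j
    have hmj' : (m ^ j)⁻¹ ∈ Dd := Dd.inv_mem hmj
    obtain ⟨hL1, hL2⟩ := LD_pow hm hmL j
    constructor
    · intro x
      have h3 : ((m ^ j)⁻¹ * h * m ^ j) x - x = (m ^ j)⁻¹ (h ((m ^ j) x)) - (m ^ j)⁻¹ ((m ^ j) x) := by
        rw [N4a_inv_self]
        rfl
      rw [h3]
      refine (hexp hmj' (fun z => (hL2 z).trans ((hjμ j hj).trans hkμ)) _ _).trans ?_
      exact mul_le_mul_of_nonneg_left (ha _) (by norm_num)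
    · intro x
      rw [LD_mul (Dd.mul_mem hmj' hh) hmj, LD_mul hmj' hh]
      have e1 := abs_le.1 (hL2 (h ((m ^ j) x)))
      have e2 := abs_le.1 (hc ((m ^ j) x))
      have e3 := abs_le.1 (hL1 x)
      have e4 := hjμ j hj
      rw [abs_le]
      constructor <;> linarith
  have hQm : ∀ j, Q j ∈ Dd := fun j =>
    Dd.mul_mem (Dd.pow_mem (Dd.mul_mem (Dd.inv_mem hm) hg) j) (Dd.pow_mem hm j)
  have hQs : ∀ j : ℕ, j ≤ k → (∀ x, |Q j x - x| ≤ j * (2 * γ)) ∧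
      ∀ x, |LD (Q j) x| ≤ j * (γ + 2 * (k * μ)) := by
    intro j
    induction j with
    | zero =>
      intro _
      have h3 : Q 0 = 1 := by
        rw [hQ]
        simp
      rw [h3]
      refine ⟨fun x => ?_, fun x => ?_⟩
      · have : (1 : ℝ ≃o ℝ) x = x := rfl
        rw [this, sub_self, abs_zero, Nat.cast_zero, zero_mul]
      · rw [LD_one, abs_zero, Nat.cast_zero, zero_mul]
    | succ j ih =>
      intro hj
      obtain ⟨i1, i2⟩ := ih (by omega)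
      obtain ⟨c1, c2⟩ := hconj g γ γ (j + 1) hg hj (fun x => (hgN x).1) fun x => (hgN x).2
      have hP : (m ^ (j + 1))⁻¹ * g * m ^ (j + 1) ∈ Dd :=
        Dd.mul_mem (Dd.mul_mem (Dd.inv_mem (Dd.pow_mem hm _)) hg) (Dd.pow_mem hm _)
      have h3 : Q (j + 1) = Q j * ((m ^ (j + 1))⁻¹ * g * m ^ (j + 1)) := by
        rw [hQ]
        simp only
        rw [inv_mul_pow, inv_mul_cancel_right]
      rw [h3]
      constructor
      · intro x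
        have h4 : (Q j * ((m ^ (j + 1))⁻¹ * g * m ^ (j + 1))) x - x =
            (Q j (((m ^ (j + 1))⁻¹ * g * m ^ (j + 1)) x) - ((m ^ (j + 1))⁻¹ * g * m ^ (j + 1)) x) +
              (((m ^ (j + 1))⁻¹ * g * m ^ (j + 1)) x - x) := by
          rw [N4a_mul]
          ring
        rw [h4, Nat.cast_succ, add_mul, one_mul]
        exact (abs_add_le _ _).trans (add_le_add (i1 _) (c1 x))
      · intro x
        rw [LD_mul (hQm j) hP, Nat.cast_succ, add_mul, one_mul]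
        exact (abs_add_le _ _).trans (add_le_add (i2 _) (c2 x))
  obtain ⟨q1, q2⟩ := hQs k le_rfl
  obtain ⟨c1, c2⟩ := hconj b D S k hb le_rfl hb1 hb2
  have hCm : C ∈ Dd := Dd.mul_mem (Dd.mul_mem (Dd.inv_mem (Dd.pow_mem hm _)) hb) (Dd.pow_mem hm _)
  refine ⟨(m₂ ^ k)⁻¹ * b * m ^ k, ?_, ?_, ?_, ?_, ?_⟩
  · exact Dd.mul_mem (Dd.mul_mem (Dd.inv_mem (Dd.pow_mem hm₂m _)) hb) (Dd.pow_mem hm _)
  · intro y hy
    rw [N4a_mul, N4a_mul, ← h2 k y hy, N4a_inv_self]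
  · intro y hy
    have h3 : ((m₂ ^ k)⁻¹ * b * m ^ k) (m y) = m₂ (((m₂ ^ k)⁻¹ * b * m ^ k) y) := by
      have h4 : (m ^ k) (m y) = m ((m ^ k) y) := by
        rw [← N4a_mul, ← N4a_mul, ← pow_succ, ← pow_succ']
      have h5 : (m₂ ^ k)⁻¹ * m₂ = m₂ * (m₂ ^ k)⁻¹ := by
        rw [← inv_pow]
        exact ((Commute.inv_left (Commute.refl m₂)).pow_left k).eq
      rw [N4a_mul, N4a_mul, N4a_mul, N4a_mul, h4, ← h1 _ hy, ← N4a_mul, h5, N4a_mul]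
    rw [h3, hgm]
  · intro x
    rw [hn]
    have h4 : (Q k * C) x - x = (Q k (C x) - C x) + (C x - x) := by
      rw [N4a_mul]
      ring
    rw [h4]
    refine (abs_add_le _ _).trans ((add_le_add (q1 _) (c1 x)).trans (le_of_eq ?_))
    ring
  · intro x
    rw [hn, LD_mul (hQm k) hCm]
    refine (abs_add_le _ _).trans ((add_le_add (q2 _) (c2 x)).trans ?_)
    have h6 : (k : ℝ) * μ ≤ k ^ 2 * μ := by
      refine mul_le_mul_of_nonneg_right ?_ hμ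
      have : k ≤ k ^ 2 := Nat.le_self_pow two_ne_zero k
      exact_mod_cast this
    nlinarith

end FG
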