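import Pool.Agent.helper97.FG.N4a

/-!
author: helper39
# N4b : transport of a solution of a commutator equation (both directions of the mover)

`d > 0`: `absorb_right`, `m^k y ≥ y + k (δ - μ)`.
`d < 0`: apply `absorb_right` to `M = m⁻¹`, `G = m⁻¹ g⁻¹ m` (`Near.conj`: `|G - id| ≤ 2 γ`, `|LD G| ≤ γ + 2 μ`):
`M (b y') = G (b (M y'))` is the equation at `y = M y'`.
-/

set_option linter.unusedVariables false

open Set Filter Topology
open scoped commutatorElement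
open Pool.Agent.helper35.FOL

namespace FG

theorem absorb {δ d μ γ D S L : ℝ} {k : ℕ} {m g b : ℝ ≃o ℝ} (hδ : 0 < δ) (hδ1 : δ ≤ 1 / 4) (hd : |d| = δ)
    (hμ : 0 ≤ μ) (hμδ : μ ≤ δ / 2) (hkμ : k * μ ≤ 1 / 4) (hL : 0 ≤ L) (hk : 2 * (L + 2) ≤ k * δ)
    (hm : m ∈ Dd) (hg : g ∈ Dd) (hb : b ∈ Dd) (hmN : NT d μ m) (hgN : Near γ g)
    (hb1 : ∀ x, |b x - x| ≤ D) (hb2 : ∀ x, |LD b x| ≤ S)
    (heq : ∀ y, 0 ≤ y → m (b y) = g (b (m y))) :
    ∃ n ∈ Dd, (∀ y, 0 ≤ y → n y = b y) ∧ (∀ y, -L ≤ y → m (n y) = g (n (m y))) ∧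
      (∀ x, |n x - x| ≤ 2 * D + 4 * k * γ + 4 * k * μ) ∧
      ∀ x, |LD n x| ≤ S + 2 * k * γ + 8 * k ^ 2 * μ := by
  have hγ : 0 ≤ γ := hgN.nonneg
  have hk0 : (0 : ℝ) ≤ k := Nat.cast_nonneg k
  have hkk : (k : ℝ) * μ ≤ k ^ 2 * μ := by
    refine mul_le_mul_of_nonneg_right ?_ hμ
    have : k ≤ k ^ 2 := Nat.le_self_pow two_ne_zero k
    exact_mod_cast this
  have hkγ : 0 ≤ k * γ := mul_nonneg hk0 hγ
  have hkμ0 : 0 ≤ k * μ := mul_nonneg hk0 hμ
  have self_inv : ∀ (g : ℝ ≃o ℝ) (x : ℝ), g (g⁻¹ x) = x := fun g x => g.apply_symm_apply x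
  have inv_self : ∀ (g : ℝ ≃o ℝ) (x : ℝ), g⁻¹ (g x) = x := fun g x => g.symm_apply_apply x
  -- powers of a map moving to the right
  have hpow : ∀ M : ℝ ≃o ℝ, (∀ x, x + δ / 2 ≤ M x) → ∀ (j : ℕ) (y : ℝ), y + j * (δ / 2) ≤ (M ^ j) y := by
    intro M hM j
    induction j with
    | zero =>
      intro y
      rw [Nat.cast_zero, zero_mul, add_zero]
      exact le_rfl
    | succ j ih =>
      intro y
      rw [pow_succ, Nat.cast_succ]
      have h1 := ih (M y)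
      have h2 := hM y
      show _ ≤ (M ^ j) (M y)
      linarith
  rcases (abs_eq hδ.le).1 hd with hd1 | hd1
  · -- `d = δ`
    subst hd1
    have hmove : ∀ x, x + d / 2 ≤ m x := by
      intro x
      have h1 := (abs_le.1 (hmN x).1).1
      linarith
    obtain ⟨n, hn, n1, n2, n3, n4⟩ := absorb_right hm hg hb hkμ (fun x => (hmN x).2) hgN hb1 hb2
      (fun x => by linarith [hmove x]) heq
    refine ⟨n, hn, n1, fun y hy => n2 y ?_, fun x => (n3 x).trans ?_, fun x => (n4 x).trans ?_⟩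
    · have := hpow m hmove k y
      linarith
    · linarith
    · nlinarith
  · -- `d = -δ`
    have hdn : d = -δ := hd1
    have hup : ∀ x, m x ≤ x - δ / 2 := by
      intro x
      have h1 := (abs_le.1 (hmN x).1).2
      linarith
    have hlow : ∀ x, x - 3 * δ / 2 ≤ m x := by
      intro x
      have h1 := (abs_le.1 (hmN x).1).1
      linarith
    have hM : ∀ x, x + δ / 2 ≤ m⁻¹ x := by
      intro x
      have h1 := hup (m⁻¹ x)
      rw [self_inv] at h1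
      linarith
    have hLinv : ∀ x, |LD m⁻¹ x| ≤ μ := by
      intro x
      rw [LD_inv hm, abs_neg]
      exact (hmN _).2
    have hG := (Near.conj (Dd.inv_mem hg) (Dd.inv_mem hm) (hgN.inv hg) (b := μ) (by linarith) hLinv).1
    rw [inv_inv] at hG
    obtain ⟨n, hn, n1, n2, n3, n4⟩ := absorb_right (m := m⁻¹) (g := m⁻¹ * g⁻¹ * m) (k := k)
      (Dd.inv_mem hm) (Dd.mul_mem (Dd.mul_mem (Dd.inv_mem hm) (Dd.inv_mem hg)) hm) hb hkμ hLinv hG
      hb1 hb2 (fun x => by linarith [hM x]) (by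
        intro y hy
        have h1 := heq (m⁻¹ y) (by linarith [hM y])
        rw [self_inv] at h1
        show m⁻¹ (b y) = m⁻¹ (g⁻¹ (m (b (m⁻¹ y))))
        rw [h1, inv_self])
    refine ⟨n, hn, n1, fun y hy => ?_, fun x => (n3 x).trans ?_, fun x => (n4 x).trans ?_⟩
    · have h1 : 0 ≤ (m⁻¹ ^ k) (m y) := by
        have h3 := hpow m⁻¹ hM k (m y)
        have h4 := hlow y
        linarith
      have h2 := n2 (m y) h1
      have h3 : m⁻¹ (n (m y)) = m⁻¹ (g⁻¹ (m (n (m⁻¹ (m y))))) := h2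
      rw [inv_self] at h3
      have h4 := m⁻¹.injective h3
      rw [h4, self_inv]
    · linarith
    · nlinarith

end FG
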