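import Pool.Agent.helper97.FG.N2a
import Pool.Agent.helper97.FG.N3
import Pool.Agent.helper97.FG.N4b
import Pool.Agent.helper97.FG.N0b

/-!
# N5 : the right end
author: helper23

`Q 0` from `exists_to_exact` (shifted by `-1`), `Q 2`, `Q 3` from `exists_NT_tr` with targets `τ`, `0` (shifted by `-1`): so
`Q 0, Q 2, Q 3` agree with `q 0, q 2, q 3` on `[-1, ∞)` and are in normal form on `(-∞, -4]`.
`g := wrd q * ⁅Q 2, Q 3⁆⁻¹` is `Near (C (η + δ²))` (`NT.commutator` for `wrd q`, `comm_near`).  By locality `[Q 2,Q 3] = [q 2,q 3]`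
on `[-1/2, ∞)`, so `Q 0 (q 1 y) = g (q 1 (Q 0 y))` for `y ≥ 0`.  `Q 1 := n` from `absorb` with `b = q 1`, `m = Q 0`,
`μ = C η`, `L` replaced by `L + 1`, `k = ⌈2 (L+3)/δ⌉` (so `k ≤ (2 L + 7)/δ`), `γ = C (η + δ²)`; choose `η ≤ δ⁴` small.
`wrd Q x = wrd q x` for `x ≥ -L`: with `p = [Q 2,Q 3] x`, `y = (Q 0)⁻¹ (Q 1)⁻¹ p ≥ -L-1`: `[Q 0,Q 1] p = Q 0 (Q 1 y) =
g (Q 1 (Q 0 y)) = g p = wrd q x`.
-/

set_option linter.unusedVariables false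

open Set Filter Topology
open scoped commutatorElement
open Pool.Agent.helper35.FOL
open Pool.Agent.helper32.FolG (Q4 InDd wrd Fx)

namespace FG

private theorem N5_LD {g : ℝ ≃o ℝ} (hg : g ∈ Dd) (t x : ℝ) :
    LD (tr t * g * (tr t)⁻¹) x = LD g (x - t) := by
  rw [LD_mul (Dd.mul_mem (tr_mem t) hg) (Dd.inv_mem (tr_mem t)), LD_mul (tr_mem t) hg,
    tr_inv, LD_tr, LD_tr, tr_apply, zero_add, add_zero, sub_eq_add_neg]

private theorem N5_apply (g : ℝ ≃o ℝ) (t x : ℝ) : (tr t * g * (tr t)⁻¹) x = g (x - t) + t := by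
  change tr t (g ((tr t)⁻¹ x)) = _
  rw [tr_inv_apply, tr_apply]

private theorem N5_NT {g : ℝ ≃o ℝ} {d η : ℝ} (hg : g ∈ Dd) (h : NT d η g) (t : ℝ) :
    NT d η (tr t * g * (tr t)⁻¹) := by
  intro x
  rw [N5_LD hg, N5_apply]
  have e : g (x - t) + t - (x + d) = g (x - t) - ((x - t) + d) := by ring
  rw [e]
  exact h _

private theorem N5_AL {g : ℝ ≃o ℝ} {L ε : ℝ} (hg : g ∈ Dd) (h : AL L ε (LD g)) (t : ℝ) :
    AL L ε (LD (tr t * g * (tr t)⁻¹)) := by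
  intro x y
  rw [N5_LD hg, N5_LD hg]
  have h1 := h (x - t) (y - t)
  have e : x - t - (y - t) = x - y := by ring
  rwa [e] at h1

private theorem N5_mem {g : ℝ ≃o ℝ} (hg : g ∈ Dd) (t : ℝ) : tr t * g * (tr t)⁻¹ ∈ Dd :=
  Dd.mul_mem (Dd.mul_mem (tr_mem t) hg) (Dd.inv_mem (tr_mem t))

private theorem N5_exact : ∃ C : ℝ, 1 ≤ C ∧ ∀ {d η : ℝ} {g : ℝ ≃o ℝ}, g ∈ Dd → C * η ≤ 1 → NT d η g →
    ∃ k ∈ Dd, (∀ x, -1 ≤ x → k x = g x) ∧ (∀ x, x ≤ -2 → k x = x + d) ∧ NT d (C * η) k := by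
  obtain ⟨C, hC, h⟩ := exists_to_exact
  refine ⟨C, hC, ?_⟩
  intro d η g hg hCη hN
  obtain ⟨k, hk, h1, h2, h3⟩ := h (N5_mem hg 1) hCη (N5_NT hg hN 1)
  refine ⟨tr (-1) * k * (tr (-1))⁻¹, N5_mem hk _, ?_, ?_, N5_NT hk h3 _⟩
  · intro x hx
    rw [N5_apply, h1 _ (by linarith), N5_apply]
    have e : x - -1 - 1 = x := by ring
    rw [e]
    ring
  · intro x hx
    rw [N5_apply, h2 _ (by linarith)]
    ring

private theorem N5_NTtr : ∃ C : ℝ, 1 ≤ C ∧ ∀ {K d d₂ η : ℝ} {g : ℝ ≃o ℝ}, g ∈ Dd → 0 ≤ η → |d| ≤ K →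
    |d₂| ≤ K → C * (K + η) ≤ 1 → NT d η g →
    ∃ k ∈ Dd, (∀ x, -1 ≤ x → k x = g x) ∧ (∀ x, x ≤ -4 → k x = x + d₂) ∧ Near (C * (K + η)) k ∧
      AL (C * K) (C * η) (LD k) := by
  obtain ⟨C, hC, h⟩ := exists_NT_tr
  refine ⟨C, hC, ?_⟩
  intro K d d₂ η g hg hη hd hd₂ hCK hN
  obtain ⟨k, hk, h1, h2, h3, h4⟩ := h (N5_mem hg 1) hη hd hd₂ hCK (N5_NT hg hN 1)
  refine ⟨tr (-1) * k * (tr (-1))⁻¹, N5_mem hk _, ?_, ?_, Near.conj_tr hk h3 _, N5_AL hk h4 _⟩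
  · intro x hx
    rw [N5_apply, h1 _ (by linarith), N5_apply]
    have e : x - -1 - 1 = x := by ring
    rw [e]
    ring
  · intro x hx
    rw [N5_apply, h2 _ (by linarith)]
    ring

private theorem N5_comm_apply (u c : ℝ ≃o ℝ) (y : ℝ) : ⁅u, c⁆ (c (u y)) = u (c y) := by
  have h1 : c⁻¹ (c (u y)) = u y := c.symm_apply_apply _
  have h2 : u⁻¹ (u y) = y := u.symm_apply_apply _
  change u (c (u⁻¹ (c⁻¹ (c (u y))))) = _
  rw [h1, h2]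

theorem right_end {C₀ L : ℝ} (hC₀ : 1 ≤ C₀) (hL : 0 ≤ L) : ∃ A δ₀ : ℝ, 1 ≤ A ∧ 0 < δ₀ ∧
    ∀ δ : ℝ, 0 < δ → δ ≤ δ₀ → ∃ η : ℝ, 0 < η ∧ ∀ {q : Q4} {d : Fin 4 → ℝ} {τ : ℝ}, InDd q →
      (∀ i, NT (d i) η (q i)) → |d 0| = δ → (∀ i, |d i| ≤ C₀ * δ) → |τ| ≤ δ →
      ∃ Q : Q4, InDd Q ∧ (∀ i x, 0 ≤ x → Q i x = q i x) ∧
        (∀ x, x ≤ -4 → Q 0 x = x + d 0 ∧ Q 2 x = x + τ ∧ Q 3 x = x) ∧ (∀ i, Near (A * δ) (Q i)) ∧
        (∀ x, Q 0 x ≠ x) ∧ ∀ x, -L ≤ x → wrd Q x = wrd q x := by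
  obtain ⟨C₁, hC₁, hex⟩ := N5_exact
  obtain ⟨C₂, hC₂, htr⟩ := N5_NTtr
  set P : ℝ := 2 * L + 7 with hP
  set G : ℝ := 30 * C₂ ^ 2 * C₀ ^ 2 with hG
  set A : ℝ := 4 * C₀ + 4 * P * G + 2 * C₂ * C₀ + 2 + G with hA
  set B : ℝ := 16 * C₀ * C₁ * C₂ * P ^ 2 with hB
  have hP7 : 7 ≤ P := by rw [hP]; linarith
  have hG0 : 0 < G := by positivity
  have hA1 : 1 ≤ A := by
    have h1 : 0 ≤ 4 * P * G := by positivity
    have h2 : 0 ≤ 2 * C₂ * C₀ := by positivity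
    rw [hA]
    linarith
  have hB0 : 0 < B := by positivity
  refine ⟨A, min (1 / B) (1 / (4 * A)), hA1, by positivity, ?_⟩
  intro δ hδ hδ₀
  have hBδ : B * δ ≤ 1 := by
    have := hδ₀.trans (min_le_left _ _)
    rw [le_div_iff₀ hB0] at this
    linarith
  have hAδ : A * δ ≤ 1 / 4 := by
    have := hδ₀.trans (min_le_right _ _)
    rw [le_div_iff₀ (by positivity)] at this
    linarith
  -- consequences of `B δ ≤ 1`
  have hc01 : 1 ≤ C₀ * C₂ := by nlinarith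
  have hP2 : 49 ≤ P ^ 2 := by nlinarith
  have b1 : C₁ * P ^ 2 * δ ≤ 1 / 16 := by
    have h1 : 0 ≤ C₁ * P ^ 2 * δ := by positivity
    have h2 : B * δ = 16 * (C₀ * C₂) * (C₁ * P ^ 2 * δ) := by rw [hB]; ring
    nlinarith
  have b2 : C₀ * C₂ * δ ≤ 1 / 16 := by
    have h1 : 0 ≤ C₀ * C₂ * δ := by positivity
    have h3 : 1 ≤ C₁ * P ^ 2 := by nlinarith
    have h2 : B * δ = 16 * (C₁ * P ^ 2) * (C₀ * C₂ * δ) := by rw [hB]; ring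
    nlinarith
  have b3 : C₀ * δ ≤ 1 / 16 := by
    have h1 : 0 ≤ C₀ * δ := by positivity
    nlinarith
  have b4 : δ ≤ 1 / 16 := by nlinarith
  have b5 : C₁ * δ ≤ 1 / 16 := by
    have h1 : 0 ≤ C₁ * δ := by positivity
    nlinarith
  have b6 : P * C₁ * δ ≤ 1 / 16 := by
    have h1 : 0 ≤ P * C₁ * δ := by positivity
    nlinarith
  have hδ2 : δ ^ 2 ≤ δ := by nlinarith
  have hδ3 : δ ^ 3 ≤ δ ^ 2 := by nlinarith [sq_nonneg δ]
  have hδ4 : δ ^ 4 ≤ δ ^ 2 := by nlinarith [sq_nonneg δ, sq_nonneg (δ ^ 2)]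
  have hη0 : 0 < δ ^ 4 := by positivity
  refine ⟨δ ^ 4, hη0, ?_⟩
  intro q d τ hq hN hd0 hd hτ
  have hμ1 : C₁ * δ ^ 4 ≤ δ / 2 := by
    have h1 : C₁ * δ ^ 4 = (C₁ * δ) * δ ^ 3 := by ring
    have h2 : (C₁ * δ) * δ ^ 3 ≤ 1 / 16 * δ ^ 3 := mul_le_mul_of_nonneg_right b5 (by positivity)
    linarith
  obtain ⟨Q0, hQ0, q01, q02, q03⟩ := hex (hq 0) (by linarith) (hN 0)
  have hK : C₂ * (C₀ * δ + δ ^ 4) ≤ 2 * C₂ * C₀ * δ := by
    have h1 : δ ^ 4 ≤ C₀ * δ := by nlinarith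
    nlinarith
  have hK1 : C₂ * (C₀ * δ + δ ^ 4) ≤ 1 / 2 := by nlinarith
  have hτ' : |τ| ≤ C₀ * δ := hτ.trans (by nlinarith)
  obtain ⟨Q2, hQ2, q21, q22, q23, q24⟩ := htr (d₂ := τ) (hq 2) hη0.le (hd 2) hτ' (by linarith) (hN 2)
  obtain ⟨Q3, hQ3, q31, q32, q33, q34⟩ := htr (d₂ := 0) (hq 3) hη0.le (hd 3)
    (by rw [abs_zero]; positivity) (by linarith) (hN 3)
  -- the commutator of the second handle
  have hc23 : Near (G * δ ^ 2 - 8 * δ ^ 4) ⁅Q2, Q3⁆ := by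
    refine (comm_near hQ2 hQ3 hK1 (by positivity) (by positivity) q23 q33 q24 q34).mono ?_
    have h0 : 0 ≤ C₂ * (C₀ * δ + δ ^ 4) := by positivity
    have h1 : (C₂ * (C₀ * δ + δ ^ 4)) ^ 2 ≤ (2 * C₂ * C₀ * δ) ^ 2 := pow_le_pow_left₀ h0 hK 2
    have h2 : 2 * (C₂ * (C₀ * δ)) * (C₂ * (C₀ * δ + δ ^ 4)) ≤
        2 * (C₂ * (C₀ * δ)) * (2 * C₂ * C₀ * δ) := mul_le_mul_of_nonneg_left hK (by positivity)
    have h3 : 1 ≤ C₂ ^ 2 * C₀ ^ 2 := by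
      have : C₂ ^ 2 * C₀ ^ 2 = (C₀ * C₂) ^ 2 := by ring
      rw [this]
      nlinarith
    have h4 : C₂ ≤ C₂ ^ 2 * C₀ ^ 2 := by
      have h5 : C₂ * 1 ≤ C₂ * (C₂ * C₀ ^ 2) := mul_le_mul_of_nonneg_left (by nlinarith) (by positivity)
      nlinarith
    have h5 : 2 * (C₂ * δ ^ 4) ≤ 2 * (C₂ ^ 2 * C₀ ^ 2 * δ ^ 2) := by
      have : C₂ * δ ^ 4 ≤ C₂ ^ 2 * C₀ ^ 2 * δ ^ 2 := mul_le_mul h4 hδ4 hη0.le (by positivity)
      linarith
    have h6 : 8 * δ ^ 4 ≤ 8 * (C₂ ^ 2 * C₀ ^ 2 * δ ^ 2) := by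
      have : 1 * δ ^ 4 ≤ C₂ ^ 2 * C₀ ^ 2 * δ ^ 2 := mul_le_mul h3 hδ4 hη0.le (by positivity)
      linarith
    rw [hG]
    nlinarith
  have hcN : Near (G * δ ^ 2) ⁅Q2, Q3⁆ := hc23.mono (by linarith)
  have hcm : ⁅Q2, Q3⁆ ∈ Dd := by
    rw [commutatorElement_def]
    exact Dd.mul_mem (Dd.mul_mem (Dd.mul_mem hQ2 hQ3) (Dd.inv_mem hQ2)) (Dd.inv_mem hQ3)
  have hwm : wrd q ∈ Dd := by
    unfold wrd
    rw [commutatorElement_def, commutatorElement_def]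
    exact Dd.mul_mem (Dd.mul_mem (Dd.mul_mem (Dd.mul_mem (hq 0) (hq 1)) (Dd.inv_mem (hq 0)))
      (Dd.inv_mem (hq 1))) (Dd.mul_mem (Dd.mul_mem (Dd.mul_mem (hq 2) (hq 3)) (Dd.inv_mem (hq 2)))
      (Dd.inv_mem (hq 3)))
  have hwN : Near (8 * δ ^ 4) (wrd q) := by
    have h1 := NT.commutator (hq 0) (hq 1) (hN 0) (hN 1)
    have h2 := NT.commutator (hq 2) (hq 3) (hN 2) (hN 3)
    have hm1 : ⁅q 0, q 1⁆ ∈ Dd := by
      rw [commutatorElement_def]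
      exact Dd.mul_mem (Dd.mul_mem (Dd.mul_mem (hq 0) (hq 1)) (Dd.inv_mem (hq 0))) (Dd.inv_mem (hq 1))
    have hm2 : ⁅q 2, q 3⁆ ∈ Dd := by
      rw [commutatorElement_def]
      exact Dd.mul_mem (Dd.mul_mem (Dd.mul_mem (hq 2) (hq 3)) (Dd.inv_mem (hq 2))) (Dd.inv_mem (hq 3))
    exact (Near.mul hm1 hm2 h1 h2).mono (by linarith)
  set g : ℝ ≃o ℝ := wrd q * ⁅Q2, Q3⁆⁻¹ with hg
  have hgm : g ∈ Dd := Dd.mul_mem hwm (Dd.inv_mem hcm)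
  have hgN : Near (G * δ ^ 2) g :=
    (Near.mul hwm (Dd.inv_mem hcm) hwN (Near.inv hcm hc23)).mono (by linarith)
  -- small displacements of the letters
  have hqd : ∀ i x, |q i x - x| ≤ 1 / 8 := by
    intro i x
    have h1 := ((hN i).near x).1
    have h2 := hd i
    linarith
  -- the equation for `y ≥ 0`
  have heq : ∀ y, 0 ≤ y → Q0 (q 1 y) = g (q 1 (Q0 y)) := by
    intro y hy
    have h1 := abs_le.1 (hqd 1 y)
    have h2 := abs_le.1 (hqd 0 y)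
    have h3 := abs_le.1 (hqd 1 (q 0 y))
    rw [q01 _ (by linarith : (-1 : ℝ) ≤ q 1 y), q01 _ (by linarith : (-1 : ℝ) ≤ y)]
    have h4 := (comm_congr_right (z := -1) (e := 1 / 8) (u := q 2) (c := q 3) (u' := Q2) (c' := Q3)
      (by norm_num) (fun x hx => (q21 x hx).symm) (fun x hx => (q31 x hx).symm)
      (fun x _ => hqd 2 x) (fun x _ => hqd 3 x) (q 1 (q 0 y)) (by linarith)).2
    change _ = wrd q (⁅Q2, Q3⁆⁻¹ (q 1 (q 0 y)))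
    rw [← h4]
    have h5 : wrd q (⁅q 2, q 3⁆⁻¹ (q 1 (q 0 y))) = ⁅q 0, q 1⁆ (q 1 (q 0 y)) := by
      change ⁅q 0, q 1⁆ (⁅q 2, q 3⁆ (⁅q 2, q 3⁆⁻¹ (q 1 (q 0 y)))) = _
      congr 1
      exact (⁅q 2, q 3⁆ : ℝ ≃o ℝ).apply_symm_apply _
    rw [h5, N5_comm_apply]
  -- the number of steps
  obtain ⟨k, hk1, hk2⟩ : ∃ k : ℕ, 2 * (L + 1 + 2) ≤ k * δ ∧ k * δ ≤ P := by
    refine ⟨⌈2 * (L + 3) / δ⌉₊, ?_, ?_⟩
    · have h1 := Nat.le_ceil (2 * (L + 3) / δ)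
      rw [div_le_iff₀ hδ] at h1
      linarith
    · have h1 := (Nat.ceil_lt_add_one (a := 2 * (L + 3) / δ) (by positivity)).le
      have h2 := mul_le_mul_of_nonneg_right h1 hδ.le
      rw [add_mul, div_mul_cancel₀ _ hδ.ne'] at h2
      rw [hP]
      linarith
  have hk0 : (0 : ℝ) ≤ k := Nat.cast_nonneg k
  have hkγ : k * (G * δ ^ 2) ≤ P * G * δ := by
    have h1 : k * (G * δ ^ 2) = (k * δ) * (G * δ) := by ring
    rw [h1]
    have h2 := mul_le_mul_of_nonneg_right hk2 (by positivity : 0 ≤ G * δ)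
    linarith
  have hkμ : k * (C₁ * δ ^ 4) ≤ δ ^ 2 / 16 := by
    have h1 : k * (C₁ * δ ^ 4) = (k * δ) * (C₁ * δ ^ 3) := by ring
    rw [h1]
    have h2 := mul_le_mul_of_nonneg_right hk2 (by positivity : 0 ≤ C₁ * δ ^ 3)
    have h3 : P * (C₁ * δ ^ 3) = (P * C₁ * δ) * δ ^ 2 := by ring
    have h4 := mul_le_mul_of_nonneg_right b6 (by positivity : 0 ≤ δ ^ 2)
    linarith
  have hk2μ : (k : ℝ) ^ 2 * (C₁ * δ ^ 4) ≤ δ / 16 := by
    have h1 : (k : ℝ) ^ 2 * (C₁ * δ ^ 4) = (k * δ) ^ 2 * (C₁ * δ ^ 2) := by ring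
    rw [h1]
    have h0 : 0 ≤ k * δ := by positivity
    have h2 := mul_le_mul_of_nonneg_right (pow_le_pow_left₀ h0 hk2 2) (by positivity : 0 ≤ C₁ * δ ^ 2)
    have h3 : P ^ 2 * (C₁ * δ ^ 2) = (C₁ * P ^ 2 * δ) * δ := by ring
    have h4 := mul_le_mul_of_nonneg_right b1 hδ.le
    linarith
  obtain ⟨n, hn, n1, n2, n3, n4⟩ := absorb (δ := δ) (d := d 0) (μ := C₁ * δ ^ 4) (γ := G * δ ^ 2)
    (D := 2 * C₀ * δ) (S := δ ^ 4) (L := L + 1) (k := k) (m := Q0) (g := g) (b := q 1) hδ (by linarith)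
    hd0 (by positivity) hμ1 (by linarith) (by linarith) hk1 hQ0 hgm (hq 1) q03 hgN
    (fun x => by
      have h1 := ((hN 1).near x).1
      have h2 := hd 1
      have h3 : δ ^ 4 ≤ C₀ * δ := by nlinarith
      linarith) (fun x => (hN 1 x).2) heq
  have hnN : Near (A * δ) n := by
    intro x
    have h0 : 0 ≤ G * δ := by positivity
    have h00 : 0 ≤ C₂ * C₀ * δ := by positivity
    have h01 : 0 ≤ C₀ * δ := by positivity
    have h02 : 0 ≤ P * G * δ := by positivity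
    constructor
    · refine (n3 x).trans ?_
      rw [hA]
      nlinarith
    · refine (n4 x).trans ?_
      rw [hA]
      nlinarith
  have hQ0N : Near (A * δ) Q0 := by
    refine q03.near.mono ?_
    rw [hd0]
    have h00 : 0 ≤ C₂ * C₀ * δ := by positivity
    have h01 : 0 ≤ C₀ * δ := by positivity
    have h02 : 0 ≤ P * G * δ := by positivity
    have h0 : 0 ≤ G * δ := by positivity
    rw [hA]
    nlinarith
  have hKA : C₂ * (C₀ * δ + δ ^ 4) ≤ A * δ := by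
    refine hK.trans ?_
    have h01 : 0 ≤ C₀ * δ := by positivity
    have h02 : 0 ≤ P * G * δ := by positivity
    have h0 : 0 ≤ G * δ := by positivity
    rw [hA]
    nlinarith
  refine ⟨![Q0, n, Q2, Q3], ?_, ?_, ?_, ?_, ?_, ?_⟩
  · intro i
    fin_cases i
    · exact hQ0
    · exact hn
    · exact hQ2
    · exact hQ3
  · intro i x hx
    fin_cases i
    · exact q01 x (by linarith)
    · exact n1 x hx
    · exact q21 x (by linarith)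
    · exact q31 x (by linarith)
  · intro x hx
    refine ⟨q02 x (by linarith), q22 x hx, ?_⟩
    have := q32 x hx
    rwa [add_zero] at this
  · intro i
    fin_cases i
    · exact hQ0N
    · exact hnN
    · exact q23.mono hKA
    · exact q33.mono hKA
  · intro x hx
    have h1 : Q0 x = x := hx
    have h2 := (q03 x).1
    rw [h1] at h2
    have h3 : x - (x + d 0) = -(d 0) := by ring
    rw [h3, abs_neg, hd0] at h2
    linarith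
  · intro x hx
    set p := ⁅Q2, Q3⁆ x with hp
    obtain ⟨y, hy⟩ : ∃ y, n (Q0 y) = p := ⟨Q0⁻¹ (n⁻¹ p), by
      have h1 : Q0 (Q0⁻¹ (n⁻¹ p)) = n⁻¹ p := Q0.apply_symm_apply _
      rw [h1]
      exact n.apply_symm_apply _⟩
    have hGA : G * δ ^ 2 ≤ 1 / 4 := by
      have h01 : 0 ≤ C₀ * δ := by positivity
      have h02 : 0 ≤ P * G * δ := by positivity
      have h00 : 0 ≤ C₂ * C₀ * δ := by positivity
      have h1 : G * δ ^ 2 ≤ G * δ := mul_le_mul_of_nonneg_left hδ2 hG0.le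
      have h2 : G * δ ≤ A * δ := by
        rw [hA]
        nlinarith
      linarith
    have h1 := abs_le.1 ((hcN x).1)
    have h2 := abs_le.1 ((hQ0N y).1)
    have h3 := abs_le.1 ((hnN (Q0 y)).1)
    rw [hy] at h3
    rw [← hp] at h1
    have hyL : -(L + 1) ≤ y := by linarith
    have h4 : wrd ![Q0, n, Q2, Q3] x = ⁅Q0, n⁆ p := rfl
    rw [h4, ← hy, N5_comm_apply, n2 y hyL, hy]
    change wrd q (⁅Q2, Q3⁆⁻¹ (⁅Q2, Q3⁆ x)) = _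
    congr 1
    exact (⁅Q2, Q3⁆ : ℝ ≃o ℝ).symm_apply_apply x

end FG
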