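import Pool.Agent.helper97.FG.N5
import Pool.Agent.helper97.FG.N0c

/-!
author: helper12
# N6 : both ends, at arbitrary positions

`right_end'`: translate `right_end` by `z`; the remaining equation `[tr (d 0), Q 1] = wrd q` on `[z - L, z - 5]` follows
from `wrd Q = wrd q`, `Q 3 = id` there (locality).  `left_end'`: reflect (`refl (2 * z)` composed appropriately; the
displacements change sign, `τ` is replaced by `-τ`).
-/

set_option linter.unusedVariables false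

open Set Filter Topology
open scoped commutatorElement
open Pool.Agent.helper35.FOL
open Pool.Agent.helper32.FolG (Q4 InDd wrd Fx)

namespace FG

private theorem conj_apply (c : ℝ) (g : ℝ ≃o ℝ) (x : ℝ) :
    (tr c * g * (tr c)⁻¹) x = g (x - c) + c := by
  change tr c (g ((tr c)⁻¹ x)) = _
  rw [tr_inv_apply, tr_apply]

private theorem conj_mem (c : ℝ) {g : ℝ ≃o ℝ} (hg : g ∈ Dd) : tr c * g * (tr c)⁻¹ ∈ Dd :=
  Dd.mul_mem (Dd.mul_mem (tr_mem _) hg) (Dd.inv_mem (tr_mem _))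

private theorem NT_conj {d η : ℝ} {g : ℝ ≃o ℝ} (hg : g ∈ Dd) (h : NT d η g) (c : ℝ) :
    NT d η (tr c * g * (tr c)⁻¹) := by
  intro x
  constructor
  · have h1 := (h (x - c)).1
    rw [conj_apply]
    have e : g (x - c) + c - (x + d) = g (x - c) - (x - c + d) := by ring
    rw [e]
    exact h1
  · have e : LD (tr c * g * (tr c)⁻¹) x = LD g (x - c) := by
      rw [LD_mul (Dd.mul_mem (tr_mem c) hg) (Dd.inv_mem (tr_mem c)), LD_mul (tr_mem c) hg,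
        tr_inv, LD_tr, LD_tr, tr_apply, zero_add, add_zero, sub_eq_add_neg]
    rw [e]
    exact (h _).2

/-- the general form, with any `τ` -/
private theorem right_gen {C₀ L : ℝ} (hC₀ : 1 ≤ C₀) (hL : 0 ≤ L) : ∃ A δ₀ : ℝ, 1 ≤ A ∧ 0 < δ₀ ∧
    ∀ δ : ℝ, 0 < δ → δ ≤ δ₀ → ∃ η : ℝ, 0 < η ∧ ∀ {q : Q4} {d : Fin 4 → ℝ} {z τ : ℝ}, InDd q →
      (∀ i, NT (d i) η (q i)) → |d 0| = δ → (∀ i, |d i| ≤ C₀ * δ) → |τ| ≤ δ →
      ∃ Q : Q4, InDd Q ∧ (∀ i x, z ≤ x → Q i x = q i x) ∧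
        (∀ x, x ≤ z - 4 → Q 0 x = x + d 0 ∧ Q 2 x = x + τ ∧ Q 3 x = x) ∧ (∀ i, Near (A * δ) (Q i)) ∧
        (∀ x, Q 0 x ≠ x) ∧ (∀ x, z - L ≤ x → wrd Q x = wrd q x) ∧
        ∀ x ∈ Icc (z - L) (z - 5), ⁅tr (d 0), Q 1⁆ x = wrd q x := by
  obtain ⟨A, δ₀, hA, hδ₀, H⟩ := right_end hC₀ hL
  have hA8 : (0 : ℝ) < 1 / (8 * A) := by positivity
  refine ⟨A, min δ₀ (1 / (8 * A)), hA, lt_min hδ₀ hA8, fun δ hδ hδ1 => ?_⟩
  obtain ⟨η, hη, K⟩ := H δ hδ (hδ1.trans (min_le_left _ _))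
  have hAδ : A * δ ≤ 1 / 8 := by
    have h1 : δ ≤ 1 / (8 * A) := hδ1.trans (min_le_right _ _)
    rw [le_div_iff₀ (by positivity)] at h1
    linarith
  refine ⟨η, hη, ?_⟩
  intro q d z τ hq hN hd hC hτ
  obtain ⟨Q, h1, h2, h3, h4, h5, h6⟩ := K (q := fun i => tr (-z) * q i * (tr (-z))⁻¹)
    (fun i => conj_mem _ (hq i)) (fun i => NT_conj (hq i) (hN i) (-z)) hd hC hτ
  have hback : ∀ (g : ℝ ≃o ℝ) (x : ℝ), (tr (-z) * g * (tr (-z))⁻¹) (x - z) + z = g x := by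
    intro g x
    rw [conj_apply, sub_neg_eq_add, sub_add_cancel]
    ring
  have hm : InDd (fun i => tr z * Q i * (tr z)⁻¹) := fun i => conj_mem _ (h1 i)
  have hl : ∀ x, x ≤ z - 4 → (tr z * Q 0 * (tr z)⁻¹) x = x + d 0 ∧
      (tr z * Q 2 * (tr z)⁻¹) x = x + τ ∧ (tr z * Q 3 * (tr z)⁻¹) x = x := by
    intro x hx
    obtain ⟨e0, e2, e3⟩ := h3 (x - z) (by linarith)
    refine ⟨?_, ?_, ?_⟩
    · rw [conj_apply, e0]; ring
    · rw [conj_apply, e2]; ring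
    · rw [conj_apply, e3]; ring
  have hn : ∀ i, Near (A * δ) (tr z * Q i * (tr z)⁻¹) := fun i => (h4 i).conj_tr (h1 i) z
  have hw : ∀ x, z - L ≤ x → wrd (fun i => tr z * Q i * (tr z)⁻¹) x = wrd q x := by
    intro x hx
    rw [wrd_conj, conj_apply, h6 _ (by linarith), wrd_conj, hback]
  refine ⟨fun i => tr z * Q i * (tr z)⁻¹, hm, ?_, hl, hn, ?_, hw, ?_⟩
  · intro i x hx
    dsimp only
    rw [conj_apply, h2 i _ (by linarith), hback]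
  · intro x hx
    dsimp only at hx
    rw [conj_apply] at hx
    exact h5 (x - z) (by linarith)
  · intro x hx
    rw [← hw x hx.1]
    have h7 := wrd_congr_left (P := fun i => tr z * Q i * (tr z)⁻¹)
      (R := ![tr (d 0), tr z * Q 1 * (tr z)⁻¹, tr z * Q 2 * (tr z)⁻¹, 1]) (z := z - 4) (e := 1 / 8)
      (by norm_num) (by
        intro i y hy
        obtain ⟨e0, e2, e3⟩ := hl y hy
        fin_cases i
        · exact e0
        · rfl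
        · rfl
        · exact e3)
      (fun i y hy => ((hn i y).1).trans hAδ) x (by linarith [hx.2])
    rw [h7]
    have h8 : wrd ![tr (d 0), tr z * Q 1 * (tr z)⁻¹, tr z * Q 2 * (tr z)⁻¹, 1] =
        ⁅tr (d 0), tr z * Q 1 * (tr z)⁻¹⁆ * ⁅tr z * Q 2 * (tr z)⁻¹, 1⁆ := rfl
    rw [h8, commutatorElement_one_right, mul_one]

theorem right_end' {C₀ L : ℝ} (hC₀ : 1 ≤ C₀) (hL : 0 ≤ L) : ∃ A δ₀ : ℝ, 1 ≤ A ∧ 0 < δ₀ ∧
    ∀ δ : ℝ, 0 < δ → δ ≤ δ₀ → ∃ η : ℝ, 0 < η ∧ ∀ {q : Q4} {d : Fin 4 → ℝ} {z : ℝ}, InDd q →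
      (∀ i, NT (d i) η (q i)) → |d 0| = δ → (∀ i, |d i| ≤ C₀ * δ) →
      ∃ Q : Q4, InDd Q ∧ (∀ i x, z ≤ x → Q i x = q i x) ∧
        (∀ x, x ≤ z - 4 → Q 0 x = x + d 0 ∧ Q 2 x = x + δ ∧ Q 3 x = x) ∧ (∀ i, Near (A * δ) (Q i)) ∧
        (∀ x, Q 0 x ≠ x) ∧ (∀ x, z - L ≤ x → wrd Q x = wrd q x) ∧
        ∀ x ∈ Icc (z - L) (z - 5), ⁅tr (d 0), Q 1⁆ x = wrd q x := by
  obtain ⟨A, δ₀, hA, hδ₀, H⟩ := right_gen hC₀ hL
  refine ⟨A, δ₀, hA, hδ₀, fun δ hδ hδ1 => ?_⟩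
  obtain ⟨η, hη, K⟩ := H δ hδ hδ1
  refine ⟨η, hη, ?_⟩
  intro q d z hq hN hd hC
  exact K (τ := δ) hq hN hd hC (abs_of_pos hδ).le

theorem left_end' {C₀ L : ℝ} (hC₀ : 1 ≤ C₀) (hL : 0 ≤ L) : ∃ A δ₀ : ℝ, 1 ≤ A ∧ 0 < δ₀ ∧
    ∀ δ : ℝ, 0 < δ → δ ≤ δ₀ → ∃ η : ℝ, 0 < η ∧ ∀ {q : Q4} {d : Fin 4 → ℝ} {z : ℝ}, InDd q →
      (∀ i, NT (d i) η (q i)) → |d 0| = δ → (∀ i, |d i| ≤ C₀ * δ) →
      ∃ Q : Q4, InDd Q ∧ (∀ i x, x ≤ z → Q i x = q i x) ∧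
        (∀ x, z + 4 ≤ x → Q 0 x = x + d 0 ∧ Q 2 x = x + δ ∧ Q 3 x = x) ∧ (∀ i, Near (A * δ) (Q i)) ∧
        (∀ x, Q 0 x ≠ x) ∧ (∀ x, x ≤ z + L → wrd Q x = wrd q x) ∧
        ∀ x ∈ Icc (z + 5) (z + L), ⁅tr (d 0), Q 1⁆ x = wrd q x := by
  obtain ⟨A, δ₀, hA, hδ₀, H⟩ := right_gen hC₀ hL
  refine ⟨A, δ₀, hA, hδ₀, fun δ hδ hδ1 => ?_⟩
  obtain ⟨η, hη, K⟩ := H δ hδ hδ1
  refine ⟨η, hη, ?_⟩
  intro q d z hq hN hd hC
  have hap : ∀ (g : ℝ ≃o ℝ) (x : ℝ), refl 0 g x = -g (-x) := by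
    intro g x
    rw [refl_apply, zero_sub, zero_sub]
  have hNr : ∀ i, NT (-(d i)) η (refl 0 (q i)) := by
    intro i x
    constructor
    · have h1 := (hN i (-x)).1
      rw [hap]
      have e : -q i (-x) - (x + -d i) = -(q i (-x) - (-x + d i)) := by ring
      rw [e, abs_neg]
      exact h1
    · rw [LD_refl 0 (hq i)]
      exact (hN i _).2
  obtain ⟨Q, h1, h2, h3, h4, h5, h6, h7⟩ := K (q := fun i => refl 0 (q i)) (d := fun i => -(d i))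
    (z := -z) (τ := -δ) (fun i => refl_mem 0 (hq i)) hNr (by rw [abs_neg]; exact hd)
    (fun i => by rw [abs_neg]; exact hC i) (by rw [abs_neg]; exact (abs_of_pos hδ).le)
  refine ⟨fun i => refl 0 (Q i), fun i => refl_mem 0 (h1 i), ?_, ?_, ?_, ?_, ?_, ?_⟩
  · intro i x hx
    dsimp only
    rw [hap, h2 i (-x) (by linarith), hap, neg_neg, neg_neg]
  · intro x hx
    obtain ⟨e0, e2, e3⟩ := h3 (-x) (by linarith)
    dsimp only
    rw [hap, hap, hap, e0, e2, e3]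
    refine ⟨by ring, by ring, by ring⟩
  · intro i x
    constructor
    · dsimp only
      rw [hap]
      have e : -Q i (-x) - x = -(Q i (-x) - -x) := by ring
      rw [e, abs_neg]
      exact (h4 i (-x)).1
    · dsimp only
      rw [LD_refl 0 (h1 i)]
      exact (h4 i _).2
  · intro x hx
    dsimp only at hx
    rw [hap] at hx
    exact h5 (-x) (by linarith)
  · intro x hx
    rw [wrd_refl, hap, h6 (-x) (by linarith), wrd_refl, hap, neg_neg, neg_neg]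
  · intro x hx
    have e : tr (d 0) = refl 0 (tr (-(d 0))) := by
      ext y
      rw [hap, tr_apply, tr_apply]
      ring
    dsimp only
    rw [e, ← refl_commutator, hap, h7 (-x) ⟨by linarith [hx.2], by linarith [hx.1]⟩, wrd_refl, hap,
      neg_neg, neg_neg]

end FG
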