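import Pool.Agent.helper97.FG.N0
import Pool.Agent.helper97.FG.C1

/-!
# N8a : the initial map of a cell: `βl` on the left, the identity in the middle, `βr` on the right

`exists_interp` twice (`L = 1/2`).

author: helper88
-/

set_option linter.unusedVariables false

open Set Filter Topology
open scoped commutatorElement
open Pool.Agent.helper35.FOL

namespace FG

private theorem N8a_near {k g h : ℝ ≃o ℝ} {a b η : ℝ} (h1 : ∀ x ≤ a, k x = g x)
    (h2 : ∀ x, b ≤ x → k x = h x) (hm : ∀ x ∈ Icc a b, |LD k x| ≤ η ∧ |k x - x| ≤ η)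
    (hg : ∀ x < a, |g x - x| ≤ η ∧ |LD g x| ≤ η) (hh : ∀ x, b < x → |h x - x| ≤ η ∧ |LD h x| ≤ η) :
    Near η k := by
  intro x
  rcases lt_or_ge x a with hx | hx
  · have e : LD k x = LD g x := LD_congr (by
      filter_upwards [Iio_mem_nhds hx] with y hy
      exact h1 y (le_of_lt hy))
    rw [e, h1 x hx.le]
    exact hg x hx
  · rcases lt_or_ge b x with hx' | hx'
    · have e : LD k x = LD h x := LD_congr (by
        filter_upwards [Ioi_mem_nhds hx'] with y hy
        exact h2 y (le_of_lt hy))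
      rw [e, h2 x hx'.le]
      exact hh x hx'
    · exact ⟨(hm x ⟨hx, hx'⟩).2, (hm x ⟨hx, hx'⟩).1⟩

theorem exists_Yin : ∃ C : ℝ, 1 ≤ C ∧ ∀ {K : ℝ} {βl βr : ℝ ≃o ℝ}, βl ∈ Dd → βr ∈ Dd → C * K ≤ 1 / 4 →
    Near K βl → Near K βr → ∃ Y ∈ Dd, Near (C * K) Y ∧ (∀ x, |x| ≤ 2 → Y x = x) ∧
      (∀ x, 5 / 2 ≤ x → Y x = βr x) ∧ ∀ x, x ≤ -(5 / 2) → Y x = βl x := by
  obtain ⟨C₀, hC₀, hint⟩ := exists_interp
  refine ⟨1 + 2 * C₀, by linarith, ?_⟩
  intro K βl βr hl hr hK hnl hnr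
  have hK0 : 0 ≤ K := hnl.nonneg
  have hCK : 0 ≤ C₀ * K := by positivity
  have hK1 : K ≤ 1 / 4 := by linarith
  have hCK1 : C₀ * K ≤ 1 / 2 := by linarith
  have hKle : K ≤ (1 + 2 * C₀) * K := by linarith
  have hone : ∀ x, (1 : ℝ ≃o ℝ) x = x := fun _ => rfl
  obtain ⟨k, hk, k1, k2, k3⟩ := hint (a := -(5 / 2)) (L := 1 / 2) (K := K) (s := K) (g := βl)
    (h := 1) (by norm_num) hl (one_mem Dd) hK0 hK0 hK1 hCK1 (by
      intro x _
      refine ⟨(hnl x).2, ?_, ?_⟩
      · rw [LD_one, abs_zero]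
        exact hK0
      · rw [hone]
        exact (hnl x).1)
  have hkid : ∀ x, -2 ≤ x → k x = x := fun x hx => k2 x (by linarith)
  have hkn : Near ((1 + 2 * C₀) * K) k := by
    refine N8a_near k1 k2 ?_ ?_ ?_
    · intro x hx
      obtain ⟨a1, a2, -⟩ := k3 x hx
      rw [hone] at a2
      refine ⟨a1.trans (le_of_eq (by ring)), a2.trans hKle⟩
    · intro x _
      exact ⟨(hnl x).1.trans hKle, (hnl x).2.trans hKle⟩
    · intro x _
      rw [hone, sub_self, LD_one, abs_zero]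
      have : 0 ≤ (1 + 2 * C₀) * K := hK0.trans hKle
      exact ⟨this, this⟩
  obtain ⟨Y, hY, y1, y2, y3⟩ := hint (a := 2) (L := 1 / 2) (K := K) (s := K) (g := k)
    (h := βr) (by norm_num) hk hr hK0 hK0 hK1 hCK1 (by
      intro x hx
      refine ⟨?_, (hnr x).2, ?_⟩
      · have e : LD k x = LD (1 : ℝ ≃o ℝ) x := LD_congr (by
          filter_upwards [Ioi_mem_nhds (show (-2 : ℝ) < x by linarith [hx.1])] with y hy
          exact hkid y (le_of_lt hy))
        rw [e, LD_one, abs_zero]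
        exact hK0
      · rw [hkid x (by linarith [hx.1]), abs_sub_comm]
        exact (hnr x).1)
  refine ⟨Y, hY, ?_, ?_, ?_, ?_⟩
  · refine N8a_near y1 y2 ?_ ?_ ?_
    · intro x hx
      obtain ⟨a1, -, a3⟩ := y3 x hx
      rw [hkid x (by linarith [hx.1])] at a3
      exact ⟨a1.trans (le_of_eq (by ring)), a3.trans hKle⟩
    · intro x _
      exact hkn x
    · intro x _
      exact ⟨(hnr x).1.trans hKle, (hnr x).2.trans hKle⟩
  · intro x hx
    obtain ⟨a1, a2⟩ := abs_le.1 hx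
    rw [y1 x a2, hkid x a1]
  · intro x hx
    exact y2 x (by linarith)
  · intro x hx
    rw [y1 x (by linarith), k1 x hx]

end FG
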