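import Pool.Agent.helper97.FG.N1c
import Pool.Agent.helper97.FG.N8a
import Pool.Agent.helper97.FG.N0b

/-!
author: helper11
# N8b : the repelling cell

`Q = (α, Y, tr δ, ψ)`, `Y, ψ` from `core_unit` with `u = tr δ`, `f₁ = f`, `f₂ = 1`, `Yin` from N8a, `A' A` in place of
`A`.  Collar: `[tr δ, βr] = f` on `[3/2, 17/2]` reads `βr (x - δ) + δ = f (βr x)`.  `wrd Q = f` on `[-8, 8]`: put
`p = [tr δ, ψ] x`, `w = Y⁻¹ p`; if `|w| ≤ 3` use the equation of the core lemma (`f₁ ([u,ψ]⁻¹ p) = f x`); if `w > 3`, then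
`p = βr w` is outside the support of `[tr δ, ψ]` (contained in `[-2δ, 2δ]`), so `x = p`, and
`α (Y (α⁻¹ w)) = βr (w - δ) + δ = f (βr w)`; similarly for `w < -3`.
-/

set_option linter.unusedVariables false

open Set Filter Topology
open scoped commutatorElement
open Pool.Agent.helper35.FOL
open Pool.Agent.helper32.FolG (Q4 InDd wrd Fx)

namespace FG

/-- the second commutator is the identity outside `[-2δ, 2δ]` -/
theorem comm_support {δ : ℝ} (hδ : 0 < δ) {ψ : ℝ ≃o ℝ} (hψ : ∀ x, δ / 4 ≤ |x| → ψ x = x) {x : ℝ}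
    (hx : 2 * δ ≤ |x|) : ⁅tr δ, ψ⁆ x = x ∧ ⁅tr δ, ψ⁆⁻¹ x = x := by
  have h1 : ψ⁻¹ x = x := by
    have h2 : ψ⁻¹ (ψ x) = x := ψ.symm_apply_apply x
    rwa [hψ x (by linarith)] at h2
  have h3 : ψ (x - δ) = x - δ := by
    apply hψ
    have h4 : |x| ≤ |x - δ| + |δ| := by
      have := abs_add_le (x - δ) δ
      rwa [sub_add_cancel] at this
    rw [abs_of_pos hδ] at h4
    linarith
  have h5 : ⁅tr δ, ψ⁆ x = x := by
    change tr δ (ψ ((tr δ)⁻¹ (ψ⁻¹ x))) = x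
    rw [h1, tr_inv_apply, h3, tr_apply, sub_add_cancel]
  refine ⟨h5, ?_⟩
  have h6 : ⁅tr δ, ψ⁆⁻¹ (⁅tr δ, ψ⁆ x) = x := (⁅tr δ, ψ⁆ : ℝ ≃o ℝ).symm_apply_apply x
  rwa [h5] at h6

private theorem comm_tr_apply (c : ℝ) (g : ℝ ≃o ℝ) (w : ℝ) : ⁅tr c, g⁆ (g w) = g (w - c) + c := by
  change tr c (g ((tr c)⁻¹ (g⁻¹ (g w)))) = _
  have h1 : g⁻¹ (g w) = w := g.symm_apply_apply w
  rw [h1, tr_inv_apply, tr_apply]

theorem rep_cell {A : ℝ} (hA : 1 ≤ A) : ∃ A' δ₀ : ℝ, 1 ≤ A' ∧ 0 < δ₀ ∧ ∀ δ : ℝ, 0 < δ → δ ≤ δ₀ →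
    ∃ η : ℝ, 0 < η ∧ ∀ {f βl βr : ℝ ≃o ℝ}, f ∈ Dd → βl ∈ Dd → βr ∈ Dd → Near η f →
      (∃ X : ℝ, ∀ x, X ≤ |x| → f x = x) → Near (A * δ) βl → Near (A * δ) βr →
      (∀ x ∈ Icc (-(17 / 2) : ℝ) (-(3 / 2)), ⁅tr (-δ), βl⁆ x = f x) →
      (∀ x ∈ Icc (3 / 2 : ℝ) (17 / 2), ⁅tr δ, βr⁆ x = f x) →
      ∃ Q : Q4, InDd Q ∧ (∀ x, x ≤ -3 → Q 0 x = x - δ ∧ Q 1 x = βl x) ∧
        (∀ x, 3 ≤ x → Q 0 x = x + δ ∧ Q 1 x = βr x) ∧ (∀ x, Q 2 x = x + δ) ∧
        (∀ x, 1 ≤ |x| → Q 3 x = x) ∧ (∀ i, Near (A' * δ) (Q i)) ∧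
        ∀ x ∈ Icc (-8 : ℝ) 8, wrd Q x = f x := by
  obtain ⟨C, hC, hYin⟩ := exists_Yin
  have hCA : 1 ≤ C * A := by nlinarith
  have hCA0 : 0 < C * A := by linarith
  obtain ⟨δ₁, hδ₁, hδ₁', hcore⟩ := core_unit hCA
  refine ⟨2 * (C * A) + 2, min δ₁ (1 / (4 * (C * A))), by linarith,
    lt_min hδ₁ (by positivity), fun δ hδ hδ0 => ?_⟩
  have hδa : δ ≤ δ₁ := hδ0.trans (min_le_left _ _)
  have hδb : C * (A * δ) ≤ 1 / 4 := by
    have h1 : δ ≤ 1 / (4 * (C * A)) := hδ0.trans (min_le_right _ _)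
    rw [le_div_iff₀ (by positivity)] at h1
    nlinarith
  have hδ100 : δ ≤ 1 / 100 := hδa.trans hδ₁'
  have hAδ0 : 0 ≤ A * δ := by positivity
  have hAδ : A * δ ≤ 1 / 4 := by nlinarith
  obtain ⟨α, hα, hαl, hαr, hαm, -, hαn, hαd, -⟩ := exists_alpha hδ (by linarith)
  obtain ⟨η, hη, hmain⟩ := hcore δ hδ hδa hα hαl
  refine ⟨η, hη, fun {f βl βr} hf hβl hβr hfη hfs hβln hβrn hl hr => ?_⟩
  obtain ⟨Yin, hYd, hYn, hY2, hYr, hYl⟩ := hYin hβl hβr hδb hβln hβrn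
  have hαir : ∀ w, 2 ≤ w → α⁻¹ w = w - δ := by
    intro w hw
    have h1 : α⁻¹ (α (w - δ)) = w - δ := α.symm_apply_apply _
    rwa [hαr (w - δ) (by linarith), sub_add_cancel] at h1
  have hαil : ∀ w, w ≤ -2 → α⁻¹ w = w + δ := by
    intro w hw
    have h1 : α⁻¹ (α (w + δ)) = w + δ := α.symm_apply_apply _
    rwa [hαm (w + δ) (by linarith), add_sub_cancel_right] at h1
  -- the equation to the right of 11/4
  have keyr : ∀ w, 11 / 4 ≤ w → w ≤ 33 / 4 → α (βr (α⁻¹ w)) = f (βr w) := by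
    intro w hw hw2
    have h1 := (abs_le.1 (hβrn (w - δ)).1)
    have h2 := (abs_le.1 (hβrn w).1)
    rw [hαir w (by linarith), hαr (βr (w - δ)) (by linarith),
      ← hr (βr w) ⟨by linarith, by linarith⟩, comm_tr_apply]
  have keyl : ∀ w, w ≤ -(11 / 4) → -(33 / 4) ≤ w → α (βl (α⁻¹ w)) = f (βl w) := by
    intro w hw hw2
    have h1 := (abs_le.1 (hβln (w + δ)).1)
    have h2 := (abs_le.1 (hβln w).1)
    rw [hαil w (by linarith), hαm (βl (w + δ)) (by linarith),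
      ← hl (βl w) ⟨by linarith, by linarith⟩, comm_tr_apply, sub_neg_eq_add, sub_eq_add_neg]
  obtain ⟨Y, hY, ψ, hψ, hY0, hYY, hψs, hψn, heq, hYb⟩ := hmain (u := tr δ) (f₁ := f) (f₂ := 1)
    (Yin := Yin) (tr_mem δ)
    (fun x hx => by
      have h1 := abs_le.1 hx
      rw [tr_apply, LD_tr]
      exact ⟨by linarith, by linarith, rfl⟩)
    hf (Dd.one_mem) hfη (near_one hη.le) hfs hYd (hY2 0 (by norm_num))
    (fun x hx => by
      have h1 := hYn x
      rw [mul_assoc]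
      exact h1)
    ⟨1 / 8, by norm_num, fun x hx => by
      have h1 := abs_lt.1 hx
      change α (Yin (α⁻¹ x)) = f (Yin x)
      rcases le_total 0 x with h2 | h2
      · rw [abs_of_nonneg h2] at h1
        rw [hαir x (by linarith), hYr (x - δ) (by linarith), hYr x (by linarith),
          ← keyr x (by linarith) (by linarith), hαir x (by linarith)]
      · rw [abs_of_nonpos h2] at h1
        rw [hαil x (by linarith), hYl (x + δ) (by linarith), hYl x (by linarith),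
          ← keyl x (by linarith) (by linarith), hαil x (by linarith)]⟩
  have hYR : ∀ x, 3 - δ ≤ x → Y x = βr x := by
    intro x hx
    rw [hYY x (hx.trans (le_abs_self x)), hYr x (by linarith)]
  have hYL : ∀ x, x ≤ -(3 - δ) → Y x = βl x := by
    intro x hx
    rw [hYY x (by rw [abs_of_nonpos (by linarith)]; linarith), hYl x (by linarith)]
  refine ⟨![α, Y, tr δ, ψ], ?_, ?_, ?_, ?_, ?_, ?_, ?_⟩
  · intro i
    fin_cases i
    · exact hα
    · exact hY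
    · exact tr_mem δ
    · exact hψ
  · intro x hx
    exact ⟨hαm x (by linarith), hYL x (by linarith)⟩
  · intro x hx
    exact ⟨hαr x (by linarith), hYR x (by linarith)⟩
  · intro x
    exact tr_apply δ x
  · intro x hx
    exact hψs x (by linarith)
  · intro i
    have h1 : δ ≤ (2 * (C * A) + 2) * δ := by nlinarith
    fin_cases i
    · intro x
      refine ⟨(hαn x).trans h1, ?_⟩
      change |LD α x| ≤ _
      rw [abs_of_nonneg (hαd x).1]
      exact (hαd x).2.trans h1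
    · intro x
      refine ⟨(hYb x).1.trans ?_, (hYb x).2⟩
      nlinarith
    · exact near_tr (by rw [abs_of_pos hδ]; exact h1)
    · exact hψn.mono h1
  · intro x hx
    change α (Y (α⁻¹ (Y⁻¹ (⁅tr δ, ψ⁆ x)))) = f x
    obtain ⟨p, hp⟩ : ∃ p, p = ⁅tr δ, ψ⁆ x := ⟨_, rfl⟩
    have hxp : ⁅tr δ, ψ⁆⁻¹ p = x := by
      rw [hp]
      exact (⁅tr δ, ψ⁆ : ℝ ≃o ℝ).symm_apply_apply x
    rw [← hp]
    obtain ⟨w, hw⟩ : ∃ w, w = Y⁻¹ p := ⟨_, rfl⟩
    have hwp : Y w = p := by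
      rw [hw]
      exact Y.apply_symm_apply p
    rw [← hw]
    rcases le_or_gt |w| 3 with h3 | h3
    · rw [heq w h3]
      change f (⁅tr δ, ψ⁆⁻¹ (Y w)) = f x
      rw [hwp, hxp]
    · rcases lt_abs.1 h3 with h4 | h4
      · have e1 : βr w = p := by rw [← hwp, hYR w (by linarith)]
        have h5 := abs_le.1 (hβrn w).1
        have h6 : p = x := by
          rw [← hxp]
          exact (comm_support hδ hψs (by rw [abs_of_nonneg (by linarith)]; linarith)).2.symm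
        have h7 : α⁻¹ w = w - δ := hαir w (by linarith)
        rw [h7, hYR (w - δ) (by linarith), ← h7,
          keyr w (by linarith) (by linarith [hx.2]), e1, h6]
      · have e1 : βl w = p := by rw [← hwp, hYL w (by linarith)]
        have h5 := abs_le.1 (hβln w).1
        have h6 : p = x := by
          rw [← hxp]
          exact (comm_support hδ hψs (by rw [abs_of_nonpos (by linarith)]; linarith)).2.symm
        have h7 : α⁻¹ w = w + δ := hαil w (by linarith)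
        rw [h7, hYL (w + δ) (by linarith), ← h7,
          keyl w (by linarith) (by linarith [hx.1]), e1, h6]

end FG
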