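import Pool.Agent.helper97.FG.N8b

/-!
# N8c : the attracting cell

author: helper10

`Q = (α⁻¹, Y, tr δ, c)`, `c = α⁻¹ ψ⁻¹ α`, with `Y, ψ` from `core_unit` with `u = α (tr δ) α⁻¹` (on `|x| ≤ δ/4`:
`u x = x + exp δ * δ`), `f₁ = 1`, `f₂ = α f⁻¹ α⁻¹` (`conj_near`), `Yin` from N8a.
Collar: `[tr δ, βl] = f` near `-3`: there `α⁻¹ x = x + δ`; in group form `[α⁻¹, Yin] = f` is `α Yin α⁻¹ = α f⁻¹ α⁻¹ Yin`.
Verification: `α Y α⁻¹ = [u,ψ]⁻¹ α f⁻¹ α⁻¹ Y` gives `[α⁻¹, Y] = f (α⁻¹ [u,ψ] α) = f [tr δ, c₀]` with `c₀ = α⁻¹ ψ α = c⁻¹`,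
and `[tr δ, c₀] [tr δ, c₀⁻¹] = 1` because `c₀` and `tr δ c₀ (tr δ)⁻¹` have disjoint supports (contained in `|x| ≤ δ/4` and
`|x - δ| ≤ δ/4`, as `α⁻¹` maps `[-δ/4, δ/4]` into itself).  Sizes: `|c x - x| ≤ δ`, `|LD c| ≤ 4 δ`.
-/

set_option linter.unusedVariables false

open Set Filter Topology
open scoped commutatorElement
open Pool.Agent.helper35.FOL
open Pool.Agent.helper32.FolG (Q4 InDd wrd Fx)

namespace FG

private theorem inv_self (g : ℝ ≃o ℝ) (x : ℝ) : g⁻¹ (g x) = x := g.symm_apply_apply x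

private theorem self_inv (g : ℝ ≃o ℝ) (x : ℝ) : g (g⁻¹ x) = x := g.apply_symm_apply x

private theorem inv_eq {g : ℝ ≃o ℝ} {x y : ℝ} (h : g x = y) : g⁻¹ y = x := by
  rw [← h]
  exact inv_self g x

private theorem pres_I {δ : ℝ} (hδ : 0 < δ) {c : ℝ ≃o ℝ} (hc : ∀ x, δ / 4 ≤ |x| → c x = x) {x : ℝ}
    (hx : |x| < δ / 4) : |c x| < δ / 4 := by
  have hr : c (δ / 4) = δ / 4 := hc _ (by rw [abs_of_pos (by positivity)])
  have hl : c (-(δ / 4)) = -(δ / 4) := hc _ (by rw [abs_neg, abs_of_pos (by positivity)])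
  rw [abs_lt] at hx ⊢
  have h1 := c.strictMono hx.1
  have h2 := c.strictMono hx.2
  rw [hl] at h1
  rw [hr] at h2
  exact ⟨h1, h2⟩

theorem comm_inv_of_disjoint {δ : ℝ} (hδ : 0 < δ) {c : ℝ ≃o ℝ} (hc : ∀ x, δ / 4 ≤ |x| → c x = x) :
    ⁅tr δ, c⁻¹⁆ = ⁅tr δ, c⁆⁻¹ := by
  have hci : ∀ x, δ / 4 ≤ |x| → c⁻¹ x = x := fun x hx => inv_eq (hc x hx)
  rw [commutatorElement_inv, commutatorElement_def, commutatorElement_def, inv_inv]
  ext x
  change c⁻¹ ((tr δ)⁻¹ (c x)) + δ = c (c⁻¹ ((tr δ)⁻¹ x) + δ)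
  rw [tr_inv_apply, tr_inv_apply]
  by_cases hx : |x| < δ / 4
  · have h1 := abs_lt.1 (pres_I hδ hc hx)
    have h2 := abs_lt.1 hx
    rw [hci (c x - δ) (by rw [le_abs]; right; linarith [h1.2]),
      hci (x - δ) (by rw [le_abs]; right; linarith [h2.2]), sub_add_cancel, sub_add_cancel]
  · rw [not_lt] at hx
    rw [hc x hx]
    by_cases h1 : |x - δ| < δ / 4
    · have h2 := abs_lt.1 (pres_I hδ hci h1)
      rw [hc (c⁻¹ (x - δ) + δ) (by rw [le_abs]; left; linarith [h2.1])]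
    · rw [not_lt] at h1
      rw [hci (x - δ) h1, sub_add_cancel, hc x hx]

theorem att_cell {A : ℝ} (hA : 1 ≤ A) : ∃ A' δ₀ : ℝ, 1 ≤ A' ∧ 0 < δ₀ ∧ ∀ δ : ℝ, 0 < δ → δ ≤ δ₀ →
    ∃ η : ℝ, 0 < η ∧ ∀ {f βl βr : ℝ ≃o ℝ}, f ∈ Dd → βl ∈ Dd → βr ∈ Dd → Near η f →
      (∃ X : ℝ, ∀ x, X ≤ |x| → f x = x) → Near (A * δ) βl → Near (A * δ) βr →
      (∀ x ∈ Icc (-(17 / 2) : ℝ) (-(3 / 2)), ⁅tr δ, βl⁆ x = f x) →
      (∀ x ∈ Icc (3 / 2 : ℝ) (17 / 2), ⁅tr (-δ), βr⁆ x = f x) →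
      ∃ Q : Q4, InDd Q ∧ (∀ x, x ≤ -3 → Q 0 x = x + δ ∧ Q 1 x = βl x) ∧
        (∀ x, 3 ≤ x → Q 0 x = x - δ ∧ Q 1 x = βr x) ∧ (∀ x, Q 2 x = x + δ) ∧
        (∀ x, 1 ≤ |x| → Q 3 x = x) ∧ (∀ i, Near (A' * δ) (Q i)) ∧
        ∀ x ∈ Icc (-8 : ℝ) 8, wrd Q x = f x := by
  obtain ⟨C, hC, hYin⟩ := exists_Yin
  have hA₁ : 1 ≤ C * A := by nlinarith
  obtain ⟨δ₁, hδ₁, hδ₁', hcore⟩ := core_unit hA₁
  refine ⟨2 * (C * A) + 4, min δ₁ (1 / (16 * (C * A))), by linarith,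
    lt_min hδ₁ (by positivity), fun δ hδ hδ0 => ?_⟩
  have hδ2 : δ ≤ δ₁ := hδ0.trans (min_le_left _ _)
  have hδ3 : C * A * δ ≤ 1 / 16 := by
    have h1 : δ ≤ 1 / (16 * (C * A)) := hδ0.trans (min_le_right _ _)
    rw [le_div_iff₀ (by positivity)] at h1
    linarith
  have hδ100 : δ ≤ 1 / 100 := hδ2.trans hδ₁'
  have hAδ : A * δ ≤ C * A * δ := by
    have h1 : 0 ≤ A * δ := by positivity
    have h2 := mul_le_mul_of_nonneg_right hC h1
    linarith
  obtain ⟨α, hα, hlift, hαr, hαl, hαm, hαd, hαLD, hαLip⟩ := exists_alpha hδ (by linarith)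
  obtain ⟨η₀, hη₀, hmain⟩ := hcore δ hδ hδ2 hα hlift
  refine ⟨η₀ / 4, by positivity, ?_⟩
  intro f βl βr hf hβl hβr hfN hfX hβlN hβrN hcl hcr
  -- facts on alpha
  have hα0 : α 0 = 0 := hlift.zero
  have hαil : ∀ x, x ≤ -1 - δ → α⁻¹ x = x + δ := fun x hx =>
    inv_eq (by rw [hαl _ (by linarith)]; ring)
  have hαir : ∀ x, 1 + δ ≤ x → α⁻¹ x = x - δ := fun x hx =>
    inv_eq (by rw [hαr _ (by linarith)]; ring)
  have hexp1 : 1 ≤ Real.exp δ := Real.one_le_exp hδ.le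
  have hexp2 : Real.exp δ ≤ 1 + 2 * δ := by
    have h1 := Real.abs_exp_sub_one_le (x := δ) (by rw [abs_of_pos hδ]; linarith)
    rw [abs_of_pos hδ] at h1
    linarith [(abs_le.1 h1).2]
  have hexp3 : 1 - δ ≤ Real.exp (-δ) := by
    have := Real.add_one_le_exp (-δ)
    linarith
  have hexp4 : Real.exp δ * Real.exp (-δ) = 1 := by
    rw [← Real.exp_add, add_neg_cancel, Real.exp_zero]
  have hexp5 : Real.exp (-δ) ≤ 1 := Real.exp_le_one_iff.2 (by linarith)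
  have hαim : ∀ x, |x| ≤ 1 → α⁻¹ x = Real.exp (-δ) * x := fun x hx => by
    refine inv_eq ?_
    rw [hαm _ (by rw [abs_mul, abs_of_pos (Real.exp_pos _)]; nlinarith [Real.exp_pos (-δ)]),
      ← mul_assoc, hexp4, one_mul]
  -- the support of conjugates by alpha
  have hαge : ∀ x, δ / 4 ≤ |x| → δ / 4 ≤ |α x| := by
    intro x hx
    have h1 : α (δ / 4) = Real.exp δ * (δ / 4) := hαm _ (by
      rw [abs_of_pos (by positivity)]
      linarith)
    have h2 : α (-(δ / 4)) = Real.exp δ * (-(δ / 4)) := hαm _ (by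
      rw [abs_neg, abs_of_pos (by positivity)]
      linarith)
    rcases le_abs.1 hx with h3 | h3
    · have h4 := α.monotone h3
      rw [h1] at h4
      rw [le_abs]
      left
      nlinarith
    · have h4 := α.monotone (by linarith : x ≤ -(δ / 4))
      rw [h2] at h4
      rw [le_abs]
      right
      nlinarith
  -- u
  set u : ℝ ≃o ℝ := α * tr δ * α⁻¹ with hu
  have huD : u ∈ Dd := Dd.mul_mem (Dd.mul_mem hα (tr_mem δ)) (Dd.inv_mem hα)
  have huval : ∀ x, |x| < 1 / 2 → u x = x + Real.exp δ * δ := by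
    intro x hx
    have hx' := abs_lt.1 hx
    change α (α⁻¹ x + δ) = _
    rw [hαim x (by linarith)]
    have hb : |Real.exp (-δ) * x + δ| ≤ Real.exp (-δ) := by
      refine (abs_add_le _ _).trans ?_
      rw [abs_mul, abs_of_pos (Real.exp_pos _), abs_of_pos hδ]
      nlinarith [abs_nonneg x, Real.exp_pos (-δ)]
    rw [hαm _ hb, mul_add, ← mul_assoc, hexp4, one_mul]
  have huprop : ∀ x, |x| ≤ δ / 4 → δ / 2 ≤ u x ∧ u x ≤ 2 * δ ∧ LD u x = 0 := by
    intro x hx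
    have hx' := abs_le.1 hx
    have hxl : |x| < 1 / 2 := by linarith
    rw [huval x hxl]
    refine ⟨by nlinarith, by nlinarith, ?_⟩
    rw [← LD_tr (Real.exp δ * δ) x]
    refine LD_congr ?_
    have hopen : ∀ᶠ y in 𝓝 x, |y| < 1 / 2 :=
      (continuous_abs.tendsto x).eventually (gt_mem_nhds hxl)
    filter_upwards [hopen] with y hy
    rw [huval y hy, tr_apply]
  -- f₂
  have hfi : f⁻¹ ∈ Dd := Dd.inv_mem hf
  have hfN' : Near (η₀ / 4) f⁻¹ := Near.inv hf hfN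
  have hf₂D : α * f⁻¹ * α⁻¹ ∈ Dd := Dd.mul_mem (Dd.mul_mem hα hfi) (Dd.inv_mem hα)
  have hf₂N : Near η₀ (α * f⁻¹ * α⁻¹) := by
    have h1 := (conj_near (by linarith : δ ≤ 1) hα hfi hαLD hαLip hfN').1
    have h2 : 4 * (η₀ / 4) = η₀ := by ring
    rwa [h2] at h1
  -- Yin
  obtain ⟨Yin, hYinD, hYinN, hYin0, hYinr, hYinl⟩ := hYin (K := A * δ) hβl hβr
    (by linarith) hβlN hβrN
  have hbl : ∀ x, |βl x - x| ≤ 1 / 16 := fun x => (hβlN x).1.trans (by linarith)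
  have hbr : ∀ x, |βr x - x| ≤ 1 / 16 := fun x => (hβrN x).1.trans (by linarith)
  have hfY : ∀ x y, f x = y → f⁻¹ y = x := fun x y h => inv_eq h
  -- collars
  have hcl' : ∀ x, βl (x + δ) ∈ Icc (-(17 / 2) : ℝ) (-(3 / 2)) → f (βl (x + δ)) = βl x + δ := by
    intro x hx
    rw [← hcl _ hx]
    change βl ((tr δ)⁻¹ (βl⁻¹ (βl (x + δ)))) + δ = _
    rw [inv_self, tr_inv_apply, add_sub_cancel_right]
  have hcr' : ∀ x, βr (x - δ) ∈ Icc (3 / 2 : ℝ) (17 / 2) → f (βr (x - δ)) = βr x - δ := by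
    intro x hx
    rw [← hcr _ hx]
    change βr ((tr (-δ))⁻¹ (βr⁻¹ (βr (x - δ)))) + -δ = _
    rw [inv_self, tr_inv_apply]
    have : x - δ - -δ = x := by ring
    rw [this]
    ring
  have hcollar : ∃ ι : ℝ, 0 < ι ∧ ∀ x, |(|x| - 3)| < ι →
      α (Yin (α⁻¹ x)) = (1 : ℝ ≃o ℝ) ((α * f⁻¹ * α⁻¹) (Yin x)) := by
    refine ⟨1 / 4, by norm_num, fun x hx => ?_⟩
    change α (Yin (α⁻¹ x)) = α (f⁻¹ (α⁻¹ (Yin x)))
    congr 1
    rw [abs_lt] at hx
    rcases le_total 0 x with h0 | h0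
    · rw [abs_of_nonneg h0] at hx
      have h1 := abs_le.1 (hbr x)
      have h2 := abs_le.1 (hbr (x - δ))
      rw [hαir x (by linarith), hYinr x (by linarith), hYinr (x - δ) (by linarith),
        hαir (βr x) (by linarith)]
      exact (hfY _ _ (hcr' x ⟨by linarith, by linarith⟩)).symm
    · rw [abs_of_nonpos h0] at hx
      have h1 := abs_le.1 (hbl x)
      have h2 := abs_le.1 (hbl (x + δ))
      rw [hαil x (by linarith), hYinl x (by linarith), hYinl (x + δ) (by linarith),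
        hαil (βl x) (by linarith)]
      exact (hfY _ _ (hcl' x ⟨by linarith, by linarith⟩)).symm
  obtain ⟨Y, hY, ψ, hψ, hY0, hYo, hψo, hψN, hYeq, hYs⟩ := hmain huD huprop Dd.one_mem hf₂D
    (near_one hη₀.le) hf₂N ⟨0, fun x _ => rfl⟩ hYinD (hYin0 0 (by simp))
    (fun x _ => by
      have h1 := hYinN x
      have h2 : C * (A * δ) = C * A * δ := by ring
      rwa [h2] at h1) hcollar
  have hψi : ∀ x, δ / 4 ≤ |x| → ψ⁻¹ x = x := fun x hx => inv_eq (hψo x hx)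
  have hψiD : ψ⁻¹ ∈ Dd := Dd.inv_mem hψ
  set c₀ : ℝ ≃o ℝ := α⁻¹ * ψ * α with hc₀
  have hc₀s : ∀ x, δ / 4 ≤ |x| → c₀ x = x := by
    intro x hx
    change α⁻¹ (ψ (α x)) = x
    rw [hψo _ (hαge x hx), inv_self]
  set c : ℝ ≃o ℝ := α⁻¹ * ψ⁻¹ * α with hc
  have hcc₀ : c = c₀⁻¹ := by
    rw [hc, hc₀]
    group
  have hcD : c ∈ Dd := Dd.mul_mem (Dd.mul_mem (Dd.inv_mem hα) hψiD) hα
  have hcs : ∀ x, δ / 4 ≤ |x| → c x = x := by
    intro x hx
    change α⁻¹ (ψ⁻¹ (α x)) = x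
    rw [hψi _ (hαge x hx), inv_self]
  have hcN : Near (4 * δ) c := by
    have h1 := (Near.conj (m := α⁻¹) hψiD (Dd.inv_mem hα) (Near.inv hψ hψN) (b := δ) (by linarith)
      (fun x => by
        rw [LD_inv hα, abs_neg]
        have h2 := hαLD (α⁻¹ x)
        rw [abs_of_nonneg h2.1]
        exact h2.2)).1
    rw [inv_inv] at h1
    exact h1.mono (by linarith)
  have hαN : Near δ α := fun x => ⟨hαd x, by rw [abs_of_nonneg (hαLD x).1]; exact (hαLD x).2⟩
  have hCA : 0 ≤ C * A := by linarith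
  have hCAδ : 0 ≤ C * A * δ := by positivity
  refine ⟨![α⁻¹, Y, tr δ, c], ?_, ?_, ?_, ?_, ?_, ?_, ?_⟩
  · intro i
    fin_cases i
    · exact Dd.inv_mem hα
    · exact hY
    · exact tr_mem δ
    · exact hcD
  · intro x hx
    refine ⟨hαil x (by linarith), ?_⟩
    change Y x = _
    rw [hYo x (by rw [abs_of_nonpos (by linarith)]; linarith), hYinl x (by linarith)]
  · intro x hx
    refine ⟨hαir x (by linarith), ?_⟩
    change Y x = _
    rw [hYo x (by rw [abs_of_nonneg (by linarith)]; linarith), hYinr x (by linarith)]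
  · intro x
    rfl
  · intro x hx
    exact hcs x (by linarith)
  · intro i
    fin_cases i
    · exact (Near.inv hα hαN).mono (by linarith)
    · intro x
      exact ⟨(hYs x).1.trans (by linarith), (hYs x).2.trans (by linarith)⟩
    · exact (near_tr (t := δ) (by rw [abs_of_pos hδ])).mono (by linarith)
    · exact hcN.mono (by linarith)
  · intro x hx
    have hcomm : ⁅tr δ, c⁆ = ⁅tr δ, c₀⁆⁻¹ := by
      rw [hcc₀]
      exact comm_inv_of_disjoint hδ hc₀s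
    have hucomm : ⁅u, ψ⁆ = α * ⁅tr δ, c₀⁆ * α⁻¹ := by
      rw [hu, hc₀, commutatorElement_def, commutatorElement_def]
      group
    change (⁅α⁻¹, Y⁆ * ⁅tr δ, c⁆) x = f x
    rw [hcomm]
    obtain ⟨p, hp⟩ : ∃ p, ⁅tr δ, c₀⁆ p = x := ⟨_, self_inv _ x⟩
    have hp' : ⁅tr δ, c₀⁆⁻¹ x = p := inv_eq hp
    change ⁅α⁻¹, Y⁆ (⁅tr δ, c₀⁆⁻¹ x) = f x
    rw [hp']
    obtain ⟨w, hw⟩ : ∃ w, Y w = p := ⟨_, self_inv _ p⟩
    have hw' : Y⁻¹ p = w := inv_eq hw
    change α⁻¹ (Y (α⁻¹⁻¹ (Y⁻¹ p))) = f x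
    rw [hw', inv_inv]
    rcases le_or_gt (|α w|) 3 with h3 | h3
    · have h4 := hYeq (α w) h3
      rw [inv_self, hucomm] at h4
      have h5 : (α * ⁅tr δ, c₀⁆ * α⁻¹)⁻¹ = α * ⁅tr δ, c₀⁆⁻¹ * α⁻¹ := by group
      rw [h5] at h4
      change α (Y w) = α (⁅tr δ, c₀⁆⁻¹ (α⁻¹ (α (f⁻¹ (α⁻¹ (Y (α w))))))) at h4
      rw [inv_self] at h4
      have h6 := α.injective h4
      rw [hw] at h6
      have h7 : x = f⁻¹ (α⁻¹ (Y (α w))) := by
        rw [← hp, h6, self_inv]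
      rw [h7, self_inv]
    · rcases lt_abs.1 h3 with h4 | h4
      · have hα3 : α (3 - δ) = 3 := by
          rw [hαr _ (by linarith)]
          ring
        have hw3 : 3 - δ < w := by
          rw [← hα3] at h4
          exact α.lt_iff_lt.1 h4
        have hYw : Y w = βr w := by
          rw [hYo w (by rw [abs_of_nonneg (by linarith)]; linarith), hYinr w (by linarith)]
        have h5 := abs_le.1 (hbr w)
        have hpx : x = p := by
          rw [← hp]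
          exact (comm_support hδ hc₀s (by
            rw [← hw, hYw, abs_of_nonneg (by linarith)]
            linarith)).1
        have hαw : α w = w + δ := hαr w (by linarith)
        have h6 := abs_le.1 (hbr (w + δ))
        have hYα : Y (α w) = βr (w + δ) := by
          rw [hαw, hYo _ (by rw [abs_of_nonneg (by linarith)]; linarith), hYinr _ (by linarith)]
        have hxw : x = βr w := by rw [hpx, ← hw, hYw]
        rw [hYα, hαir _ (by linarith), hxw]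
        have h7 := hcr' (w + δ) (by
          rw [add_sub_cancel_right]
          rw [← hxw]
          exact ⟨by rw [hxw]; linarith, by linarith [hx.2]⟩)
        rw [add_sub_cancel_right] at h7
        exact h7.symm
      · have hα3 : α (-(3 - δ)) = -3 := by
          rw [hαl _ (by linarith)]
          ring
        have hw3 : w < -(3 - δ) := by
          have h4' : α w < -3 := by linarith
          rw [← hα3] at h4'
          exact α.lt_iff_lt.1 h4'
        have hYw : Y w = βl w := by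
          rw [hYo w (by rw [abs_of_nonpos (by linarith)]; linarith), hYinl w (by linarith)]
        have h5 := abs_le.1 (hbl w)
        have hpx : x = p := by
          rw [← hp]
          exact (comm_support hδ hc₀s (by
            rw [← hw, hYw, abs_of_nonpos (by linarith)]
            linarith)).1
        have hαw : α w = w - δ := hαl w (by linarith)
        have h6 := abs_le.1 (hbl (w - δ))
        have hYα : Y (α w) = βl (w - δ) := by
          rw [hαw, hYo _ (by rw [abs_of_nonpos (by linarith)]; linarith), hYinl _ (by linarith)]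
        have hxw : x = βl w := by rw [hpx, ← hw, hYw]
        rw [hYα, hαil _ (by linarith), hxw]
        have h7 := hcl' (w - δ) (by
          rw [sub_add_cancel]
          rw [← hxw]
          exact ⟨by linarith [hx.1], by rw [hxw]; linarith⟩)
        rw [sub_add_cancel] at h7
        exact h7.symm

end FG
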