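import Pool.Agent.helper97.FG.N8c
import Pool.Agent.helper97.FG.N0c

/-!
author: helper12
# N8d : cells on arbitrary intervals

Translate `rep_cell` (`σ = -1`) and `att_cell` (`σ = 1`) by the center `(a+b)/2` (`f` replaced by
`(tr c)⁻¹ f (tr c)`, `wrd_conj`, `Near.conj_tr`).
-/

set_option linter.unusedVariables false

open Set Filter Topology
open scoped commutatorElement
open Pool.Agent.helper35.FOL
open Pool.Agent.helper32.FolG (Q4 InDd wrd Fx)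

namespace FG

/-- a solution `Q` of `wrd Q = f` on `[a, b]`, in normal form with sign `σ` (`σ'`) at the left (right) end -/
structure Seg (δ K σ σ' a b : ℝ) (f βl βr : ℝ ≃o ℝ) (Q : Q4) : Prop where
  mem : InDd Q
  left : ∀ x, x ≤ a + 1 / 2 → Q 0 x = x + σ * δ ∧ Q 1 x = βl x ∧ Q 3 x = x
  right : ∀ x, b - 1 / 2 ≤ x → Q 0 x = x + σ' * δ ∧ Q 1 x = βr x ∧ Q 3 x = x
  two : ∀ x, Q 2 x = x + δ
  near : ∀ i, Near (K * δ) (Q i)
  eq : ∀ x ∈ Icc a b, wrd Q x = f x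

/-- the statement of the two cell lemmas -/
private def CellP (A A' δ η σ : ℝ) : Prop :=
  ∀ {f βl βr : ℝ ≃o ℝ}, f ∈ Dd → βl ∈ Dd → βr ∈ Dd → Near η f →
      (∃ X : ℝ, ∀ x, X ≤ |x| → f x = x) → Near (A * δ) βl → Near (A * δ) βr →
      (∀ x ∈ Icc (-(17 / 2) : ℝ) (-(3 / 2)), ⁅tr (σ * δ), βl⁆ x = f x) →
      (∀ x ∈ Icc (3 / 2 : ℝ) (17 / 2), ⁅tr (-σ * δ), βr⁆ x = f x) →
      ∃ Q : Q4, InDd Q ∧ (∀ x, x ≤ -3 → Q 0 x = x + σ * δ ∧ Q 1 x = βl x) ∧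
        (∀ x, 3 ≤ x → Q 0 x = x + -σ * δ ∧ Q 1 x = βr x) ∧ (∀ x, Q 2 x = x + δ) ∧
        (∀ x, 1 ≤ |x| → Q 3 x = x) ∧ (∀ i, Near (A' * δ) (Q i)) ∧
        ∀ x ∈ Icc (-8 : ℝ) 8, wrd Q x = f x

/-- conjugation with the translation by `-c` -/
private theorem conj_apply (c : ℝ) (g : ℝ ≃o ℝ) (x : ℝ) :
    (tr c * g * (tr c)⁻¹) x = g (x - c) + c := by
  change tr c (g ((tr c)⁻¹ x)) = _
  rw [tr_inv_apply, tr_apply]

private theorem comm_conj (c s : ℝ) (g : ℝ ≃o ℝ) :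
    ⁅tr s, tr c * g * (tr c)⁻¹⁆ = tr c * ⁅tr s, g⁆ * (tr c)⁻¹ := by
  have h : tr s = tr c * tr s * (tr c)⁻¹ := by
    rw [tr_mul, tr_inv, tr_mul]
    congr 1
    ring
  conv_lhs => rw [h]
  rw [commutatorElement_def, commutatorElement_def]
  group

private theorem cell_of {A A' δ η σ : ℝ} (h : CellP A A' δ η σ) {a b : ℝ} {f βl βr : ℝ ≃o ℝ}
    (hab : 8 ≤ b - a) (hab' : b - a ≤ 16) (hf : f ∈ Dd) (hl : βl ∈ Dd) (hr : βr ∈ Dd)
    (hn : Near η f) (hX : ∃ X : ℝ, ∀ x, X ≤ |x| → f x = x) (hnl : Near (A * δ) βl)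
    (hnr : Near (A * δ) βr) (hel : ∀ x ∈ Icc (a - 5) (a + 7), ⁅tr (σ * δ), βl⁆ x = f x)
    (her : ∀ x ∈ Icc (b - 7) (b + 5), ⁅tr (-σ * δ), βr⁆ x = f x) :
    ∃ Q : Q4, Seg δ A' σ (-σ) a b f βl βr Q := by
  set c : ℝ := (a + b) / 2 with hc
  have hm : ∀ {g : ℝ ≃o ℝ}, g ∈ Dd → tr (-c) * g * (tr (-c))⁻¹ ∈ Dd := fun hg =>
    Dd.mul_mem (Dd.mul_mem (tr_mem _) hg) (Dd.inv_mem (tr_mem _))
  obtain ⟨Q, h1, h2, h3, h4, h5, h6, h7⟩ := h (hm hf) (hm hl) (hm hr) (hn.conj_tr hf (-c))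
    (by
      obtain ⟨X, hX⟩ := hX
      refine ⟨X + |c|, fun x hx => ?_⟩
      have h8 : |x| - |c| ≤ |x - -c| := by
        have := abs_sub_abs_le_abs_sub x (-c)
        rwa [abs_neg] at this
      rw [conj_apply, hX _ (by linarith)]
      ring) (hnl.conj_tr hl (-c)) (hnr.conj_tr hr (-c))
    (by
      intro x hx
      rw [comm_conj, conj_apply, conj_apply, hel]
      obtain ⟨hx1, hx2⟩ := hx
      rw [hc]
      constructor <;> linarith)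
    (by
      intro x hx
      rw [comm_conj, conj_apply, conj_apply, her]
      obtain ⟨hx1, hx2⟩ := hx
      rw [hc]
      constructor <;> linarith)
  refine ⟨fun i => tr c * Q i * (tr c)⁻¹, ?_, ?_, ?_, ?_, ?_, ?_⟩
  · exact fun i => Dd.mul_mem (Dd.mul_mem (tr_mem _) (h1 i)) (Dd.inv_mem (tr_mem _))
  · intro x hx
    have hx3 : x - c ≤ -3 := by rw [hc]; linarith
    obtain ⟨e1, e2⟩ := h2 (x - c) hx3
    refine ⟨?_, ?_, ?_⟩
    · rw [conj_apply, e1]; ring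
    · rw [conj_apply, e2, conj_apply, sub_neg_eq_add, sub_add_cancel]
      ring
    · rw [conj_apply, h5]
      · ring
      · rw [abs_of_nonpos (by linarith)]; linarith
  · intro x hx
    have hx3 : 3 ≤ x - c := by rw [hc]; linarith
    obtain ⟨e1, e2⟩ := h3 (x - c) hx3
    refine ⟨?_, ?_, ?_⟩
    · rw [conj_apply, e1]; ring
    · rw [conj_apply, e2, conj_apply, sub_neg_eq_add, sub_add_cancel]
      ring
    · rw [conj_apply, h5]
      · ring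
      · rw [abs_of_nonneg (by linarith)]; linarith
  · intro x
    rw [conj_apply, h4]
    ring
  · exact fun i => (h6 i).conj_tr (h1 i) c
  · intro x hx
    rw [wrd_conj, conj_apply, h7, conj_apply, sub_neg_eq_add, sub_add_cancel]
    · ring
    · obtain ⟨hx1, hx2⟩ := hx
      rw [hc]
      constructor <;> linarith

theorem cell {A : ℝ} (hA : 1 ≤ A) : ∃ A' δ₀ : ℝ, 1 ≤ A' ∧ 0 < δ₀ ∧ ∀ δ : ℝ, 0 < δ → δ ≤ δ₀ →
    ∃ η : ℝ, 0 < η ∧ ∀ {σ a b : ℝ} {f βl βr : ℝ ≃o ℝ}, (σ = 1 ∨ σ = -1) → 8 ≤ b - a → b - a ≤ 16 →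
      f ∈ Dd → βl ∈ Dd → βr ∈ Dd → Near η f → (∃ X : ℝ, ∀ x, X ≤ |x| → f x = x) →
      Near (A * δ) βl → Near (A * δ) βr →
      (∀ x ∈ Icc (a - 5) (a + 7), ⁅tr (σ * δ), βl⁆ x = f x) →
      (∀ x ∈ Icc (b - 7) (b + 5), ⁅tr (-σ * δ), βr⁆ x = f x) →
      ∃ Q : Q4, Seg δ A' σ (-σ) a b f βl βr Q := by
  obtain ⟨A1, δ1, hA1, hδ1, H1⟩ := att_cell hA
  obtain ⟨A2, δ2, hA2, hδ2, H2⟩ := rep_cell hA
  refine ⟨max A1 A2, min δ1 δ2, hA1.trans (le_max_left _ _), lt_min hδ1 hδ2, fun δ hδ hδ0 => ?_⟩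
  obtain ⟨η1, hη1, K1⟩ := H1 δ hδ (hδ0.trans (min_le_left _ _))
  obtain ⟨η2, hη2, K2⟩ := H2 δ hδ (hδ0.trans (min_le_right _ _))
  have hm1 : A1 * δ ≤ max A1 A2 * δ := mul_le_mul_of_nonneg_right (le_max_left _ _) hδ.le
  have hm2 : A2 * δ ≤ max A1 A2 * δ := mul_le_mul_of_nonneg_right (le_max_right _ _) hδ.le
  have P1 : CellP A (max A1 A2) δ (min η1 η2) 1 := by
    intro f βl βr hf hl hr hn hX hnl hnr hel her
    obtain ⟨Q, h1, h2, h3, h4, h5, h6, h7⟩ := K1 hf hl hr (hn.mono (min_le_left _ _)) hX hnl hnr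
      (by simpa only [one_mul] using hel) (by simpa only [neg_mul, one_mul] using her)
    refine ⟨Q, h1, fun x hx => ?_, fun x hx => ?_, h4, h5, fun i => (h6 i).mono hm1, h7⟩
    · rw [one_mul]
      exact h2 x hx
    · rw [neg_mul, one_mul, ← sub_eq_add_neg]
      exact h3 x hx
  have P2 : CellP A (max A1 A2) δ (min η1 η2) (-1) := by
    intro f βl βr hf hl hr hn hX hnl hnr hel her
    obtain ⟨Q, h1, h2, h3, h4, h5, h6, h7⟩ := K2 hf hl hr (hn.mono (min_le_right _ _)) hX hnl hnr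
      (by simpa only [neg_mul, one_mul] using hel) (by simpa only [neg_neg, one_mul] using her)
    refine ⟨Q, h1, fun x hx => ?_, fun x hx => ?_, h4, h5, fun i => (h6 i).mono hm2, h7⟩
    · rw [neg_mul, one_mul, ← sub_eq_add_neg]
      exact h2 x hx
    · rw [neg_neg, one_mul]
      exact h3 x hx
  refine ⟨min η1 η2, lt_min hη1 hη2, ?_⟩
  intro σ a b f βl βr hσ hab hab' hf hl hr hn hX hnl hnr hel her
  rcases hσ with rfl | rfl
  · exact cell_of P1 hab hab' hf hl hr hn hX hnl hnr hel her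
  · exact cell_of P2 hab hab' hf hl hr hn hX hnl hnr hel her

end FG
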