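import Pool.Agent.helper97.FG.S0
import Pool.Agent.helper97.FG.B1b

/-!
# S1 : the slowly switched off map `Ych` is in `Dd` (proof: helper43)

`Ych t = t + χ(t) (Y t - t)`, derivative `(1-χ) + χ Y' + χ' (Y - t)`; positive if `|LD Y| ≤ 1/2`, `|Y - t| ≤ K` on
`[te - Λ, te]` and `Λ ≥ C (K + 1)`.
-/

set_option linter.unusedVariables false

open Set Filter Topology
open scoped commutatorElement
open Pool.Agent.helper35.FOL

namespace FG

variable {g h : ℝ ≃o ℝ} {w w₁ w₂ φ : ℝ → ℝ}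

private theorem S1_aux {s δ u v : ℝ} (hs0 : 0 ≤ s) (hs : s ≤ 1 / 2) (hδ0 : 0 ≤ δ)
    (hδ : δ ≤ 1 / 4) (hu1 : Real.exp (-s) ≤ u) (hu2 : u ≤ Real.exp s) (hv : |v| ≤ δ) :
    0 < u + v ∧ |Real.log (u + v)| ≤ s + 4 * δ := by
  obtain ⟨hv1, hv2⟩ := abs_le.1 hv
  have h1 : Real.exp (-(s + 4 * δ)) ≤ u + v := by
    have e1 : Real.exp (-(s + 4 * δ)) = Real.exp (-s) * Real.exp (-(4 * δ)) := by
      rw [← Real.exp_add]
      congr 1
      ring
    have e2 : Real.exp (-(4 * δ)) ≤ 1 - 2 * δ := by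
      rw [Real.exp_neg]
      have h3 : 1 + 4 * δ ≤ Real.exp (4 * δ) := by
        have := Real.add_one_le_exp (4 * δ)
        linarith
      calc (Real.exp (4 * δ))⁻¹ ≤ (1 + 4 * δ)⁻¹ := inv_anti₀ (by linarith) h3
        _ ≤ 1 - 2 * δ := by
          rw [inv_le_iff_one_le_mul₀ (by linarith)]
          nlinarith
    have e3 : 1 / 2 ≤ Real.exp (-s) := by
      have := Real.add_one_le_exp (-s)
      linarith
    have e4 := Real.exp_pos (-s)
    rw [e1]
    nlinarith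
  have h2 : u + v ≤ Real.exp (s + 4 * δ) := by
    have e1 : Real.exp (s + 4 * δ) = Real.exp s * Real.exp (4 * δ) := Real.exp_add _ _
    have e2 : 1 + 4 * δ ≤ Real.exp (4 * δ) := by
      have := Real.add_one_le_exp (4 * δ)
      linarith
    have e3 : 1 ≤ Real.exp s := Real.one_le_exp hs0
    rw [e1]
    nlinarith
  have h0 : 0 < u + v := (Real.exp_pos _).trans_le h1
  refine ⟨h0, ?_⟩
  rw [abs_le]
  constructor
  · rw [Real.le_log_iff_exp_le h0]
    exact h1
  · rw [Real.log_le_iff_le_exp h0]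
    exact h2

theorem exists_Ych : ∃ C : ℝ, 1 ≤ C ∧ ∀ (te Λ K s : ℝ) (Y : ℝ ≃o ℝ), Y ∈ Dd → 0 ≤ K → 0 ≤ s → s ≤ 1 / 2 →
    C * (K + 1) ≤ Λ → (∀ t ∈ Icc (te - Λ) te, |Y t - t| ≤ K ∧ |LD Y t| ≤ s) →
      Ych te Λ Y ∈ Dd ∧ (∀ t, Ych te Λ Y t = t + chi te Λ t * (Y t - t)) ∧
      (∀ t, te ≤ t → Ych te Λ Y t = Y t) ∧ (∀ t, t ≤ te - Λ → Ych te Λ Y t = t) ∧
      (∀ t ∈ Icc (te - Λ) te, |LD (Ych te Λ Y) t| ≤ s + C * K / Λ) ∧
      (∀ t, deriv (Ych te Λ Y) t = 1 + deriv (chi te Λ) t * (Y t - t) +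
        chi te Λ t * (deriv Y t - 1)) := by
  obtain ⟨C₀, hC₀, hb⟩ := exists_chi_bounds
  refine ⟨4 * C₀, by linarith, ?_⟩
  intro te Λ K s Y hY hK hs0 hs hΛ hYt
  have hΛ0 : 0 < Λ := by nlinarith
  obtain ⟨-, hb2, -⟩ := hb te Λ hΛ0
  have hdY : Differentiable ℝ Y := Dd_differentiable hY
  have hdc : Differentiable ℝ (chi te Λ) := (contDiff_chi te Λ).differentiable one_ne_zero
  obtain ⟨f, hf⟩ : ∃ f : ℝ → ℝ, f = fun t => t + chi te Λ t * (Y t - t) := ⟨_, rfl⟩
  have hcd : ContDiff ℝ 1 f := by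
    rw [hf]
    exact contDiff_id.add ((contDiff_chi te Λ).mul (hY.1.sub contDiff_id))
  have hder : ∀ t, deriv f t = 1 + deriv (chi te Λ) t * (Y t - t) +
      chi te Λ t * (deriv Y t - 1) := by
    intro t
    have h1 : HasDerivAt f (1 + (deriv (chi te Λ) t * (Y t - t) +
        chi te Λ t * (deriv Y t - 1))) t := by
      rw [hf]
      exact (hasDerivAt_id t).add ((hdc t).hasDerivAt.mul
        ((hdY t).hasDerivAt.sub (hasDerivAt_id t)))
    rw [h1.deriv]
    ring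
  have htopeq : ∀ t, te ≤ t → f t = Y t := by
    intro t ht
    rw [hf]
    simp only
    rw [chi_eq_one hΛ0 ht]
    ring
  have hboteq : ∀ t, t ≤ te - Λ → f t = t := by
    intro t ht
    rw [hf]
    simp only
    rw [chi_eq_zero hΛ0 ht]
    ring
  have hmid : ∀ t ∈ Icc (te - Λ) te, 0 < deriv f t ∧
      |Real.log (deriv f t)| ≤ s + 4 * (C₀ * K / Λ) := by
    intro t ht
    obtain ⟨y1, y2⟩ := hYt t ht
    obtain ⟨y3, y4⟩ := abs_le.1 y2
    have hc0 := chi_nonneg te Λ t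
    have hc1 := chi_le_one te Λ t
    have hYd : deriv Y t = Real.exp (LD Y t) := deriv_eq_exp hY t
    have e1 : Real.exp (-s) ≤ deriv Y t := by
      rw [hYd]
      exact Real.exp_le_exp.2 y3
    have e2 : deriv Y t ≤ Real.exp s := by
      rw [hYd]
      exact Real.exp_le_exp.2 y4
    have e3 : Real.exp (-s) ≤ 1 := Real.exp_le_one_iff.2 (by linarith)
    have e4 : 1 ≤ Real.exp s := Real.one_le_exp hs0
    have hδ0 : 0 ≤ C₀ * K / Λ := by positivity
    have hδ : C₀ * K / Λ ≤ 1 / 4 := by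
      rw [div_le_iff₀ hΛ0]
      nlinarith
    have hv : |deriv (chi te Λ) t * (Y t - t)| ≤ C₀ * K / Λ := by
      rw [abs_mul]
      calc |deriv (chi te Λ) t| * |Y t - t| ≤ C₀ / Λ * K :=
            mul_le_mul (hb2 t) y1 (abs_nonneg _) (by positivity)
        _ = C₀ * K / Λ := by ring
    have h5 := S1_aux (u := 1 + chi te Λ t * (deriv Y t - 1)) hs0 hs hδ0 hδ (by nlinarith)
      (by nlinarith) hv
    have h6 : deriv f t = 1 + chi te Λ t * (deriv Y t - 1) +
        deriv (chi te Λ) t * (Y t - t) := by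
      rw [hder]
      ring
    rw [h6]
    exact h5
  have hpos : ∀ t, 0 < deriv f t := by
    intro t
    rcases lt_or_ge t (te - Λ) with h1 | h1
    · have h2 : f =ᶠ[𝓝 t] fun x => x := by
        filter_upwards [Iio_mem_nhds h1] with x hx
        exact hboteq x (le_of_lt hx)
      rw [h2.deriv_eq]
      simp
    · rcases lt_or_ge te t with h3 | h3
      · have h2 : f =ᶠ[𝓝 t] Y := by
          filter_upwards [Ioi_mem_nhds h3] with x hx
          exact htopeq x (le_of_lt hx)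
        rw [h2.deriv_eq]
        exact hY.2 t
      · exact (hmid t ⟨h1, h3⟩).1
  have htop : Tendsto f atTop atTop := by
    refine Y.tendsto_atTop.congr' ?_
    filter_upwards [eventually_ge_atTop te] with x hx
    exact (htopeq x hx).symm
  have hbot : Tendsto f atBot atBot := by
    refine tendsto_id.congr' ?_
    filter_upwards [eventually_le_atBot (te - Λ)] with x hx
    exact (hboteq x hx).symm
  obtain ⟨g, hg, hgf, hgL⟩ := exists_Dd hcd hpos htop hbot
  have hYf : ∀ t, Ych te Λ Y t = f t := by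
    intro t
    have h1 : ∃ g : ℝ ≃o ℝ, ∀ x, g x = x + chi te Λ x * (Y x - x) :=
      ⟨g, fun x => by rw [hgf, hf]⟩
    show toIso (fun t => t + chi te Λ t * (Y t - t)) t = f t
    rw [toIso_apply h1, hf]
  have hYg : Ych te Λ Y = g := by
    ext t
    rw [hYf, hgf]
  have hcoe : (⇑(Ych te Λ Y)) = f := funext hYf
  refine ⟨hYg ▸ hg, fun t => ?_, fun t ht => ?_, fun t ht => ?_, fun t ht => ?_, fun t => ?_⟩
  · rw [hYf, hf]
  · rw [hYf, htopeq t ht]
  · rw [hYf, hboteq t ht]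
  · rw [hYg, hgL]
    refine (hmid t ht).2.trans (le_of_eq ?_)
    ring
  · rw [hcoe]
    exact hder t

end FG
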